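import Pool.Agent.Q284.PX.Stm

/-!
# Project PX3: prescribed Ramanujan exponents at all places.  Statements of the lemma jobs.

`B = BB = 1/25600`, `q = qq F ≥ 3`, `L = log d` (natural logarithm).  `V P z k` is coefficient `k` of the local
factor at `P` with the small parameter `z`; its coefficients with `k < K` are small, those with `k ≥ K` may be as
large as `|P|^(ϑ k)`, `ϑ < 1`.  Every local factor is split as low part (`k < K`) times high part `w`.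
-/

set_option autoImplicit false

open Finset Polynomial ComplexConjugate
open Pool.Agent.H341R2.Sharp (Mon)

namespace Pool.Agent.Q284.PX

open Pool.Agent.Q284.PS (BB qq CM NMul PD PI Sm Fam S_LOC1 S_LOC2)

/-! ## Numerical lemmas -/

/-- **NG** (mass of the product of the low and the high part).  Proof.  `c₁ = 30 L/K`, `K ≤ d`, so
`5/(2d) ≤ L/K`.  `u = 0`: `G n ≤ 5/2 B w2 n`.  `1 ≤ u < K`: zero.  `K ≤ u < n`, `i = n - u ≥ 1`: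
`q^((1-c₁) u) (5/2) B w2 i = (5/2) B w2 n q^(-(c₁ - 5/(2d)) u) (n/i)^(5/2) ≤ (5/2) B w2 n 3^(-29 L u/K) (1+u)^(5/2)`
(`n/i ≤ 1 + u`).  `u = n ≥ K`: `q^((1-c₁) n) = B w2 n · n^(5/2)/B · q^(-(c₁ - 5/(2d)) n) ≤
B w2 n · 25600 n^(5/2) 3^(-29 L n/K)`.  As `3^L ≥ e^L = d`: `3^(-29 L u/K) ≤ d^(-29 u/K)`.  For `u ≥ K`, with
`x = u/K ≥ 1`: `(1+u)^(5/2) ≤ (2 d x)^3` and `x^3 ≤ d^x`, so the term is `≤ (5/2) B w2 n 8 d^(3 + x - 29x) ≤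
20 B w2 n d^(-25 u/K)`; and `∑_{u ≥ K} d^(-25 u/K) ≤ d^(-24) ∑_u d^(-u/K) ≤ d^(-24) · 2K ≤ 2 d^(-23)` (geometric,
`1 - d^(-1/K) ≥ 1/(2K)` because `1 - e^(-t) ≥ t/2` for `0 ≤ t ≤ 1` and `L ≥ 1`; or simply: for `u ≥ K` bound
`d^(-25 u/K) ≤ d^(-20) d^(-5u/d) ≤ ...`, or use at most `n` terms when convenient). -/
def S_NG : Prop := ∃ d₀ : ℕ, ∀ d : ℕ, d₀ ≤ d → ∀ (q : ℝ) (K : ℕ), 3 ≤ q → 100 ≤ K → K ≤ d →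
  ∀ (W G : ℕ → ℝ) (n : ℕ), 1 ≤ n → W 0 = 1 → (∀ u : ℕ, 1 ≤ u → u < K → W u = 0) →
  (∀ u : ℕ, 0 ≤ W u) → (∀ u : ℕ, W u ≤ q ^ ((1 - 30 * Real.log d / K) * u)) → G 0 = 1 →
  (∀ i : ℕ, 1 ≤ i → i ≤ n → 0 ≤ G i ∧ G i ≤ 5 / 2 * BB * w2 q d i) →
  ∑ u ∈ range (n + 1), W u * G (n - u) ≤ 3 * BB * w2 q d n

/-- **NE** (mean squares).  Proof.  `i = n - u`, `1 ≤ u`; zero for `u < K`; `c₁ = 30 L/K`.
(A) `4 i ≥ n`: the term is `≤ q^((1-c₁) u) 2 B w2 i = 2 B w2 n q^(-(c₁ - 5/(2d)) u) (n/i)^(5/2) ≤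
64 B w2 n 3^(-29 L u/K)`.
(B) `1 ≤ i`, `4 i < n` (so `u ≥ 3n/4`, `20n/(9d) ≤ 3u/K ≤ L u/K`): `≤ 5 q^(20n/(9d)) q^((1-c₁) u) B w2 i ≤
5 B w2 n n^(5/2) 3^(-28 L u/K)`, `n ≤ 4u/3`.
(C) `i = 0`, `u = n`: `≤ 2 q^(20n/(9d)) q^((1-c₁) n) = B w2 n (2/B) n^(5/2) q^(20n/(9d) - (c₁ - 5/(2d)) n) ≤
B w2 n 51200 n^(5/2) 3^(-28 L n/K)`.
All have `u ≥ K`; so as in NG each term is at most `B w2 n d^(-20 u/K)` (`d` large), and the sum over `u ≥ K` is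
`≤ B w2 n/100`. -/
def S_NE : Prop := ∃ d₀ : ℕ, ∀ d : ℕ, d₀ ≤ d → ∀ (q : ℝ) (K : ℕ), 3 ≤ q → 100 ≤ K → K ≤ d →
  ∀ (W Y : ℕ → ℝ) (n : ℕ), 1 ≤ n → (∀ u : ℕ, 1 ≤ u → u < K → W u = 0) →
  (∀ u : ℕ, 0 ≤ W u) → (∀ u : ℕ, W u ≤ q ^ ((1 - 30 * Real.log d / K) * u)) → (∀ i : ℕ, 0 ≤ Y i) →
  (∀ i : ℕ, 1 ≤ i → i ≤ n → n ≤ 4 * i → Y i ≤ 2 * BB * w2 q d i) →
  (∀ i : ℕ, 1 ≤ i → i ≤ n → Y i ≤ 5 * q ^ ((20 : ℝ) * n / (9 * d)) * (BB * w2 q d i)) →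
  Y 0 ≤ 2 * q ^ ((20 : ℝ) * n / (9 * d)) →
  ∑ u ∈ Icc 1 n, W u * Y (n - u) ≤ 1 / 100 * BB * w2 q d n

/-! ## Local quotient and Dirichlet convolution -/

/-- **QUO** (the high part).  Proof.  `l k = v k` for `k < K`, `0` for `k ≥ K`; `l 0 = 1`.  Define recursively
`w k = v k - ∑_{i<k} w i l (k - i)`.  By induction `w k = 0` for `1 ≤ k < K` (`w k = v k - l k`), and if `l` is
`1, 0, 0, ...` then `w = v`.  Bound by strong induction: clear for `k < K`; for `k ≥ K`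
`|w k| ≤ 2 · 3^(k/64) ρ^k + (1/100) ∑_{i<k} 4^i ρ^i ≤ ρ^k (2 · 3^(k/64) + 4^k/300) ≤ 4^k ρ^k`
(`ρ ≥ 1`; `3^(k/64) ≤ 1.02^k`). -/
def S_QUO : Prop := ∀ (K : ℕ) (v : ℕ → ℝ), 1 ≤ K → v 0 = 1 → (∀ k : ℕ, 1 ≤ k → k < K → |v k| ≤ 1 / 100) →
  ∃ w : ℕ → ℝ, w 0 = 1 ∧ (∀ k : ℕ, 1 ≤ k → k < K → w k = 0) ∧
    (∀ k : ℕ, v k = ∑ i ∈ range (k + 1), w i * (if k - i < K then v (k - i) else 0)) ∧
    ((∀ k : ℕ, 1 ≤ k → k < K → v k = 0) → ∀ k : ℕ, w k = v k) ∧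
    ∀ ρ : ℝ, 1 ≤ ρ → (∀ k : ℕ, K ≤ k → |v k| ≤ 2 * (3 : ℝ) ^ ((k : ℝ) / 64) * ρ ^ k) →
      ∀ k : ℕ, |w k| ≤ 4 ^ k * ρ ^ k

/-- **CONV** (Dirichlet convolution).  Uses AFM (optional).  Proof.  For monic `f`:
`AF v f = ∑_{g ∣ f, g monic} AF w g * AF l (f / g)`: both sides are multiplicative on coprime monic `f`, and
for `f = P^k` the monic divisors are the `P^i`, `i ≤ k`, and the right side is `∑_i w P i l P (k-i) = v P k`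
(or: expand `∏_P ∑_{i ≤ e_P} w P i * l P (e_P - i)` as a sum over the exponent vectors `i_P ≤ e_P`, i.e. over the
monic divisors `g = ∏ P^(i_P)`; or: split off one prime after the other as in `S_P0R`, its proof is
`Pool/Agent/Q237/PX/P0R.lean`; only the primes of degree at most `n` matter).  Sum over `f ∈ Mon n`,
`f = g h`, `g ∈ Mon u`, `h ∈ Mon (n - u)`, `χ f = χ g χ h`; for the second claim use absolute values. -/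
def S_CONV : Prop := ∀ (F : Type) [Field F] [Fintype F] (v l w : F[X] → ℕ → ℝ),
  (∀ P : F[X], v P 0 = 1) → (∀ P : F[X], l P 0 = 1) → (∀ P : F[X], w P 0 = 1) →
  (∀ (P : F[X]) (k : ℕ), v P k = ∑ i ∈ range (k + 1), w P i * l P (k - i)) → ∀ n : ℕ,
  (∀ χ : F[X] → ℂ, CM χ → ef v χ n = ∑ u ∈ range (n + 1), ef w χ u * ef l χ (n - u)) ∧
  ∑ f ∈ Mon F n, |AF v f| ≤
    ∑ u ∈ range (n + 1), (∑ f ∈ Mon F u, |AF w f|) * ∑ f ∈ Mon F (n - u), |AF l f|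

/-! ## Masses -/

/-- **MW** (mass of the high part).  Uses REC, AFM, CPR (`|PI m| ≤ q^m/m`, so `≤ q^m`).  Proof.
`M u = ∑_{Mon u} |AF w f|`, `M 0 = 1`.  `Z j = ∑_{P ∈ PD j} |w P (j/deg P)|`.  Terms with `m = deg P`, `m k = j`,
are zero unless `k ≥ K`, i.e. `m ≤ j/K`; in particular `Z j = 0` for `j < K`.  If `20 m < 9 d` the term is
`≤ q^((1 - 40L/K) j)`; otherwise `k = j/m ≤ 20j/(9d)`, `4^k ≤ 3^(1.262 · 20 j/(9d)) ≤ q^(2.81 j/d)`.  There are at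
most `∑_{m ≤ j/K} q^m ≤ 2 q^(j/K)` such `P`.  So `Z j ≤ 2 q^((1 - 40 L/K + 4/K) j)` (`K ≤ d`).  By REC (with
`g = |AF w|`, `AF w (P^k) = w P k`): `u M u ≤ ∑_{j=K}^u j Z j M (u - j)`.  Induction: if `M (u') ≤ q^(σ u')` for
`u' < u`, `σ = 1 - 30 L/K`, then `u M u ≤ q^(σ u) ∑_{j ≥ K} 2 j q^(-(10 L - 4) j/K) ≤ q^(σ u)` since
`(10 L - 4) ≥ 9 L` (`L ≥ 4`), `q^(-9 L j/K) ≤ d^(-9 j/K)`, and `∑_{j ≥ K} 2 j d^(-9j/K) ≤ 1`: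
`j = x K`, `2 j ≤ 2 d x ≤ 2 d d^x`, so the sum is `≤ 2 d ∑_{j ≥ K} d^(-8 j/K) ≤ 2 d d^(-7) ∑_j d^(-j/K) ≤
2 d^(-6) · 2 K ≤ 1` (`1 - d^(-1/K) ≥ 1/(2K)`).  Vanishing for `1 ≤ u < K`: `AF w f` is zero for `f ≠ 1` unless
all exponents in `f` are `≥ K`, then `deg f ≥ K` (or from REC: `u M u ≤ 0`). -/
def S_MW : Prop := ∃ d₀ : ℕ, ∀ d : ℕ, d₀ ≤ d → ∀ (F : Type) [Field F] [Fintype F], 3 ≤ Fintype.card F →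
  ∀ K : ℕ, 100 ≤ K → K ≤ d → ∀ w : F[X] → ℕ → ℝ, (∀ P : F[X], w P 0 = 1) →
  (∀ (P : F[X]) (k : ℕ), 1 ≤ k → k < K → w P k = 0) →
  (∀ (P : F[X]) (k : ℕ), |w P k| ≤ 4 ^ k * qq F ^ ((1 - 40 * Real.log d / K) * ((k : ℝ) * P.natDegree))) →
  (∀ (P : F[X]) (k : ℕ), 1 ≤ P.natDegree → 20 * P.natDegree < 9 * d →
    |w P k| ≤ qq F ^ ((1 - 40 * Real.log d / K) * ((k : ℝ) * P.natDegree))) →
  ∀ u : ℕ, ∑ f ∈ Mon F u, |AF w f| ≤ qq F ^ ((1 - 30 * Real.log d / K) * u) ∧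
    (1 ≤ u → u < K → ∑ f ∈ Mon F u, |AF w f| = 0)

/-- the three bounds for the prime powers of degree `j` -/
def ZB {F : Type} [Field F] [Fintype F] (d : ℕ) (v : F[X] → ℕ → ℝ) (j : ℕ) : Prop :=
  ∑ P ∈ PD F j, |v P (j / P.natDegree)| ≤ 2 * BB * w2 (qq F) d j ∧
  ∑ P ∈ PD F j, v P (j / P.natDegree) ^ 2 ≤ 2 * BB ^ 2 * om2 (qq F) d j ∧
  ∑ P ∈ (PD F j).filter (fun P => P.natDegree < j), v P (j / P.natDegree) ^ 2 ≤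
    BB ^ 2 * om2 (qq F) d j / (10 ^ 6 * j)

/-- the three masses in degree `n` -/
def GB {F : Type} [Field F] [Fintype F] (d : ℕ) (v : F[X] → ℕ → ℝ) (n : ℕ) : Prop :=
  ∑ f ∈ Mon F n, |AF v f| ≤ 5 / 2 * BB * w2 (qq F) d n ∧
  ∑ f ∈ Mon F n, AF v f ^ 2 ≤ 5 / 2 * BB ^ 2 * om2 (qq F) d n ∧
  ∑ f ∈ Sm F n, AF v f ^ 2 ≤ 1 / 10 ^ 4 * (BB ^ 2 * om2 (qq F) d n / n)

/-- **GBl** (masses of the low part; the proof of `Pool/Agent/Q251/PX/GBa.lean` with `Lo h P₀ g0 a` replaced by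
`v`, `gb_core` there is already general).  Uses REC, GI, T2, WC2, AFM. -/
def S_GBl : Prop := ∃ d₀ : ℕ, ∀ d : ℕ, d₀ ≤ d → ∀ (F : Type) [Field F] [Fintype F],
  3 ≤ Fintype.card F → ∀ (N : ℕ) (v : F[X] → ℕ → ℝ), (∀ P : F[X], v P 0 = 1) →
  (∀ j : ℕ, 1 ≤ j → j ≤ N → ZB d v j) → ∀ n : ℕ, 1 ≤ n → n ≤ N → GB d v n

/-- **EBl** (mean squares of the low part; the proof of `Pool/Agent/Q225/PX/EBa.lean` with `Lo h P₀ g0 a`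
replaced by `v`; `sv v = sf a` in the degrees `≤ N` since `v P 1 = a P`).  Uses NO, UP, DUAL, DEC2, WC2 (GBa is
replaced by the hypothesis `GB d v n`). -/
def S_EBl : Prop := ∃ d₀ D₂ : ℕ, ∀ d : ℕ, d₀ ≤ d → ∀ (F : Type) [Field F] [Fintype F],
  ringChar F ≠ 2 → ∀ (N : ℕ) (a : F[X] → ℝ) (v : F[X] → ℕ → ℝ), Good F d N 0 a → (∀ P : F[X], v P 0 = 1) →
  (∀ n : ℕ, n ≤ N → ∀ P ∈ PI F n, v P 1 = a P) → (∀ n : ℕ, 1 ≤ n → n ≤ N → GB d v n) →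
  ∀ n : ℕ, 1 ≤ n → n ≤ N →
  ∀ (R : ℕ) (ι : Type) [Fintype ι] (χ : ι → F[X] → ℂ), Fam R χ → D₂ * (R + 1) ≤ n →
  Real.sqrt (∑ i, ‖sf a (χ i) n‖ ^ 2) ≤ 3 / 2 * BB * w2 (qq F) d n ∧
  Real.sqrt (∑ i, ‖ef v (χ i) n - sf a (χ i) n‖ ^ 2) ≤ 1 / 50 * BB * w2 (qq F) d n

/-- **EBg** (mean squares of the product).  Uses EBl and NE.  `D₃ = 4 D₂ + 4`.  Proof (as
`Pool/Agent/Q277/PX/EBb.lean`, same tools).  `W u = ∑_{Mon u} |AF w f|`, `|ef w χ u| ≤ W u` (`|χ| ≤ 1`).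
`ef v χ n - ef l χ n = ∑_{u=1}^n ef w χ u * ef l χ (n - u)` (`ef w χ 0 = 1`).  Triangle inequality in `ℓ²(ι)`:
`(∑_i |ef v χ_i n - ef l χ_i n|²)^(1/2) ≤ ∑_{u=1}^n W u * Y (n - u)`, `Y j = (∑_i |ef l χ_i j|²)^(1/2)`.
For `4 j ≥ n`, `j ≥ 1`: `D₂ (R+1) ≤ n/4 ≤ j`, so by EBl `Y j ≤ (3/2 + 1/50) B w2 j ≤ 2 B w2 j`.  For all `j ≥ 1`:
`Y j ≤ |ι|^(1/2) (5/2) B w2 j ≤ 2 q^(20n/(9d)) (5/2) B w2 j`; `Y 0 = |ι|^(1/2) ≤ 2 q^(20n/(9d))`.  NE and EBl: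
`1/50 + 1/100 ≤ 1/20`. -/
def S_EBg : Prop := ∃ d₀ D₃ : ℕ, ∀ d : ℕ, d₀ ≤ d → ∀ (F : Type) [Field F] [Fintype F],
  ringChar F ≠ 2 → ∀ K : ℕ, 100 ≤ K → K ≤ d → ∀ (N : ℕ) (a : F[X] → ℝ) (v l w : F[X] → ℕ → ℝ),
  Good F d N 0 a → (∀ P : F[X], l P 0 = 1) → (∀ P : F[X], w P 0 = 1) →
  (∀ n : ℕ, n ≤ N → ∀ P ∈ PI F n, l P 1 = a P) → (∀ n : ℕ, 1 ≤ n → n ≤ N → GB d l n) →
  (∀ u : ℕ, ∑ f ∈ Mon F u, |AF w f| ≤ qq F ^ ((1 - 30 * Real.log d / K) * u) ∧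
    (1 ≤ u → u < K → ∑ f ∈ Mon F u, |AF w f| = 0)) →
  (∀ (n : ℕ) (χ : F[X] → ℂ), CM χ → ef v χ n = ∑ u ∈ range (n + 1), ef w χ u * ef l χ (n - u)) →
  ∀ n : ℕ, 1 ≤ n → n ≤ N →
  ∀ (R : ℕ) (ι : Type) [Fintype ι] (χ : ι → F[X] → ℂ), Fam R χ → D₃ * (R + 1) ≤ n →
  (Fintype.card ι : ℝ) ≤ 4 * qq F ^ ((40 : ℝ) * n / (9 * d)) →
  Real.sqrt (∑ i, ‖ef v (χ i) n - sf a (χ i) n‖ ^ 2) ≤ 1 / 20 * BB * w2 (qq F) d n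

/-! ## The local families -/

/-- **H1F** (standard `L`-functions).  Uses LOC1, LOC2 (with `d = g`).  Proof.  `y ≥ 1`; for `|z| ≤ 1/100` let
`b = z/(y + 1/y)`, `|b| ≤ 1/200`, `y |b| ≤ |z|`.  LOC2: `1 - b X - s b X^(g-1) + s X^g = ∏ (1 - β_j X)`,
`s = (-1)^g`, `|β_j| = 1`, `∏ β = 1`, the polynomial is real, so the multiset of the `β_j` is closed under
conjugation.  `η_k = hh g b k` (coefficients of the inverse) is real.  `v y z k = ∑_{i ≤ k} η_i y^i η_(k-i) y^(-(k-i))`,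
the coefficients of `∏_j (1 - y β_j w)⁻¹ (1 - β_j w/y)⁻¹` (for `|z| > 1/100`: `v y z k = 1` if `k = 0`, else `0`).
`k = 1`: `b (y + 1/y) = z`.  `2 ≤ k < g - 1`: `η_i = b^i` for `i ≤ k ≤ g - 2`, so `|v| ≤ (k+1) |b|^k y^k ≤
(k+1) |z|^k ≤ 3 z²` (`(k+1) |z|^(k-2) ≤ 3`).  All `k`: `|η_i| ≤ 3^(i/g)`, `y^(2i-k) ≤ y^k`:
`|v| ≤ (k+1) 3^(k/g) y^k`, which is `≤ 2 · 3^(k/64) y^k` for `k ≥ g - 1`, `g ≥ g₀` (for `k < g - 1` clear from the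
above).  `z = 0`: `b = 0`, the inverse of `1 + s X^g` has coefficients `±1` at the multiples of `g`, the others are
zero, so `v y 0 k = 0` unless `k = g m`, and then `|v| ≤ (m + 1) y^k ≤ 3^m y^k`.  Convergence: for `y |w| < 1` all
geometric series `(1 - y β_j w)⁻¹`, `(1 - β_j w/y)⁻¹` converge absolutely; the Cauchy product of the series has the
coefficients `v` (equality of formal power series: the inverse of a product; compare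
`Pool/Agent/Q237/PX/LR2.lean` and `Pool/Agent/Q261/PS/LSER.lean`). -/
def S_H1F : Prop := ∃ g₀ : ℕ, ∀ g : ℕ, g₀ ≤ g → ∃ v : ℝ → ℝ → ℕ → ℝ, ∀ y : ℝ, 1 ≤ y →
  (∀ z : ℝ, v y z 0 = 1) ∧ (∀ z : ℝ, |z| ≤ 1 / 100 → v y z 1 = z) ∧
  (∀ (z : ℝ) (k : ℕ), |z| ≤ 1 / 100 → 2 ≤ k → k < g - 1 → |v y z k| ≤ 10 * z ^ 2) ∧
  (∀ (z : ℝ) (k : ℕ), |z| ≤ 1 / 100 → |v y z k| ≤ 2 * (3 : ℝ) ^ ((k : ℝ) / 64) * y ^ k) ∧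
  (∀ k : ℕ, |v y 0 k| ≤ (3 : ℝ) ^ ((k : ℝ) / g) * y ^ k) ∧
  ∀ z : ℝ, |z| ≤ 1 / 100 → ∃ β : Fin g → ℂ, (∀ j, ‖β j‖ = 1) ∧ ∏ j, β j = 1 ∧
    (∀ w : ℂ, ∏ j, (1 - conj (β j) * w) = ∏ j, (1 - β j * w)) ∧
    ∀ w : ℂ, y * ‖w‖ < 1 → HasSum (fun k : ℕ => (v y z k : ℂ) * w ^ k)
      (∏ j, ((1 - (y : ℂ) * β j * w)⁻¹ * (1 - ((y⁻¹ : ℝ) : ℂ) * β j * w)⁻¹))

/-- the Satake parameters `1`, `y β_j`, `y⁻¹ β_j` -/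
noncomputable def al2 {g : ℕ} (y : ℝ) (β : Fin g → ℂ) : Unit ⊕ Fin g ⊕ Fin g → ℂ :=
  Sum.elim (fun _ => 1) (Sum.elim (fun j => (y : ℂ) * β j) (fun j => ((y⁻¹ : ℝ) : ℂ) * β j))

/-- **H2F** (Rankin-Selberg).  Uses LOC2 (with `d = g`).  Proof (as `S_LR1`, proof in `Pool/Agent/Q95/PX/LR1.lean`,
`LR1a.lean`).  `y ≥ 1`.  For `|z| ≤ 1/100` let `x = sqrt (1 + z) - 1`, `|x| ≤ 1/150`, `2x + x² = z`, `|z| ≥ 1.99 |x|`;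
`b = x/(y + 1/y)`, `y |b| ≤ |x|`.  LOC2: `1 - b X - s b X^(g-1) + s X^g = ∏ (1 - β_j X)`, closed under conjugation,
`π_k = ∑ β_j^k` is real, `|π_k| ≤ g`, `π_k = b^k` for `1 ≤ k ≤ g - 2`.  The Satake parameters `α = al2 y β` have the
power sums `p_k = 1 + (y^k + y^(-k)) π_k`, real, and are closed under conjugation, so
`(1 - w) ∏_{i,j} (1 - α_i conj(α_j) w)⁻¹ = exp (∑_k b_k w^k/k)`, `b_k = p_k² - 1 = 2 (y^k + y^(-k)) π_k +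
(y^k + y^(-k))² π_k²`; the coefficients `v y z k` of the power series satisfy `v y z 0 = 1`,
`k v_k = ∑_{i=1}^k b_i v_(k-i)`.  `b_1 = 2x + x² = z = v_1`.  For `i ≤ g - 2`: `|(y^i + y^(-i)) b^i| ≤ 2 |x|^i`,
`|b_i| ≤ 4 |x|^i + 4 |x|^(2i) ≤ 8 |x|^i`.  So for `2 ≤ k < g - 1`: `v_k` is majorised by coefficient `k` of
`(1 - |x| X)^(-8)`, `C(k+7,7) |x|^k ≤ 36 x² ≤ 10 z²` (`z² ≥ 3.96 x²`; for `k ≥ 3` `C(k+7,7) |x|^(k-2) ≤ 1.2`).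
All `k`: for `i ≥ g - 1`: `|b_i| ≤ 4 g y^i + 4 g² y^(2i) ≤ 8 g² y^(2i)`.  With `ρ = 3^(1/64) y²`:
`|v_k| ρ^(-k) ≤ exp (∑_i |b_i| ρ^(-i)/i)`, `∑_{i ≤ g-2} 8 |x|^i/i ≤ 1/10`, `∑_{i ≥ g-1} 8 g² 3^(-i/64)/i ≤ 1/10` for
`g ≥ g₀`: so `|v_k| ≤ 2 ρ^k`.  `z = 0`: `x = b = 0`, `π_k = 0` unless `g ∣ k`, and then `|π_k| = g`; so `b_k = 0` unless
`k = g m`, and then `|b_k| ≤ 4 g y^k + 4 g² y^(2k) ≤ 8 g² y^(2k)`, `|b_(gm)|/(gm) ≤ 8 g y^(2gm)/m`: majorant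
`(1 - y^(2g) X^g)^(-8g)`, coefficient of `X^(gm)`: `C(m + 8g - 1, m) y^(2gm) ≤ (8g)^m y^(2gm)`.
Convergence for `y² |w| < 1`: the product has `(2g+1)² - 1` factors `(1 - γ w)⁻¹` (the factor `(1 - w)⁻¹` cancels
`1 - w`) with `|γ| ≤ y²`, Cauchy product of absolutely convergent geometric series. -/
def S_H2F : Prop := ∃ g₀ : ℕ, ∀ g : ℕ, g₀ ≤ g → ∃ v : ℝ → ℝ → ℕ → ℝ, ∀ y : ℝ, 1 ≤ y →
  (∀ z : ℝ, v y z 0 = 1) ∧ (∀ z : ℝ, |z| ≤ 1 / 100 → v y z 1 = z) ∧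
  (∀ (z : ℝ) (k : ℕ), |z| ≤ 1 / 100 → 2 ≤ k → k < g - 1 → |v y z k| ≤ 10 * z ^ 2) ∧
  (∀ (z : ℝ) (k : ℕ), |z| ≤ 1 / 100 → |v y z k| ≤ 2 * (3 : ℝ) ^ ((k : ℝ) / 64) * y ^ (2 * k)) ∧
  (∀ k : ℕ, |v y 0 k| ≤ (8 * (g : ℝ)) ^ ((k : ℝ) / g) * y ^ (2 * k)) ∧
  ∀ z : ℝ, |z| ≤ 1 / 100 → ∃ β : Fin g → ℂ, (∀ j, ‖β j‖ = 1) ∧ ∏ j, β j = 1 ∧
    (∀ w : ℂ, ∏ j, (1 - conj (β j) * w) = ∏ j, (1 - β j * w)) ∧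
    ∀ w : ℂ, y ^ 2 * ‖w‖ < 1 → HasSum (fun k : ℕ => (v y z k : ℂ) * w ^ k)
      ((1 - w) * ∏ i, ∏ j, (1 - al2 y β i * conj (al2 y β j) * w)⁻¹)

end Pool.Agent.Q284.PX
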