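import Pool.Agent.Q284.PX.Defs
import Pool.Agent.Q284.PS.Stm2

/-!
# Project PX: statements of the lemma jobs, part 1 (the engine)

`B = BB = 1/25600`, `q = qq F ≥ 3`, `u = n - i`.  Many of the lemmas are variants of lemmas of project PS
(`Pool/Agent/Q284/PS/Stm2.lean`, proofs in `Pool/Agent/Q24/PS`, `Q277/PS`, `Q149/PS`, `Q68/PS`).
-/

set_option autoImplicit false

open Finset Polynomial ComplexConjugate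
open Pool.Agent.H341R2.Sharp (Mon)

namespace Pool.Agent.Q284.PX

open Pool.Agent.Q284.PS

/-- **WC2** (convolution of the weights).  Proof.  `w2 i * w2 (n-i) = w2 n * (n/(i (n-i)))^(5/2)`, the same
for `om2` with exponent `4`.  For `m = min i (n-i)`: `i (n-i)/n ≥ m/2`, every `m` occurs at most twice:
`∑ ≤ 2 · 2^(5/2) · ∑ m^(-5/2) ≤ 2 · 5.657 · 1.3415 ≤ 16`, `2 · 2^4 · ζ(4) ≤ 35` (compare
`Pool.Agent.Q277.PS.WC`, the proof for the old weights). -/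
def S_WC2 : Prop := ∀ (q : ℝ) (d n : ℕ), 3 ≤ q → 1 ≤ d →
  ∑ i ∈ Icc 1 (n - 1), w2 q d i * w2 q d (n - i) ≤ 16 * w2 q d n ∧
  ∑ i ∈ Icc 1 (n - 1), om2 q d i * om2 q d (n - i) ≤ 35 * om2 q d n

/-- **AFM** (multiplicativity of `AF`).  Immediate from `normalizedFactors_mul`, coprimality and
`v P 0 = 1` (compare `Q277.PS.aF_mul` and `t_MUL` in `Q284/PS/Small.lean`); `NMul` from the first points by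
taking absolute values, resp. squares. -/
def S_AFM : Prop := ∀ (F : Type) [Field F] (v : F[X] → ℕ → ℝ), (∀ P : F[X], v P 0 = 1) →
  AF v (1 : F[X]) = 1 ∧
  (∀ f g : F[X], f.Monic → g.Monic → IsCoprime f g → AF v (f * g) = AF v f * AF v g) ∧
  (∀ (P : F[X]) (k : ℕ), P.Monic → Irreducible P → AF v (P ^ k) = v P k) ∧
  NMul (fun f : F[X] => |AF v f|) ∧ NMul (fun f : F[X] => AF v f ^ 2)

/-- **DEC2** (decomposition by the largest prime factor).  Uses AFM.  Proof (as `Q277.PS.DEC`).  If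
`f ∈ Mon n` has a prime factor `P` with `2 deg P > n`, it is unique, `f = g P` with `g ∈ Mon i`,
`i = n - deg P`, `2 i < n`; `P` does not divide `g` (degree), `AF(g P) = AF(g) v(P, 1)`, and conversely. -/
def S_DEC2 : Prop := ∀ (F : Type) [Field F] [Fintype F] (v : F[X] → ℕ → ℝ) (χ : F[X] → ℂ),
  (∀ P : F[X], v P 0 = 1) → CM χ → ∀ n : ℕ, 1 ≤ n → ef v χ n =
    ∑ i ∈ (range n).filter (fun i => 2 * i < n), ef v χ i * sv v χ (n - i) +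
    ∑ f ∈ Sm F n, (AF v f : ℂ) * χ f

/-- **P0R** (the special prime split off).  Uses AFM.  Proof.  Let `m = deg P₀`.  Every `f ∈ Mon n` is uniquely
`P₀^k f'`, `f' ∈ Mon (n - k m)` not divisible by `P₀`; `AF (Lo g)(f) = g k * AF (Lo g0)(f')` (the prime factors of
`f'` are different from `P₀`, where `Lo g` and `Lo g0` agree), `χ f = χ(P₀)^k χ(f')`; and
`AF (Lo g0)(f') = 0` if `P₀` divides `f'` (`g0 k = 0` for `k ≥ 1`), so the condition `P₀ ∤ f'` may be dropped. -/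
def S_P0R : Prop := ∀ (F : Type) [Field F] [Fintype F] (h : ℝ → ℕ → ℝ) (P₀ : F[X]) (g : ℕ → ℝ)
  (a : F[X] → ℝ), (∀ z : ℝ, h z 0 = 1) → P₀.Monic → Irreducible P₀ → g 0 = 1 → ∀ n : ℕ,
  (∀ χ : F[X] → ℂ, CM χ → ef (Lo h P₀ g a) χ n =
    ∑ k ∈ (range (n + 1)).filter (fun k => k * P₀.natDegree ≤ n),
      (g k : ℂ) * χ P₀ ^ k * ef (Lo h P₀ g0 a) χ (n - k * P₀.natDegree)) ∧
  ∑ f ∈ Mon F n, |AF (Lo h P₀ g a) f| = ∑ k ∈ (range (n + 1)).filter (fun k => k * P₀.natDegree ≤ n),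
    |g k| * ∑ f ∈ Mon F (n - k * P₀.natDegree), |AF (Lo h P₀ g0 a) f|

/-- **ZB2** (mass of the prime powers, no special prime).  Uses CPR (so `|PI m| ≤ q^m/m`).  `d₀ = 1000` is
enough.  Proof.  Terms with `deg P = j` (`k = 1`, `h z 1 = z`; at `P₀` it is `0`):
`∑ |a P| ≤ (q^j/j)^(1/2) (∑ a²)^(1/2) ≤ (q^j/j)^(1/2) B (om2 j)^(1/2) = B w2 j`, and `∑ a² ≤ B² om2 j`.
Terms with `deg P = m < j`, `k = j/m ≥ 2`.  (i) If `k < K`: `|h| ≤ 10 a²`, so `h² ≤ 100 a⁴ ≤ a²/100`; these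
are zero if `20 m < 9 d`, and `∑_{PI m} ≤ 10 B² om2 m ≤ 10 B² q^(j/2)`, squares `≤ B² om2 m / 100 ≤
B² q^((1-5/d) j/2)/100` (`m ≤ j/2`), only if `j ≥ 2 m ≥ 9d/10 ≥ 900`.  (ii) If `k ≥ K ≥ 100` then `j ≥ 100`,
`m ≤ j/100`, at most `q^m` polynomials, `|h| ≤ 2 · 3^(j/64)`: `≤ 2 q^(j/64 + j/100)`, squares
`≤ 4 q^(j/32 + j/100)`.  There are at most `j` values of `m`.  So the sums over `deg P < j` are zero for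
`j < 100`, and for `j ≥ 100` at most `2 j q^(j/64 + j/100)` plus (only if `j ≥ 900`) `10 j B² q^(j/2)`, which
is `≤ B w2 j` (`w2 j = q^((1 - 5/(2d)) j)/j^(5/2)`; e.g. `4 j^(7/2) 25600 q^(0.0257 j) ≤ q^(0.99 j)` for
`j ≥ 100`, `q ≥ 3`); squares: at most `4 j q^(j/32 + j/100)` plus (if `j ≥ 900`)
`j B² q^((1-5/d) j/2)/100`, which is `≤ B² om2 j/(10^6 j)` (`8·10^6 j^6 B^(-2) q^(0.0413 j) ≤ q^(0.99 j)` for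
`j ≥ 100`: at `j = 100`, `q = 3` the left side is `≤ 6·10^29`, the right side `≥ 10^47`;
`2·10^4 j^6 ≤ q^(0.49 j)` for `j ≥ 900`). -/
def S_ZB2 : Prop := ∃ d₀ : ℕ, ∀ d : ℕ, d₀ ≤ d → ∀ (F : Type) [Field F] [Fintype F],
  3 ≤ Fintype.card F → ∀ (K : ℕ) (h : ℝ → ℕ → ℝ), 100 ≤ K → LFam K h → ∀ (N : ℕ) (P₀ : F[X]) (a : F[X] → ℝ),
  Good F d N P₀ a → ∀ j : ℕ, 1 ≤ j → j ≤ N →
  ∑ P ∈ PD F j, |Lo h P₀ g0 a P (j / P.natDegree)| ≤ 2 * BB * w2 (qq F) d j ∧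
  ∑ P ∈ PD F j, Lo h P₀ g0 a P (j / P.natDegree) ^ 2 ≤ 2 * BB ^ 2 * om2 (qq F) d j ∧
  ∑ P ∈ (PD F j).filter (fun P => P.natDegree < j), Lo h P₀ g0 a P (j / P.natDegree) ^ 2 ≤
    BB ^ 2 * om2 (qq F) d j / (10 ^ 6 * j)

/-- **GBa** (masses, no special prime).  Uses REC, GI, T2 (project PS), WC2, ZB2, AFM (`g = |AF v|`,
`g = (AF v)²`, `v = Lo h P₀ g0 a`; `AF v (P^k) = v P k`; `G 0 = 1`).  First: GI with `ζ = 2B`, `K = 16`,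
`(5/4) 2 B = 5/2 B`.  Second: `ζ = 2B²`, `K = 35`.  Third: T2 with `g = (AF v)²`: `pp_j ≤ B² om2 j/(10^6 j)` (ZB2,
last point), `T_i ≤ 5/2 B² om2 i` (`i ≥ 1`), `T_0 = 1`: the first sum is (`j > n/2`)
`≤ (2/(10^6 n)) B² (om2 n + 5/2 B² 35 om2 n)`; in the second `om2 i * om2 (n-i) = om2 n (n/(i (n-i)))^4`
`≤ (16/(3n))^4 om2 n ≤ 810 n^(-4) om2 n`, at most `n` terms: `≤ (25/4) B⁴ 810 n^(-3) om2 n`. -/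
def S_GBa : Prop := ∃ d₀ : ℕ, ∀ d : ℕ, d₀ ≤ d → ∀ (F : Type) [Field F] [Fintype F],
  3 ≤ Fintype.card F → ∀ (K : ℕ) (h : ℝ → ℕ → ℝ), 100 ≤ K → LFam K h → ∀ (N : ℕ) (P₀ : F[X]) (a : F[X] → ℝ),
  Good F d N P₀ a → ∀ n : ℕ, 1 ≤ n → n ≤ N →
  ∑ f ∈ Mon F n, |AF (Lo h P₀ g0 a) f| ≤ 5 / 2 * BB * w2 (qq F) d n ∧
  ∑ f ∈ Mon F n, AF (Lo h P₀ g0 a) f ^ 2 ≤ 5 / 2 * BB ^ 2 * om2 (qq F) d n ∧
  ∑ f ∈ Sm F n, AF (Lo h P₀ g0 a) f ^ 2 ≤ 1 / 10 ^ 4 * (BB ^ 2 * om2 (qq F) d n / n)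

/-- **GBb** (mass with the special prime).  Uses GBa, P0R.  Proof.  `m = deg P₀`, `u = k m = n - i`.
P0R: the sum is (`k = 0`) `≤ 5/2 B w2 n` plus the terms `k ≥ 1`, `k m ≤ n`.  For `i = n - u ≥ 1`:
`q^((1 - 11/(2d)) u) (5/2) B w2 i = (5/2) B w2 n q^(-3u/d) (n/i)^(5/2)` and `n/i ≤ 1 + u`.  For `i = 0` (`u = n`):
`q^((1 - 11/(2d)) n) = B w2 n · q^(-3n/d) n^(5/2)/B`.  Choose `m₀` with `(1 + u)^(5/2) · 100/B ≤ 3^(u/d)` for all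
real (or natural) `u ≥ m₀` and `3^(2 m₀/d) ≥ 2`: since `u ≥ m ≥ m₀`, the terms are `≤ B w2 n q^(-2u/d)/10`, and
`∑_{k ≥ 1} q^(-2 k m/d) ≤ 1/(3^(2m/d) - 1) ≤ 1`.  Total `≤ (5/2 + 1/10) B w2 n`. -/
def S_GBb : Prop := ∃ d₀ : ℕ, ∀ d : ℕ, d₀ ≤ d → ∃ m₀ : ℕ, ∀ (F : Type) [Field F] [Fintype F],
  3 ≤ Fintype.card F → ∀ (K : ℕ) (h : ℝ → ℕ → ℝ), 100 ≤ K → LFam K h → ∀ (N : ℕ) (P₀ : F[X]) (g : ℕ → ℝ)
  (a : F[X] → ℝ), Spec F d m₀ P₀ g → Good F d N P₀ a → ∀ n : ℕ, 1 ≤ n → n ≤ N →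
  ∑ f ∈ Mon F n, |AF (Lo h P₀ g a) f| ≤ 3 * BB * w2 (qq F) d n

/-- **EBa** (mean squares over families of characters, no special prime).  Uses NO, UP, DUAL (project PS),
DEC2, GBa, WC2.  Proof (as `Q24.PS.EB`).  `D₂ = 2 d₁ + 2`, `v = Lo h P₀ g0 a`; `sv v = sf a` (`h z 1 = z`,
`g0 1 = 0 = a P₀`).  For `m ≥ n/2` (so `m ≥ d₁ (R+1)`) NO and DUAL: `(∑_i |sf(χ_i, m)|²)^(1/2) ≤
(2 q^m/m)^(1/2) (∑ a²)^(1/2) ≤ √2 B w2 m`.  First claim `m = n`.  DEC2: `ef n - sf n = ∑_{1 ≤ i < n/2} ef(i)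
sf(n-i) + ∑_{Sm n} AF χ` (`ef v χ 0 = 1`).  Triangle inequality in `ℓ²(ι)`, `|ef(i)| ≤ ∑ |AF| ≤ (5/2) B w2 i`
(`|χ| ≤ 1`): the first part is `≤ (5/2) B √2 B 16 w2 n ≤ 0.0023 B w2 n`.  Second part: UP (`k = n ≥ 2R`) and
DUAL: `≤ (q^n ∑_{Sm n} AF²)^(1/2) ≤ (10^(-4) B² q^n om2 n / n)^(1/2) = 0.01 B w2 n`
(`w2 n ^ 2 = q^n/n om2 n`).  Sum `≤ 0.02 B w2 n`. -/
def S_EBa : Prop := ∃ d₀ D₂ : ℕ, ∀ d : ℕ, d₀ ≤ d → ∀ (F : Type) [Field F] [Fintype F],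
  ringChar F ≠ 2 → ∀ (K : ℕ) (h : ℝ → ℕ → ℝ), 100 ≤ K → LFam K h → ∀ (N : ℕ) (P₀ : F[X]) (a : F[X] → ℝ),
  Good F d N P₀ a → ∀ n : ℕ, 1 ≤ n → n ≤ N →
  ∀ (R : ℕ) (ι : Type) [Fintype ι] (χ : ι → F[X] → ℂ), Fam R χ → D₂ * (R + 1) ≤ n →
  Real.sqrt (∑ i, ‖sf a (χ i) n‖ ^ 2) ≤ 3 / 2 * BB * w2 (qq F) d n ∧
  Real.sqrt (∑ i, ‖ef (Lo h P₀ g0 a) (χ i) n - sf a (χ i) n‖ ^ 2) ≤ 1 / 50 * BB * w2 (qq F) d n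

/-- **EBb** (mean squares, with the special prime).  Uses EBa, GBa, P0R.  `D₃ = 4 D₂ + 4`.  Proof.
`m = deg P₀`.  P0R: `ef (Lo g) χ n - ef (Lo g0) χ n = ∑_{k ≥ 1, u = k m ≤ n} g k χ(P₀)^k ef (Lo g0) χ (n - u)`.
Triangle inequality in `ℓ²(ι)`, `i = n - u`:
(A) `4 i ≥ n`: as `D₂ (R + 1) ≤ n/4 ≤ i`, EBa gives `(∑ |ef i|²)^(1/2) ≤ 2 B w2 i`; the term is
`≤ q^((1 - 11/(2d)) u) 2 B w2 i = 2 B w2 n q^(-3u/d) (n/i)^(5/2) ≤ 64 B w2 n q^(-3u/d)`.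
(B) `1 ≤ i`, `4 i < n`: `(∑ |ef i|²)^(1/2) ≤ |ι|^(1/2) (5/2) B w2 i ≤ 5 q^(20n/(9d)) B w2 i`; the term is
`≤ 5 q^(20n/(9d)) B w2 n q^(-3u/d) (n/i)^(5/2) ≤ 5 B w2 n n^(5/2) q^(-n/(36d))` as `u ≥ 3n/4`.
(C) `i = 0`, `u = n`: `≤ 2 q^(20n/(9d)) q^((1 - 11/(2d)) n) = B w2 n (2/B) n^(5/2) q^(-7n/(9d))`.
All terms have `n ≥ u ≥ m ≥ m₀`; for `m₀` large (depending on `d` only; `q ≥ 3`) the sum over `k ≥ 1` (at most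
`n` terms in (B); geometric series in (A)) is `≤ B w2 n/100`.  With EBa: `1/50 + 1/100 ≤ 1/20`.
(If `n < m₀` there are no terms `k ≥ 1`.) -/
def S_EBb : Prop := ∃ d₀ D₃ : ℕ, ∀ d : ℕ, d₀ ≤ d → ∃ m₀ : ℕ, ∀ (F : Type) [Field F] [Fintype F],
  ringChar F ≠ 2 → ∀ (K : ℕ) (h : ℝ → ℕ → ℝ), 100 ≤ K → LFam K h → ∀ (N : ℕ) (P₀ : F[X]) (g : ℕ → ℝ)
  (a : F[X] → ℝ), Spec F d m₀ P₀ g → Good F d N P₀ a → ∀ n : ℕ, 1 ≤ n → n ≤ N →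
  ∀ (R : ℕ) (ι : Type) [Fintype ι] (χ : ι → F[X] → ℂ), Fam R χ → D₃ * (R + 1) ≤ n →
  (Fintype.card ι : ℝ) ≤ 4 * qq F ^ ((40 : ℝ) * n / (9 * d)) →
  Real.sqrt (∑ i, ‖ef (Lo h P₀ g a) (χ i) n - sf a (χ i) n‖ ^ 2) ≤ 1 / 20 * BB * w2 (qq F) d n

/-- **TB2** (the prescribed values).  Uses CNT only.  Proof.  If `S` is empty trivial; else
`d ≤ D p ≤ 20n/9`, so `n ≥ 9d/20 ≥ 450`.  For each `D'` the number of the `p ∈ S` with `D p ≤ D'` is at most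
`4 q^(2D'/d)`: `deg + max 2 l ≤ D'/d + 1` (floor), CNT with `L0 = 2`, `N = D'/d + 1`.  Split `S` by `D' = D p`:
(`D' < n`: zero)
(i) `D' = n`: `|tauX|² = q^n |e 0|² ≤ q^n`: total `≤ 4 q^(n + 2n/d)`.
(ii) `D' = n + k`, `1 ≤ k < n`, `9 (n + k) > 20 k` (so `11 k < 9 n`): `|tauX|² = q^(n-k) |e k|² ≤
9 B² q^(n - k + (2 - 5/d) k)`, total over these `k` `≤ 36 B² n q^(n (1 + 2/d) + (9n/11) (1 - 3/d)) ≤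
36 B² n q^(20n/11)` (`2 < 27/11`).
(iii) `D' = n + k`, `k < n`, `9 (n + k) ≤ 20 k`: `|e k| ≤ κ q^((1-5/d) k)`, `κ = kap d`:
`|tauX|² ≤ κ² q^(n - k + (2 - 10/d) k)`, total `≤ 4 κ² ∑_{k<n} q^(n (1 + 2/d) + k (1 - 8/d)) ≤
4 κ² q^(n (2 - 6/d))` (geometric series with ratio `q^(1 - 8/d) ≥ 2`).
(iv) `2n ≤ D' ≤ 20n/9`: `|c|² ≤ κ² q^((2 - 10/d) n)`, total `≤ 4 κ² q^((2 - 10/d + 40/(9d)) n) =
4 κ² q^((2 - 50/(9d)) n)`.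
The right side is `B² q^((2 - 5/d) n)/(25 n^5)`.  (i), (ii) are each at most a quarter of it since
`n ≥ 9d/20` and `d ≥ 1000` (exponential gain, (ii): `3600 n^6 ≤ q^(0.17 n)` for `n ≥ 450`).  (iii):
`400 κ² n^5 ≤ B² q^(n/d)`, since `x^5 ≤ 14 · 3^x` (`x = n/d`) and `400 · 14 · 10^(-16)/d ≤ B²`.  (iv):
`400 κ² n^5 ≤ B² q^(5n/(9d))`, since `x^5 ≤ 250 · 3^(5x/9)` and `400 · 250 · 10^(-16)/d ≤ B²` (`B² ≥ 10^(-9)`). -/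
def S_TB2 : Prop := ∃ d₀ : ℕ, ∀ d : ℕ, d₀ ≤ d → ∀ (F : Type) [Field F] [Fintype F], 3 ≤ Fintype.card F →
  ∀ n : ℕ, 1 ≤ n → ∀ (S : Finset (F[X] × ℕ × (F[X] → ℂ))) (D : F[X] × ℕ × (F[X] → ℂ) → ℕ)
  (ε c : F[X] × ℕ × (F[X] → ℂ) → ℂ) (e : F[X] × ℕ × (F[X] → ℂ) → ℕ → ℂ),
  (∀ p ∈ S, Prim p.1 p.2.1 p.2.2 ∧ d * (p.1.natDegree + max 2 p.2.1 - 1) ≤ D p ∧ 9 * D p ≤ 20 * n ∧
    ‖ε p‖ = 1 ∧ (2 * n ≤ D p → ‖c p‖ ≤ kap d * qq F ^ ((1 - 5 / (d : ℝ)) * n)) ∧ ‖e p 0‖ ≤ 1 ∧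
    (∀ k : ℕ, 1 ≤ k → k < n → ‖e p k‖ ≤ 3 * BB * w2 (qq F) d k) ∧
    (∀ k : ℕ, 1 ≤ k → k < n → 9 * D p ≤ 20 * k → 2 * k < D p →
      ‖e p k‖ ≤ kap d * qq F ^ ((1 - 5 / (d : ℝ)) * k))) →
  ∑ p ∈ S, ‖tauX (qq F) (D p) n (ε p) (c p) (e p)‖ ^ 2 ≤ (1 / 5 * BB * w2 (qq F) d n) ^ 2

/-- **PRC** (conjugates of primitive characters; easy).  Uses HC.  Proof.  `conj χ` is a Hayes character of the
same level (HC); if `χ'` of level `(Q', l')` agrees with `conj χ` at the `f` prime to `Q`, then `conj χ'` agrees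
with `χ` there, so `Q' = Q`, `l' = l`. -/
def S_PRC : Prop := ∀ (F : Type) [Field F] (Q : F[X]) (l : ℕ) (χ : F[X] → ℂ), Prim Q l χ →
  Prim Q l (fun f => conj (χ f))

/-- **LINR** (real solutions of the moment equations).  Uses LIN.  Proof.  Let `b` be the complex solution of
LIN.  `a = Re b`: `∑ a(x) φ_i(x) = (1/2) ∑ b φ_i + (1/2) conj (∑ b conj φ_i) = (1/2) (t_i + conj t_(σ i)) = t_i`
(`conj φ_i = φ_(σ i)`); `|a(x)| ≤ |b(x)|`. -/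
def S_LINR : Prop := ∀ (α : Type) (S : Finset α) (ι : Type) [Fintype ι] (φ : ι → α → ℂ)
  (lo : ℝ) (t : ι → ℂ) (σ : ι → ι), 0 < lo → (∀ i, ∀ x ∈ S, ‖φ i x‖ ≤ 1) →
  (∀ c : ι → ℂ, lo * nsq c ≤ ∑ x ∈ S, ‖∑ i, c i * φ i x‖ ^ 2) →
  (∀ i, ∀ x ∈ S, φ (σ i) x = conj (φ i x)) → (∀ i, t (σ i) = conj (t i)) →
  ∃ a : α → ℝ, (∀ i, ∑ x ∈ S, (a x : ℂ) * φ i x = t i) ∧ ∑ x ∈ S, a x ^ 2 ≤ nsq t / lo ∧
    ∀ x ∈ S, |a x| ≤ Real.sqrt (Fintype.card ι) * Real.sqrt (nsq t) / lo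

/-! ## The local families -/

/-- **FPS** (the family of project PS, real parameters).  Uses LOC1, LOC2.  Proof.  `h z k = (hh d z k).re`;
`hh d z k` is real for real `z` and even `d` (the recursion in the proof of LOC1:
`h_k = z h_(k-1) + s z h_(k-d+1) - s h_(k-d)`, or: the power series `loc d z` has real coefficients, so has its
inverse).  LFam from LOC1 (`K = d - 1`: `h z k = z^k`, `|z^k| ≤ z²` for `2 ≤ k ≤ d - 2`; `3^(k/d) ≤ 3^(k/64)`).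
LOC2 gives the `α`; for real `z` the polynomial `∏ (1 - α_j X)` is real, so `∏ (1 - conj(α_j) w) =
conj ∏ (1 - α_j conj w) = ∏ (1 - α_j w)`. -/
def S_FPS : Prop := ∀ d : ℕ, 200 ≤ d → Even d → ∃ h : ℝ → ℕ → ℝ, LFam (d - 1) h ∧
  (∀ (z : ℝ) (k : ℕ), |z| ≤ 1 / 100 → hh d (z : ℂ) k = (h z k : ℂ)) ∧
  ∀ z : ℝ, |z| ≤ 1 / 100 → ∃ α : Fin d → ℂ, (∀ j, ‖α j‖ = 1) ∧ ∏ j, α j = 1 ∧
    (∀ w : ℂ, ∏ j, (1 - α j * w) = 1 - z * w - z * w ^ (d - 1) + w ^ d) ∧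
    ∀ w : ℂ, ∏ j, (1 - conj (α j) * w) = ∏ j, (1 - α j * w)

/-- **LR1** (Rankin-Selberg local factors).  Uses LOC2 (with `d = N - 1`).  Proof.  For `|z| ≤ 1/100` let
`x = sqrt(1 + z) - 1`, `|x| ≤ 1/100`, `2x + x² = z`; `d = N - 1`, `s = (-1)^d`; LOC2: `1 - x X - s x X^(d-1) +
s X^d = ∏_{j<d} (1 - β_j X)`, `|β_j| = 1`, `∏ β = 1`, and (real polynomial) the multiset of the `β_j` is closed
under conjugation.  `α = (1, β_0, ..., β_(d-1))`.  Let `p_k = ∑_j α_j^k = 1 + π_k`, `π_k = ∑ β_j^k`, real,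
`|π_k| ≤ N`.  `∏_{i,j} (1 - α_i conj(α_j) w) = exp (-∑_k |p_k|² w^k/k)` (`|w| < 1`), so
`E(w) = (1 - w) ∏_{i,j} (1 - α_i conj α_j w)⁻¹ = exp (∑_k b_k w^k/k)`, `b_k = |p_k|² - 1 = 2 π_k + π_k²`;
`h z k` is coefficient `k` of `E`.  For `k ≤ N - 3 = d - 2`: `π_k = x^k` (Newton, or: `-log(1 - xX + O(X^(d-1)))`),
so modulo `X^(N-2)` `E` is `(1 - xX)^(-2) (1 - x² X)^(-1)`: `h z 0 = 1`, `h z 1 = 2x + x² = z`, and for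
`2 ≤ k < N - 2` `h z k = ∑_{j ≤ k} (k - j + 1) x^(k-j) x^(2j)`, `|h z k| ≤ 2 (k+1) |x|^k ≤ 7 x² ≤ 10 z²`
(`|x| ≤ 1/100`; `(k + 1)|x|^(k-2) ≤ 3`; `|z| ≥ 1.99 |x|`).  All `k`: with `r = 3^(-1/64)`, `|h z k| r^k ≤
exp (∑_k |b_k| r^k/k)`, `∑_{k ≤ N-3} (2 |x|^k + |x|^(2k)) + ∑_{k ≥ N-2} (N² + 2N) r^k/k ≤ 1/20 + 3 N² r^(N-2)/(1 - r)`,
for `N ≥ N₀` at most `log 2`.  The convergence for `|w| ≤ 1/2`: product of convergent power series, or Taylor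
series of a function analytic in `|w| < 1`.  (If it is more convenient, define `h z k = 0` for `k ≥ 1`,
`h z 0 = 1`, if `|z| > 1/100`.) -/
def S_LR1 : Prop := ∃ N₀ : ℕ, ∀ N : ℕ, N₀ ≤ N → ∃ h : ℝ → ℕ → ℝ, LFam (N - 2) h ∧
  ∀ z : ℝ, |z| ≤ 1 / 100 → ∃ α : Fin N → ℂ, (∀ j, ‖α j‖ = 1) ∧ ∏ j, α j = 1 ∧
    (∀ w : ℂ, ∏ j, (1 - conj (α j) * w) = ∏ j, (1 - α j * w)) ∧
    ∀ w : ℂ, ‖w‖ ≤ 1 / 2 →
      HasSum (fun k : ℕ => (h z k : ℂ) * w ^ k) ((1 - w) * ∏ i, ∏ j, (1 - α i * conj (α j) * w)⁻¹)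

/-- the parameters at the special prime: `y`, `1/y`, and `1` (`N - 2` times) -/
noncomputable def al0 (N : ℕ) (y : ℝ) (j : Fin N) : ℂ :=
  if j.1 = 0 then (y : ℂ) else if j.1 = 1 then ((y⁻¹ : ℝ) : ℂ) else 1

/-- **LR2** (the local factor at the special prime).  Proof.  `y ≥ 1`, `α = al0 N y` is real;
`∏_{i,j} (1 - α_i α_j w)⁻¹` has `N²` factors, one of them (`i = j = 2`) is `(1 - w)⁻¹`; so
`(1 - w) ∏ = ∏_{(i,j) ≠ (2,2)} (1 - γ_(ij) w)⁻¹`, `0 < γ ≤ y²`, `N² - 1` factors; coefficient `k` of the power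
series is between `0` and `C(k + N² - 2, k) y^(2k) ≤ 2^(k + N²) y^(2k)`; it converges for `|w| < y^(-2)`.
With `y = q^(θ m)`, `2θ ≤ 1 - 6/N²`, `d = N² - 3N`: `2^(k + N²) q^((1 - 6/N²) k m) ≤ q^((1 - 11/(2d)) k m)` for
`k ≥ 1`, since `6/N² - 11/(2d) ≥ 1/(4 N²)` for `N ≥ 200` and `3^(k m/(4N²)) ≥ 2^(k + N²)` for `m ≥ m₀(N)`. -/
def S_LR2 : Prop := ∃ N₀ : ℕ, ∀ N : ℕ, N₀ ≤ N → ∃ m₀ : ℕ, ∀ (q θ : ℝ) (m : ℕ), 3 ≤ q → m₀ ≤ m → 0 ≤ θ →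
  θ ≤ 1 / 2 - 3 / (N : ℝ) ^ 2 → ∃ g : ℕ → ℝ, g 0 = 1 ∧
    (∀ k : ℕ, |g k| ≤ q ^ ((1 - 11 / (2 * ((N ^ 2 - 3 * N : ℕ) : ℝ))) * ((k : ℝ) * m))) ∧
    ∀ w : ℂ, ‖w‖ * (q ^ (θ * m)) ^ 2 < 1 →
      HasSum (fun k : ℕ => (g k : ℂ) * w ^ k)
        ((1 - w) * ∏ i, ∏ j, (1 - al0 N (q ^ (θ * m)) i * conj (al0 N (q ^ (θ * m)) j) * w)⁻¹)

/-! ## Numerical lemmas for the applications -/

/-- **ZL** (no zeros in the middle).  Proof.  Let `X = q^(-s)`, `σ = Re s`, `δ = 1 - σ`.  By the functional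
equation (substitute; `e_(D-k) X^(D-k)`) the sum at `s` is `ε q^(D/2) X^D` times the conjugate of the sum at
`1 - conj s`, so we may suppose `σ ≥ 1/2`, `δ > 100 log d/d`.  Middle term: `|e_(D/2) X^(D/2)| =
κ q^((1-5/d) D/2 - σ D/2) = κ q^((δ - 5/d) D/2)`, `κ = kap d`.  Low terms: `1`, and for `1 ≤ k < 9D/20`
`|e_k X^k| ≤ 3 B q^((1 - σ) k) k^(-5/2) ≤ 3 B q^(9 δ D/20) k^(-5/2)`; the terms with `9D/20 ≤ k < D/2` are zero; high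
terms: `|e_(D-k) X^(D-k)| = |e_k| q^((D-2k)/2 - σ (D-k)) ≤ |e_k| q^(-σ k)` (`σ ≥ 1/2`).  So the other terms have
sum `≤ 2 (1 + 3 B · 2 · q^(9 δ D/20)) < 3 q^(9δD/20)` (`∑ k^(-5/2) ≤ 2`), less than the middle term if
`q^((δ/20 - 5/(2d)) D) ≥ 3 · 10^8 d³`, which holds since `D ≥ d`, `q ≥ 3` and
`(5 log d - 5/2) log 3 ≥ log (3 · 10^8) + 3 log d` for large `d`. -/
def S_ZL : Prop := ∃ d₀ : ℕ, ∀ d : ℕ, d₀ ≤ d → ∀ (q : ℝ) (D M : ℕ) (ε : ℂ) (e : ℕ → ℂ), 3 ≤ q → d ≤ D →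
  D = 2 * M → ‖ε‖ = 1 → e 0 = 1 → (∀ k : ℕ, 1 ≤ k → 20 * k < 9 * D → ‖e k‖ ≤ 3 * BB * w2 q d k) →
  (∀ k : ℕ, 9 * D ≤ 20 * k → k < M → e k = 0) → ‖e M‖ = kap d * q ^ ((1 - 5 / (d : ℝ)) * M) →
  (∀ n m : ℕ, n + m = D → m ≤ n → e n = ε * (Real.sqrt q : ℂ) ^ (n - m) * conj (e m)) →
  ∀ s : ℂ, 100 * Real.log d / d < s.re → s.re < 1 - 100 * Real.log d / d →
    ∑ k ∈ range (D + 1), e k * ((q : ℂ) ^ (-s)) ^ k ≠ 0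

/-- the middle coefficient (degree `2 M`) which gives the central value `v` -/
noncomputable def cmid (q : ℝ) (M : ℕ) (ε v : ℂ) (e : ℕ → ℂ) : ℂ :=
  (Real.sqrt q : ℂ) ^ M * (v - ∑ k ∈ (range M).filter (fun k => 10 * k < 9 * M),
    (e k + ε * conj (e k)) * ((Real.sqrt q : ℂ) ^ k)⁻¹)

/-- **CVB** (bound for the middle coefficient).  Proof.  `D = 2M`, `M ≥ d/2`.  First part:
`q^(M/2) (κ/2) q^((1/2 - 5/d) M) = (κ/2) q^((1 - 5/d) M)`, `κ = kap d`.  Second part: for `k < 9M/10`: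
`2 |e_k| q^(-k/2) ≤ 6 B q^(k/2) k^(-5/2) ≤ 6 B q^(9M/20) k^(-5/2)` (`k ≥ 1`), `≤ 2` for `k = 0`; so the sum is
`≤ 3 q^(9M/20)` and `3 q^(M/2 + 9M/20) ≤ (κ/2) q^((1 - 5/d) M)` because `q^((1/20 - 5/d) M) ≥ 6 · 10^8 d³` for
`M ≥ d/2`, `q ≥ 3`, `d` large. -/
def S_CVB : Prop := ∃ d₀ : ℕ, ∀ d : ℕ, d₀ ≤ d → ∀ (q : ℝ) (M : ℕ) (ε v : ℂ) (e : ℕ → ℂ), 3 ≤ q →
  d ≤ 2 * M → ‖ε‖ = 1 → ‖v‖ ≤ kap d / 2 * q ^ ((1 / 4 - 5 / (2 * (d : ℝ))) * ((2 * M : ℕ) : ℝ)) → ‖e 0‖ ≤ 1 →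
  (∀ k : ℕ, 1 ≤ k → k < M → ‖e k‖ ≤ 3 * BB * w2 q d k) →
  ‖cmid q M ε v e‖ ≤ kap d * q ^ ((1 - 5 / (d : ℝ)) * M)

/-- **CVV** (the central value).  Proof.  At `s = 1/2` the term `k > M` is `e_k q^(-k/2) = ε conj(e_(D-k))
q^(-(D-k)/2)` (`D = 2M`), so the sum is `∑_{k<M} (e_k + ε conj e_k) q^(-k/2) + e_M q^(-M/2)`, and the terms with
`10 k ≥ 9 M`, `k < M` are zero. -/
def S_CVV : Prop := ∀ (q : ℝ) (M : ℕ) (ε v : ℂ) (e : ℕ → ℂ), 3 ≤ q →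
  (∀ k : ℕ, 9 * M ≤ 10 * k → k < M → e k = 0) → e M = cmid q M ε v e →
  (∀ n m : ℕ, n + m = 2 * M → m ≤ n → e n = ε * (Real.sqrt q : ℂ) ^ (n - m) * conj (e m)) →
  ∑ k ∈ range (2 * M + 1), e k * ((q : ℂ) ^ (-(1 / 2 : ℂ))) ^ k = v

end Pool.Agent.Q284.PX
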