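import Pool.Agent.Q284.PX.AssAB

/-!
# Project PX: Rankin-Selberg products with a large local parameter
-/

set_option autoImplicit false

open Finset Polynomial ComplexConjugate
open Pool.Agent.H341R2.Sharp (Mon mem_Mon)

namespace Pool.Agent.Q284.PX

open Pool.Agent.Q284.PS

section Final

variable {F : Type} [Field F] [Fintype F] {N : ℕ}

/-- the local factor of `L(s, Π × Π~ ⊗ χ)` at the place `P` -/
noncomputable def rsFactor (α : F[X] → Fin N → ℂ) (χ : F[X] → ℂ) (s : ℂ) (P : Place F) : ℂ :=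
  ∏ i, ∏ j, (1 - α P.1 i * conj (α P.1 j) * (χ P.1 * absPow P.1 s))⁻¹

/-- the Dirichlet `L`-function `L(s, χ)`, as an absolutely convergent series for `Re s > 1` -/
noncomputable def dirichletL (χ : F[X] → ℂ) (s : ℂ) : ℂ := ∑' f : {f : F[X] // f.Monic}, χ f.1 * absPow f.1 s

end Final

/-- the final statement: Luo-Rudnick-Sarnak -/
def LRSStm : Prop := ∃ N₀ : ℕ, ∀ N : ℕ, N₀ ≤ N → ∃ m₀ : ℕ, ∀ (F : Type) [Field F] [Fintype F],
  ringChar F ≠ 2 → ∀ P₀ : F[X], P₀.Monic → Irreducible P₀ → m₀ ≤ P₀.natDegree →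
  ∀ θ : ℝ, 0 ≤ θ → θ ≤ 1 / 2 - 3 / (N : ℝ) ^ 2 →
  ∀ (D : F[X] → ℕ → (F[X] → ℂ) → ℕ) (ε : (F[X] → ℂ) → ℂ),
  (∀ (Q : F[X]) (l : ℕ) (χ : F[X] → ℂ), Prim Q l χ →
    (N ^ 2 - 3 * N) * (Q.natDegree + max 2 l - 1) ≤ D Q l χ ∧ D Q l (fun f => conj (χ f)) = D Q l χ) →
  (∀ χ, ‖ε χ‖ = 1) → (∀ χ, ε (fun f => conj (χ f)) = conj (ε χ)) →
  ∃ α : F[X] → Fin N → ℂ,
    (∀ P : F[X], P.Monic → Irreducible P → P ≠ P₀ → ∀ j, ‖α P j‖ = 1) ∧
    α P₀ = al0 N ((Fintype.card F : ℝ) ^ (θ * P₀.natDegree)) ∧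
    (∀ P : F[X], P.Monic → Irreducible P → ∏ j, α P j = 1) ∧ SelfDual α ∧
    ∀ (Q : F[X]) (l : ℕ) (χ : F[X] → ℂ), Prim Q l χ → ∃ E : ℂ → ℂ,
      Nice (Fintype.card F) (D Q l χ) (ε χ) E ∧
      (∀ s : ℂ, 1 < s.re → HasProd (rsFactor α χ s) (dirichletL χ s * E s)) ∧
      ∀ s : ℂ, 1 - 5 / (2 * ((N ^ 2 - 3 * N : ℕ) : ℝ)) ≤ s.re → E s ≠ 0 ∧
        HasProd (fun P : Place F => (1 - χ P.1 * absPow P.1 s) * rsFactor α χ s P) (E s)

/-- the Euler product of the Dirichlet `L`-function -/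
theorem dirichlet_euler (hEUL : PS.S_EUL) (hDSUM : PS.S_DSUM) (hCMON : PS.S_CMON) {F : Type} [Field F]
    [Fintype F] (hq : 3 ≤ qq F) {χ : F[X] → ℂ} (hcm : CM χ) (hchi : ∀ f : F[X], ‖χ f‖ ≤ 1) {s : ℂ}
    (hs : 1 < s.re) :
    HasProd (fun P : Place F => (1 - χ P.1 * absPow P.1 s)⁻¹) (dirichletL χ s) := by
  classical
  have hq0 : 0 < qq F := by linarith
  set z : ℂ := (Fintype.card F : ℂ) ^ (-s) with hzd
  have hznorm : ‖z‖ = qq F ^ (-s.re) := norm_z hq0 s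
  have hsum : Summable (fun k : ℕ => (∑ f ∈ Mon F k, ‖χ f‖) * ‖z‖ ^ k) := by
    have hr : qq F ^ (1 - s.re) < 1 := Real.rpow_lt_one_of_one_lt_of_neg (by linarith) (by linarith)
    refine Summable.of_nonneg_of_le (fun k => by positivity) (fun k => ?_)
      (summable_geometric_of_lt_one (by positivity) hr)
    have h1 : ∑ f ∈ Mon F k, ‖χ f‖ ≤ qq F ^ k := by
      calc ∑ f ∈ Mon F k, ‖χ f‖ ≤ ∑ f ∈ Mon F k, (1 : ℝ) := sum_le_sum fun f _ => hchi f
        _ = qq F ^ k := by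
            rw [sum_const, (hCMON F).1 k, nsmul_eq_mul, mul_one]
            unfold qq
            push_cast
            rfl
    calc (∑ f ∈ Mon F k, ‖χ f‖) * ‖z‖ ^ k ≤ qq F ^ k * ‖z‖ ^ k :=
          mul_le_mul_of_nonneg_right h1 (by positivity)
      _ = (qq F ^ (1 - s.re)) ^ k := by
          rw [← mul_pow, hznorm]
          congr 1
          rw [sub_eq_add_neg, Real.rpow_add hq0, Real.rpow_one]
  obtain ⟨h1, h2⟩ := hDSUM F χ z hsum
  have h3 := hEUL F (fun f => χ f * z ^ f.natDegree) (by simp [hcm.1]) (by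
      intro f h hf hh _
      rw [hcm.2 f h hf hh, hf.natDegree_mul hh, pow_add]
      ring) h1
  have h4 : ∑' f : {f : F[X] // f.Monic}, χ f.1 * z ^ f.1.natDegree = dirichletL χ s := by
    unfold dirichletL
    apply tsum_congr
    intro f
    rw [absPow_eq]
  rw [h4] at h3
  refine (congrArg (fun G => HasProd G (dirichletL χ s)) ?_).mpr h3
  funext P'
  obtain ⟨P, hP1, hP2⟩ := P'
  have hz1 : ‖z‖ < 1 := by
    rw [hznorm]
    exact Real.rpow_lt_one_of_one_lt_of_neg (by linarith) (by linarith)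
  have hx : ‖χ P * absPow P s‖ < 1 := by
    rw [norm_mul, absPow_eq, norm_pow]
    have h5 : 1 ≤ P.natDegree := hP2.natDegree_pos
    have h6 : ‖z‖ ^ P.natDegree ≤ ‖z‖ ^ 1 := pow_le_pow_of_le_one (norm_nonneg _) hz1.le h5
    rw [pow_one] at h6
    have h7 := hchi P
    have h8 : 0 ≤ ‖z‖ ^ P.natDegree := by positivity
    nlinarith [norm_nonneg (χ P)]
  have h6 : (fun k : ℕ => χ (P ^ k) * z ^ (P ^ k).natDegree) = fun k : ℕ => (χ P * absPow P s) ^ k := by
    funext k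
    rw [cm_pow hcm hP1, hP1.natDegree_pow, mul_pow, absPow_eq, mul_comm k P.natDegree, pow_mul]
  show (1 - χ P * absPow P s)⁻¹ = ∑' k : ℕ, χ (P ^ k) * z ^ (P ^ k).natDegree
  rw [h6, tsum_geometric_of_norm_lt_one hx]

theorem t_LRS (hP : PXM) (hLR1 : S_LR1) (hLR2 : S_LR2) (hEUL : PS.S_EUL) (hDSUM : PS.S_DSUM)
    (hCMON : PS.S_CMON) (hM : S_AFM) : LRSStm := by
  classical
  obtain ⟨d₀, hP⟩ := hP
  obtain ⟨N₁, hLR1⟩ := hLR1
  obtain ⟨N₂, hLR2⟩ := hLR2
  refine ⟨1000 + d₀ + N₁ + N₂, ?_⟩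
  intro N hN
  set d : ℕ := N ^ 2 - 3 * N with hd
  have hNd : N ≤ d := by
    have h1 : N ^ 2 = N * N := by ring
    have h2 : 4 * N ≤ N * N := Nat.mul_le_mul_right N (by omega)
    omega
  obtain ⟨m₁, hP⟩ := hP d (by omega)
  obtain ⟨m₂, hLR2⟩ := hLR2 N (by omega)
  obtain ⟨h, hL, hα⟩ := hLR1 N (by omega)
  refine ⟨1 + m₁ + m₂, ?_⟩
  intro F _ _ hF P₀ hP1 hP2 hP3 θ hθ0 hθ D ε hDD hε hεc
  have hq3 : 3 ≤ qq F := three_le_qq hF
  have hq0 : 0 < qq F := by linarith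
  have hqq : qq F = (Fintype.card F : ℝ) := rfl
  obtain ⟨g, hg0, hgb, hgs⟩ := hLR2 (qq F) θ P₀.natDegree hq3 (by omega) hθ0 hθ
  have hsp : Spec F d m₁ P₀ g := ⟨hP1, hP2, by omega, hg0, hgb⟩
  have hD : Data F d D ε (fun _ _ _ _ _ => 0) := by
    refine ⟨fun Q l χ h => (hDD Q l χ h).1, fun Q l χ h => (hDD Q l χ h).2, hε, hεc, ?_, ?_, ?_, ?_⟩
    · intros
      rfl
    · intros
      rw [map_zero]
    · intros
      rw [map_zero, mul_zero]
    · intro Q l χ n e _ _ _ _ _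
      rw [norm_zero]
      have : 0 ≤ kap d := by
        unfold kap
        positivity
      positivity
  obtain ⟨a, hgood, hmass, hmain⟩ := hP F hF (N - 2) h (by omega) hL P₀ g hsp D ε _ hD
  have hsmall : ∀ P : F[X], P.Monic → Irreducible P → |a P| ≤ 1 / 100 := by
    intro P h1 h2
    exact (hgood P.natDegree).small P.natDegree le_rfl P (mem_PI.2 ⟨h1, rfl, h2⟩)
  have hv : ∀ P : F[X], Lo h P₀ g a P 0 = 1 := by
    intro P
    unfold Lo
    split_ifs
    · exact hg0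
    · exact hL.zero _
  set y : ℝ := qq F ^ (θ * P₀.natDegree) with hy
  have hy0 : 0 < y := by positivity
  have hα' : ∀ P : F[X], ∃ α : Fin N → ℂ, P.Monic → Irreducible P → (P ≠ P₀ → ∀ j, ‖α j‖ = 1) ∧
      (P = P₀ → α = al0 N y) ∧ ∏ j, α j = 1 ∧
      (∀ w : ℂ, ∏ j, (1 - conj (α j) * w) = ∏ j, (1 - α j * w)) ∧
      (P ≠ P₀ → ∀ w : ℂ, ‖w‖ ≤ 1 / 2 →
        HasSum (fun k : ℕ => (h (a P) k : ℂ) * w ^ k) ((1 - w) * ∏ i, ∏ j, (1 - α i * conj (α j) * w)⁻¹)) := by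
    intro P
    by_cases h1 : P.Monic ∧ Irreducible P
    · by_cases h2 : P = P₀
      · refine ⟨al0 N y, fun _ _ => ⟨fun h3 => absurd h2 h3, fun _ => rfl, ?_, ?_, fun h3 => absurd h2 h3⟩⟩
        · obtain ⟨N', rfl⟩ : ∃ N', N = N' + 2 := ⟨N - 2, by omega⟩
          rw [Fin.prod_univ_succ, Fin.prod_univ_succ]
          unfold al0
          have h3 : (y : ℂ) ≠ 0 := by exact_mod_cast hy0.ne'
          simp [h3]
        · intro w
          apply prod_congr rfl
          intro j _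
          congr 2
          unfold al0
          split_ifs
          · exact Complex.conj_ofReal _
          · exact Complex.conj_ofReal _
          · exact map_one _
      · obtain ⟨α, h3, h4, h5, h6⟩ := hα (a P) (hsmall P h1.1 h1.2)
        exact ⟨α, fun _ _ => ⟨fun _ => h3, fun h => absurd h h2, h4, h5, fun _ => h6⟩⟩
    · exact ⟨fun _ => 1, fun h2 h3 => absurd ⟨h2, h3⟩ h1⟩
  choose α hα' using hα'
  have hα0 : α P₀ = al0 N y := (hα' P₀ hP1 hP2).2.1 rfl
  refine ⟨α, fun P h1 h2 h3 => (hα' P h1 h2).1 h3, hα0, fun P h1 h2 => (hα' P h1 h2).2.2.1,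
    fun P h1 h2 => (hα' P h1 h2).2.2.2.1, ?_⟩
  intro Q l χ hχ
  have hcm := hay_cm hχ.1
  obtain ⟨hz, hfe, _⟩ := hmain Q l χ hχ
  have hchi : ∀ f : F[X], ‖χ f‖ ≤ 1 := fun f => norm_le_one hχ.1 f
  have hN4 : (1000 : ℝ) ≤ N := by
    have : 1000 ≤ N := by omega
    exact_mod_cast this
  have hdr : (d : ℝ) = (N : ℝ) ^ 2 - 3 * N := by
    rw [hd, Nat.cast_sub]
    · push_cast
      ring
    · have h1 : N ^ 2 = N * N := by ring
      rw [h1]
      exact Nat.mul_le_mul_right N (by omega)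
  have hser : ∀ s : ℂ, 1 - 5 / (2 * (d : ℝ)) ≤ s.re → ∀ P : Place F,
      (‖χ P.1 * absPow P.1 s‖ ≤ 1 / 2 ∧ (P.1 = P₀ → ‖χ P.1 * absPow P.1 s‖ * y ^ 2 < 1)) ∧
      HasSum (fun k : ℕ => (Lo h P₀ g a P.1 k : ℂ) * (χ P.1 * absPow P.1 s) ^ k)
        ((1 - χ P.1 * absPow P.1 s) * rsFactor α χ s P) := by
    intro s hs
    rintro ⟨P, h1, h2⟩
    have hdeg : 1 ≤ P.natDegree := h2.natDegree_pos
    have hd4 : (1000 : ℝ) ≤ d := by
      have : 1000 ≤ d := by omega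
      exact_mod_cast this
    have hzn : ‖(Fintype.card F : ℂ) ^ (-s)‖ ≤ 1 / 2 := by
      rw [norm_z hq0]
      have h3 : (3 / 4 : ℝ) ≤ s.re := by
        refine le_trans ?_ hs
        have : 5 / (2 * (d : ℝ)) ≤ 1 / 4 := by
          rw [div_le_div_iff₀ (by linarith) (by norm_num)]
          linarith
        linarith
      calc qq F ^ (-s.re) ≤ qq F ^ (-(3 / 4 : ℝ)) := by
            apply Real.rpow_le_rpow_of_exponent_le (by linarith)
            linarith
        _ ≤ (3 : ℝ) ^ (-(3 / 4 : ℝ)) := by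
            rw [Real.rpow_neg hq0.le, Real.rpow_neg (by norm_num)]
            apply inv_anti₀ (by positivity)
            exact Real.rpow_le_rpow (by norm_num) hq3 (by norm_num)
        _ ≤ 1 / 2 := by
            rw [Real.rpow_neg (by norm_num)]
            have h1 : (2 : ℝ) ≤ 3 ^ (3 / 4 : ℝ) := by
              have h2 : ((2 : ℝ)) = ((2 : ℝ) ^ (4 : ℕ)) ^ ((1 : ℝ) / 4) := by
                rw [← Real.rpow_natCast, ← Real.rpow_mul (by norm_num)]
                norm_num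
              have h3 : (3 : ℝ) ^ (3 / 4 : ℝ) = ((3 : ℝ) ^ (3 : ℕ)) ^ ((1 : ℝ) / 4) := by
                rw [← Real.rpow_natCast, ← Real.rpow_mul (by norm_num)]
                norm_num
              rw [h2, h3]
              apply Real.rpow_le_rpow (by norm_num) (by norm_num) (by norm_num)
            calc ((3 : ℝ) ^ (3 / 4 : ℝ))⁻¹ ≤ (2 : ℝ)⁻¹ := inv_anti₀ (by norm_num) h1
              _ = 1 / 2 := by norm_num
    have hzp : ‖χ P * absPow P s‖ ≤ ‖(Fintype.card F : ℂ) ^ (-s)‖ ^ P.natDegree := by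
      rw [norm_mul, absPow_eq, norm_pow]
      have h7 := hchi P
      have h8 : 0 ≤ ‖(Fintype.card F : ℂ) ^ (-s)‖ ^ P.natDegree := by positivity
      nlinarith [norm_nonneg (χ P)]
    have hx : ‖χ P * absPow P s‖ ≤ 1 / 2 := by
      refine hzp.trans ?_
      have h6 : ‖(Fintype.card F : ℂ) ^ (-s)‖ ^ P.natDegree ≤ ‖(Fintype.card F : ℂ) ^ (-s)‖ ^ 1 :=
        pow_le_pow_of_le_one (norm_nonneg _) (hzn.trans (by norm_num)) hdeg
      rw [pow_one] at h6
      exact h6.trans hzn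
    have hx0 : P = P₀ → ‖χ P * absPow P s‖ * y ^ 2 < 1 := by
      intro h3
      rw [hy, ← h3]
      have h5 : ‖χ P * absPow P s‖ ≤ qq F ^ (-s.re * P.natDegree) := by
        refine hzp.trans (le_of_eq ?_)
        rw [norm_z hq0, ← Real.rpow_natCast, ← Real.rpow_mul hq0.le]
      have h6 : (qq F ^ (θ * P.natDegree)) ^ 2 = qq F ^ (2 * θ * P.natDegree) := by
        rw [← Real.rpow_natCast, ← Real.rpow_mul hq0.le]
        congr 1
        push_cast
        ring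
      rw [h6]
      calc ‖χ P * absPow P s‖ * qq F ^ (2 * θ * P.natDegree)
          ≤ qq F ^ (-s.re * P.natDegree) * qq F ^ (2 * θ * P.natDegree) :=
            mul_le_mul_of_nonneg_right h5 (by positivity)
        _ = qq F ^ ((2 * θ - s.re) * P.natDegree) := by
            rw [← Real.rpow_add hq0]
            congr 1
            ring
        _ < 1 := by
            apply Real.rpow_lt_one_of_one_lt_of_neg (by linarith)
            apply mul_neg_of_neg_of_pos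
            · have h7 : 5 / (2 * (d : ℝ)) < 6 / (N : ℝ) ^ 2 := by
                rw [hdr, div_lt_div_iff₀ (by nlinarith) (by positivity)]
                nlinarith
              have h8 : 2 * (3 / (N : ℝ) ^ 2) = 6 / (N : ℝ) ^ 2 := by ring
              linarith
            · exact_mod_cast hdeg
    refine ⟨⟨hx, hx0⟩, ?_⟩
    show HasSum (fun k : ℕ => (Lo h P₀ g a P k : ℂ) * (χ P * absPow P s) ^ k)
      ((1 - χ P * absPow P s) * ∏ i, ∏ j, (1 - α P i * conj (α P j) * (χ P * absPow P s))⁻¹)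
    by_cases h3 : P = P₀
    · have hx1 := hx0 h3
      subst h3
      have h4 : (fun k : ℕ => (Lo h P g a P k : ℂ) * (χ P * absPow P s) ^ k) =
          fun k : ℕ => (g k : ℂ) * (χ P * absPow P s) ^ k := by
        funext k
        unfold Lo
        rw [if_pos rfl]
      rw [h4, hα0]
      exact hgs _ hx1
    · have h4 : (fun k : ℕ => (Lo h P₀ g a P k : ℂ) * (χ P * absPow P s) ^ k) =
          fun k : ℕ => (h (a P) k : ℂ) * (χ P * absPow P s) ^ k := by
        funext k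
        unfold Lo
        rw [if_neg h3]
      rw [h4]
      exact (hα' P h1 h2).2.2.2.2 h3 _ hx
  have hloc : ∀ s : ℂ, 1 - 5 / (2 * (d : ℝ)) ≤ s.re →
      HasProd (fun P : Place F => (1 - χ P.1 * absPow P.1 s) * rsFactor α χ s P)
        (Ls (Fintype.card F) (D Q l χ) (ef (Lo h P₀ g a) χ) s) := by
    intro s hs
    exact gen_euler hEUL hDSUM hM hq3 (by omega : 1 ≤ d) hv hcm hchi hmass hz hs (fun P => (hser s hs P).2)
  have hy1 : 1 ≤ y := by
    rw [hy]
    apply Real.one_le_rpow (by linarith)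
    positivity
  have hnz : ∀ s : ℂ, 1 - 5 / (2 * (d : ℝ)) ≤ s.re →
      Ls (Fintype.card F) (D Q l χ) (ef (Lo h P₀ g a) χ) s ≠ 0 := by
    intro s hs
    refine gen_ne_zero hDSUM hM hq3 (by omega : 1 ≤ d) hv hcm hchi hmass hs (hloc s hs) ?_
      (fun P => (hser s hs P).2)
    intro P'
    obtain ⟨⟨hx, hx0⟩, _⟩ := hser s hs P'
    obtain ⟨P, h1, h2⟩ := P'
    have hx' : ‖χ P * absPow P s‖ ≤ 1 / 2 := hx
    have hx0' : P = P₀ → ‖χ P * absPow P s‖ * y ^ 2 < 1 := hx0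
    have hone : ∀ w : ℂ, ‖w‖ < 1 → 1 - w ≠ 0 := by
      intro w hw h3
      have h4 : w = 1 := (sub_eq_zero.1 h3).symm
      rw [h4, norm_one] at hw
      exact lt_irrefl _ hw
    refine mul_ne_zero (hone _ (lt_of_le_of_lt hx' (by norm_num))) ?_
    show ∏ i, ∏ j, (1 - α P i * conj (α P j) * (χ P * absPow P s))⁻¹ ≠ 0
    rw [prod_ne_zero_iff]
    intro i _
    rw [prod_ne_zero_iff]
    intro j _
    apply inv_ne_zero
    apply hone
    rw [norm_mul, norm_mul, RCLike.norm_conj]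
    have hw0 : 0 ≤ ‖χ P * absPow P s‖ := norm_nonneg _
    by_cases h3 : P = P₀
    · have h4 : ∀ i, ‖α P i‖ ≤ y := by
        intro i
        rw [h3, hα0]
        unfold al0
        split_ifs
        · rw [Complex.norm_real, Real.norm_eq_abs, abs_of_pos hy0]
        · rw [Complex.norm_real, Real.norm_eq_abs, abs_of_pos (inv_pos.2 hy0)]
          exact (inv_le_one_of_one_le₀ hy1).trans hy1
        · rw [norm_one]
          exact hy1
      calc ‖α P i‖ * ‖α P j‖ * ‖χ P * absPow P s‖ ≤ y * y * ‖χ P * absPow P s‖ := by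
            apply mul_le_mul_of_nonneg_right _ hw0
            exact mul_le_mul (h4 i) (h4 j) (norm_nonneg _) hy0.le
        _ = ‖χ P * absPow P s‖ * y ^ 2 := by ring
        _ < 1 := hx0' h3
    · rw [(hα' P h1 h2).1 h3 i, (hα' P h1 h2).1 h3 j, one_mul, one_mul]
      exact lt_of_le_of_lt hx' (by norm_num)
  refine ⟨_, gen_nice (Fintype.card_pos) (hε χ) (ef_zero hM hv hcm.1) hfe, ?_,
    fun s hs => ⟨hnz s hs, hloc s hs⟩⟩
  intro s hs
  have h1 := dirichlet_euler hEUL hDSUM hCMON hq3 hcm hchi hs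
  have h2 := hloc s (by
    have : 0 ≤ 5 / (2 * (d : ℝ)) := by positivity
    linarith)
  refine (congrArg (fun G => HasProd G (dirichletL χ s *
    Ls (Fintype.card F) (D Q l χ) (ef (Lo h P₀ g a) χ) s)) ?_).mpr (h1.mul h2)
  funext P'
  obtain ⟨P, hP1, hP2⟩ := P'
  have hx : ‖χ P * absPow P s‖ < 1 := by
    have hz1 : ‖(Fintype.card F : ℂ) ^ (-s)‖ < 1 := by
      rw [norm_z hq0]
      exact Real.rpow_lt_one_of_one_lt_of_neg (by linarith) (by linarith)
    rw [norm_mul, absPow_eq, norm_pow]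
    have h5 : 1 ≤ P.natDegree := hP2.natDegree_pos
    have h6 : ‖(Fintype.card F : ℂ) ^ (-s)‖ ^ P.natDegree ≤ ‖(Fintype.card F : ℂ) ^ (-s)‖ ^ 1 :=
      pow_le_pow_of_le_one (norm_nonneg _) hz1.le h5
    rw [pow_one] at h6
    have h7 := hchi P
    have h8 : 0 ≤ ‖(Fintype.card F : ℂ) ^ (-s)‖ ^ P.natDegree := by positivity
    nlinarith [norm_nonneg (χ P)]
  have h3 : 1 - χ P * absPow P s ≠ 0 := by
    intro h4
    have h5 : χ P * absPow P s = 1 := (sub_eq_zero.1 h4).symm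
    rw [h5, norm_one] at hx
    exact lt_irrefl _ hx
  show rsFactor α χ s ⟨P, hP1, hP2⟩ = (1 - χ P * absPow P s)⁻¹ *
    ((1 - χ P * absPow P s) * rsFactor α χ s ⟨P, hP1, hP2⟩)
  rw [inv_mul_cancel_left₀ h3]

end Pool.Agent.Q284.PX
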