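import Pool.Agent.Q284.PX.Adm3
import Pool.Agent.Q284.PX.AssC

/-!
# Project PX3: prescribed Ramanujan exponents at all places, assembly
-/

set_option autoImplicit false

open Finset Polynomial ComplexConjugate
open Pool.Agent.H341R2.Sharp (Mon mem_Mon)

namespace Pool.Agent.Q284.PX

open Pool.Agent.Q284.PS hiding Good

section Final

variable {F : Type} [Field F] [Fintype F] {g : ℕ}

/-- the local factor of `L(s, Π ⊗ χ)` at the place `P` if the `2g` Satake parameters of `Π_P` are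
`|P|^(θ P) β_j` and `|P|^(-θ P) β_j` -/
noncomputable def stFactor (θ : F[X] → ℝ) (β : F[X] → Fin g → ℂ) (χ : F[X] → ℂ) (s : ℂ) (P : Place F) : ℂ :=
  ∏ j, ((1 - (((Fintype.card F : ℝ) ^ (θ P.1 * P.1.natDegree) : ℝ) : ℂ) * β P.1 j *
      (χ P.1 * absPow P.1 s))⁻¹ *
    (1 - ((((Fintype.card F : ℝ) ^ (θ P.1 * P.1.natDegree))⁻¹ : ℝ) : ℂ) * β P.1 j *
      (χ P.1 * absPow P.1 s))⁻¹)

/-- the local factor of `L(s, Π × Π~ ⊗ χ)` at the place `P` if the `2g + 1` Satake parameters of `Π_P` are `1` and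
`|P|^(θ P) β_j`, `|P|^(-θ P) β_j` -/
noncomputable def rsFactor2 (θ : F[X] → ℝ) (β : F[X] → Fin g → ℂ) (χ : F[X] → ℂ) (s : ℂ) (P : Place F) : ℂ :=
  ∏ i, ∏ j, (1 - al2 ((Fintype.card F : ℝ) ^ (θ P.1 * P.1.natDegree)) (β P.1) i *
    conj (al2 ((Fintype.card F : ℝ) ^ (θ P.1 * P.1.natDegree)) (β P.1) j) * (χ P.1 * absPow P.1 s))⁻¹

end Final

/-- the final statement for the standard `L`-functions -/
def H1Stm : Prop := ∃ g₀ : ℕ, ∀ g : ℕ, g₀ ≤ g → ∀ (F : Type) [Field F] [Fintype F], ringChar F ≠ 2 →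
  ∀ θ : F[X] → ℝ, (∀ P, 0 ≤ θ P ∧ θ P < 1 / 2) →
  ∀ (D : F[X] → ℕ → (F[X] → ℂ) → ℕ) (ε : (F[X] → ℂ) → ℂ),
  (∀ (Q : F[X]) (l : ℕ) (χ : F[X] → ℂ), Prim Q l χ →
    2 * g * (Q.natDegree + max 2 l - 1) ≤ D Q l χ ∧ D Q l (fun f => conj (χ f)) = D Q l χ) →
  (∀ χ, ‖ε χ‖ = 1) → (∀ χ, ε (fun f => conj (χ f)) = conj (ε χ)) →
  ∃ β : F[X] → Fin g → ℂ, Tempered β ∧ SelfDual β ∧
    ∀ (Q : F[X]) (l : ℕ) (χ : F[X] → ℂ), Prim Q l χ → ∃ L : ℂ → ℂ,
      Nice (Fintype.card F) (D Q l χ) (ε χ) L ∧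
      ∀ s : ℂ, 1 - 5 / (4 * (g : ℝ)) ≤ s.re → L s ≠ 0 ∧ HasProd (stFactor θ β χ s) (L s)

/-- the final statement for the Rankin-Selberg `L`-functions -/
def H2Stm : Prop := ∃ g₀ : ℕ, ∀ g : ℕ, g₀ ≤ g → ∀ (F : Type) [Field F] [Fintype F], ringChar F ≠ 2 →
  ∀ θ : F[X] → ℝ,
  (∀ P, 0 ≤ θ P ∧ θ P ≤ 1 / 2 - 100 * Real.log ((2 * g + 1 : ℕ) : ℝ) / ((2 * g + 1 : ℕ) : ℝ)) →
  ∀ (D : F[X] → ℕ → (F[X] → ℂ) → ℕ) (ε : (F[X] → ℂ) → ℂ),
  (∀ (Q : F[X]) (l : ℕ) (χ : F[X] → ℂ), Prim Q l χ →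
    ((2 * g + 1) ^ 2 - 3 * (2 * g + 1)) * (Q.natDegree + max 2 l - 1) ≤ D Q l χ ∧
      D Q l (fun f => conj (χ f)) = D Q l χ) →
  (∀ χ, ‖ε χ‖ = 1) → (∀ χ, ε (fun f => conj (χ f)) = conj (ε χ)) →
  ∃ β : F[X] → Fin g → ℂ, Tempered β ∧ SelfDual β ∧
    ∀ (Q : F[X]) (l : ℕ) (χ : F[X] → ℂ), Prim Q l χ → ∃ E : ℂ → ℂ,
      Nice (Fintype.card F) (D Q l χ) (ε χ) E ∧
      (∀ s : ℂ, 1 < s.re → HasProd (rsFactor2 θ β χ s) (dirichletL χ s * E s)) ∧
      ∀ s : ℂ, 1 - 5 / (2 * (((2 * g + 1) ^ 2 - 3 * (2 * g + 1) : ℕ) : ℝ)) ≤ s.re → E s ≠ 0 ∧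
        HasProd (fun P : Place F => (1 - χ P.1 * absPow P.1 s) * rsFactor2 θ β χ s P) (E s)

theorem data0 {F : Type} [Field F] [Fintype F] {d : ℕ} {D : F[X] → ℕ → (F[X] → ℂ) → ℕ}
    {ε : (F[X] → ℂ) → ℂ}
    (hDD : ∀ (Q : F[X]) (l : ℕ) (χ : F[X] → ℂ), Prim Q l χ →
      d * (Q.natDegree + max 2 l - 1) ≤ D Q l χ ∧ D Q l (fun f => conj (χ f)) = D Q l χ)
    (hε : ∀ χ, ‖ε χ‖ = 1) (hεc : ∀ χ, ε (fun f => conj (χ f)) = conj (ε χ)) :
    Data F d D ε (fun _ _ _ _ _ => 0) := by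
  refine ⟨fun Q l χ h => (hDD Q l χ h).1, fun Q l χ h => (hDD Q l χ h).2, hε, hεc, ?_, ?_, ?_, ?_⟩
  · intros
    rfl
  · intros
    rw [map_zero]
  · intros
    rw [map_zero, mul_zero]
  · intro Q l χ n e _ _ _ _ _
    rw [norm_zero]
    have : 0 ≤ kap d := by
      unfold kap
      positivity
    have : 0 < qq F := by
      unfold qq
      exact_mod_cast Fintype.card_pos
    positivity

/-- the size of `χ(P) |P|^(-s)` -/
theorem chi_abs_le {F : Type} [Field F] [Fintype F] (hq0 : 0 < qq F) {χ : F[X] → ℂ}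
    (hchi : ∀ f : F[X], ‖χ f‖ ≤ 1) (P : F[X]) (s : ℂ) :
    ‖χ P * absPow P s‖ ≤ qq F ^ (-s.re * P.natDegree) := by
  rw [norm_mul, absPow_eq, norm_pow, norm_z hq0, ← Real.rpow_natCast, ← Real.rpow_mul hq0.le]
  have h7 := hchi P
  have h8 : 0 ≤ qq F ^ (-s.re * P.natDegree) := by positivity
  nlinarith [norm_nonneg (χ P)]

/-- `log N ≤ 2 sqrt N`, so `log N / N` is small -/
theorem log_div_le {N : ℝ} (hN : 0 < N) : Real.log N / N ≤ 2 / Real.sqrt N := by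
  have h1 : Real.log (Real.sqrt N) ≤ Real.sqrt N := by
    have := Real.log_le_sub_one_of_pos (Real.sqrt_pos.2 hN)
    linarith
  have h2 : Real.log N = 2 * Real.log (Real.sqrt N) := by
    rw [Real.log_sqrt hN.le]
    ring
  have h3 : Real.sqrt N * Real.sqrt N = N := Real.mul_self_sqrt hN.le
  have h4 : 0 < Real.sqrt N := Real.sqrt_pos.2 hN
  rw [h2, div_le_div_iff₀ hN h4]
  nlinarith

/-- numerical lemma for the standard case -/
theorem num_H1 {g : ℕ} (hg : 10 ^ 7 ≤ g) :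
    1 / 2 + 1 / (g : ℝ) ≤ 1 - 40 * Real.log ((2 * g : ℕ) : ℝ) / ((g - 1 : ℕ) : ℝ) := by
  have hg' : (10 ^ 7 : ℝ) ≤ g := by exact_mod_cast hg
  have e1 : ((g - 1 : ℕ) : ℝ) = (g : ℝ) - 1 := by
    rw [Nat.cast_sub (by omega)]
    push_cast
    ring
  have e2 : ((2 * g : ℕ) : ℝ) = 2 * (g : ℝ) := by push_cast; ring
  rw [e1, e2]
  have h1 := log_div_le (N := 2 * (g : ℝ)) (by linarith)
  have h2 : (4000 : ℝ) ≤ Real.sqrt (2 * (g : ℝ)) := by
    apply Real.le_sqrt_of_sq_le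
    nlinarith
  have h3 : 2 / Real.sqrt (2 * (g : ℝ)) ≤ 1 / 2000 := by
    rw [div_le_div_iff₀ (by linarith) (by norm_num)]
    linarith
  have h4 : Real.log (2 * (g : ℝ)) ≤ 1 / 2000 * (2 * g) := by
    rw [← div_le_iff₀ (by linarith)]
    linarith
  have h5 : 40 * Real.log (2 * (g : ℝ)) / ((g : ℝ) - 1) ≤ 1 / 10 := by
    rw [div_le_div_iff₀ (by linarith) (by norm_num)]
    nlinarith
  have h6 : 1 / (g : ℝ) ≤ 1 / 10 := by
    apply one_div_le_one_div_of_le (by norm_num)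
    linarith
  linarith

/-- numerical lemma for the Rankin-Selberg case -/
theorem num_H2 {g : ℕ} (hg : 10 ^ 7 ≤ g) :
    0 ≤ 1 - 200 * Real.log ((2 * g + 1 : ℕ) : ℝ) / ((2 * g + 1 : ℕ) : ℝ) + Real.log (8 * (g : ℝ)) / g ∧
    1 - 200 * Real.log ((2 * g + 1 : ℕ) : ℝ) / ((2 * g + 1 : ℕ) : ℝ) + Real.log (8 * (g : ℝ)) / g ≤
      1 - 40 * Real.log (((2 * g + 1) ^ 2 - 3 * (2 * g + 1) : ℕ) : ℝ) / ((g - 1 : ℕ) : ℝ) := by
  have hg' : (10 ^ 7 : ℝ) ≤ g := by exact_mod_cast hg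
  have e1 : ((g - 1 : ℕ) : ℝ) = (g : ℝ) - 1 := by
    rw [Nat.cast_sub (by omega)]
    push_cast
    ring
  have e2 : ((2 * g + 1 : ℕ) : ℝ) = 2 * (g : ℝ) + 1 := by push_cast; ring
  set N : ℝ := 2 * (g : ℝ) + 1 with hN
  have hN1 : (2 * 10 ^ 7 : ℝ) ≤ N := by linarith
  have hlogN : 0 ≤ Real.log N := Real.log_nonneg (by linarith)
  have hlog8 : Real.log (8 * (g : ℝ)) ≤ 2 * Real.log N := by
    have : 2 * Real.log N = Real.log (N ^ 2) := by
      rw [Real.log_pow]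
      push_cast
      ring
    rw [this]
    apply Real.log_le_log (by linarith)
    nlinarith
  have hlog80 : 0 ≤ Real.log (8 * (g : ℝ)) := Real.log_nonneg (by linarith)
  have hd1 : 1 ≤ (2 * g + 1) ^ 2 - 3 * (2 * g + 1) := by
    have h1 : (2 * g + 1) ^ 2 = (2 * g + 1) * (2 * g + 1) := by ring
    have h2 : 4 * (2 * g + 1) ≤ (2 * g + 1) * (2 * g + 1) := Nat.mul_le_mul_right _ (by omega)
    omega
  have hdle : (((2 * g + 1) ^ 2 - 3 * (2 * g + 1) : ℕ) : ℝ) ≤ N ^ 2 := by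
    have h1 : (2 * g + 1) ^ 2 - 3 * (2 * g + 1) ≤ (2 * g + 1) ^ 2 := Nat.sub_le _ _
    have h2 : (((2 * g + 1) ^ 2 - 3 * (2 * g + 1) : ℕ) : ℝ) ≤ (((2 * g + 1) ^ 2 : ℕ) : ℝ) := by
      exact_mod_cast h1
    refine h2.trans (le_of_eq ?_)
    push_cast
    rw [hN]
  have hlogd : Real.log (((2 * g + 1) ^ 2 - 3 * (2 * g + 1) : ℕ) : ℝ) ≤ 2 * Real.log N := by
    have : 2 * Real.log N = Real.log (N ^ 2) := by
      rw [Real.log_pow]
      push_cast
      ring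
    rw [this]
    apply Real.log_le_log _ hdle
    exact_mod_cast hd1
  rw [e1, e2]
  have hG : (g : ℝ) = (N - 1) / 2 := by rw [hN]; ring
  constructor
  · have h1 := log_div_le (N := N) (by linarith)
    have h2 : (4000 : ℝ) ≤ Real.sqrt N := by
      apply Real.le_sqrt_of_sq_le
      nlinarith
    have h3 : 2 / Real.sqrt N ≤ 1 / 2000 := by
      rw [div_le_div_iff₀ (by linarith) (by norm_num)]
      linarith
    have h4 : 200 * Real.log N / N ≤ 1 / 10 := by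
      rw [mul_div_assoc]
      linarith
    have h5 : 0 ≤ Real.log (8 * (g : ℝ)) / g := by positivity
    linarith
  · have h1 : 40 * Real.log (((2 * g + 1) ^ 2 - 3 * (2 * g + 1) : ℕ) : ℝ) / ((g : ℝ) - 1) ≤
        170 * (Real.log N / N) := by
      have h2 : 40 * Real.log (((2 * g + 1) ^ 2 - 3 * (2 * g + 1) : ℕ) : ℝ) / ((g : ℝ) - 1) ≤
          80 * Real.log N / ((g : ℝ) - 1) := by
        apply div_le_div_of_nonneg_right _ (by linarith)
        linarith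
      refine h2.trans ?_
      rw [mul_div_assoc', div_le_div_iff₀ (by linarith) (by linarith), hG]
      nlinarith
    have h3 : Real.log (8 * (g : ℝ)) / g ≤ 5 * (Real.log N / N) := by
      have h4 : Real.log (8 * (g : ℝ)) / g ≤ 2 * Real.log N / g := by
        apply div_le_div_of_nonneg_right hlog8 (by linarith)
      refine h4.trans ?_
      rw [mul_div_assoc', div_le_div_iff₀ (by linarith) (by linarith), hG]
      nlinarith
    have h5 : 0 ≤ Real.log N / N := by positivity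
    have h6 : 200 * Real.log N / N = 200 * (Real.log N / N) := by ring
    rw [h6]
    linarith

theorem t_H1 (hP : PXV) (hA : AdmStm) (hF1 : S_H1F) (hEUL : PS.S_EUL) (hDSUM : PS.S_DSUM) (hM : S_AFM) :
    H1Stm := by
  classical
  obtain ⟨d₀, hP⟩ := hP
  obtain ⟨d₁, D₃, hA⟩ := hA
  obtain ⟨g₁, hF1⟩ := hF1
  refine ⟨10 ^ 7 + d₀ + 7 * D₃ + d₁ + g₁, ?_⟩
  intro g hg F _ _ hF θ hθ D ε hDD hε hεc
  have hq3 : 3 ≤ qq F := three_le_qq hF
  have hq0 : 0 < qq F := by linarith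
  have hq1 : 1 ≤ qq F := by linarith
  have hqq : (Fintype.card F : ℝ) = qq F := rfl
  have hg7 : 10 ^ 7 ≤ g := by omega
  have hgr : (10 ^ 7 : ℝ) ≤ g := by exact_mod_cast hg7
  obtain ⟨v, hv⟩ := hF1 g (by omega)
  let y : F[X] → ℝ := fun P => qq F ^ (θ P * P.natDegree)
  have hy1 : ∀ P, 1 ≤ y P := by
    intro P
    apply Real.one_le_rpow hq1
    have := (hθ P).1
    positivity
  have hy0 : ∀ P, 0 < y P := fun P => lt_of_lt_of_le one_pos (hy1 P)
  have hyk : ∀ (P : F[X]) (k : ℕ), y P ^ k ≤ qq F ^ (1 / 2 * ((k : ℝ) * P.natDegree)) := by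
    intro P k
    show (qq F ^ (θ P * P.natDegree)) ^ k ≤ _
    rw [← Real.rpow_natCast (qq F ^ (θ P * P.natDegree)) k, ← Real.rpow_mul hq0.le]
    apply Real.rpow_le_rpow_of_exponent_le hq1
    have h1 := (hθ P).2
    have h2 : (0 : ℝ) ≤ (k : ℝ) * P.natDegree := by positivity
    calc θ P * P.natDegree * k = θ P * (k * P.natDegree) := by ring
      _ ≤ 1 / 2 * (k * P.natDegree) := mul_le_mul_of_nonneg_right h1.le h2
  let V : F[X] → ℝ → ℕ → ℝ := fun P => v (y P)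
  have hg0 : (0 : ℝ) < g := by linarith
  have hFull : FullF F (g - 1) (1 / 2 + 1 / (g : ℝ)) V := by
    refine ⟨fun P => (hv (y P) (hy1 P)).1, fun P => (hv (y P) (hy1 P)).2.1,
      fun P => (hv (y P) (hy1 P)).2.2.1, ?_, ?_⟩
    · intro P z k hz
      refine ((hv (y P) (hy1 P)).2.2.2.1 z k hz).trans ?_
      apply mul_le_mul_of_nonneg_left _ (by positivity)
      refine (hyk P k).trans ?_
      apply Real.rpow_le_rpow_of_exponent_le hq1
      apply mul_le_mul_of_nonneg_right _ (by positivity)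
      have : 0 ≤ 1 / (g : ℝ) := by positivity
      linarith
    · intro P k hP1
      refine ((hv (y P) (hy1 P)).2.2.2.2.1 k).trans ?_
      have h1 : (3 : ℝ) ^ ((k : ℝ) / g) ≤ qq F ^ (1 / (g : ℝ) * ((k : ℝ) * P.natDegree)) := by
        calc (3 : ℝ) ^ ((k : ℝ) / g) ≤ qq F ^ ((k : ℝ) / g) :=
              Real.rpow_le_rpow (by norm_num) hq3 (by positivity)
          _ ≤ _ := by
              apply Real.rpow_le_rpow_of_exponent_le hq1
              have h2 : (1 : ℝ) ≤ P.natDegree := by exact_mod_cast hP1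
              have h3 : (k : ℝ) / g = 1 / (g : ℝ) * ((k : ℝ) * 1) := by ring
              rw [h3]
              gcongr
      calc (3 : ℝ) ^ ((k : ℝ) / g) * y P ^ k ≤
          qq F ^ (1 / (g : ℝ) * ((k : ℝ) * P.natDegree)) * qq F ^ (1 / 2 * ((k : ℝ) * P.natDegree)) :=
            mul_le_mul h1 (hyk P k) (by have := hy0 P; positivity) (by positivity)
        _ = qq F ^ ((1 / 2 + 1 / (g : ℝ)) * ((k : ℝ) * P.natDegree)) := by
            rw [← Real.rpow_add hq0]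
            congr 1
            ring
  have hadm : Adm F (2 * g) D₃ V := hA (2 * g) (by omega) F hF (g - 1) (by omega) (by omega)
    (1 / 2 + 1 / (g : ℝ)) (by positivity) (num_H1 hg7) V hFull
  obtain ⟨a, hgood, hmass, hmain⟩ := hP D₃ (2 * g) (by omega) F hF V hadm D ε _ (data0 hDD hε hεc)
  have hsmall : ∀ P : F[X], P.Monic → Irreducible P → |a P| ≤ 1 / 100 := by
    intro P h1 h2
    exact (hgood P.natDegree).small P.natDegree le_rfl P (mem_PI.2 ⟨h1, rfl, h2⟩)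
  have hv0 : ∀ P : F[X], Vo V a P 0 = 1 := fun P => hadm.zero P _
  have hβ : ∀ P : F[X], ∃ β : Fin g → ℂ, P.Monic → Irreducible P → (∀ j, ‖β j‖ = 1) ∧ ∏ j, β j = 1 ∧
      (∀ w : ℂ, ∏ j, (1 - conj (β j) * w) = ∏ j, (1 - β j * w)) ∧
      ∀ w : ℂ, y P * ‖w‖ < 1 → HasSum (fun k : ℕ => (Vo V a P k : ℂ) * w ^ k)
        (∏ j, ((1 - (y P : ℂ) * β j * w)⁻¹ * (1 - (((y P)⁻¹ : ℝ) : ℂ) * β j * w)⁻¹)) := by
    intro P
    by_cases h1 : P.Monic ∧ Irreducible P
    · obtain ⟨β, h2⟩ := (hv (y P) (hy1 P)).2.2.2.2.2 (a P) (hsmall P h1.1 h1.2)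
      exact ⟨β, fun _ _ => h2⟩
    · exact ⟨fun _ => 1, fun h2 h3 => absurd ⟨h2, h3⟩ h1⟩
  choose β hβ using hβ
  refine ⟨β, fun P h1 h2 => ⟨(hβ P h1 h2).1, (hβ P h1 h2).2.1⟩, fun P h1 h2 => (hβ P h1 h2).2.2.1, ?_⟩
  intro Q l χ hχ
  have hcm := hay_cm hχ.1
  obtain ⟨hz, hfe, _⟩ := hmain Q l χ hχ
  have hchi : ∀ f : F[X], ‖χ f‖ ≤ 1 := fun f => norm_le_one hχ.1 f
  have hser : ∀ s : ℂ, 1 - 5 / (4 * (g : ℝ)) ≤ s.re → ∀ P : Place F,
      y P.1 * ‖χ P.1 * absPow P.1 s‖ < 1 ∧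
      HasSum (fun k : ℕ => (Vo V a P.1 k : ℂ) * (χ P.1 * absPow P.1 s) ^ k) (stFactor θ β χ s P) := by
    intro s hs
    rintro ⟨P, h1, h2⟩
    have hdeg : (1 : ℝ) ≤ P.natDegree := by exact_mod_cast h2.natDegree_pos
    have h3 : y P * ‖χ P * absPow P s‖ < 1 := by
      calc y P * ‖χ P * absPow P s‖ ≤ qq F ^ (θ P * P.natDegree) * qq F ^ (-s.re * P.natDegree) :=
            mul_le_mul_of_nonneg_left (chi_abs_le hq0 hchi P s) (hy0 P).le
        _ = qq F ^ ((θ P - s.re) * P.natDegree) := by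
            rw [← Real.rpow_add hq0]
            congr 1
            ring
        _ < 1 := by
            apply Real.rpow_lt_one_of_one_lt_of_neg (by linarith)
            apply mul_neg_of_neg_of_pos _ (by linarith)
            have h4 : 5 / (4 * (g : ℝ)) ≤ 1 / 2 := by
              rw [div_le_div_iff₀ (by linarith) (by norm_num)]
              linarith
            have := (hθ P).2
            linarith
    exact ⟨h3, (hβ P h1 h2).2.2.2 _ h3⟩
  have hre : ∀ s : ℂ, 1 - 5 / (4 * (g : ℝ)) ≤ s.re → 1 - 5 / (2 * ((2 * g : ℕ) : ℝ)) ≤ s.re := by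
    intro s hs
    refine le_trans (le_of_eq ?_) hs
    push_cast
    ring
  have hloc : ∀ s : ℂ, 1 - 5 / (4 * (g : ℝ)) ≤ s.re →
      HasProd (stFactor θ β χ s) (Ls (Fintype.card F) (D Q l χ) (ef (Vo V a) χ) s) := by
    intro s hs
    exact gen_euler hEUL hDSUM hM hq3 (by omega : 1 ≤ 2 * g) hv0 hcm hchi hmass hz (hre s hs)
      (fun P => (hser s hs P).2)
  refine ⟨Ls (Fintype.card F) (D Q l χ) (ef (Vo V a) χ),
    gen_nice (Fintype.card_pos) (hε χ) (ef_zero hM hv0 hcm.1) hfe, fun s hs => ⟨?_, hloc s hs⟩⟩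
  refine gen_ne_zero hDSUM hM hq3 (by omega : 1 ≤ 2 * g) hv0 hcm hchi hmass (hre s hs) (hloc s hs) ?_
    (fun P => (hser s hs P).2)
  intro P'
  have h3 := (hser s hs P').1
  obtain ⟨P, h1, h2⟩ := P'
  have hone : ∀ w : ℂ, ‖w‖ < 1 → 1 - w ≠ 0 := by
    intro w hw h3
    have h4 : w = 1 := (sub_eq_zero.1 h3).symm
    rw [h4, norm_one] at hw
    exact lt_irrefl _ hw
  have h4 : y P * ‖χ P * absPow P s‖ < 1 := h3
  unfold stFactor
  rw [prod_ne_zero_iff]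
  intro j _
  have hb1 := (hβ P h1 h2).1 j
  refine mul_ne_zero (inv_ne_zero (hone _ ?_)) (inv_ne_zero (hone _ ?_))
  · show ‖((y P : ℝ) : ℂ) * β P j * (χ P * absPow P s)‖ < 1
    rw [norm_mul, norm_mul, hb1, mul_one, Complex.norm_real, Real.norm_eq_abs, abs_of_pos (hy0 P)]
    exact h4
  · show ‖(((y P)⁻¹ : ℝ) : ℂ) * β P j * (χ P * absPow P s)‖ < 1
    rw [norm_mul, norm_mul, hb1, mul_one, Complex.norm_real, Real.norm_eq_abs, abs_of_pos (inv_pos.2 (hy0 P))]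
    refine lt_of_le_of_lt ?_ h4
    apply mul_le_mul_of_nonneg_right _ (norm_nonneg _)
    exact (inv_le_one_of_one_le₀ (hy1 P)).trans (hy1 P)

theorem al2_norm {g : ℕ} {y : ℝ} (hy : 1 ≤ y) {β : Fin g → ℂ} (hβ : ∀ j, ‖β j‖ = 1)
    (i : Unit ⊕ Fin g ⊕ Fin g) : ‖al2 y β i‖ ≤ y := by
  have hy0 : 0 < y := lt_of_lt_of_le one_pos hy
  rcases i with i | i | i
  · show ‖(1 : ℂ)‖ ≤ y
    rw [norm_one]
    exact hy
  · show ‖(y : ℂ) * β i‖ ≤ y
    rw [norm_mul, hβ, mul_one, Complex.norm_real, Real.norm_eq_abs, abs_of_pos hy0]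
  · show ‖((y⁻¹ : ℝ) : ℂ) * β i‖ ≤ y
    rw [norm_mul, hβ, mul_one, Complex.norm_real, Real.norm_eq_abs, abs_of_pos (inv_pos.2 hy0)]
    exact (inv_le_one_of_one_le₀ hy).trans hy

theorem t_H2 (hP : PXV) (hA : AdmStm) (hF2 : S_H2F) (hEUL : PS.S_EUL) (hDSUM : PS.S_DSUM)
    (hCMON : PS.S_CMON) (hM : S_AFM) : H2Stm := by
  classical
  obtain ⟨d₀, hP⟩ := hP
  obtain ⟨d₁, D₃, hA⟩ := hA
  obtain ⟨g₁, hF2⟩ := hF2
  refine ⟨10 ^ 7 + d₀ + 7 * D₃ + d₁ + g₁, ?_⟩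
  intro g hg F _ _ hF θ hθ D ε hDD hε hεc
  have hq3 : 3 ≤ qq F := three_le_qq hF
  have hq0 : 0 < qq F := by linarith
  have hq1 : 1 ≤ qq F := by linarith
  have hg7 : 10 ^ 7 ≤ g := by omega
  have hgr : (10 ^ 7 : ℝ) ≤ g := by exact_mod_cast hg7
  have hg0 : (0 : ℝ) < g := by linarith
  set N : ℝ := ((2 * g + 1 : ℕ) : ℝ) with hN
  have hN1 : (1 : ℝ) ≤ N := by
    rw [hN]
    push_cast
    linarith
  have hlN : 0 ≤ Real.log N / N := by
    have := Real.log_nonneg hN1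
    positivity
  set d : ℕ := (2 * g + 1) ^ 2 - 3 * (2 * g + 1) with hd
  have hdg : g ≤ d := by
    have h1 : (2 * g + 1) ^ 2 = (2 * g + 1) * (2 * g + 1) := by ring
    have h2 : 4 * (2 * g + 1) ≤ (2 * g + 1) * (2 * g + 1) := Nat.mul_le_mul_right _ (by omega)
    omega
  have hdr : (10 ^ 7 : ℝ) ≤ d := by
    have : 10 ^ 7 ≤ d := by omega
    exact_mod_cast this
  obtain ⟨v, hv⟩ := hF2 g (by omega)
  let y : F[X] → ℝ := fun P => qq F ^ (θ P * P.natDegree)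
  have hy1 : ∀ P, 1 ≤ y P := by
    intro P
    apply Real.one_le_rpow hq1
    have := (hθ P).1
    positivity
  have hy0 : ∀ P, 0 < y P := fun P => lt_of_lt_of_le one_pos (hy1 P)
  have hyk : ∀ (P : F[X]) (k : ℕ),
      y P ^ (2 * k) ≤ qq F ^ ((1 - 200 * Real.log N / N) * ((k : ℝ) * P.natDegree)) := by
    intro P k
    show (qq F ^ (θ P * P.natDegree)) ^ (2 * k) ≤ _
    rw [← Real.rpow_natCast (qq F ^ (θ P * P.natDegree)) (2 * k), ← Real.rpow_mul hq0.le]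
    apply Real.rpow_le_rpow_of_exponent_le hq1
    have h1 := (hθ P).2
    have h2 : (0 : ℝ) ≤ (k : ℝ) * P.natDegree := by positivity
    calc θ P * P.natDegree * ((2 * k : ℕ) : ℝ) = 2 * θ P * (k * P.natDegree) := by
          push_cast
          ring
      _ ≤ (1 - 200 * Real.log N / N) * (k * P.natDegree) := by
          apply mul_le_mul_of_nonneg_right _ h2
          calc 2 * θ P ≤ 2 * (1 / 2 - 100 * Real.log N / N) := by linarith
            _ = _ := by ring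
  let V : F[X] → ℝ → ℕ → ℝ := fun P => v (y P)
  set ϑ : ℝ := 1 - 200 * Real.log N / N + Real.log (8 * (g : ℝ)) / g with hϑ
  have hl8 : 0 ≤ Real.log (8 * (g : ℝ)) := Real.log_nonneg (by linarith)
  have hl8' : 0 ≤ Real.log (8 * (g : ℝ)) / g := by positivity
  have hnum := num_H2 hg7
  have hFull : FullF F (g - 1) ϑ V := by
    refine ⟨fun P => (hv (y P) (hy1 P)).1, fun P => (hv (y P) (hy1 P)).2.1,
      fun P => (hv (y P) (hy1 P)).2.2.1, ?_, ?_⟩
    · intro P z k hz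
      refine ((hv (y P) (hy1 P)).2.2.2.1 z k hz).trans ?_
      apply mul_le_mul_of_nonneg_left _ (by positivity)
      refine (hyk P k).trans ?_
      apply Real.rpow_le_rpow_of_exponent_le hq1
      apply mul_le_mul_of_nonneg_right _ (by positivity)
      linarith
    · intro P k hP1
      refine ((hv (y P) (hy1 P)).2.2.2.2.1 k).trans ?_
      have h1 : (8 * (g : ℝ)) ^ ((k : ℝ) / g) ≤
          qq F ^ (Real.log (8 * (g : ℝ)) / g * ((k : ℝ) * P.natDegree)) := by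
        have h2 : (1 : ℝ) ≤ P.natDegree := by exact_mod_cast hP1
        have h3 : Real.exp 1 ≤ qq F := by
          have := Real.exp_one_lt_d9
          linarith
        calc (8 * (g : ℝ)) ^ ((k : ℝ) / g) = Real.exp 1 ^ (Real.log (8 * (g : ℝ)) / g * ((k : ℝ) * 1)) := by
              rw [Real.rpow_def_of_pos (by linarith), ← Real.exp_mul, one_mul]
              congr 1
              ring
          _ ≤ qq F ^ (Real.log (8 * (g : ℝ)) / g * ((k : ℝ) * 1)) :=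
              Real.rpow_le_rpow (Real.exp_pos 1).le h3 (by positivity)
          _ ≤ _ := by
              apply Real.rpow_le_rpow_of_exponent_le hq1
              gcongr
      calc (8 * (g : ℝ)) ^ ((k : ℝ) / g) * y P ^ (2 * k) ≤
          qq F ^ (Real.log (8 * (g : ℝ)) / g * ((k : ℝ) * P.natDegree)) *
            qq F ^ ((1 - 200 * Real.log N / N) * ((k : ℝ) * P.natDegree)) :=
            mul_le_mul h1 (hyk P k) (by have := hy0 P; positivity) (by positivity)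
        _ = qq F ^ (ϑ * ((k : ℝ) * P.natDegree)) := by
            rw [← Real.rpow_add hq0]
            congr 1
            rw [hϑ]
            ring
  have hadm : Adm F d D₃ V := hA d (by omega) F hF (g - 1) (by omega) (by omega)
    ϑ hnum.1 hnum.2 V hFull
  obtain ⟨a, hgood, hmass, hmain⟩ := hP D₃ d (by omega) F hF V hadm D ε _ (data0 hDD hε hεc)
  have hsmall : ∀ P : F[X], P.Monic → Irreducible P → |a P| ≤ 1 / 100 := by
    intro P h1 h2
    exact (hgood P.natDegree).small P.natDegree le_rfl P (mem_PI.2 ⟨h1, rfl, h2⟩)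
  have hv0 : ∀ P : F[X], Vo V a P 0 = 1 := fun P => hadm.zero P _
  have hβ : ∀ P : F[X], ∃ β : Fin g → ℂ, P.Monic → Irreducible P → (∀ j, ‖β j‖ = 1) ∧ ∏ j, β j = 1 ∧
      (∀ w : ℂ, ∏ j, (1 - conj (β j) * w) = ∏ j, (1 - β j * w)) ∧
      ∀ w : ℂ, y P ^ 2 * ‖w‖ < 1 → HasSum (fun k : ℕ => (Vo V a P k : ℂ) * w ^ k)
        ((1 - w) * ∏ i, ∏ j, (1 - al2 (y P) β i * conj (al2 (y P) β j) * w)⁻¹) := by
    intro P
    by_cases h1 : P.Monic ∧ Irreducible P
    · obtain ⟨β, h2⟩ := (hv (y P) (hy1 P)).2.2.2.2.2 (a P) (hsmall P h1.1 h1.2)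
      exact ⟨β, fun _ _ => h2⟩
    · exact ⟨fun _ => 1, fun h2 h3 => absurd ⟨h2, h3⟩ h1⟩
  choose β hβ using hβ
  refine ⟨β, fun P h1 h2 => ⟨(hβ P h1 h2).1, (hβ P h1 h2).2.1⟩, fun P h1 h2 => (hβ P h1 h2).2.2.1, ?_⟩
  intro Q l χ hχ
  have hcm := hay_cm hχ.1
  obtain ⟨hz, hfe, _⟩ := hmain Q l χ hχ
  have hchi : ∀ f : F[X], ‖χ f‖ ≤ 1 := fun f => norm_le_one hχ.1 f
  have hser : ∀ s : ℂ, 1 - 5 / (2 * (d : ℝ)) ≤ s.re → ∀ P : Place F,
      y P.1 ^ 2 * ‖χ P.1 * absPow P.1 s‖ < 1 ∧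
      HasSum (fun k : ℕ => (Vo V a P.1 k : ℂ) * (χ P.1 * absPow P.1 s) ^ k)
        ((1 - χ P.1 * absPow P.1 s) * rsFactor2 θ β χ s P) := by
    intro s hs
    rintro ⟨P, h1, h2⟩
    have hdeg : (1 : ℝ) ≤ P.natDegree := by exact_mod_cast h2.natDegree_pos
    have h3 : y P ^ 2 * ‖χ P * absPow P s‖ < 1 := by
      have h6 : y P ^ 2 = qq F ^ (2 * θ P * P.natDegree) := by
        show (qq F ^ (θ P * P.natDegree)) ^ 2 = _
        rw [← Real.rpow_natCast, ← Real.rpow_mul hq0.le]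
        congr 1
        push_cast
        ring
      calc y P ^ 2 * ‖χ P * absPow P s‖ ≤ qq F ^ (2 * θ P * P.natDegree) * qq F ^ (-s.re * P.natDegree) := by
            rw [h6]
            exact mul_le_mul_of_nonneg_left (chi_abs_le hq0 hchi P s) (by positivity)
        _ = qq F ^ ((2 * θ P - s.re) * P.natDegree) := by
            rw [← Real.rpow_add hq0]
            congr 1
            ring
        _ < 1 := by
            apply Real.rpow_lt_one_of_one_lt_of_neg (by linarith)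
            apply mul_neg_of_neg_of_pos _ (by linarith)
            have h7 : 5 / (2 * (d : ℝ)) < 200 * Real.log N / N := by
              have h8 : 1 ≤ Real.log N := by
                rw [Real.le_log_iff_exp_le (by linarith)]
                have := Real.exp_one_lt_d9
                have h9 : (10 ^ 7 : ℝ) ≤ N := by
                  rw [hN]
                  push_cast
                  linarith
                linarith
              have h9 : N ≤ 4 * d := by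
                rw [hN]
                have : 2 * g + 1 ≤ 4 * d := by omega
                exact_mod_cast this
              rw [div_lt_div_iff₀ (by linarith) (by linarith)]
              nlinarith
            have h10 := (hθ P).2
            have h11 : 2 * (100 * Real.log N / N) = 200 * Real.log N / N := by ring
            linarith
    exact ⟨h3, (hβ P h1 h2).2.2.2 _ h3⟩
  have hloc : ∀ s : ℂ, 1 - 5 / (2 * (d : ℝ)) ≤ s.re →
      HasProd (fun P : Place F => (1 - χ P.1 * absPow P.1 s) * rsFactor2 θ β χ s P)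
        (Ls (Fintype.card F) (D Q l χ) (ef (Vo V a) χ) s) := by
    intro s hs
    exact gen_euler hEUL hDSUM hM hq3 (by omega : 1 ≤ d) hv0 hcm hchi hmass hz hs
      (fun P => (hser s hs P).2)
  have hone : ∀ w : ℂ, ‖w‖ < 1 → 1 - w ≠ 0 := by
    intro w hw h3
    have h4 : w = 1 := (sub_eq_zero.1 h3).symm
    rw [h4, norm_one] at hw
    exact lt_irrefl _ hw
  have hnz : ∀ s : ℂ, 1 - 5 / (2 * (d : ℝ)) ≤ s.re →
      Ls (Fintype.card F) (D Q l χ) (ef (Vo V a) χ) s ≠ 0 := by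
    intro s hs
    refine gen_ne_zero hDSUM hM hq3 (by omega : 1 ≤ d) hv0 hcm hchi hmass hs (hloc s hs) ?_
      (fun P => (hser s hs P).2)
    intro P'
    have h3 := (hser s hs P').1
    obtain ⟨P, h1, h2⟩ := P'
    have h4 : y P ^ 2 * ‖χ P * absPow P s‖ < 1 := h3
    have hw0 : 0 ≤ ‖χ P * absPow P s‖ := norm_nonneg _
    have h5 : ‖χ P * absPow P s‖ < 1 := by
      refine lt_of_le_of_lt ?_ h4
      have : 1 ≤ y P ^ 2 := one_le_pow₀ (hy1 P)
      nlinarith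
    refine mul_ne_zero (hone _ h5) ?_
    show ∏ i, ∏ j, (1 - al2 (y P) (β P) i * conj (al2 (y P) (β P) j) * (χ P * absPow P s))⁻¹ ≠ 0
    rw [prod_ne_zero_iff]
    intro i _
    rw [prod_ne_zero_iff]
    intro j _
    apply inv_ne_zero
    apply hone
    rw [norm_mul, norm_mul, RCLike.norm_conj]
    calc ‖al2 (y P) (β P) i‖ * ‖al2 (y P) (β P) j‖ * ‖χ P * absPow P s‖ ≤
        y P * y P * ‖χ P * absPow P s‖ := by
          apply mul_le_mul_of_nonneg_right _ hw0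
          exact mul_le_mul (al2_norm (hy1 P) (hβ P h1 h2).1 i) (al2_norm (hy1 P) (hβ P h1 h2).1 j)
            (norm_nonneg _) (hy0 P).le
      _ = y P ^ 2 * ‖χ P * absPow P s‖ := by ring
      _ < 1 := h4
  refine ⟨_, gen_nice (Fintype.card_pos) (hε χ) (ef_zero hM hv0 hcm.1) hfe, ?_,
    fun s hs => ⟨hnz s hs, hloc s hs⟩⟩
  intro s hs
  have h1 := dirichlet_euler hEUL hDSUM hCMON hq3 hcm hchi hs
  have h2 := hloc s (by
    have : 0 ≤ 5 / (2 * (d : ℝ)) := by positivity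
    linarith)
  refine (congrArg (fun G => HasProd G (dirichletL χ s *
    Ls (Fintype.card F) (D Q l χ) (ef (Vo V a) χ) s)) ?_).mpr (h1.mul h2)
  funext P'
  obtain ⟨P, hP1, hP2⟩ := P'
  have hx : ‖χ P * absPow P s‖ < 1 := by
    refine lt_of_le_of_lt (chi_abs_le hq0 hchi P s) ?_
    apply Real.rpow_lt_one_of_one_lt_of_neg (by linarith)
    have h5 : (1 : ℝ) ≤ P.natDegree := by exact_mod_cast hP2.natDegree_pos
    nlinarith
  have h3 : 1 - χ P * absPow P s ≠ 0 := hone _ hx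
  show rsFactor2 θ β χ s ⟨P, hP1, hP2⟩ = (1 - χ P * absPow P s)⁻¹ *
    ((1 - χ P * absPow P s) * rsFactor2 θ β χ s ⟨P, hP1, hP2⟩)
  rw [inv_mul_cancel_left₀ h3]

end Pool.Agent.Q284.PX
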