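import Pool.Agent.Q284.PX.Fin
import Pool.Agent.Q284.PS.Ass

/-!
# Project PX: Euler products and functional equations from the coefficients
-/

set_option autoImplicit false

open Finset Polynomial ComplexConjugate
open Pool.Agent.H341R2.Sharp (Mon mem_Mon)

namespace Pool.Agent.Q284.PX

open Pool.Agent.Q284.PS

/-- the sum of the series at `s` -/
noncomputable def Ls (q : ℕ) (D : ℕ) (e : ℕ → ℂ) (s : ℂ) : ℂ := ∑ k ∈ range (D + 1), e k * ((q : ℂ) ^ (-s)) ^ k

/-- the functional equation from the symmetry of the coefficients -/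
theorem gen_nice {q : ℕ} (hq : 0 < q) {D : ℕ} {ε : ℂ} (hε : ‖ε‖ = 1) {e : ℕ → ℂ} (he0 : e 0 = 1)
    (hfe : ∀ n m : ℕ, n + m = D → m ≤ n → e n = ε * (Real.sqrt q : ℂ) ^ (n - m) * conj (e m)) :
    Nice q D ε (Ls q D e) := by
  have hq0 : (0 : ℝ) < (q : ℝ) := by exact_mod_cast hq
  have hqC : (q : ℂ) = (((q : ℝ) : ℝ) : ℂ) := by push_cast; rfl
  have hq0C : (q : ℂ) ≠ 0 := by exact_mod_cast hq.ne'
  have hr0 : (Real.sqrt q : ℂ) ≠ 0 := by
    have : 0 < Real.sqrt q := Real.sqrt_pos.2 hq0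
    exact_mod_cast this.ne'
  have hsym : ∀ k m : ℕ, k + m = D →
      e k * (Real.sqrt q : ℂ) ^ m = ε * (Real.sqrt q : ℂ) ^ k * conj (e m) := by
    intro k m hkm
    rcases le_total m k with h | h
    · rw [hfe k m hkm h]
      have h2 : (Real.sqrt q : ℂ) ^ k = (Real.sqrt q : ℂ) ^ (k - m) * (Real.sqrt q : ℂ) ^ m := by
        rw [← pow_add]
        congr 1
        omega
      rw [h2]
      ring
    · have h1 := hfe m k (by omega) h
      have h2 : conj (e m) = conj ε * (Real.sqrt q : ℂ) ^ (m - k) * e k := by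
        rw [h1, map_mul, map_mul, map_pow, Complex.conj_ofReal, Complex.conj_conj]
      rw [h2]
      have h3 : ε * conj ε = 1 := by
        rw [Complex.mul_conj, Complex.normSq_eq_norm_sq, hε]
        norm_num
      have h4 : (Real.sqrt q : ℂ) ^ m = (Real.sqrt q : ℂ) ^ (m - k) * (Real.sqrt q : ℂ) ^ k := by
        rw [← pow_add]
        congr 1
        omega
      rw [h4]
      linear_combination (-(e k * (Real.sqrt q : ℂ) ^ (m - k) * (Real.sqrt q : ℂ) ^ k)) * h3
  refine ⟨?_, ?_, ?_⟩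
  · -- differentiable
    intro s
    refine DifferentiableAt.fun_sum ?_
    intro k _
    refine DifferentiableAt.const_mul ?_ _
    refine DifferentiableAt.pow ?_ _
    exact DifferentiableAt.const_cpow differentiableAt_id.neg (Or.inl hq0C)
  · -- polynomial of degree `D`
    refine ⟨∑ k ∈ range (D + 1), C (e k) * X ^ k, ?_, ?_⟩
    · apply natDegree_eq_of_le_of_coeff_ne_zero
      · apply natDegree_sum_le_of_forall_le
        intro k hk
        rw [mem_range] at hk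
        exact (natDegree_C_mul_X_pow_le _ _).trans (by omega)
      · rw [finsetSum_coeff, sum_eq_single D]
        · rw [coeff_C_mul_X_pow, if_pos rfl]
          have h1 := hsym D 0 (by omega)
          rw [pow_zero, mul_one, he0, map_one, mul_one] at h1
          rw [h1]
          have h2 : ε ≠ 0 := by
            intro h3
            rw [h3, norm_zero] at hε
            norm_num at hε
          exact mul_ne_zero h2 (pow_ne_zero _ hr0)
        · intro k _ hk
          rw [coeff_C_mul_X_pow, if_neg (Ne.symm hk)]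
        · intro h
          exact absurd (mem_range.2 (Nat.lt_succ_self D)) h
    · intro s
      rw [eval_finsetSum]
      apply sum_congr rfl
      intro k _
      rw [eval_mul, eval_C, eval_pow, eval_X]
  · -- functional equation
    intro s
    have hrr : ∀ k : ℕ, (Real.sqrt q : ℂ) ^ k = (q : ℂ) ^ ((k : ℂ) / 2) := by
      intro k
      rw [hqC, Real.sqrt_eq_rpow, Complex.ofReal_cpow hq0.le, ← Complex.cpow_mul_nat]
      congr 1
      push_cast
      ring
    show ∑ k ∈ range (D + 1), e k * ((q : ℂ) ^ (-s)) ^ k = ε *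
      (q : ℂ) ^ ((D : ℂ) * (1 / 2 - s)) *
      conj (∑ k ∈ range (D + 1), e k * ((q : ℂ) ^ (-(1 - conj s))) ^ k)
    rw [map_sum, mul_sum, ← Finset.sum_range_reflect]
    apply sum_congr rfl
    intro k hk
    rw [mem_range] at hk
    have hk' : D + 1 - 1 - k = D - k := by omega
    rw [hk', map_mul, map_pow]
    have h1 : conj ((q : ℂ) ^ (-(1 - conj s))) = (q : ℂ) ^ (-(1 - s)) := by
      have h5 := Complex.conj_cpow ((q : ℝ) : ℂ) (-(1 - s)) (by
        rw [Complex.arg_ofReal_of_nonneg hq0.le]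
        exact Real.pi_pos.ne)
      rw [Complex.conj_ofReal, map_neg, map_sub, map_one] at h5
      rw [hqC, h5]
    rw [h1]
    have h2 := hsym (D - k) k (by omega)
    have h3 : e (D - k) = ε * ((q : ℂ) ^ (((D - k : ℕ) : ℂ) / 2) *
        (q : ℂ) ^ (-((k : ℂ) / 2))) * conj (e k) := by
      rw [Complex.cpow_neg, ← hrr, ← hrr]
      field_simp
      linear_combination h2
    rw [h3, ← Complex.cpow_mul_nat, ← Complex.cpow_mul_nat, ← Complex.cpow_add _ _ hq0C]
    have h4 : (q : ℂ) ^ (((D - k : ℕ) : ℂ) / 2 + -((k : ℂ) / 2)) *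
        (q : ℂ) ^ (-s * ((D - k : ℕ) : ℂ)) =
        (q : ℂ) ^ ((D : ℂ) * (1 / 2 - s)) * (q : ℂ) ^ (-(1 - s) * (k : ℂ)) := by
      rw [← Complex.cpow_add _ _ hq0C, ← Complex.cpow_add _ _ hq0C]
      congr 1
      rw [Nat.cast_sub (by omega)]
      ring
    linear_combination (ε * conj (e k)) * h4

theorem ef_zero {F : Type} [Field F] [Fintype F] (hM : S_AFM) {v : F[X] → ℕ → ℝ} (hv : ∀ P : F[X], v P 0 = 1)
    {χ : F[X] → ℂ} (hχ : χ 1 = 1) : ef v χ 0 = 1 := by
  classical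
  unfold ef
  rw [Pool.Agent.H341R2.Sharp.Mon_zero, sum_singleton, (hM F v hv).1, hχ]
  simp

theorem absPow_eq {F : Type} [Field F] [Fintype F] (P : F[X]) (s : ℂ) :
    absPow P s = ((Fintype.card F : ℂ) ^ (-s)) ^ P.natDegree := by
  unfold absPow
  rw [← Complex.cpow_mul_nat]

theorem norm_z {F : Type} [Field F] [Fintype F] (hq : 0 < qq F) (s : ℂ) :
    ‖(Fintype.card F : ℂ) ^ (-s)‖ = qq F ^ (-s.re) := by
  have hqC : ((Fintype.card F : ℕ) : ℂ) = ((qq F : ℝ) : ℂ) := by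
    unfold qq
    simp
  rw [hqC, Complex.norm_cpow_eq_rpow_re_of_pos hq]
  simp

/-- the Euler product -/
theorem gen_euler (hEUL : PS.S_EUL) (hDSUM : PS.S_DSUM) (hM : S_AFM) {F : Type} [Field F] [Fintype F]
    (hq : 3 ≤ qq F) {d : ℕ} (hd : 1 ≤ d) {v : F[X] → ℕ → ℝ} (hv : ∀ P : F[X], v P 0 = 1)
    {χ : F[X] → ℂ} (hcm : CM χ) (hchi : ∀ f : F[X], ‖χ f‖ ≤ 1) {c : ℝ}
    (hmass : ∀ n : ℕ, 1 ≤ n → ∑ f ∈ Mon F n, |AF v f| ≤ c * w2 (qq F) d n) {D : ℕ}
    (hz : ∀ n : ℕ, D < n → ef v χ n = 0) {s : ℂ} (hs : 1 - 5 / (2 * (d : ℝ)) ≤ s.re) {G : Place F → ℂ}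
    (hG : ∀ P : Place F, HasSum (fun k : ℕ => (v P.1 k : ℂ) * (χ P.1 * absPow P.1 s) ^ k) (G P)) :
    HasProd G (Ls (Fintype.card F) D (ef v χ) s) := by
  classical
  have hq0 : 0 < qq F := by linarith
  have hd0 : (0 : ℝ) < d := by exact_mod_cast hd
  set z : ℂ := (Fintype.card F : ℂ) ^ (-s) with hzd
  have hznorm : ‖z‖ = qq F ^ (-s.re) := norm_z hq0 s
  have hsum : Summable (fun k : ℕ => (∑ f ∈ Mon F k, ‖(AF v f : ℂ) * χ f‖) * ‖z‖ ^ k) := by
    rw [← summable_nat_add_iff 1]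
    have h1 : Summable (fun k : ℕ => 1 / ((k + 1 : ℕ) : ℝ) ^ ((5 : ℝ) / 2)) := by
      have := (Real.summable_one_div_nat_rpow (p := (5 : ℝ) / 2)).2 (by norm_num)
      exact (summable_nat_add_iff 1).2 this
    refine Summable.of_nonneg_of_le (fun k => by positivity) (fun k => ?_) (h1.mul_left |c|)
    have h2 := hmass (k + 1) (by omega)
    have h3 : ∑ f ∈ Mon F (k + 1), ‖(AF v f : ℂ) * χ f‖ ≤ ∑ f ∈ Mon F (k + 1), |AF v f| := by
      apply sum_le_sum
      intro f _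
      rw [norm_mul, Complex.norm_real, Real.norm_eq_abs]
      have := hchi f
      have h4 := abs_nonneg (AF v f)
      nlinarith
    have h5 : w2 (qq F) d (k + 1) * ‖z‖ ^ (k + 1) ≤ 1 / ((k + 1 : ℕ) : ℝ) ^ ((5 : ℝ) / 2) := by
      unfold w2
      rw [hznorm, ← Real.rpow_natCast (qq F ^ (-s.re)) (k + 1), ← Real.rpow_mul hq0.le, div_mul_eq_mul_div,
        ← Real.rpow_add hq0]
      apply div_le_div_of_nonneg_right _ (by positivity)
      apply Real.rpow_le_one_of_one_le_of_nonpos (by linarith)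
      have h6 : (0 : ℝ) ≤ ((k + 1 : ℕ) : ℝ) := by positivity
      nlinarith
    calc (∑ f ∈ Mon F (k + 1), ‖(AF v f : ℂ) * χ f‖) * ‖z‖ ^ (k + 1)
        ≤ (c * w2 (qq F) d (k + 1)) * ‖z‖ ^ (k + 1) :=
          mul_le_mul_of_nonneg_right (h3.trans h2) (by positivity)
      _ ≤ (|c| * w2 (qq F) d (k + 1)) * ‖z‖ ^ (k + 1) := by
          apply mul_le_mul_of_nonneg_right _ (by positivity)
          exact mul_le_mul_of_nonneg_right (le_abs_self c) (w2_nonneg hq0.le d (k + 1))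
      _ = |c| * (w2 (qq F) d (k + 1) * ‖z‖ ^ (k + 1)) := by ring
      _ ≤ |c| * (1 / ((k + 1 : ℕ) : ℝ) ^ ((5 : ℝ) / 2)) := mul_le_mul_of_nonneg_left h5 (abs_nonneg c)
  obtain ⟨h1, h2⟩ := hDSUM F (fun f => (AF v f : ℂ) * χ f) z hsum
  obtain ⟨m1, m2, m3, _, _⟩ := hM F v hv
  have h3 := hEUL F (fun f => (AF v f : ℂ) * χ f * z ^ f.natDegree) (by
      simp [m1, hcm.1]) (by
      intro f h hf hh hfh
      rw [m2 f h hf hh hfh, hcm.2 f h hf hh, hf.natDegree_mul hh, pow_add]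
      push_cast
      ring) h1
  have h4 : ∑' f : {f : F[X] // f.Monic}, (AF v f.1 : ℂ) * χ f.1 * z ^ f.1.natDegree =
      Ls (Fintype.card F) D (ef v χ) s := by
    rw [h2]
    rw [tsum_eq_sum (s := range (D + 1))]
    · rfl
    · intro k hk
      rw [mem_range, not_lt] at hk
      have : ∑ f ∈ Mon F k, (AF v f : ℂ) * χ f = 0 := hz k (by omega)
      rw [this, zero_mul]
  rw [h4] at h3
  refine (congrArg (fun G => HasProd G (Ls (Fintype.card F) D (ef v χ) s)) ?_).mpr h3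
  funext P'
  have h5 := hG P'
  obtain ⟨P, hP1, hP2⟩ := P'
  have h6 : (fun k : ℕ => (AF v (P ^ k) : ℂ) * χ (P ^ k) * z ^ (P ^ k).natDegree) =
      fun k : ℕ => (v P k : ℂ) * (χ P * absPow P s) ^ k := by
    funext k
    rw [m3 P k hP1 hP2, cm_pow hcm hP1, hP1.natDegree_pow, mul_pow, absPow_eq,
      mul_comm k P.natDegree, pow_mul]
    ring
  show G ⟨P, hP1, hP2⟩ = ∑' k : ℕ, (AF v (P ^ k) : ℂ) * χ (P ^ k) * z ^ (P ^ k).natDegree
  rw [h6, h5.tsum_eq]

end Pool.Agent.Q284.PX
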