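import Pool.Agent.Q284.PX.Eng4

/-!
# Project PX4: the local families at the zeros of the character of `V_((N-1)ρ)`
-/

set_option autoImplicit false

open Finset Polynomial ComplexConjugate

namespace Pool.Agent.Q284.PX

/-- the local families -/
def RFStm : Prop := ∀ (A : Type) [Fintype A] [DecidableEq A] (r : ℕ) (α : A → Fin r → ℝ) (a₀ : A),
  α a₀ ≠ 0 → (∀ b : A, b ≠ a₀ → LinearIndependent ℝ ![α a₀, α b]) →
  ∃ (C : ℝ) (N₀ : ℕ), 0 < C ∧ ∀ N : ℕ, N₀ ≤ N → ∀ φ : Fin r → ℝ, ∃ (V : ℝ → ℕ → ℝ) (ψ : ℝ → Fin r → ℝ),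
    (∀ z : ℝ, V z 0 = 1) ∧ (∀ z : ℝ, |z| ≤ 1 / 100 → V z 1 = z) ∧
    (∀ (z : ℝ) (k : ℕ), |z| ≤ 1 / 100 → 2 ≤ k → k < 100 →
      |V z k| ≤ ((N ^ Fintype.card A : ℕ) : ℝ) ^ 2 * |z|) ∧
    (∀ (z : ℝ) (k : ℕ), |z| ≤ 1 / 100 → |V z k| ≤ 2 * (3 : ℝ) ^ ((k : ℝ) / 64)) ∧
    ∀ z : ℝ, |z| ≤ eta (N ^ Fintype.card A) → (∀ i, |ψ z i - φ i| ≤ C / N) ∧
      ∀ w : ℂ, ‖w‖ < 1 → HasSum (fun k : ℕ => (V z k : ℂ) * w ^ k)
        (∏ x : A → Fin N, (1 - Complex.exp ((wt α N x (ψ z) : ℂ) * Complex.I) * w)⁻¹)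

/-- `log` is smaller than the integer square root -/
theorem log_sqrt (c : ℝ) : ∃ N₀ : ℕ, ∀ N : ℕ, N₀ ≤ N → c * Real.log N ≤ Nat.sqrt N := by
  have h1 := isLittleO_log_rpow_atTop (r := (1 : ℝ) / 2) (by norm_num)
  have h2 := h1.bound (show (0 : ℝ) < 1 / (2 * (|c| + 1)) by positivity)
  have h3 := h2.and (Filter.eventually_ge_atTop (4 : ℝ))
  rw [Filter.eventually_atTop] at h3
  obtain ⟨x₀, h4⟩ := h3
  refine ⟨⌈x₀⌉₊, ?_⟩
  intro N hN
  have h5 : x₀ ≤ (N : ℝ) := (Nat.le_ceil x₀).trans (by exact_mod_cast hN)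
  obtain ⟨h6, h7⟩ := h4 N h5
  have h8 : 0 ≤ Real.log N := Real.log_nonneg (by linarith)
  rw [Real.norm_eq_abs, Real.norm_eq_abs, abs_of_nonneg h8,
    abs_of_nonneg (show (0 : ℝ) ≤ (N : ℝ) ^ ((1 : ℝ) / 2) by positivity), ← Real.sqrt_eq_rpow] at h6
  have hs2 : (2 : ℝ) ≤ Real.sqrt N := Real.le_sqrt_of_sq_le (by linarith)
  have h9 : Real.sqrt N ≤ Nat.sqrt N + 1 := by
    apply Real.sqrt_le_iff.2
    refine ⟨by positivity, ?_⟩
    have := Nat.lt_succ_sqrt N
    have h10 : (N : ℝ) ≤ ((Nat.sqrt N + 1) * (Nat.sqrt N + 1) : ℕ) := by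
      exact_mod_cast this.le
    push_cast at h10
    nlinarith
  have h10 : Real.sqrt N / 2 ≤ Nat.sqrt N := by linarith
  refine le_trans ?_ h10
  calc c * Real.log N ≤ (|c| + 1) * Real.log N := by
        apply mul_le_mul_of_nonneg_right _ h8
        have := le_abs_self c
        linarith
    _ ≤ (|c| + 1) * (1 / (2 * (|c| + 1)) * Real.sqrt N) :=
        mul_le_mul_of_nonneg_left h6 (by positivity)
    _ = Real.sqrt N / 2 := by
        have : |c| + 1 ≠ 0 := by positivity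
        field_simp

theorem t_RF (hCHR : S_CHR) (hBPT : S_BPT) (hINV : S_INV) (hPSH : S_PSH) (hPSB : S_PSB) : RFStm := by
  classical
  intro A _ _ r α a₀ h0 hli
  obtain ⟨C, c, η, hC, hc, hη, hbase⟩ := hBPT A r α a₀ h0 hli
  obtain ⟨C₁, N₁, hC₁, hinv⟩ := hINV A r α a₀ η c hc hη
  obtain ⟨D₀, hPSB⟩ := hPSB
  obtain ⟨N₂, hlog⟩ := log_sqrt (100 * Fintype.card A)
  set E : ℝ := ∑ i, |η i| with hE
  have hE0 : 0 ≤ E := sum_nonneg fun _ _ => abs_nonneg _
  refine ⟨C + C₁ * E, 2 + N₁ + N₂ + D₀ + ⌈2 * C₁⌉₊ + ⌈100 * C₁ ^ 2⌉₊, by positivity, ?_⟩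
  intro N hN φ
  have hN2 : 2 ≤ N := by omega
  have hNr : (2 : ℝ) ≤ N := by exact_mod_cast hN2
  have hN0 : (0 : ℝ) < N := by linarith
  have hcA : 1 ≤ Fintype.card A := Fintype.card_pos_iff.2 ⟨a₀⟩
  set d : ℕ := N ^ Fintype.card A with hd
  have hNd : N ≤ d := by
    calc N = N ^ 1 := (pow_one N).symm
      _ ≤ N ^ Fintype.card A := Nat.pow_le_pow_right (by omega) hcA
  have hdr : (N : ℝ) ≤ d := by exact_mod_cast hNd
  have hd0 : (0 : ℝ) < d := by linarith
  have hd1 : (1 : ℝ) ≤ d := by linarith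
  have hdC : 2 * C₁ ≤ d := by
    have h1 := Nat.le_ceil (2 * C₁)
    have h2 : ((⌈2 * C₁⌉₊ : ℕ) : ℝ) ≤ N := by
      have : ⌈2 * C₁⌉₊ ≤ N := by omega
      exact_mod_cast this
    linarith
  have hdC2 : 100 * C₁ ^ 2 ≤ d := by
    have h1 := Nat.le_ceil (100 * C₁ ^ 2)
    have h2 : ((⌈100 * C₁ ^ 2⌉₊ : ℕ) : ℝ) ≤ N := by
      have : ⌈100 * C₁ ^ 2⌉₊ ≤ N := by omega
      exact_mod_cast this
    linarith
  have hM : 100 * Real.log d ≤ Nat.sqrt N := by
    have h1 := hlog N (by omega)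
    have h2 : Real.log d = Fintype.card A * Real.log N := by
      rw [hd]
      push_cast
      rw [Real.log_pow]
    rw [h2]
    linarith
  have heta0 : 0 ≤ eta d := by
    unfold eta
    positivity
  have hd32 : (d : ℝ) ^ ((3 : ℝ) / 2) = d * Real.sqrt d := by
    rw [Real.sqrt_eq_rpow]
    have : ((3 : ℝ) / 2) = 1 + 1 / 2 := by norm_num
    rw [this, Real.rpow_add hd0, Real.rpow_one]
  have hs1 : 1 ≤ Real.sqrt d := Real.le_sqrt_of_sq_le (by linarith)
  have heta1 : eta d ≤ 1 / 1000 := by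
    unfold eta
    rw [hd32]
    rw [div_le_div_iff₀ (by positivity) (by norm_num)]
    nlinarith
  obtain ⟨φ₀, j, hφ₀, hj, hjk, hcb⟩ := hbase N (by omega) φ
  have hj1 : ¬ (N : ℤ) ∣ j := by
    have := hjk 1 le_rfl (by omega)
    rwa [Nat.cast_one, one_mul] at this
  -- for every parameter
  have key : ∀ z : ℝ, ∃ (v : ℕ → ℝ) (ψ : Fin r → ℝ), v 0 = 1 ∧ (|z| ≤ 1 / 100 → v 1 = z) ∧
      (∀ k : ℕ, |z| ≤ 1 / 100 → 2 ≤ k → k < 100 → |v k| ≤ (d : ℝ) ^ 2 * |z|) ∧
      (∀ k : ℕ, |z| ≤ 1 / 100 → |v k| ≤ 2 * (3 : ℝ) ^ ((k : ℝ) / 64)) ∧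
      (|z| ≤ eta d → (∀ i, |ψ i - φ i| ≤ (C + C₁ * E) / N) ∧
        ∀ w : ℂ, ‖w‖ < 1 → HasSum (fun k : ℕ => (v k : ℂ) * w ^ k)
          (∏ x : A → Fin N, (1 - Complex.exp ((wt α N x ψ : ℂ) * Complex.I) * w)⁻¹)) := by
    intro z
    by_cases hz : |z| ≤ eta d
    · obtain ⟨δ, hδ, hδz, hδk⟩ := hinv N (by omega) φ₀ j hj hj1 hcb z hz
      set ψ : Fin r → ℝ := fun i => φ₀ i + δ * η i with hψ
      obtain ⟨h, hh0, hhr, hhs⟩ := hPSH (A → Fin N) (fun x => Complex.exp ((wt α N x ψ : ℂ) * Complex.I))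
        (fun k => ch α N (fun i => (k : ℝ) * ψ i)) (fun x => Complex.norm_exp_ofReal_mul_I _)
        (fun k _ => hCHR.2.2.2 A r N α ψ k)
      set x : ℝ := C₁ * d * |z| with hx
      have hx0 : 0 ≤ x := by positivity
      have hx1 : x ≤ 1 / 10 ^ 4 := by
        have h1 : x ≤ C₁ * d * eta d := mul_le_mul_of_nonneg_left hz (by positivity)
        refine h1.trans ?_
        unfold eta
        rw [hd32]
        have h2 : 10 * C₁ ≤ Real.sqrt d := by
          apply Real.le_sqrt_of_sq_le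
          have h3 : (10 * C₁) ^ 2 = 100 * C₁ ^ 2 := by ring
          rw [h3]
          exact hdC2
        have h3 : C₁ * d * (1 / (1000 * (d * Real.sqrt d))) = C₁ / (1000 * Real.sqrt d) := by
          field_simp
        rw [h3, div_le_div_iff₀ (by positivity) (by norm_num)]
        linarith
      have hchN : ∀ θ : Fin r → ℝ, |ch α N θ| ≤ d := by
        intro θ
        unfold ch
        rw [abs_prod, hd]
        push_cast
        calc ∏ a, |DN N (lin (α a) θ)| ≤ ∏ _a : A, (N : ℝ) :=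
              prod_le_prod (fun _ _ => abs_nonneg _) fun a _ => (hCHR.1 N _).1
          _ = _ := by rw [prod_const, card_univ]
      have hb := hPSB d (by omega) (fun k => ch α N (fun i => (k : ℝ) * ψ i)) h x (Nat.sqrt N) hM hx0 hx1 hh0 hhr
        (by
          intro k hk1 hk2
          have h1 : k ^ 2 < N := by
            have h2 : k + 1 ≤ Nat.sqrt N := hk2
            have h3 := Nat.sqrt_le' N
            nlinarith
          refine (hδk k hk1 (hjk k hk1 h1)).trans (le_of_eq ?_)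
          rw [hx]
          ring)
        (fun k _ => hchN _)
      have hz1 : |z| ≤ 1 := by linarith
      refine ⟨h, ψ, hh0, ?_, ?_, fun k _ => hb.1 k, fun _ => ⟨?_, hhs⟩⟩
      · intro _
        have h1 := hhr 1 le_rfl
        simp only [Icc_self, sum_singleton, Nat.cast_one, one_mul, Nat.sub_self, hh0, mul_one] at h1
        rw [h1]
        exact hδz
      · intro k _ hk1 hk2
        refine (hb.2 k (by omega) hk2).trans ?_
        rw [hx]
        have h1 : 2 * (C₁ * d * |z|) = 2 * C₁ * (d * |z|) := by ring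
        have h2 : (d : ℝ) ^ 2 * |z| = d * (d * |z|) := by ring
        rw [h1, h2]
        exact mul_le_mul_of_nonneg_right hdC (by positivity)
      · intro i
        have h1 : ψ i - φ i = (φ₀ i - φ i) + δ * η i := by
          rw [hψ]
          ring
        have h2 : |η i| ≤ E := single_le_sum (f := fun i => |η i|) (fun _ _ => abs_nonneg _) (mem_univ i)
        rw [h1]
        refine (abs_add_le _ _).trans ?_
        rw [abs_mul, add_div]
        apply add_le_add (hφ₀ i)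
        have h3 : |δ| ≤ C₁ / N := by
          refine hδ.trans ?_
          apply div_le_div_of_nonneg_right _ hN0.le
          nlinarith
        calc |δ| * |η i| ≤ C₁ / N * E := mul_le_mul h3 h2 (abs_nonneg _) (by positivity)
          _ = C₁ * E / N := by ring
    · refine ⟨fun k => if k = 0 then 1 else if k = 1 then z else 0, φ, by simp, fun _ => by simp, ?_, ?_,
        fun h => absurd h hz⟩
      · intro k _ hk1 _
        simp only
        rw [if_neg (by omega), if_neg (by omega), abs_zero]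
        positivity
      · intro k hz1
        have h1 : (1 : ℝ) ≤ (3 : ℝ) ^ ((k : ℝ) / 64) := Real.one_le_rpow (by norm_num) (by positivity)
        simp only
        split_ifs
        · rw [abs_one]
          linarith
        · linarith
        · rw [abs_zero]
          positivity
  choose V ψ k1 k2 k3 k4 k5 using key
  exact ⟨V, ψ, k1, k2, k3, k4, k5⟩

end Pool.Agent.Q284.PX
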