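import Pool.Agent.Q284.PX.Adm4
import Pool.Agent.Q284.PX.Loc4
import Pool.Agent.Q284.PX.Ass3

/-!
# Project PX4: assembly
-/

set_option autoImplicit false

open Finset Polynomial ComplexConjugate
open Pool.Agent.H341R2.Sharp (Mon mem_Mon)

namespace Pool.Agent.Q284.PX

open Pool.Agent.Q284.PS hiding Good

section Final

variable {F : Type} [Field F] [Fintype F]

/-- the local factor at the place `P` of `L(s, V_((N-1)ρ) ⊗ χ)` for the classes `exp (i ψ P)` -/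
noncomputable def repFactor {A : Type} [Fintype A] [DecidableEq A] {r : ℕ} (α : A → Fin r → ℝ) (N : ℕ)
    (ψ : F[X] → Fin r → ℝ) (χ : F[X] → ℂ) (s : ℂ) (P : Place F) : ℂ :=
  ∏ x : A → Fin N, (1 - Complex.exp ((wt α N x (ψ P.1) : ℂ) * Complex.I) * (χ P.1 * absPow P.1 s))⁻¹

/-- the local factor at the place `P` of `L(s, Sym^(M-1) ⊗ χ)` for the Satake parameters `α P`, `1 / α P` -/
noncomputable def symFactor (M : ℕ) (α : F[X] → ℂ) (χ : F[X] → ℂ) (s : ℂ) (P : Place F) : ℂ :=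
  ∏ i : Fin M, (1 - α P.1 ^ ((M : ℤ) - 1 - 2 * (i.1 : ℤ)) * (χ P.1 * absPow P.1 s))⁻¹

end Final

/-- one representation with all its abelian twists -/
def AStm : Prop := ∀ (A : Type) [Fintype A] [DecidableEq A] (r : ℕ) (α : A → Fin r → ℝ) (a₀ : A),
  α a₀ ≠ 0 → (∀ b : A, b ≠ a₀ → LinearIndependent ℝ ![α a₀, α b]) →
  ∃ (C : ℝ) (N₀ : ℕ), ∀ N : ℕ, N₀ ≤ N → ∀ (F : Type) [Field F] [Fintype F], ringChar F ≠ 2 →
  ∀ φ : F[X] → Fin r → ℝ, ∀ (D : F[X] → ℕ → (F[X] → ℂ) → ℕ) (ε : (F[X] → ℂ) → ℂ),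
  (∀ (Q : F[X]) (l : ℕ) (χ : F[X] → ℂ), Prim Q l χ →
    N ^ Fintype.card A * (Q.natDegree + max 2 l - 1) ≤ D Q l χ ∧ D Q l (fun f => conj (χ f)) = D Q l χ) →
  (∀ χ, ‖ε χ‖ = 1) → (∀ χ, ε (fun f => conj (χ f)) = conj (ε χ)) →
  ∃ ψ : F[X] → Fin r → ℝ, (∀ P i, |ψ P i - φ P i| ≤ C / N) ∧
    ∀ (Q : F[X]) (l : ℕ) (χ : F[X] → ℂ), Prim Q l χ → ∃ L : ℂ → ℂ,
      Nice (Fintype.card F) (D Q l χ) (ε χ) L ∧
      ∀ s : ℂ, 1 - 5 / (2 * ((N ^ Fintype.card A : ℕ) : ℝ)) ≤ s.re →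
        L s ≠ 0 ∧ HasProd (repFactor α N ψ χ s) (L s)

/-- the symmetric power method -/
def BStm : Prop := ∃ (C : ℝ) (M₀ : ℕ), ∀ M : ℕ, M₀ ≤ M → ∃ m₀ : ℕ, ∀ (F : Type) [Field F] [Fintype F],
  ringChar F ≠ 2 → ∀ P₀ : F[X], P₀.Monic → Irreducible P₀ → m₀ ≤ P₀.natDegree →
  ∀ θ : ℝ, 0 ≤ θ → ((M : ℝ) - 1) * θ ≤ 1 - 6 / (M : ℝ) →
  ∀ φ : F[X] → ℝ, ∀ (D : F[X] → ℕ → (F[X] → ℂ) → ℕ) (ε : (F[X] → ℂ) → ℂ),
  (∀ (Q : F[X]) (l : ℕ) (χ : F[X] → ℂ), Prim Q l χ →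
    M * (Q.natDegree + max 2 l - 1) ≤ D Q l χ ∧ D Q l (fun f => conj (χ f)) = D Q l χ) →
  (∀ χ, ‖ε χ‖ = 1) → (∀ χ, ε (fun f => conj (χ f)) = conj (ε χ)) →
  ∃ (α : F[X] → ℂ) (ψ : F[X] → ℝ), α P₀ = (((Fintype.card F : ℝ) ^ (θ * P₀.natDegree) : ℝ) : ℂ) ∧
    (∀ P, P ≠ P₀ → α P = Complex.exp ((ψ P : ℂ) * Complex.I)) ∧ (∀ P, |ψ P - φ P| ≤ C / M) ∧
    ∀ (Q : F[X]) (l : ℕ) (χ : F[X] → ℂ), Prim Q l χ → ∃ L : ℂ → ℂ,
      Nice (Fintype.card F) (D Q l χ) (ε χ) L ∧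
      ∀ s : ℂ, 1 - 5 / (2 * (M : ℝ)) ≤ s.re → L s ≠ 0 ∧ HasProd (symFactor M α χ s) (L s)

theorem one_sub_ne {w : ℂ} (hw : ‖w‖ < 1) : 1 - w ≠ 0 := by
  intro h3
  have h4 : w = 1 := (sub_eq_zero.1 h3).symm
  rw [h4, norm_one] at hw
  exact lt_irrefl _ hw

/-- the size of `|P|^(-s)` to the right of `1 - 5/(2d)` -/
theorem chi_abs_lt {F : Type} [Field F] [Fintype F] (hq : 3 ≤ qq F) {χ : F[X] → ℂ}
    (hchi : ∀ f : F[X], ‖χ f‖ ≤ 1) {P : F[X]} (hP : 1 ≤ P.natDegree) {s : ℂ} (hs : 0 < s.re) :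
    ‖χ P * absPow P s‖ < 1 := by
  refine lt_of_le_of_lt (chi_abs_le (by linarith) hchi P s) ?_
  apply Real.rpow_lt_one_of_one_lt_of_neg (by linarith)
  have h5 : (1 : ℝ) ≤ P.natDegree := by exact_mod_cast hP
  nlinarith

theorem re_pos {d : ℕ} (hd : 1000 ≤ d) {s : ℂ} (hs : 1 - 5 / (2 * (d : ℝ)) ≤ s.re) : 0 < s.re := by
  have h1 : (1000 : ℝ) ≤ d := by exact_mod_cast hd
  have h2 : 5 / (2 * (d : ℝ)) ≤ 1 / 2 := by
    rw [div_le_div_iff₀ (by linarith) (by norm_num)]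
    linarith
  linarith

theorem t_A (hP : PXP) (hA : Adm4Stm) (hR : RFStm) (hEUL : PS.S_EUL) (hDSUM : PS.S_DSUM) (hM : S_AFM) :
    AStm := by
  classical
  obtain ⟨d₀, hP⟩ := hP
  obtain ⟨d₁, D₃, hA⟩ := hA
  intro A _ _ r α a₀ h0 hli
  obtain ⟨C, N₁, hC, hR⟩ := hR A r α a₀ h0 hli
  refine ⟨C, 1000 + d₀ + 7 * D₃ + d₁ + N₁, ?_⟩
  intro N hN F _ _ hF φ D ε hDD hε hεc
  have hq3 : 3 ≤ qq F := three_le_qq hF
  have hq0 : 0 < qq F := by linarith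
  have hcA : 1 ≤ Fintype.card A := Fintype.card_pos_iff.2 ⟨a₀⟩
  set d : ℕ := N ^ Fintype.card A with hd
  have hNd : N ≤ d := by
    calc N = N ^ 1 := (pow_one N).symm
      _ ≤ N ^ Fintype.card A := Nat.pow_le_pow_right (by omega) hcA
  obtain ⟨m₀, hA⟩ := hA d (by omega)
  have hloc := fun P : F[X] => hR N (by omega) (φ P)
  choose V ψ k1 k2 k3 k4 k5 using hloc
  have hFam : FamV F d V := ⟨k1, k2, k3, k4⟩
  obtain ⟨hadm, _⟩ := hA F hF V hFam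
  obtain ⟨a, hgood, hpt, hmass, hmain⟩ := hP D₃ d (by omega) F hF V 0 g0 hadm D ε _ (data0 hDD hε hεc)
  have hv0 : ∀ P : F[X], VoP V 0 g0 a P 0 = 1 := by
    intro P
    unfold VoP
    split_ifs
    · exact hadm.gz
    · exact hadm.zero P _
  refine ⟨fun P => ψ P (a P), fun P i => (k5 P (a P) (hpt P)).1 i, ?_⟩
  intro Q l χ hχ
  have hcm := hay_cm hχ.1
  obtain ⟨hz, hfe, _⟩ := hmain Q l χ hχ
  have hchi : ∀ f : F[X], ‖χ f‖ ≤ 1 := fun f => norm_le_one hχ.1 f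
  have hser : ∀ s : ℂ, 1 - 5 / (2 * (d : ℝ)) ≤ s.re → ∀ P : Place F,
      HasSum (fun k : ℕ => (VoP V 0 g0 a P.1 k : ℂ) * (χ P.1 * absPow P.1 s) ^ k)
        (repFactor α N (fun P => ψ P (a P)) χ s P) := by
    intro s hs
    rintro ⟨P, h1, h2⟩
    have h3 := (k5 P (a P) (hpt P)).2 (χ P * absPow P s)
      (chi_abs_lt hq3 hchi h2.natDegree_pos (re_pos (by omega) hs))
    have h4 : ∀ k, VoP V 0 g0 a P k = V P (a P) k := by
      intro k
      unfold VoP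
      rw [if_neg h2.ne_zero]
    simp only [h4]
    exact h3
  have hprod : ∀ s : ℂ, 1 - 5 / (2 * (d : ℝ)) ≤ s.re →
      HasProd (repFactor α N (fun P => ψ P (a P)) χ s)
        (Ls (Fintype.card F) (D Q l χ) (ef (VoP V 0 g0 a) χ) s) := by
    intro s hs
    exact gen_euler hEUL hDSUM hM hq3 (by omega : 1 ≤ d) hv0 hcm hchi hmass hz hs (hser s hs)
  refine ⟨Ls (Fintype.card F) (D Q l χ) (ef (VoP V 0 g0 a) χ),
    gen_nice (Fintype.card_pos) (hε χ) (ef_zero hM hv0 hcm.1) hfe, fun s hs => ⟨?_, hprod s hs⟩⟩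
  refine gen_ne_zero hDSUM hM hq3 (by omega : 1 ≤ d) hv0 hcm hchi hmass hs (hprod s hs) ?_ (hser s hs)
  rintro ⟨P, h1, h2⟩
  unfold repFactor
  rw [prod_ne_zero_iff]
  intro x _
  apply inv_ne_zero
  apply one_sub_ne
  rw [norm_mul, Complex.norm_exp_ofReal_mul_I, one_mul]
  exact chi_abs_lt hq3 hchi h2.natDegree_pos (re_pos (by omega) hs)

/-- the representation `Sym^(M-1)` as a case of the general construction -/
theorem prod_sym (M : ℕ) (φ : Fin 1 → ℝ) (w : ℂ) :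
    ∏ x : Unit → Fin M, (1 - Complex.exp ((wt (fun _ : Unit => fun _ : Fin 1 => (2 : ℝ)) M x φ : ℂ) *
      Complex.I) * w)⁻¹ =
    ∏ i : Fin M, (1 - Complex.exp ((φ 0 : ℂ) * Complex.I) ^ ((M : ℤ) - 1 - 2 * (i.1 : ℤ)) * w)⁻¹ := by
  rw [← Equiv.prod_comp (Equiv.funUnique Unit (Fin M)).symm]
  apply prod_congr rfl
  intro i _
  rw [← Complex.exp_int_mul]
  congr 4
  unfold wt lin
  simp only [Finset.univ_unique, sum_singleton, Equiv.funUnique_symm_apply, uniqueElim_const]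
  push_cast
  have h1 : φ default = φ 0 := rfl
  rw [h1]
  ring

theorem t_B (hP : PXP) (hA : Adm4Stm) (hR : RFStm) (hG4 : S_G4) (hEUL : PS.S_EUL) (hDSUM : PS.S_DSUM)
    (hM : S_AFM) : BStm := by
  classical
  obtain ⟨d₀, hP⟩ := hP
  obtain ⟨d₁, D₃, hA⟩ := hA
  obtain ⟨C, N₁, hC, hR⟩ := hR Unit 1 (fun _ _ => 2) () (by
    intro h
    have := congrFun h 0
    norm_num at this) (by
    intro b hb
    exact absurd rfl hb)
  refine ⟨C, 1000 + d₀ + 7 * D₃ + d₁ + N₁, ?_⟩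
  intro M hMM
  obtain ⟨m₁, hA⟩ := hA M (by omega)
  obtain ⟨m₂, hG4⟩ := hG4 M (by omega)
  refine ⟨m₁ + m₂, ?_⟩
  intro F _ _ hF P₀ hP0m hP0i hdeg θ hθ0 hθ φ D ε hDD hε hεc
  have hq3 : 3 ≤ qq F := three_le_qq hF
  have hq0 : 0 < qq F := by linarith
  have hq1 : 1 ≤ qq F := by linarith
  have hM1 : (1000 : ℝ) ≤ M := by
    have : 1000 ≤ M := by omega
    exact_mod_cast this
  have hP0d : (1 : ℝ) ≤ P₀.natDegree := by exact_mod_cast hP0i.natDegree_pos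
  obtain ⟨g, hg0, hgb, hgs⟩ := hG4 (qq F) θ P₀.natDegree hq3 (by omega) hθ0 hθ
  have hcard : Fintype.card Unit = 1 := rfl
  have hloc := fun P : F[X] => hR M (by omega) (fun _ => φ P)
  choose V ψ k1 k2 k3 k4 k5 using hloc
  rw [hcard, pow_one] at k5
  simp only [hcard, pow_one] at k3
  have hFam : FamV F M V := ⟨k1, k2, k3, k4⟩
  have hSpec : Spec F M m₁ P₀ g := ⟨hP0m, hP0i, by omega, hg0, hgb⟩
  have hadm := (hA F hF V hFam).2 P₀ g hSpec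
  obtain ⟨a, hgood, hpt, hmass, hmain⟩ := hP D₃ M (by omega) F hF V P₀ g hadm D ε _ (data0 hDD hε hεc)
  have hv0 : ∀ P : F[X], VoP V P₀ g a P 0 = 1 := by
    intro P
    unfold VoP
    split_ifs
    · exact hg0
    · exact hadm.zero P _
  set αα : F[X] → ℂ := fun P => if P = P₀ then (((Fintype.card F : ℝ) ^ (θ * P₀.natDegree) : ℝ) : ℂ) else
    Complex.exp (((ψ P (a P) 0 : ℝ) : ℂ) * Complex.I) with hαα
  refine ⟨αα, fun P => ψ P (a P) 0, if_pos rfl, fun P hP => if_neg hP,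
    fun P => (k5 P (a P) (hpt P)).1 0, ?_⟩
  intro Q l χ hχ
  have hcm := hay_cm hχ.1
  obtain ⟨hz, hfe, _⟩ := hmain Q l χ hχ
  have hchi : ∀ f : F[X], ‖χ f‖ ≤ 1 := fun f => norm_le_one hχ.1 f
  -- the special place
  have hspec : ∀ s : ℂ, 1 - 5 / (2 * (M : ℝ)) ≤ s.re →
      ‖χ P₀ * absPow P₀ s‖ * (qq F ^ (θ * P₀.natDegree)) ^ (M - 1) < 1 := by
    intro s hs
    have h1 := chi_abs_le hq0 hchi P₀ s
    calc ‖χ P₀ * absPow P₀ s‖ * (qq F ^ (θ * P₀.natDegree)) ^ (M - 1) ≤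
        qq F ^ (-s.re * P₀.natDegree) * (qq F ^ (θ * P₀.natDegree)) ^ (M - 1) :=
          mul_le_mul_of_nonneg_right h1 (by positivity)
      _ = qq F ^ ((((M : ℝ) - 1) * θ - s.re) * P₀.natDegree) := by
          rw [← Real.rpow_natCast (qq F ^ (θ * P₀.natDegree)) (M - 1), ← Real.rpow_mul hq0.le,
            ← Real.rpow_add hq0, Nat.cast_sub (by omega)]
          congr 1
          push_cast
          ring
      _ < 1 := by
          apply Real.rpow_lt_one_of_one_lt_of_neg (by linarith)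
          apply mul_neg_of_neg_of_pos _ (by linarith)
          have h2 : 5 / (2 * (M : ℝ)) < 6 / (M : ℝ) := by
            rw [div_lt_div_iff₀ (by linarith) (by linarith)]
            linarith
          linarith
  have hfac0 : ∀ w : ℂ, ∏ i : Fin M, (1 - ((qq F ^ (θ * P₀.natDegree * ((M : ℝ) - 1 - 2 * (i.1 : ℝ))) : ℝ) : ℂ) *
      w)⁻¹ = ∏ i : Fin M, (1 - αα P₀ ^ ((M : ℤ) - 1 - 2 * (i.1 : ℤ)) * w)⁻¹ := by
    intro w
    apply prod_congr rfl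
    intro i _
    congr 3
    rw [hαα]
    simp only [if_true]
    rw [← Complex.ofReal_zpow]
    congr 1
    rw [← Real.rpow_intCast, ← Real.rpow_mul (by positivity)]
    show qq F ^ _ = qq F ^ _
    congr 1
    push_cast
    ring
  have hser : ∀ s : ℂ, 1 - 5 / (2 * (M : ℝ)) ≤ s.re → ∀ P : Place F,
      HasSum (fun k : ℕ => (VoP V P₀ g a P.1 k : ℂ) * (χ P.1 * absPow P.1 s) ^ k)
        (symFactor M αα χ s P) := by
    intro s hs
    rintro ⟨P, h1, h2⟩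
    by_cases h5 : P = P₀
    · subst h5
      have h3 := hgs (χ P * absPow P s) (hspec s hs)
      rw [hfac0] at h3
      have h4 : ∀ k, VoP V P g a P k = g k := by
        intro k
        unfold VoP
        rw [if_pos rfl]
      simp only [h4]
      exact h3
    · have h3 := (k5 P (a P) (hpt P)).2 (χ P * absPow P s)
        (chi_abs_lt hq3 hchi h2.natDegree_pos (re_pos (by omega) hs))
      rw [prod_sym] at h3
      have h4 : ∀ k, VoP V P₀ g a P k = V P (a P) k := by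
        intro k
        unfold VoP
        rw [if_neg h5]
      simp only [h4]
      have h6 : αα P = Complex.exp (((ψ P (a P) 0 : ℝ) : ℂ) * Complex.I) := by
        rw [hαα]
        simp only [if_neg h5]
      unfold symFactor
      simp only [h6]
      exact h3
  have hprod : ∀ s : ℂ, 1 - 5 / (2 * (M : ℝ)) ≤ s.re →
      HasProd (symFactor M αα χ s) (Ls (Fintype.card F) (D Q l χ) (ef (VoP V P₀ g a) χ) s) := by
    intro s hs
    exact gen_euler hEUL hDSUM hM hq3 (by omega : 1 ≤ M) hv0 hcm hchi hmass hz hs (hser s hs)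
  refine ⟨Ls (Fintype.card F) (D Q l χ) (ef (VoP V P₀ g a) χ),
    gen_nice (Fintype.card_pos) (hε χ) (ef_zero hM hv0 hcm.1) hfe, fun s hs => ⟨?_, hprod s hs⟩⟩
  refine gen_ne_zero hDSUM hM hq3 (by omega : 1 ≤ M) hv0 hcm hchi hmass hs (hprod s hs) ?_ (hser s hs)
  rintro ⟨P, h1, h2⟩
  unfold symFactor
  rw [prod_ne_zero_iff]
  intro i _
  apply inv_ne_zero
  apply one_sub_ne
  by_cases h5 : P = P₀
  · subst h5
    have h6 : αα P = (((Fintype.card F : ℝ) ^ (θ * P.natDegree) : ℝ) : ℂ) := by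
      rw [hαα]
      simp only [if_true]
    show ‖αα P ^ _ * (χ P * absPow P s)‖ < 1
    rw [h6, ← Complex.ofReal_zpow, norm_mul, Complex.norm_real, Real.norm_eq_abs,
      abs_of_pos (by positivity)]
    refine lt_of_le_of_lt ?_ (hspec s hs)
    rw [mul_comm]
    apply mul_le_mul_of_nonneg_left _ (norm_nonneg _)
    show (qq F ^ (θ * P.natDegree)) ^ ((M : ℤ) - 1 - 2 * (i.1 : ℤ)) ≤ _
    rw [← zpow_natCast]
    apply zpow_le_zpow_right₀ (Real.one_le_rpow hq1 (by positivity))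
    omega
  · have h6 : αα P = Complex.exp (((ψ P (a P) 0 : ℝ) : ℂ) * Complex.I) := by
      rw [hαα]
      simp only [if_neg h5]
    show ‖αα P ^ _ * (χ P * absPow P s)‖ < 1
    rw [h6, norm_mul, norm_zpow, Complex.norm_exp_ofReal_mul_I, one_zpow, one_mul]
    exact chi_abs_lt hq3 hchi h2.natDegree_pos (re_pos (by omega) hs)

end Pool.Agent.Q284.PX
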