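import Pool.Agent.Q284.PX.Stm3

/-!
# Project PX4: one representation with all its abelian twists.  Definitions and statements of the lemma jobs.

`B = BB = 1/25600`, `q = qq F ≥ 3`.  For a finite family `α` of linear forms on `ℝ^r` (the positive roots) the
representation `V_((N-1)ρ)` has the weights `wt α N x`, `x : A → Fin N`, and the character `ch α N`, a product of
the characters `DN N` of the `N`-dimensional representation of `SU(2)` over the positive roots.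
-/

set_option autoImplicit false

open Finset Polynomial ComplexConjugate
open Pool.Agent.H341R2.Sharp (Mon)

namespace Pool.Agent.Q284.PX

open Pool.Agent.Q284.PS (BB qq CM NMul PD PI Sm Fam S_LOC1 S_LOC2)

/-- the linear form with the coefficients `c` -/
noncomputable def lin {r : ℕ} (c φ : Fin r → ℝ) : ℝ := ∑ i, c i * φ i

/-- the character of the `N`-dimensional representation of `SU(2)` at the class with the eigenvalues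
`exp (± i x / 2)` -/
noncomputable def DN (N : ℕ) (x : ℝ) : ℝ := ∑ i ∈ range N, Real.cos ((((N : ℝ) - 1) / 2 - i) * x)

/-- the weights of `V_((N-1)ρ)` -/
noncomputable def wt {A : Type} [Fintype A] {r : ℕ} (α : A → Fin r → ℝ) (N : ℕ) (x : A → Fin N)
    (φ : Fin r → ℝ) : ℝ :=
  ∑ a, (((N : ℝ) - 1) / 2 - ((x a).1 : ℝ)) * lin (α a) φ

/-- the character of `V_((N-1)ρ)` -/
noncomputable def ch {A : Type} [Fintype A] {r : ℕ} (α : A → Fin r → ℝ) (N : ℕ) (φ : Fin r → ℝ) : ℝ :=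
  ∏ a, DN N (lin (α a) φ)

/-! ## Masses -/

/-- **ZB4** (mass of the prime powers).  Adapt the proof of `t_ZB2` (`Pool/Agent/Q162/PX/ZB2.lean`); uses CPR (so
`|PI m| ≤ q^m/m`); `d₀ = 1000` is enough.  Proof.  Terms with `deg P = j` (`k = 1`): `∑ |v P 1| ≤ ∑ |a P| ≤
(q^j/j)^(1/2) (∑ a²)^(1/2) ≤ B w2 j`, and `∑ a² ≤ B² om2 j`.  Terms with `deg P = m < j`, `k = j/m ≥ 2`.
(i) If `k < 100`: `|v| ≤ d² |a P|`; this is zero if `20 m < 9 d`, so `m ≥ 9d/20`, `j ≥ 2m ≥ 9d/10 ≥ 900`,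
`d ≤ 10 j/9`.  `∑_{PI m} |v| ≤ d² B w2 m ≤ d² B q^(j/2)` (`m ≤ j/2`), squares `≤ d⁴ B² om2 m ≤
d⁴ B² q^((1-5/d) j/2)`; there are at most `j` values of `m`.  (ii) If `k ≥ 100` then `j ≥ 100`, `m ≤ j/100`, at most
`q^m` polynomials, `|v| ≤ 2 · 3^(k/64) ≤ 2 · 3^(j/64)`: `≤ 2 q^(j/64 + j/100)`, squares `≤ 4 q^(j/32 + j/100)`, at
most `j` values of `m`.  So the sums over `deg P < j` are zero for `j < 100`, and for `j ≥ 100` at most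
`2 j q^(j/64 + j/100)` plus (only if `j ≥ 900`) `j d² B q^(j/2) ≤ 2 j³ B q^(j/2)`, together `≤ B w2 j`
(`w2 j = q^((1 - 5/(2d)) j)/j^(5/2)`); squares: at most `4 j q^(j/32 + j/100)` plus (if `j ≥ 900`)
`j d⁴ B² q^((1-5/d) j/2) ≤ 2 j⁵ B² q^((1-5/d) j/2)`, together `≤ B² om2 j/(10^6 j)` (`om2 j = q^((1-5/d) j)/j^4`;
`4 · 10^6 j^10 ≤ q^(0.49 j)` for `j ≥ 900`). -/
def S_ZB4 : Prop := ∃ d₀ : ℕ, ∀ d : ℕ, d₀ ≤ d → ∀ (F : Type) [Field F] [Fintype F],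
  3 ≤ Fintype.card F → ∀ (N : ℕ) (P₀ : F[X]) (a : F[X] → ℝ) (v : F[X] → ℕ → ℝ), Good F d N P₀ a →
  (∀ n : ℕ, n ≤ N → ∀ P ∈ PI F n, |v P 1| ≤ |a P| ∧
    (∀ k : ℕ, 2 ≤ k → k < 100 → |v P k| ≤ (d : ℝ) ^ 2 * |a P|) ∧
    ∀ k : ℕ, |v P k| ≤ 2 * (3 : ℝ) ^ ((k : ℝ) / 64)) →
  ∀ j : ℕ, 1 ≤ j → j ≤ N → ZB d v j

/-- **NG4** (mass with the special prime, numerical).  Proof (= proof of `t_GBb`, `Pool/Agent/Q277/PX/GBb.lean`;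
the lemmas there, e.g. `key`, `geo`, `w2_shift`, `w2_zero`, are general).  Only the terms `u = k m ≤ n` are not
zero.  `u = 0`: `G n ≤ 5/2 B w2 n`.  `u = k m`, `k ≥ 1`, `i = n - u ≥ 1`: `q^((1 - 11/(2d)) u) (5/2) B w2 i =
(5/2) B w2 n q^(-3u/d) (n/i)^(5/2)` and `n/i ≤ 1 + u`.  `i = 0` (`u = n`): `q^((1 - 11/(2d)) n) =
B w2 n · q^(-3n/d) n^(5/2)/B`.  As `u ≥ k m ≥ k m₀`, for `m₀` large (depending on `d` only) the terms are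
`≤ B w2 n 2^(-k)/10`. -/
def S_NG4 : Prop := ∀ d : ℕ, 1 ≤ d → ∃ m₀ : ℕ, ∀ (q : ℝ) (m : ℕ), 3 ≤ q → m₀ ≤ m →
  ∀ (W G : ℕ → ℝ) (n : ℕ), 1 ≤ n → W 0 = 1 → (∀ u : ℕ, 0 ≤ W u) → (∀ u : ℕ, ¬ m ∣ u → W u = 0) →
  (∀ u : ℕ, W u ≤ q ^ ((1 - 11 / (2 * (d : ℝ))) * u)) → G 0 = 1 →
  (∀ i : ℕ, 1 ≤ i → i ≤ n → 0 ≤ G i ∧ G i ≤ 5 / 2 * BB * w2 q d i) →
  ∑ u ∈ range (n + 1), W u * G (n - u) ≤ 3 * BB * w2 q d n

/-- **NE4** (mean squares with the special prime, numerical).  Proof (= proof of `t_EBb`,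
`Pool/Agent/Q277/PX/EBb.lean`, cases (A), (B), (C) there; the lemmas `key`, `geo`, `w2_shift`, `w2_zero` in
`GBb.lean` are general).  `i = n - u`, `u = k m`, `k ≥ 1` (the other terms are zero).
(A) `4 i ≥ n`: `q^((1 - 11/(2d)) u) 2 B w2 i = 2 B w2 n q^(-3u/d) (n/i)^(5/2) ≤ 64 B w2 n q^(-3u/d)`.
(B) `1 ≤ i`, `4 i < n`: `≤ 5 q^(20n/(9d)) B w2 n q^(-3u/d) (n/i)^(5/2) ≤ 5 B w2 n n^(5/2) q^(-n/(36d))` as
`u ≥ 3n/4`.  (C) `i = 0`, `u = n`: `≤ 2 q^(20n/(9d)) q^((1 - 11/(2d)) n) = B w2 n (2/B) n^(5/2) q^(-7n/(9d))`.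
All have `n ≥ u ≥ k m ≥ k m₀`: for `m₀` large (depending on `d` only) each term is `≤ B w2 n 2^(-k)/100`. -/
def S_NE4 : Prop := ∀ d : ℕ, 1 ≤ d → ∃ m₀ : ℕ, ∀ (q : ℝ) (m : ℕ), 3 ≤ q → m₀ ≤ m →
  ∀ (W Y : ℕ → ℝ) (n : ℕ), 1 ≤ n → (∀ u : ℕ, 0 ≤ W u) → (∀ u : ℕ, ¬ m ∣ u → W u = 0) →
  (∀ u : ℕ, W u ≤ q ^ ((1 - 11 / (2 * (d : ℝ))) * u)) → (∀ i : ℕ, 0 ≤ Y i) →
  (∀ i : ℕ, 1 ≤ i → i ≤ n → n ≤ 4 * i → Y i ≤ 2 * BB * w2 q d i) →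
  (∀ i : ℕ, 1 ≤ i → i ≤ n → Y i ≤ 5 * q ^ ((20 : ℝ) * n / (9 * d)) * (BB * w2 q d i)) →
  Y 0 ≤ 2 * q ^ ((20 : ℝ) * n / (9 * d)) →
  ∑ u ∈ Icc 1 n, W u * Y (n - u) ≤ 1 / 100 * BB * w2 q d n

/-! ## Characters -/

/-- **CHR** (the characters).  Proof.  First: `|cos| ≤ 1`, `cos` is even.  Second: `|cos x - cos y| ≤ |x - y|`
(`Real.abs_cos_sub_cos_le` or mean value), `|(N-1)/2 - i| ≤ N` for `i < N`, so each term is Lipschitz with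
constant `N`.  Third: with `c_i = (N-1)/2 - i`: `2 sin (x/2) cos (c_i x) = sin ((c_i + 1/2) x) - sin ((c_i - 1/2) x)`,
telescoping; the sum is `sin (N x/2) - sin (- N x/2) = 2 sin (N x/2)`.  Fourth: `exp (i wt)^k =
∏_a exp (i k ((N-1)/2 - x_a) lin (α a) φ)`; `Finset.prod_univ_sum` (backwards): the sum over `x` is
`∏_a ∑_{j : Fin N} exp (i ((N-1)/2 - j) k lin (α a) φ)`, and this inner sum is `DN N (k lin (α a) φ)`: the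
imaginary parts cancel in pairs `j ↔ N - 1 - j` (`Fin.revPerm` or `Finset.sum_range_reflect`); and
`lin (α a) (k φ) = k lin (α a) φ`. -/
def S_CHR : Prop :=
  (∀ (N : ℕ) (x : ℝ), |DN N x| ≤ N ∧ DN N (-x) = DN N x) ∧
  (∀ (N : ℕ) (x y : ℝ), |DN N x - DN N y| ≤ (N : ℝ) ^ 2 * |x - y|) ∧
  (∀ (N : ℕ) (x : ℝ), Real.sin (x / 2) * DN N x = Real.sin (N * x / 2)) ∧
  ∀ (A : Type) [Fintype A] [DecidableEq A] (r N : ℕ) (α : A → Fin r → ℝ) (φ : Fin r → ℝ) (k : ℕ),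
    ∑ x : A → Fin N, Complex.exp ((wt α N x φ : ℂ) * Complex.I) ^ k = (ch α N (fun i => (k : ℝ) * φ i) : ℂ)

/-- **BPT** (base points).  Proof.  `η = α a₀ / ∑ i, (α a₀ i)^2`, so `lin (α a₀) η = 1`.
(1) Let `j₁ = ⌊N lin (α a₀) φ / (2π)⌋`, `j ∈ {j₁, j₁ + 1}`: `gcd (N, j₁)` and `gcd (N, j₁ + 1)` are coprime divisors
of `N`, so their product divides `N` and one of them, `g = gcd (N, j)`, has `g² ≤ N`.  If `N ∣ k j` then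
`N/g ∣ k` (`N/g`, `j/g` coprime), so `k ≥ N/g`, `k² ≥ N²/g² ≥ N`.  So `k ≥ 1`, `k² < N` imply `¬ N ∣ k j`.
`φ₁ = φ + (2πj/N - lin (α a₀) φ) η`: `lin (α a₀) φ₁ = 2πj/N`, `|φ₁ - φ| ≤ (4π/N) max |η_i|`.
(2) There is `ξ` with `lin (α a₀) ξ = 0`, `lin (α b) ξ ≠ 0` for all `b ≠ a₀`: for each `b` the kernel of
`lin (α b)` in the kernel `H` of `lin (α a₀)` is a proper subspace (`α b` is not a multiple of `α a₀`; explicit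
element of `H`: `ξ_b = α b - (⟨α b, α a₀⟩/⟨α a₀, α a₀⟩) α a₀`, `lin (α b) ξ_b > 0` by linear independence), and `H`
is not a finite union of proper subspaces (`Subspace.exists_eq_top_of_iUnion_eq_univ`-type lemma, or take
`ξ = ∑_b t^(e b) ξ_b` with suitable real `t`: finitely many nonzero polynomials in `t`).  Scale `ξ` such that
`|lin (α b) ξ| ≤ 1` for all `b`.  Let `β = min_{b ≠ a₀} |lin (α b) ξ| > 0`, `σ = 1/|A|`, `c = σ β/(2π)` (`c = 1` if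
there is no `b ≠ a₀`).  Take `φ₀ = φ₁ + (s/N) ξ` with `s = i σ`, `i ∈ {0, ..., |A| - 1}`; `lin (α a₀) φ₀ = 2πj/N`.
If `s ≠ s'` are both bad for the same `b` (`|sin (N lin (α b) φ₀/2)| < c`), then `|sin (u - v)| ≤ |sin u| + |sin v|`
gives `|sin ((s - s') lin (α b) ξ/2)| < 2c`, but `σ β/2 ≤ |(s - s') lin (α b) ξ/2| ≤ 1/2` and `|sin t| ≥ 2|t|/π` for
`|t| ≤ π/2` give `≥ σ β/π = 2c`, contradiction.  So each of the `|A| - 1` forms `b` excludes at most one of the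
`|A|` values of `i`, and one `i` is left. -/
def S_BPT : Prop := ∀ (A : Type) [Fintype A] [DecidableEq A] (r : ℕ) (α : A → Fin r → ℝ) (a₀ : A),
  α a₀ ≠ 0 → (∀ b : A, b ≠ a₀ → LinearIndependent ℝ ![α a₀, α b]) →
  ∃ (C c : ℝ) (η : Fin r → ℝ), 0 < C ∧ 0 < c ∧ lin (α a₀) η = 1 ∧
    ∀ N : ℕ, 1 ≤ N → ∀ φ : Fin r → ℝ, ∃ (φ₀ : Fin r → ℝ) (j : ℤ),
      (∀ i, |φ₀ i - φ i| ≤ C / N) ∧ (N : ℝ) * lin (α a₀) φ₀ = 2 * Real.pi * j ∧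
      (∀ k : ℕ, 1 ≤ k → k ^ 2 < N → ¬ (N : ℤ) ∣ (k : ℤ) * j) ∧
      ∀ b : A, b ≠ a₀ → c ≤ |Real.sin ((N : ℝ) * lin (α b) φ₀ / 2)|

/-- **INV** (moving away from the base point).  Uses CHR.  Proof.  We may suppose `c ≤ 1`.  Let
`x₀ = lin (α a₀) φ₀ = 2πj/N`, `β = 1 + max_b |lin (α b) η|`, `δ₀ = c/(2 N² β)`, `κ = (c/2)^(|A| - 1)`.
`f δ = ch α N (φ₀ + δ η) = DN N (x₀ + δ) * R δ`, `R δ = ∏_{b ≠ a₀} DN N (lin (α b) φ₀ + δ lin (α b) η)`.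
By CHR `|DN N (lin (α b) φ₀)| ≥ |sin (N lin (α b) φ₀/2)| ≥ c` (`|sin| ≤ 1`), and Lipschitz: for `|δ| ≤ δ₀` all factors
of `R` have absolute value `≥ c/2`, so `|R δ| ≥ κ`, `R` has constant sign on `[-δ₀, δ₀]`.
`sin ((x₀ + δ)/2) DN N (x₀ + δ) = sin (πj + Nδ/2) = (-1)^j sin (Nδ/2)`.  As `N` does not divide `j`:
`|sin (x₀/2)| = |sin (πj/N)| ≥ sin (π/N) ≥ 2/N > δ₀`, so `sin ((x₀ + δ)/2)` is not zero, has constant sign for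
`|δ| ≤ δ₀`, and `|DN N (x₀ + δ)| ≥ |sin (Nδ/2)| ≥ N |δ|/π` (`N δ₀/2 ≤ π/2`).  So `|f δ| ≥ κ N |δ|/π`, and `f δ₀`,
`f (-δ₀)` have opposite signs (`sin (Nδ/2)` is odd).  `|f (± δ₀)| ≥ κ c/(2 π N β) ≥ 1/(1000 N^(3/2)) ≥ |z|` for
`N ≥ N₁`.  Intermediate value theorem on `[-δ₀, δ₀]`: `f δ = z` for some `|δ| ≤ δ₀`, and
`|δ| ≤ (π/κ) |z|/N`.  Last claim: if `N` does not divide `k j`, `DN N (k x₀) = 0` (CHR: `sin (k x₀/2) =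
sin (πkj/N) ≠ 0`, `sin (N k x₀/2) = sin (πkj) = 0`), so `|DN N (k (x₀ + δ))| ≤ N² k |δ| ≤ N k (π/κ) |z|`, the other
`|A| - 1` factors of `ch` are at most `N`.  `C₁ = π/κ`. -/
def S_INV : Prop := ∀ (A : Type) [Fintype A] [DecidableEq A] (r : ℕ) (α : A → Fin r → ℝ) (a₀ : A)
  (η : Fin r → ℝ) (c : ℝ), 0 < c → lin (α a₀) η = 1 → ∃ (C₁ : ℝ) (N₁ : ℕ), 0 < C₁ ∧
    ∀ N : ℕ, N₁ ≤ N → ∀ (φ₀ : Fin r → ℝ) (j : ℤ), (N : ℝ) * lin (α a₀) φ₀ = 2 * Real.pi * j →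
    ¬ (N : ℤ) ∣ j → (∀ b : A, b ≠ a₀ → c ≤ |Real.sin ((N : ℝ) * lin (α b) φ₀ / 2)|) →
    ∀ z : ℝ, |z| ≤ 1 / (1000 * ((N ^ Fintype.card A : ℕ) : ℝ) ^ ((3 : ℝ) / 2)) →
    ∃ δ : ℝ, |δ| ≤ C₁ * |z| / N ∧ ch α N (fun i => φ₀ i + δ * η i) = z ∧
      ∀ k : ℕ, 1 ≤ k → ¬ (N : ℤ) ∣ (k : ℤ) * j →
        |ch α N (fun i => (k : ℝ) * (φ₀ i + δ * η i))| ≤ C₁ * k * ((N ^ Fintype.card A : ℕ) : ℝ) * |z|

/-! ## Local factors -/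

/-- **PSH** (the coefficients of the local factor from the power sums).  Proof.  The power series
`∏_x (1 - γ_x X)⁻¹ = ∏_x ∑_k γ_x^k X^k` has coefficients `H_k` (complex, complete symmetric functions), the series
converges for `‖w‖ < 1` to the product of the geometric series (Cauchy products of absolutely convergent series;
compare `Pool/Agent/Q237/PX/LR2.lean`, `Pool/Agent/Q261/PS/LSER.lean`, `Pool/Agent/Q223/PX/H2F.lean`), and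
`X H' = H ∑_x γ_x X/(1 - γ_x X)`, i.e. `k H_k = ∑_{i=1}^k p_i H_(k-i)`.  By this recursion all `H_k` are real
(`p_i` real): `h k = (H_k).re`. -/
def S_PSH : Prop := ∀ (X : Type) [Fintype X] (γ : X → ℂ) (p : ℕ → ℝ), (∀ x, ‖γ x‖ = 1) →
  (∀ k : ℕ, 1 ≤ k → ∑ x, γ x ^ k = (p k : ℂ)) → ∃ h : ℕ → ℝ, h 0 = 1 ∧
    (∀ k : ℕ, 1 ≤ k → (k : ℝ) * h k = ∑ i ∈ Icc 1 k, p i * h (k - i)) ∧
    ∀ w : ℂ, ‖w‖ < 1 → HasSum (fun k : ℕ => (h k : ℂ) * w ^ k) (∏ x, (1 - γ x * w)⁻¹)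

/-- **PSB** (bounds for the coefficients).  Proof.  `ρ = 3^(1/64)`, `t = 1/ρ`, `0.0170 ≤ 1 - t`.  Induction:
`|h k| ≤ 2 ρ^k`: `k |h k| ≤ ∑_{i=1}^k |p_i| 2 ρ^(k-i) = 2 ρ^k ∑_{i ≤ k} |p_i| t^i`, and
`∑_{i < M} i x t^i ≤ x t/(1-t)² ≤ 0.35`, `∑_{i ≥ M} d t^i ≤ d t^M/(1-t) ≤ 59 d · d^(-1.71) ≤ 1/2` for large `d`
(`t^M = exp (- M log 3/64) ≤ exp (-1.71 log d)`); so it is `≤ 2 ρ^k ≤ k 2 ρ^k`.  Second claim (`M ≥ 100` for large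
`d`), induction on `k < 100`: `k |h k| ≤ k x + ∑_{i=1}^{k-1} i x 2x ≤ k x + k² x²`, so `|h k| ≤ x (1 + 100 x) ≤ 2x`
(the term `i = k` has `h 0 = 1`). -/
def S_PSB : Prop := ∃ d₀ : ℕ, ∀ d : ℕ, d₀ ≤ d → ∀ (p h : ℕ → ℝ) (x : ℝ) (M : ℕ),
  100 * Real.log d ≤ M → 0 ≤ x → x ≤ 1 / 10 ^ 4 → h 0 = 1 →
  (∀ k : ℕ, 1 ≤ k → (k : ℝ) * h k = ∑ i ∈ Icc 1 k, p i * h (k - i)) →
  (∀ k : ℕ, 1 ≤ k → k < M → |p k| ≤ k * x) → (∀ k : ℕ, 1 ≤ k → |p k| ≤ d) →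
  (∀ k : ℕ, |h k| ≤ 2 * (3 : ℝ) ^ ((k : ℝ) / 64)) ∧ ∀ k : ℕ, 1 ≤ k → k < 100 → |h k| ≤ 2 * x

/-- **G4** (the local factor at the special prime).  Proof (as `S_LR2`, proof in
`Pool/Agent/Q237/PX/LR2.lean`).  `y = q^(θ m) ≥ 1`; the product has `M` factors `(1 - γ_i w)⁻¹`,
`0 < γ_i = y^(M-1-2i) ≤ y^(M-1)`; coefficient `k` of the power series is between `0` and
`C(k + M - 1, k) y^((M-1) k) ≤ 2^(k + M) q^((1 - 6/M) k m)`; it converges for `‖w‖ y^(M-1) < 1`.  For `k ≥ 1`: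
`2^(k + M) q^((1 - 6/M) k m) ≤ q^((1 - 11/(2M)) k m)` because `3^(k m/(2M)) ≥ 2^(k + M)` for `m ≥ m₀(M)`. -/
def S_G4 : Prop := ∀ M : ℕ, 2 ≤ M → ∃ m₀ : ℕ, ∀ (q θ : ℝ) (m : ℕ), 3 ≤ q → m₀ ≤ m → 0 ≤ θ →
  ((M : ℝ) - 1) * θ ≤ 1 - 6 / (M : ℝ) → ∃ g : ℕ → ℝ, g 0 = 1 ∧
    (∀ k : ℕ, |g k| ≤ q ^ ((1 - 11 / (2 * (M : ℝ))) * ((k : ℝ) * m))) ∧
    ∀ w : ℂ, ‖w‖ * (q ^ (θ * m)) ^ (M - 1) < 1 →
      HasSum (fun k : ℕ => (g k : ℂ) * w ^ k)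
        (∏ i : Fin M, (1 - ((q ^ (θ * m * ((M : ℝ) - 1 - 2 * (i.1 : ℝ))) : ℝ) : ℂ) * w)⁻¹)

end Pool.Agent.Q284.PX
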