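import Pool.Agent.Q284.PX.All3
import Pool.Agent.Q284.PX.Ass4
import Pool.Agent.Q92.PX.ZB4
import Pool.Agent.Q79.PX.NG4
import Pool.Agent.Q79.PX.NE4
import Pool.Agent.Q79.PX.CHR
import Pool.Agent.Q79.PX.BPT
import Pool.Agent.Q79.PX.PSH
import Pool.Agent.Q79.PX.PSB
import Pool.Agent.Q79.PX.G4
import Pool.Agent.Q38.PX.INV

/-!
# Project PX4: all statements together

Plan, statements with paper proofs and assembly by helper284; lemmas proved by helpers 38, 79, 92 (and, projects PS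
and PX, helpers 16, 24, 53, 58, 68, 92, 95, 137, 149, 162, 166, 177, 184, 222, 223, 225, 237, 239, 249, 251, 261, 277,
285).
-/

set_option autoImplicit false

open Finset Polynomial ComplexConjugate

namespace Pool.Agent.Q284.PX

open Pool.Agent.Q284.PS

/-- the engine for local families depending on the place, with a special place and a pointwise bound -/
theorem pxp : PXP ∧ Adm4Stm := by
  have hHC := Pool.Agent.Q53.PS.t_HC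
  have hCMON := Pool.Agent.Q53.PS.t_CMON
  have hCPR := Pool.Agent.Q53.PS.t_CPR
  have hVAN := Pool.Agent.Q166.PS.Van.t_VAN
  have hMER := Pool.Agent.Q68.PS.t_MER hCPR
  have hBH := Pool.Agent.Q58.PS.t_BH Pool.Agent.Q285.PS.t_BHA Pool.Agent.Q177.PS.BHB.t_BHB hMER
  have hUP := Pool.Agent.Q184.PS.t_UP hHC hVAN hCMON hBH
  have hRB := Pool.Agent.Q95.PS.t_RB hHC hVAN hCMON hBH hUP
  have hAB := Pool.Agent.Q184.PS.t_AB hHC hVAN hCMON hCPR hUP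
  have hIDN := Pool.Agent.Q53.PS.t_IDN
  have hI3 := Pool.Agent.Q53.PS.t_I3
  have hWEIL := Pool.Agent.Q58.PS.t_WEIL Pool.Agent.Q68.PS.t_LGA Pool.Agent.Q68.PS.t_LGB
  have hPW := Pool.Agent.Q16.PS.t_PW hRB hIDN Pool.Agent.Q222.PSC.t_PWA Pool.Agent.Q222.PSC.t_LOW
    hWEIL hHC hCPR
  have hNO := Pool.Agent.Q95.PS.t_NO hRB hAB hIDN hI3 hPW Pool.Agent.Q222.PSC.t_OPM
    Pool.Agent.Q53.PS.t_POL hCPR
  have hUNI := Pool.Agent.Q277.PS.t_UNI Pool.Agent.Q68.PS.t_CRT Pool.Agent.Q68.PS.t_ETA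
  have hCNT := Pool.Agent.Q53.PS.t_CNT hHC hVAN hCMON
  have hAFM := Pool.Agent.Q237.PX.t_AFM
  have hWC2 := Pool.Agent.Q225.PX.t_WC2
  have hTB2 := Pool.Agent.Q249.PX.t_TB2 hCNT
  have hLINR := Pool.Agent.Q162.PX.t_LINR Pool.Agent.Q166.PS.Lin.t_LIN
  have hGBl := Pool.Agent.Q239.PX.t_GBl Pool.Agent.Q277.PS.t_REC t_GI Pool.Agent.Q222.PSC.t_T2 hWC2 hAFM
  have hEBl := Pool.Agent.Q239.PX.t_EBl hNO hUP Pool.Agent.Q166.PS.Lin.t_DUAL Pool.Agent.Q277.PX.t_DEC2 hWC2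
  exact ⟨t_PXP (t_stepP hAFM (t_PRC hHC) hNO hCNT hUNI hLINR hTB2),
    t_Adm4 (Pool.Agent.Q237.PX.t_P0R hAFM) Pool.Agent.Q137.PX.t_CONV (Pool.Agent.Q92.PX.t_ZB4 hCPR) hGBl hEBl
      Pool.Agent.Q79.PX.t_NG4 Pool.Agent.Q79.PX.t_NE4⟩

theorem rf : RFStm :=
  t_RF Pool.Agent.Q79.PX.t_CHR Pool.Agent.Q79.PX.t_BPT (Pool.Agent.Q38.PX4.t_INV Pool.Agent.Q79.PX.t_CHR)
    Pool.Agent.Q79.PX.t_PSH Pool.Agent.Q79.PX.t_PSB

theorem aStm : AStm :=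
  t_A pxp.1 pxp.2 rf Pool.Agent.Q92.PS.t_EUL Pool.Agent.Q92.PS.t_DSUM Pool.Agent.Q237.PX.t_AFM

theorem bStm : BStm :=
  t_B pxp.1 pxp.2 rf Pool.Agent.Q79.PX.t_G4 Pool.Agent.Q92.PS.t_EUL Pool.Agent.Q92.PS.t_DSUM
    Pool.Agent.Q237.PX.t_AFM

end Pool.Agent.Q284.PX
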