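import Pool.Agent.Q284.PS.Defs2

/-!
# Project PX (helper284): Euler products over `F_q(T)` with all abelian twists nice and prescribed middle
coefficients.  Definitions.

The local parameters `a P` are real.  `h z k` is coefficient `k` of the local factor with parameter `z`;
one special prime `P₀` has an arbitrary local factor with coefficients `g k`.
-/

set_option autoImplicit false

open Finset Polynomial ComplexConjugate
open Pool.Agent.H341R2.Sharp (Mon)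

namespace Pool.Agent.Q284.PX

open Pool.Agent.Q284.PS

/-- the conditions on the family of the local factors -/
structure LFam (K : ℕ) (h : ℝ → ℕ → ℝ) : Prop where
  zero : ∀ z : ℝ, h z 0 = 1
  one : ∀ z : ℝ, |z| ≤ 1 / 100 → h z 1 = z
  mid : ∀ (z : ℝ) (k : ℕ), |z| ≤ 1 / 100 → 2 ≤ k → k < K → |h z k| ≤ 10 * z ^ 2
  all : ∀ (z : ℝ) (k : ℕ), |z| ≤ 1 / 100 → |h z k| ≤ 2 * (3 : ℝ) ^ ((k : ℝ) / 64)

/-- coefficients of the trivial local factor -/
noncomputable def g0 (k : ℕ) : ℝ := if k = 0 then 1 else 0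

section Sums

variable {F : Type} [Field F]

open Classical in
/-- the multiplicative function with local coefficients `v P k` at `P ^ k` -/
noncomputable def AF (v : F[X] → ℕ → ℝ) (f : F[X]) : ℝ :=
  ∏ P ∈ (UniqueFactorizationMonoid.normalizedFactors f).toFinset,
    v P ((UniqueFactorizationMonoid.normalizedFactors f).count P)

open Classical in
/-- local coefficients: `g` at `P₀`, the family `h` with parameter `a P` at the other primes -/
noncomputable def Lo (h : ℝ → ℕ → ℝ) (P₀ : F[X]) (g : ℕ → ℝ) (a : F[X] → ℝ) (P : F[X]) (k : ℕ) : ℝ :=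
  if P = P₀ then g k else h (a P) k

variable [Fintype F]

/-- coefficient `n` of the twisted `L`-series -/
noncomputable def ef (v : F[X] → ℕ → ℝ) (χ : F[X] → ℂ) (n : ℕ) : ℂ := ∑ f ∈ Mon F n, (AF v f : ℂ) * χ f

/-- the prime part -/
noncomputable def sv (v : F[X] → ℕ → ℝ) (χ : F[X] → ℂ) (n : ℕ) : ℂ := ∑ P ∈ PI F n, (v P 1 : ℂ) * χ P

/-- the prime part for the parameters `a` -/
noncomputable def sf (a : F[X] → ℝ) (χ : F[X] → ℂ) (n : ℕ) : ℂ := ∑ P ∈ PI F n, (a P : ℂ) * χ P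

end Sums

/-- weights -/
noncomputable def w2 (q : ℝ) (d n : ℕ) : ℝ :=
  q ^ ((1 - 5 / (2 * (d : ℝ))) * n) / (n : ℝ) ^ ((5 : ℝ) / 2)

/-- weights for the squares -/
noncomputable def om2 (q : ℝ) (d n : ℕ) : ℝ := q ^ ((1 - 5 / (d : ℝ)) * n) / (n : ℝ) ^ 4

/-- the constant in the bound for the prescribed coefficients -/
noncomputable def kap (d : ℕ) : ℝ := 1 / (10 ^ 8 * (d : ℝ) ^ 3)

/-- the conditions on the local parameters up to degree `N`.  (Note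
`BB * w2 q d n = sqrt (q^n / n) * (BB * sqrt (om2 q d n))`.) -/
structure Good (F : Type) [Field F] [Fintype F] (d N : ℕ) (P₀ : F[X]) (a : F[X] → ℝ) : Prop where
  zero : ∀ P : F[X], 20 * P.natDegree < 9 * d → a P = 0
  spec : a P₀ = 0
  small : ∀ n : ℕ, n ≤ N → ∀ P ∈ PI F n, |a P| ≤ 1 / 100
  l2 : ∀ n : ℕ, 1 ≤ n → n ≤ N → ∑ P ∈ PI F n, a P ^ 2 ≤ BB ^ 2 * om2 (qq F) d n

/-- the conditions on the special prime and its local coefficients -/
structure Spec (F : Type) [Field F] [Fintype F] (d m₀ : ℕ) (P₀ : F[X]) (g : ℕ → ℝ) : Prop where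
  monic : P₀.Monic
  irr : Irreducible P₀
  deg : m₀ ≤ P₀.natDegree
  zero : g 0 = 1
  bound : ∀ k : ℕ, |g k| ≤ qq F ^ ((1 - 11 / (2 * (d : ℝ))) * ((k : ℝ) * P₀.natDegree))

/-- the value prescribed for coefficient `n` of an `L`-polynomial of degree `D` whose earlier coefficients
are `e` (`c` is the value chosen if `2 n ≤ D`) -/
noncomputable def tauX (q : ℝ) (D n : ℕ) (ε c : ℂ) (e : ℕ → ℂ) : ℂ :=
  if D < n then 0 else if 2 * n ≤ D then c else ε * (Real.sqrt q : ℂ) ^ (2 * n - D) * conj (e (D - n))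

/-- the data: `D Q l χ` the degree of the `L`-polynomial, `ε χ` the root number, `c Q l χ n e` the value
prescribed for coefficient `n` (`9 D / 20 ≤ n ≤ D / 2`) if the earlier coefficients are `e` -/
structure Data (F : Type) [Field F] [Fintype F] (d : ℕ) (D : F[X] → ℕ → (F[X] → ℂ) → ℕ)
    (ε : (F[X] → ℂ) → ℂ) (c : F[X] → ℕ → (F[X] → ℂ) → ℕ → (ℕ → ℂ) → ℂ) : Prop where
  deg : ∀ (Q : F[X]) (l : ℕ) (χ : F[X] → ℂ), Prim Q l χ → d * (Q.natDegree + max 2 l - 1) ≤ D Q l χ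
  degc : ∀ (Q : F[X]) (l : ℕ) (χ : F[X] → ℂ), Prim Q l χ → D Q l (fun f => conj (χ f)) = D Q l χ
  eps : ∀ χ : F[X] → ℂ, ‖ε χ‖ = 1
  epsc : ∀ χ : F[X] → ℂ, ε (fun f => conj (χ f)) = conj (ε χ)
  cloc : ∀ (Q : F[X]) (l : ℕ) (χ : F[X] → ℂ) (n : ℕ) (e e' : ℕ → ℂ), Prim Q l χ → (∀ k : ℕ, k < n → e k = e' k) →
    c Q l χ n e = c Q l χ n e'
  cconj : ∀ (Q : F[X]) (l : ℕ) (χ : F[X] → ℂ) (n : ℕ) (e : ℕ → ℂ), Prim Q l χ →
    c Q l (fun f => conj (χ f)) n (fun k => conj (e k)) = conj (c Q l χ n e)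
  cself : ∀ (Q : F[X]) (l : ℕ) (χ : F[X] → ℂ) (n : ℕ) (e : ℕ → ℂ), Prim Q l χ → D Q l χ = 2 * n →
    c Q l χ n e = ε χ * conj (c Q l χ n e)
  cbound : ∀ (Q : F[X]) (l : ℕ) (χ : F[X] → ℂ) (n : ℕ) (e : ℕ → ℂ), Prim Q l χ → 9 * D Q l χ ≤ 20 * n →
    2 * n ≤ D Q l χ → ‖e 0‖ ≤ 1 → (∀ k : ℕ, 1 ≤ k → k < n → ‖e k‖ ≤ 3 * BB * w2 (qq F) d k) →
    ‖c Q l χ n e‖ ≤ kap d * qq F ^ ((1 - 5 / (d : ℝ)) * n)

end Pool.Agent.Q284.PX
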