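import Pool.Agent.Q284.PX.Eng3

/-!
# Project PX3: local families with large high parts are admissible
-/

set_option autoImplicit false

open Finset Polynomial ComplexConjugate
open Pool.Agent.H341R2.Sharp (Mon mem_Mon)

namespace Pool.Agent.Q284.PX

open Pool.Agent.Q284.PS hiding Good

/-- local families: small coefficients below `K`, growth `|P|^(ϑ k)` for all `k` -/
structure FullF (F : Type) [Field F] [Fintype F] (K : ℕ) (ϑ : ℝ) (V : F[X] → ℝ → ℕ → ℝ) : Prop where
  zero : ∀ (P : F[X]) (z : ℝ), V P z 0 = 1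
  one : ∀ (P : F[X]) (z : ℝ), |z| ≤ 1 / 100 → V P z 1 = z
  mid : ∀ (P : F[X]) (z : ℝ) (k : ℕ), |z| ≤ 1 / 100 → 2 ≤ k → k < K → |V P z k| ≤ 10 * z ^ 2
  all : ∀ (P : F[X]) (z : ℝ) (k : ℕ), |z| ≤ 1 / 100 →
    |V P z k| ≤ 2 * (3 : ℝ) ^ ((k : ℝ) / 64) * qq F ^ (ϑ * ((k : ℝ) * P.natDegree))
  nul : ∀ (P : F[X]) (k : ℕ), 1 ≤ P.natDegree → |V P 0 k| ≤ qq F ^ (ϑ * ((k : ℝ) * P.natDegree))

/-- full local families are admissible -/
def AdmStm : Prop := ∃ d₀ D₃ : ℕ, ∀ d : ℕ, d₀ ≤ d → ∀ (F : Type) [Field F] [Fintype F],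
  ringChar F ≠ 2 → ∀ K : ℕ, 100 ≤ K → K ≤ d → ∀ ϑ : ℝ, 0 ≤ ϑ → ϑ ≤ 1 - 40 * Real.log d / K →
  ∀ V : F[X] → ℝ → ℕ → ℝ, FullF F K ϑ V → Adm F d D₃ V

/-- the majorant for the low parts -/
noncomputable def mj (K : ℕ) (z : ℝ) (k : ℕ) : ℝ :=
  if k = 0 then 1 else if k = 1 then z else if k < K then 10 * z ^ 2 else 0

theorem mj_fam (K : ℕ) : LFam K (mj K) := by
  refine ⟨?_, ?_, ?_, ?_⟩
  · intro z
    simp [mj]
  · intro z _
    simp [mj]
  · intro z k _ h2 hk
    unfold mj
    rw [if_neg (by omega), if_neg (by omega), if_pos hk, abs_of_nonneg (by positivity)]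
  · intro z k hz
    have h1 : (1 : ℝ) ≤ (3 : ℝ) ^ ((k : ℝ) / 64) := Real.one_le_rpow (by norm_num) (by positivity)
    have h2 : z ^ 2 ≤ (1 / 100) ^ 2 := by
      rw [← sq_abs]
      exact pow_le_pow_left₀ (abs_nonneg _) hz 2
    unfold mj
    split_ifs
    · rw [abs_one]
      linarith
    · linarith
    · rw [abs_of_nonneg (by positivity)]
      linarith
    · rw [abs_zero]
      positivity

section

variable {F : Type} [Field F] [Fintype F]

theorem mem_PD' {j : ℕ} {P : F[X]} (hP : P ∈ PD F j) : P ≠ 0 ∧ 1 ≤ P.natDegree ∧ P.natDegree ∣ j := by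
  classical
  unfold PD at hP
  rw [mem_filter] at hP
  exact ⟨hP.2.1.ne_zero, hP.2.1.natDegree_pos, hP.2.2⟩

/-- cut off the large parameters -/
noncomputable def sm (a : F[X] → ℝ) (P : F[X]) : ℝ := if |a P| ≤ 1 / 100 then a P else 0

omit [Fintype F] in
theorem sm_small (a : F[X] → ℝ) (P : F[X]) : |sm a P| ≤ 1 / 100 := by
  unfold sm
  split_ifs with h
  · exact h
  · rw [abs_zero]
    norm_num

theorem sm_eq {d N : ℕ} {a : F[X] → ℝ} (hG : Good F d N 0 a) {P : F[X]} (h1 : P.Monic) (h2 : Irreducible P)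
    (h3 : P.natDegree ≤ N) : sm a P = a P := by
  unfold sm
  rw [if_pos]
  exact hG.small P.natDegree h3 P (mem_PI.2 ⟨h1, rfl, h2⟩)

theorem sm_good {d N : ℕ} {a : F[X] → ℝ} (hG : Good F d N 0 a) : Good F d N 0 (sm a) := by
  refine ⟨?_, ?_, ?_, ?_⟩
  · intro P hP
    unfold sm
    rw [hG.zero P hP]
    simp
  · unfold sm
    rw [hG.spec]
    simp
  · intro n _ P _
    exact sm_small a P
  · intro n h1 h2
    refine le_trans (le_of_eq ?_) (hG.l2 n h1 h2)
    apply sum_congr rfl
    intro P hP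
    rw [mem_PI] at hP
    rw [sm_eq hG hP.1 hP.2.2 (by omega)]

end

theorem t_Adm (hQUO : S_QUO) (hCONV : S_CONV) (hMW : S_MW) (hZB2 : S_ZB2) (hGBl : S_GBl) (hEBg : S_EBg)
    (hNG : S_NG) : AdmStm := by
  classical
  obtain ⟨d₁, hMW⟩ := hMW
  obtain ⟨d₂, hZB2⟩ := hZB2
  obtain ⟨d₃, hGBl⟩ := hGBl
  obtain ⟨d₄, D₃, hEBg⟩ := hEBg
  obtain ⟨d₅, hNG⟩ := hNG
  refine ⟨1 + d₁ + d₂ + d₃ + d₄ + d₅, D₃, ?_⟩
  intro d hd F _ _ hF K hK hKd ϑ hϑ0 hϑ V hV
  have hq3 : 3 ≤ qq F := three_le_qq hF
  have hq0 : 0 < qq F := by linarith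
  have hq1 : 1 ≤ qq F := by linarith
  have hF3 : 3 ≤ Fintype.card F := three_le_card hF
  set θ : ℝ := 1 - 40 * Real.log d / K with hθ
  -- the decomposition for small parameters
  have key : ∀ (N : ℕ) (a : F[X] → ℝ), Good F d N 0 a → (∀ P, |a P| ≤ 1 / 100) →
      ∃ l w : F[X] → ℕ → ℝ, (∀ P, l P 0 = 1) ∧ (∀ P, w P 0 = 1) ∧ (∀ P, l P 1 = a P) ∧
        (∀ (P : F[X]) (k : ℕ), Vo V a P k = ∑ i ∈ range (k + 1), w P i * l P (k - i)) ∧
        (∀ n : ℕ, 1 ≤ n → n ≤ N → GB d l n) ∧
        (∀ u : ℕ, ∑ f ∈ Mon F u, |AF w f| ≤ qq F ^ ((1 - 30 * Real.log d / K) * u) ∧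
          (1 ≤ u → u < K → ∑ f ∈ Mon F u, |AF w f| = 0)) := by
    intro N a hG ha
    have hz2 : ∀ P, (a P) ^ 2 ≤ 1 / 10000 := by
      intro P
      rw [← sq_abs]
      have h1 := ha P
      have h2 := abs_nonneg (a P)
      nlinarith
    have hv1 : ∀ (P : F[X]) (k : ℕ), 1 ≤ k → k < K → |Vo V a P k| ≤ 1 / 100 := by
      intro P k h1 h2
      unfold Vo
      rcases Nat.lt_or_ge 1 k with h3 | h3
      · refine (hV.mid P (a P) k (ha P) h3 h2).trans ?_
        have := hz2 P
        linarith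
      · have h4 : k = 1 := by omega
        rw [h4, hV.one P _ (ha P)]
        exact ha P
    have hw := fun P : F[X] => hQUO K (Vo V a P) (by omega) (hV.zero P _) (hv1 P)
    choose w w0 w1 w2' w3 w4 using hw
    let l : F[X] → ℕ → ℝ := fun P k => if k < K then Vo V a P k else 0
    have hl0 : ∀ P, l P 0 = 1 := by
      intro P
      show (if 0 < K then Vo V a P 0 else 0) = 1
      rw [if_pos (by omega)]
      exact hV.zero P _
    have hl1 : ∀ P, l P 1 = a P := by
      intro P
      show (if 1 < K then Vo V a P 1 else 0) = a P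
      rw [if_pos (by omega)]
      exact hV.one P _ (ha P)
    refine ⟨l, w, hl0, w0, hl1, fun P k => w2' P k, ?_, ?_⟩
    · -- the low part
      intro n hn1 hn2
      refine hGBl d (by omega) F hF3 N l hl0 ?_ n hn1 hn2
      intro j hj1 hj2
      obtain ⟨z1, z2, z3⟩ := hZB2 d (by omega) F hF3 K (mj K) hK (mj_fam K) N 0 a hG j hj1 hj2
      have hle : ∀ P ∈ PD F j, |l P (j / P.natDegree)| ≤ |Lo (mj K) 0 g0 a P (j / P.natDegree)| := by
        intro P hP
        obtain ⟨h1, h2, h3⟩ := mem_PD' hP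
        have h4 : 1 ≤ j / P.natDegree := Nat.div_pos (Nat.le_of_dvd (by omega) h3) h2
        unfold Lo
        rw [if_neg h1]
        set k := j / P.natDegree with hk
        show |if k < K then Vo V a P k else 0| ≤ |mj K (a P) k|
        by_cases h5 : k < K
        · rw [if_pos h5]
          rcases Nat.lt_or_ge 1 k with h6 | h6
          · have h7 : mj K (a P) k = 10 * a P ^ 2 := by
              unfold mj
              rw [if_neg (by omega), if_neg (by omega), if_pos h5]
            rw [h7, abs_of_nonneg (by positivity : (0 : ℝ) ≤ 10 * a P ^ 2)]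
            exact hV.mid P (a P) k (ha P) h6 h5
          · have h8 : k = 1 := by omega
            have h7 : mj K (a P) k = a P := by
              unfold mj
              rw [if_neg (by omega), if_pos h8]
            rw [h7]
            have h9 : Vo V a P k = a P := by
              unfold Vo
              rw [h8]
              exact hV.one P _ (ha P)
            rw [h9]
        · rw [if_neg h5, abs_zero]
          exact abs_nonneg _
      have hle2 : ∀ P ∈ PD F j, l P (j / P.natDegree) ^ 2 ≤ Lo (mj K) 0 g0 a P (j / P.natDegree) ^ 2 := by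
        intro P hP
        rw [← sq_abs (l P _), ← sq_abs (Lo (mj K) 0 g0 a P _)]
        exact pow_le_pow_left₀ (abs_nonneg _) (hle P hP) 2
      refine ⟨(sum_le_sum hle).trans z1, (sum_le_sum hle2).trans z2, (sum_le_sum ?_).trans z3⟩
      intro P hP
      exact hle2 P (mem_of_mem_filter P hP)
    · -- the high part
      apply hMW d (by omega) F hF3 K hK hKd w w0 w1
      · intro P k
        have h1 : (1 : ℝ) ≤ qq F ^ (θ * P.natDegree) := by
          apply Real.one_le_rpow hq1
          have : 0 ≤ θ := hϑ0.trans hϑ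
          positivity
        have hpow : ∀ (x : ℝ) (k : ℕ), (qq F ^ (x * P.natDegree)) ^ k = qq F ^ (x * ((k : ℝ) * P.natDegree)) := by
          intro x k
          rw [← Real.rpow_natCast (qq F ^ (x * P.natDegree)) k, ← Real.rpow_mul hq0.le]
          congr 1
          ring
        have h2 := w4 P (qq F ^ (θ * P.natDegree)) h1 (by
          intro k _
          rw [hpow]
          refine (hV.all P (a P) k (ha P)).trans ?_
          apply mul_le_mul_of_nonneg_left _ (by positivity)
          apply Real.rpow_le_rpow_of_exponent_le hq1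
          apply mul_le_mul_of_nonneg_right hϑ (by positivity)) k
        rw [hpow] at h2
        exact h2
      · intro P k h1 h2
        have h3 : a P = 0 := hG.zero P h2
        rw [w3 P (by
          intro k hk1 hk2
          unfold Vo
          rw [h3]
          rcases Nat.lt_or_ge 1 k with h4 | h4
          · have h5 := hV.mid P 0 k (by norm_num) h4 hk2
            have h6 : |V P 0 k| ≤ 0 := by
              refine h5.trans (le_of_eq ?_)
              norm_num
            exact abs_nonpos_iff.1 h6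
          · have h5 : k = 1 := by omega
            rw [h5]
            exact hV.one P 0 (by norm_num)) k]
        unfold Vo
        rw [h3]
        refine (hV.nul P k h1).trans ?_
        apply Real.rpow_le_rpow_of_exponent_le hq1
        apply mul_le_mul_of_nonneg_right hϑ (by positivity)
  -- replace the parameters by small ones
  have hcong : ∀ (N : ℕ) (a : F[X] → ℝ), Good F d N 0 a → ∀ P : F[X], P.Monic → Irreducible P →
      P.natDegree ≤ N → Vo V a P = Vo V (sm a) P := by
    intro N a hG P h1 h2 h3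
    apply Vo_congr
    exact (sm_eq hG h1 h2 h3).symm
  refine ⟨hV.zero, hV.one, ?_, ?_⟩
  · intro N a hG n hn1 hn2
    obtain ⟨l, w, hl0, hw0, hl1, hc, hgb, hmw⟩ := key N (sm a) (sm_good hG) (sm_small a)
    have h1 : ∑ f ∈ Mon F n, |AF (Vo V a) f| = ∑ f ∈ Mon F n, |AF (Vo V (sm a)) f| := by
      apply sum_congr rfl
      intro f hf
      rw [mem_Mon] at hf
      rw [AF_congr hf.1]
      intro P h1 h2 h3
      exact hcong N a hG P h1 h2 ((natDegree_le_of_dvd h3 hf.1.ne_zero).trans (by omega))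
    rw [h1]
    refine ((hCONV F (Vo V (sm a)) l w (fun P => hV.zero P _) hl0 hw0 hc n).2).trans ?_
    refine hNG d (by omega) (qq F) K hq3 hK hKd (fun u => ∑ f ∈ Mon F u, |AF w f|)
      (fun u => ∑ f ∈ Mon F u, |AF l f|) n hn1 ?_ (fun u h1 h2 => (hmw u).2 h1 h2)
      (fun u => sum_nonneg fun _ _ => abs_nonneg _) (fun u => (hmw u).1) ?_ ?_
    · show ∑ f ∈ Mon F 0, |AF w f| = 1
      rw [Pool.Agent.H341R2.Sharp.Mon_zero, sum_singleton]
      simp only [AF, UniqueFactorizationMonoid.normalizedFactors_one]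
      simp
    · show ∑ f ∈ Mon F 0, |AF l f| = 1
      rw [Pool.Agent.H341R2.Sharp.Mon_zero, sum_singleton]
      simp only [AF, UniqueFactorizationMonoid.normalizedFactors_one]
      simp
    · intro i h1 h2
      exact ⟨sum_nonneg fun _ _ => abs_nonneg _, (hgb i h1 (by omega)).1⟩
  · intro N a hG n hn1 hn2 R ι _ χ hχ hR hcard
    obtain ⟨l, w, hl0, hw0, hl1, hc, hgb, hmw⟩ := key N (sm a) (sm_good hG) (sm_small a)
    have h1 := hEBg d (by omega) F hF K hK hKd N (sm a) (Vo V (sm a)) l w (sm_good hG) hl0 hw0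
      (fun _ _ P _ => hl1 P) hgb hmw
      (fun m χ hχ => (hCONV F (Vo V (sm a)) l w (fun P => hV.zero P _) hl0 hw0 hc m).1 χ hχ)
      n hn1 hn2 R ι χ hχ hR hcard
    refine le_trans (le_of_eq ?_) h1
    congr 1
    apply sum_congr rfl
    intro i _
    congr 3
    · apply ef_congr
      intro P h1 h2 h3
      exact hcong N a hG P h1 h2 (by omega)
    · unfold sf
      apply sum_congr rfl
      intro P hP
      rw [mem_PI] at hP
      rw [sm_eq hG hP.1 hP.2.2 (by omega)]

end Pool.Agent.Q284.PX
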