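import Pool.Agent.Q284.PX.Stm3
import Pool.Agent.Q277.PX.EBb

/-!
# Project PX3: mean squares of the product of the low and the high part
-/

set_option autoImplicit false

open Finset Polynomial ComplexConjugate
open Pool.Agent.H341R2.Sharp (Mon mem_Mon)

namespace Pool.Agent.Q284.PX

open Pool.Agent.Q284.PS hiding Good
open Pool.Agent.Q24.PS (l2n l2n_add l2n_sum l2n_mul_le l2n_le three_of_char hay_le Mon_zero three_le)

theorem t_EBg (hEBl : S_EBl) (hNE : S_NE) : S_EBg := by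
  classical
  obtain ⟨d₁, D₂, hEB⟩ := hEBl
  obtain ⟨d₂, hNE⟩ := hNE
  refine ⟨1 + d₁ + d₂, 4 * D₂ + 4, ?_⟩
  intro d hd F _ _ hchar K hK hKd N a v l w hG hl0 hw0 hl1 hGB hMW hCV n hn hnN R ι _ χ hχ hR hcard
  have hF := three_of_char hchar
  have hq : 3 ≤ qq F := three_le (F := F) hF
  have hqp : 0 < qq F := by linarith
  have hdp : (0 : ℝ) < d := by
    have : 1 ≤ d := by omega
    exact_mod_cast this
  have hB : 0 < BB := by
    unfold BB
    norm_num
  have hwn : ∀ i, 0 ≤ w2 (qq F) d i := by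
    intro i
    unfold w2
    positivity
  have hχ1 : ∀ i f, ‖χ i f‖ ≤ 1 := by
    intro i f
    obtain ⟨Q, l, hH, _⟩ := hχ.lev i
    exact hay_le hH f
  have hCM : ∀ i, CM (χ i) := by
    intro i
    obtain ⟨Q, l, h, _⟩ := hχ.lev i
    exact ⟨h.one, h.mul⟩
  have hE : ∀ i : ℕ, 1 ≤ i → i ≤ N → D₂ * (R + 1) ≤ i →
      l2n (fun j => sf a (χ j) i) ≤ 3 / 2 * BB * w2 (qq F) d i ∧
      l2n (fun j => ef l (χ j) i - sf a (χ j) i) ≤ 1 / 50 * BB * w2 (qq F) d i := by
    intro i h1 h2 h3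
    exact hEB d (by omega) F hchar N a l hG hl0 hl1 hGB i h1 h2 R ι χ hχ h3
  have hsq : Real.sqrt (Fintype.card ι) ≤ 2 * qq F ^ ((20 : ℝ) * n / (9 * d)) := by
    rw [Real.sqrt_le_left (by positivity)]
    refine hcard.trans (le_of_eq ?_)
    rw [mul_pow, ← Real.rpow_natCast (qq F ^ ((20 : ℝ) * n / (9 * d))) 2, ← Real.rpow_mul hqp.le]
    congr 1
    · norm_num
    · congr 1
      push_cast
      field_simp
      ring
  have hsplit : ∀ i, ef v (χ i) n - sf a (χ i) n =
      (ef l (χ i) n - sf a (χ i) n) + ∑ u ∈ Icc 1 n, ef w (χ i) u * ef l (χ i) (n - u) := by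
    intro i
    rw [hCV n (χ i) (hCM i)]
    have h1 : range (n + 1) = insert 0 (Icc 1 n) := by
      ext j
      simp only [mem_range, mem_insert, mem_Icc]
      omega
    rw [h1, sum_insert (by simp), Pool.Agent.Q277.PX.ef_zero w (hCM i).1, one_mul, Nat.sub_zero]
    ring
  show l2n (fun i => ef v (χ i) n - sf a (χ i) n) ≤ _
  have h0 : (fun i => ef v (χ i) n - sf a (χ i) n) = fun i =>
      (ef l (χ i) n - sf a (χ i) n) + ∑ u ∈ Icc 1 n, ef w (χ i) u * ef l (χ i) (n - u) := by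
    funext i
    exact hsplit i
  rw [h0]
  refine (l2n_add _ _).trans ?_
  have hA := (hE n hn hnN (by nlinarith)).2
  have hBd : l2n (fun i => ∑ u ∈ Icc 1 n, ef w (χ i) u * ef l (χ i) (n - u)) ≤
      ∑ u ∈ Icc 1 n, (∑ f ∈ Mon F u, |AF w f|) * l2n (fun j => ef l (χ j) (n - u)) := by
    refine (l2n_sum _ (fun u i => ef w (χ i) u * ef l (χ i) (n - u))).trans ?_
    refine sum_le_sum fun u _ => ?_
    exact l2n_mul_le (fun i => ef w (χ i) u) (fun i => ef l (χ i) (n - u)) _
      (sum_nonneg fun _ _ => abs_nonneg _) fun i => Pool.Agent.Q277.PX.ef_le (hχ1 i) u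
  have hY := hNE d (by omega) (qq F) K hq hK hKd (fun u => ∑ f ∈ Mon F u, |AF w f|)
    (fun i => l2n (fun j => ef l (χ j) i)) n hn (fun u h1 h2 => (hMW u).2 h1 h2)
    (fun u => sum_nonneg fun _ _ => abs_nonneg _) (fun u => (hMW u).1) (fun i => Real.sqrt_nonneg _)
    (by
      intro i h1 h2 h3
      have hDi : D₂ * (R + 1) ≤ i := by
        have : 4 * (D₂ * (R + 1)) ≤ n := by nlinarith
        omega
      obtain ⟨e1, e2⟩ := hE i h1 (by omega) hDi
      have e4 := l2n_add (fun j => sf a (χ j) i) (fun j => ef l (χ j) i - sf a (χ j) i)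
      have e5 : (fun j => sf a (χ j) i + (ef l (χ j) i - sf a (χ j) i)) = fun j => ef l (χ j) i := by
        funext j
        ring
      rw [e5] at e4
      have e6 : 0 ≤ BB * w2 (qq F) d i := mul_nonneg hB.le (hwn i)
      show l2n (fun j => ef l (χ j) i) ≤ _
      linarith)
    (by
      intro i h1 h2
      show l2n (fun j => ef l (χ j) i) ≤ _
      have e3 : l2n (fun j => ef l (χ j) i) ≤ Real.sqrt (Fintype.card ι) * (5 / 2 * BB * w2 (qq F) d i) :=
        Pool.Agent.Q277.PX.l2n_const _ _ (by have := hwn i; positivity)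
          fun j => (Pool.Agent.Q277.PX.ef_le (hχ1 j) i).trans (hGB i h1 (by omega)).1
      refine (e3.trans (mul_le_mul_of_nonneg_right hsq (by have := hwn i; positivity))).trans (le_of_eq ?_)
      ring)
    (by
      show l2n (fun j => ef l (χ j) 0) ≤ _
      have h1 : l2n (fun j => ef l (χ j) 0) ≤ Real.sqrt (Fintype.card ι) * 1 := by
        refine Pool.Agent.Q277.PX.l2n_const _ 1 (by norm_num) fun j => ?_
        rw [Pool.Agent.Q277.PX.ef_zero _ (hCM j).1, norm_one]
      rw [mul_one] at h1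
      exact h1.trans hsq)
  have h7 : 0 ≤ BB * w2 (qq F) d n := mul_nonneg hB.le (hwn n)
  have h8 : ∑ u ∈ Icc 1 n, (∑ f ∈ Mon F u, |AF w f|) * l2n (fun j => ef l (χ j) (n - u)) ≤
      1 / 100 * BB * w2 (qq F) d n := hY
  linarith

end Pool.Agent.Q284.PX
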