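import Pool.Agent.Q284.PX.Eng4
import Pool.Agent.Q284.PX.Adm3
import Pool.Agent.Q284.PX.EBg

/-!
# Project PX4: the admissible local families
-/

set_option autoImplicit false

open Finset Polynomial ComplexConjugate
open Pool.Agent.H341R2.Sharp (Mon mem_Mon)

namespace Pool.Agent.Q284.PX

open Pool.Agent.Q284.PS hiding Good
open Pool.Agent.Q24.PS (l2n l2n_add l2n_sum l2n_mul_le l2n_le three_of_char hay_le Mon_zero three_le)

/-- local families which depend linearly on the parameter -/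
structure FamV (F : Type) [Field F] [Fintype F] (d : ℕ) (V : F[X] → ℝ → ℕ → ℝ) : Prop where
  zero : ∀ (P : F[X]) (z : ℝ), V P z 0 = 1
  one : ∀ (P : F[X]) (z : ℝ), |z| ≤ 1 / 100 → V P z 1 = z
  mid : ∀ (P : F[X]) (z : ℝ) (k : ℕ), |z| ≤ 1 / 100 → 2 ≤ k → k < 100 → |V P z k| ≤ (d : ℝ) ^ 2 * |z|
  all : ∀ (P : F[X]) (z : ℝ) (k : ℕ), |z| ≤ 1 / 100 → |V P z k| ≤ 2 * (3 : ℝ) ^ ((k : ℝ) / 64)

/-- these families are admissible, without and with a special place -/
def Adm4Stm : Prop := ∃ d₀ D₃ : ℕ, ∀ d : ℕ, d₀ ≤ d → ∃ m₀ : ℕ, ∀ (F : Type) [Field F] [Fintype F],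
  ringChar F ≠ 2 → ∀ V : F[X] → ℝ → ℕ → ℝ, FamV F d V →
  AdmP F d D₃ V 0 g0 ∧ ∀ (P₀ : F[X]) (g : ℕ → ℝ), Spec F d m₀ P₀ g → AdmP F d D₃ V P₀ g

section

variable {F : Type} [Field F] [Fintype F]

theorem sm_eqP {d N : ℕ} {P₀ : F[X]} {a : F[X] → ℝ} (hG : Good F d N P₀ a) {P : F[X]} (h1 : P.Monic)
    (h2 : Irreducible P) (h3 : P.natDegree ≤ N) : sm a P = a P := by
  unfold sm
  rw [if_pos]
  exact hG.small P.natDegree h3 P (mem_PI.2 ⟨h1, rfl, h2⟩)

theorem sm_goodP {d N : ℕ} {P₀ : F[X]} {a : F[X] → ℝ} (hG : Good F d N P₀ a) : Good F d N P₀ (sm a) := by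
  refine ⟨?_, ?_, ?_, ?_⟩
  · intro P hP
    unfold sm
    rw [hG.zero P hP]
    simp
  · unfold sm
    rw [hG.spec]
    simp
  · intro n _ P _
    exact sm_small a P
  · intro n h1 h2
    refine le_trans (le_of_eq ?_) (hG.l2 n h1 h2)
    apply sum_congr rfl
    intro P hP
    rw [mem_PI] at hP
    rw [sm_eqP hG hP.1 hP.2.2 (by omega)]

theorem good_zero {d N : ℕ} {P₀ : F[X]} {a : F[X] → ℝ} (hd : 1 ≤ d) (hG : Good F d N P₀ a) :
    Good F d N 0 a :=
  ⟨hG.zero, hG.zero 0 (by rw [natDegree_zero]; omega), hG.small, hG.l2⟩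

/-- the coefficients at the special place alone -/
noncomputable def wP (P₀ : F[X]) (g : ℕ → ℝ) : F[X] → ℕ → ℝ := Lo (fun _ => g0) P₀ g (fun _ => 0)

/-- the mass of the special place -/
theorem wP_mass (hP0R : S_P0R) {P₀ : F[X]} {g : ℕ → ℝ} (hm : P₀.Monic) (hI : Irreducible P₀) (hg : g 0 = 1)
    (u : ℕ) : ∑ f ∈ Mon F u, |AF (wP P₀ g) f| =
      ∑ k ∈ (range (u + 1)).filter (fun k => k * P₀.natDegree ≤ u),
        |g k| * (if u - k * P₀.natDegree = 0 then 1 else 0) := by
  classical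
  have h1 := (hP0R F (fun _ => g0) P₀ g (fun _ => 0) (fun _ => by simp [g0]) hm hI hg u).2
  unfold wP
  rw [h1]
  apply sum_congr rfl
  intro k _
  congr 1
  have hLo : Lo (fun _ => g0) P₀ g0 (fun _ => (0 : ℝ)) = fun _ => g0 := by
    funext P k
    unfold Lo
    split_ifs <;> rfl
  rw [hLo]
  split_ifs with h2
  · rw [h2, Pool.Agent.H341R2.Sharp.Mon_zero, sum_singleton]
    simp only [AF, UniqueFactorizationMonoid.normalizedFactors_one]
    simp
  · apply sum_eq_zero
    intro f hf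
    rw [mem_Mon] at hf
    have h3 : ¬ IsUnit f := by
      intro h4
      have := natDegree_eq_zero_of_isUnit h4
      omega
    obtain ⟨p, hp⟩ := UniqueFactorizationMonoid.exists_mem_normalizedFactors hf.1.ne_zero h3
    rw [abs_eq_zero]
    unfold AF
    apply prod_eq_zero (Multiset.mem_toFinset.2 hp)
    have h4 := Multiset.one_le_count_iff_mem.2 hp
    exact if_neg (by omega)

theorem wP_facts (hP0R : S_P0R) {d m₀ : ℕ} {P₀ : F[X]} {g : ℕ → ℝ} (hS : Spec F d m₀ P₀ g) (hq : 3 ≤ qq F) :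
    (∑ f ∈ Mon F 0, |AF (wP P₀ g) f| = 1) ∧ (∀ u : ℕ, 0 ≤ ∑ f ∈ Mon F u, |AF (wP P₀ g) f|) ∧
    (∀ u : ℕ, ¬ P₀.natDegree ∣ u → ∑ f ∈ Mon F u, |AF (wP P₀ g) f| = 0) ∧
    ∀ u : ℕ, ∑ f ∈ Mon F u, |AF (wP P₀ g) f| ≤ qq F ^ ((1 - 11 / (2 * (d : ℝ))) * u) := by
  classical
  have hdeg : 1 ≤ P₀.natDegree := hS.irr.natDegree_pos
  have hq0 : 0 < qq F := by linarith
  refine ⟨?_, fun u => sum_nonneg fun _ _ => abs_nonneg _, ?_, ?_⟩
  · rw [Pool.Agent.H341R2.Sharp.Mon_zero, sum_singleton]
    simp only [AF, UniqueFactorizationMonoid.normalizedFactors_one]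
    simp
  · intro u hu
    rw [wP_mass hP0R hS.monic hS.irr hS.zero u]
    apply sum_eq_zero
    intro k hk
    rw [mem_filter] at hk
    rw [if_neg, mul_zero]
    intro h1
    apply hu
    have h2 : u = k * P₀.natDegree := by omega
    rw [h2]
    exact dvd_mul_left _ _
  · intro u
    rw [wP_mass hP0R hS.monic hS.irr hS.zero u]
    by_cases hu : P₀.natDegree ∣ u
    · obtain ⟨k, hk⟩ := hu
      have h1 : ∑ k ∈ (range (u + 1)).filter (fun k => k * P₀.natDegree ≤ u),
          |g k| * (if u - k * P₀.natDegree = 0 then (1 : ℝ) else 0) = |g k| := by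
        rw [sum_eq_single k]
        · rw [if_pos (by rw [hk, mul_comm]; omega), mul_one]
        · intro j hj hjk
          rw [mem_filter] at hj
          rw [if_neg, mul_zero]
          intro h2
          apply hjk
          have h3 : j * P₀.natDegree = k * P₀.natDegree := by
            rw [mul_comm k, ← hk]
            omega
          exact Nat.eq_of_mul_eq_mul_right (by omega) h3
        · intro h2
          exfalso
          apply h2
          rw [mem_filter, mem_range]
          have h3 : k * 1 ≤ k * P₀.natDegree := Nat.mul_le_mul_left k hdeg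
          have h4 : k * P₀.natDegree = u := by rw [hk, mul_comm]
          omega
      rw [h1]
      refine (hS.bound k).trans (le_of_eq ?_)
      congr 2
      rw [hk]
      push_cast
      ring
    · rw [sum_eq_zero]
      · positivity
      · intro k hk
        rw [mem_filter] at hk
        rw [if_neg, mul_zero]
        intro h1
        apply hu
        have h2 : u = k * P₀.natDegree := by omega
        rw [h2]
        exact dvd_mul_left _ _

end

theorem t_Adm4 (hP0R : S_P0R) (hCONV : S_CONV) (hZB4 : S_ZB4) (hGBl : S_GBl) (hEBl : S_EBl)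
    (hNG : S_NG4) (hNE : S_NE4) : Adm4Stm := by
  classical
  obtain ⟨d₁, hZB4⟩ := hZB4
  obtain ⟨d₂, hGBl⟩ := hGBl
  obtain ⟨d₃, D₂, hEBl⟩ := hEBl
  refine ⟨1 + d₁ + d₂ + d₃, 4 * D₂ + 4, ?_⟩
  intro d hd
  obtain ⟨m₁, hNG⟩ := hNG d (by omega)
  obtain ⟨m₂, hNE⟩ := hNE d (by omega)
  refine ⟨m₁ + m₂, ?_⟩
  intro F _ _ hF V hV
  have hq3 : 3 ≤ qq F := three_le_qq hF
  have hq0 : 0 < qq F := by linarith
  have hq1 : 1 ≤ qq F := by linarith
  have hF3 : 3 ≤ Fintype.card F := three_le_card hF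
  have hB : 0 < BB := by
    unfold BB
    norm_num
  have hwn : ∀ i, 0 ≤ w2 (qq F) d i := fun i => w2_nonneg hq0.le d i
  have hgz : g0 0 = 1 := by simp [g0]
  -- the coefficients of the low part
  have hl0 : ∀ (P₀ : F[X]) (a : F[X] → ℝ) (P : F[X]), VoP V P₀ g0 a P 0 = 1 := by
    intro P₀ a P
    unfold VoP
    split_ifs
    · exact hgz
    · exact hV.zero P _
  have hGB : ∀ (N : ℕ) (P₀ : F[X]) (a : F[X] → ℝ), Good F d N P₀ a → (∀ P, |a P| ≤ 1 / 100) →
      ∀ n : ℕ, 1 ≤ n → n ≤ N → GB d (VoP V P₀ g0 a) n := by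
    intro N P₀ a hG ha
    refine hGBl d (by omega) F hF3 N _ (hl0 P₀ a) ?_
    refine hZB4 d (by omega) F hF3 N P₀ a _ hG ?_
    intro n _ P _
    have hg0k : ∀ k : ℕ, 1 ≤ k → g0 k = 0 := by
      intro k hk
      unfold g0
      rw [if_neg (by omega)]
    unfold VoP
    by_cases h1 : P = P₀
    · simp only [if_pos h1]
      refine ⟨?_, ?_, ?_⟩
      · rw [hg0k 1 le_rfl, abs_zero]
        exact abs_nonneg _
      · intro k hk _
        rw [hg0k k (by omega), abs_zero]
        positivity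
      · intro k
        have h2 : (1 : ℝ) ≤ (3 : ℝ) ^ ((k : ℝ) / 64) := Real.one_le_rpow (by norm_num) (by positivity)
        rcases Nat.eq_zero_or_pos k with h3 | h3
        · rw [h3, hgz, abs_one]
          rw [h3] at h2
          linarith
        · rw [hg0k k h3, abs_zero]
          positivity
    · simp only [if_neg h1]
      exact ⟨by rw [hV.one P _ (ha P)], fun k hk1 hk2 => hV.mid P _ k (ha P) hk1 hk2,
        fun k => hV.all P _ k (ha P)⟩
  -- replace the parameters by small ones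
  have hcong : ∀ (N : ℕ) (P₀ : F[X]) (g : ℕ → ℝ) (a : F[X] → ℝ), Good F d N P₀ a → ∀ P : F[X], P.Monic →
      Irreducible P → P.natDegree ≤ N → VoP V P₀ g a P = VoP V P₀ g (sm a) P := by
    intro N P₀ g a hG P h1 h2 h3
    apply VoP_congr
    exact (sm_eqP hG h1 h2 h3).symm
  have hmcong : ∀ (N : ℕ) (P₀ : F[X]) (g : ℕ → ℝ) (a : F[X] → ℝ), Good F d N P₀ a → ∀ n : ℕ, n ≤ N →
      ∑ f ∈ Mon F n, |AF (VoP V P₀ g a) f| = ∑ f ∈ Mon F n, |AF (VoP V P₀ g (sm a)) f| := by
    intro N P₀ g a hG n hn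
    apply sum_congr rfl
    intro f hf
    rw [mem_Mon] at hf
    rw [AF_congr hf.1]
    intro P h1 h2 h3
    exact hcong N P₀ g a hG P h1 h2 ((natDegree_le_of_dvd h3 hf.1.ne_zero).trans (by omega))
  have hecong : ∀ (N : ℕ) (P₀ : F[X]) (g : ℕ → ℝ) (a : F[X] → ℝ), Good F d N P₀ a → ∀ n : ℕ, n ≤ N →
      ∀ χ : F[X] → ℂ, ef (VoP V P₀ g a) χ n - sf a χ n = ef (VoP V P₀ g (sm a)) χ n - sf (sm a) χ n := by
    intro N P₀ g a hG n hn χ
    congr 1
    · apply ef_congr
      intro P h1 h2 h3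
      exact hcong N P₀ g a hG P h1 h2 (by omega)
    · unfold sf
      apply sum_congr rfl
      intro P hP
      rw [mem_PI] at hP
      rw [sm_eqP hG hP.1 hP.2.2 (by omega)]
  have hl1 : ∀ (N : ℕ) (P₀ : F[X]) (a : F[X] → ℝ), Good F d N P₀ a → (∀ P, |a P| ≤ 1 / 100) →
      ∀ P : F[X], VoP V P₀ g0 a P 1 = a P := by
    intro N P₀ a hG ha P
    unfold VoP
    split_ifs with h1
    · rw [h1, hG.spec]
      simp [g0]
    · exact hV.one P _ (ha P)
  refine ⟨?_, ?_⟩
  · -- no special place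
    refine ⟨hgz, hV.zero, hV.one, ?_, ?_⟩
    · intro N a hG n hn1 hn2
      rw [hmcong N 0 g0 a hG n hn2]
      have h1 := (hGB N 0 (sm a) (sm_goodP hG) (sm_small a) n hn1 hn2).1
      have h2 := hwn n
      nlinarith [mul_nonneg hB.le h2]
    · intro N a hG n hn1 hn2 R ι _ χ hχ hR hcard
      have h1 := (hEBl d (by omega) F hF N (sm a) (VoP V 0 g0 (sm a)) (good_zero (by omega) (sm_goodP hG))
        (hl0 0 (sm a)) (fun _ _ P _ => hl1 N 0 (sm a) (sm_goodP hG) (sm_small a) P)
        (hGB N 0 (sm a) (sm_goodP hG) (sm_small a)) n hn1 hn2 R ι χ hχ (by nlinarith)).2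
      have h2 : ∑ i, ‖ef (VoP V 0 g0 a) (χ i) n - sf a (χ i) n‖ ^ 2 =
          ∑ i, ‖ef (VoP V 0 g0 (sm a)) (χ i) n - sf (sm a) (χ i) n‖ ^ 2 :=
        sum_congr rfl fun i _ => by rw [hecong N 0 g0 a hG n hn2 (χ i)]
      rw [h2]
      have h3 := hwn n
      nlinarith [mul_nonneg hB.le h3]
  · -- with a special place
    intro P₀ g hS
    have hm1 : m₁ ≤ P₀.natDegree := by
      have := hS.deg
      omega
    have hm2 : m₂ ≤ P₀.natDegree := by
      have := hS.deg
      omega
    obtain ⟨w1, w2', w3, w4⟩ := wP_facts hP0R hS hq3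
    have hv0 : ∀ (a : F[X] → ℝ) (P : F[X]), VoP V P₀ g a P 0 = 1 := by
      intro a P
      unfold VoP
      split_ifs
      · exact hS.zero
      · exact hV.zero P _
    have hw0 : ∀ P : F[X], wP P₀ g P 0 = 1 := by
      intro P
      unfold wP Lo
      split_ifs
      · exact hS.zero
      · exact hgz
    have hconv : ∀ (a : F[X] → ℝ) (P : F[X]) (k : ℕ),
        VoP V P₀ g a P k = ∑ i ∈ range (k + 1), wP P₀ g P i * VoP V P₀ g0 a P (k - i) := by
      intro a P k
      unfold wP Lo VoP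
      by_cases h1 : P = P₀
      · simp only [if_pos h1]
        rw [sum_eq_single k]
        · rw [Nat.sub_self, hgz, mul_one]
        · intro i hi hik
          rw [mem_range] at hi
          have : g0 (k - i) = 0 := by
            unfold g0
            rw [if_neg (by omega)]
          rw [this, mul_zero]
        · intro h2
          exfalso
          apply h2
          rw [mem_range]
          omega
      · simp only [if_neg h1]
        rw [sum_eq_single 0]
        · rw [Nat.sub_zero, hgz, one_mul]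
        · intro i _ hi
          have : g0 i = 0 := by
            unfold g0
            rw [if_neg hi]
          rw [this, zero_mul]
        · intro h2
          exfalso
          apply h2
          rw [mem_range]
          omega
    have hAF0 : ∀ v : F[X] → ℕ → ℝ, ∑ f ∈ Mon F 0, |AF v f| = 1 := by
      intro v
      rw [Pool.Agent.H341R2.Sharp.Mon_zero, sum_singleton]
      simp only [AF, UniqueFactorizationMonoid.normalizedFactors_one]
      simp
    refine ⟨hS.zero, hV.zero, hV.one, ?_, ?_⟩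
    · intro N a hG n hn1 hn2
      rw [hmcong N P₀ g a hG n hn2]
      have hgb := hGB N P₀ (sm a) (sm_goodP hG) (sm_small a)
      refine ((hCONV F (VoP V P₀ g (sm a)) (VoP V P₀ g0 (sm a)) (wP P₀ g) (hv0 (sm a)) (hl0 P₀ (sm a)) hw0
        (hconv (sm a)) n).2).trans ?_
      refine hNG (qq F) P₀.natDegree hq3 hm1 (fun u => ∑ f ∈ Mon F u, |AF (wP P₀ g) f|)
        (fun u => ∑ f ∈ Mon F u, |AF (VoP V P₀ g0 (sm a)) f|) n hn1 w1 w2' w3 w4 (hAF0 _) ?_
      intro i h1 h2
      exact ⟨sum_nonneg fun _ _ => abs_nonneg _, (hgb i h1 (by omega)).1⟩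
    · intro N a' hG' n hn hnN R ι _ χ hχ hR hcard
      have h2 : ∑ i, ‖ef (VoP V P₀ g a') (χ i) n - sf a' (χ i) n‖ ^ 2 =
          ∑ i, ‖ef (VoP V P₀ g (sm a')) (χ i) n - sf (sm a') (χ i) n‖ ^ 2 :=
        sum_congr rfl fun i _ => by rw [hecong N P₀ g a' hG' n hnN (χ i)]
      rw [h2]
      set a := sm a' with ha
      have hG : Good F d N P₀ a := sm_goodP hG'
      have hGB' : ∀ n : ℕ, 1 ≤ n → n ≤ N → GB d (VoP V P₀ g0 a) n := hGB N P₀ a hG (sm_small a')
      have hχ1 : ∀ i f, ‖χ i f‖ ≤ 1 := by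
        intro i f
        obtain ⟨Q, l, hH, _⟩ := hχ.lev i
        exact hay_le hH f
      have hCM : ∀ i, CM (χ i) := by
        intro i
        obtain ⟨Q, l, h, _⟩ := hχ.lev i
        exact ⟨h.one, h.mul⟩
      set v := VoP V P₀ g a with hvdef
      set l := VoP V P₀ g0 a with hldef
      set w := wP P₀ g with hwdef
      have hE : ∀ i : ℕ, 1 ≤ i → i ≤ N → D₂ * (R + 1) ≤ i →
          l2n (fun j => sf a (χ j) i) ≤ 3 / 2 * BB * w2 (qq F) d i ∧
          l2n (fun j => ef l (χ j) i - sf a (χ j) i) ≤ 1 / 50 * BB * w2 (qq F) d i := by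
        intro i h1 h2 h3
        exact hEBl d (by omega) F hF N a l (good_zero (by omega) hG) (hl0 P₀ a)
          (fun _ _ P _ => hl1 N P₀ a hG (sm_small a') P) hGB' i h1 h2 R ι χ hχ h3
      have hsq : Real.sqrt (Fintype.card ι) ≤ 2 * qq F ^ ((20 : ℝ) * n / (9 * d)) := by
        rw [Real.sqrt_le_left (by positivity)]
        refine hcard.trans (le_of_eq ?_)
        rw [mul_pow, ← Real.rpow_natCast (qq F ^ ((20 : ℝ) * n / (9 * d))) 2, ← Real.rpow_mul hq0.le]
        congr 1
        · norm_num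
        · congr 1
          push_cast
          field_simp
          ring
      have hsplit : ∀ i, ef v (χ i) n - sf a (χ i) n =
          (ef l (χ i) n - sf a (χ i) n) + ∑ u ∈ Icc 1 n, ef w (χ i) u * ef l (χ i) (n - u) := by
        intro i
        rw [(hCONV F v l w (hv0 a) (hl0 P₀ a) hw0 (hconv a) n).1 (χ i) (hCM i)]
        have h1 : range (n + 1) = insert 0 (Icc 1 n) := by
          ext j
          simp only [mem_range, mem_insert, mem_Icc]
          omega
        rw [h1, sum_insert (by simp), Pool.Agent.Q277.PX.ef_zero w (hCM i).1, one_mul, Nat.sub_zero]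
        ring
      show l2n (fun i => ef v (χ i) n - sf a (χ i) n) ≤ _
      have h0 : (fun i => ef v (χ i) n - sf a (χ i) n) = fun i =>
          (ef l (χ i) n - sf a (χ i) n) + ∑ u ∈ Icc 1 n, ef w (χ i) u * ef l (χ i) (n - u) := by
        funext i
        exact hsplit i
      rw [h0]
      refine (l2n_add _ _).trans ?_
      have hA := (hE n hn hnN (by nlinarith)).2
      have hBd : l2n (fun i => ∑ u ∈ Icc 1 n, ef w (χ i) u * ef l (χ i) (n - u)) ≤
          ∑ u ∈ Icc 1 n, (∑ f ∈ Mon F u, |AF w f|) * l2n (fun j => ef l (χ j) (n - u)) := by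
        refine (l2n_sum _ (fun u i => ef w (χ i) u * ef l (χ i) (n - u))).trans ?_
        refine sum_le_sum fun u _ => ?_
        exact l2n_mul_le (fun i => ef w (χ i) u) (fun i => ef l (χ i) (n - u)) _
          (sum_nonneg fun _ _ => abs_nonneg _) fun i => Pool.Agent.Q277.PX.ef_le (hχ1 i) u
      have hY := hNE (qq F) P₀.natDegree hq3 hm2 (fun u => ∑ f ∈ Mon F u, |AF w f|)
        (fun i => l2n (fun j => ef l (χ j) i)) n hn w2' w3 w4 (fun i => Real.sqrt_nonneg _)
        (by
          intro i h1 h2 h3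
          have hDi : D₂ * (R + 1) ≤ i := by
            have : 4 * (D₂ * (R + 1)) ≤ n := by nlinarith
            omega
          obtain ⟨e1, e2⟩ := hE i h1 (by omega) hDi
          have e4 := l2n_add (fun j => sf a (χ j) i) (fun j => ef l (χ j) i - sf a (χ j) i)
          have e5 : (fun j => sf a (χ j) i + (ef l (χ j) i - sf a (χ j) i)) = fun j => ef l (χ j) i := by
            funext j
            ring
          rw [e5] at e4
          have e6 : 0 ≤ BB * w2 (qq F) d i := mul_nonneg hB.le (hwn i)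
          show l2n (fun j => ef l (χ j) i) ≤ _
          linarith)
        (by
          intro i h1 h2
          show l2n (fun j => ef l (χ j) i) ≤ _
          have e3 : l2n (fun j => ef l (χ j) i) ≤ Real.sqrt (Fintype.card ι) * (5 / 2 * BB * w2 (qq F) d i) :=
            Pool.Agent.Q277.PX.l2n_const _ _ (by have := hwn i; positivity)
              fun j => (Pool.Agent.Q277.PX.ef_le (hχ1 j) i).trans (hGB' i h1 (by omega)).1
          refine (e3.trans (mul_le_mul_of_nonneg_right hsq (by have := hwn i; positivity))).trans (le_of_eq ?_)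
          ring)
        (by
          show l2n (fun j => ef l (χ j) 0) ≤ _
          have h1 : l2n (fun j => ef l (χ j) 0) ≤ Real.sqrt (Fintype.card ι) * 1 := by
            refine Pool.Agent.Q277.PX.l2n_const _ 1 (by norm_num) fun j => ?_
            rw [Pool.Agent.Q277.PX.ef_zero _ (hCM j).1, norm_one]
          rw [mul_one] at h1
          exact h1.trans hsq)
      have h7 : 0 ≤ BB * w2 (qq F) d n := mul_nonneg hB.le (hwn n)
      have h8 : ∑ u ∈ Icc 1 n, (∑ f ∈ Mon F u, |AF w f|) * l2n (fun j => ef l (χ j) (n - u)) ≤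
          1 / 100 * BB * w2 (qq F) d n := hY
      linarith

end Pool.Agent.Q284.PX
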