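import Pool.Agent.Q284.PX.AssAB

/-!
# Project PX: prescribed central values
-/

set_option autoImplicit false

open Finset Polynomial ComplexConjugate
open Pool.Agent.H341R2.Sharp (Mon mem_Mon)

namespace Pool.Agent.Q284.PX

open Pool.Agent.Q284.PS

/-- the central values of all twists are prescribed -/
def CentralStm : Prop := ∃ n₀ : ℕ, ∀ n : ℕ, n₀ ≤ n → Even n → ∀ (F : Type) [Field F] [Fintype F],
  ringChar F ≠ 2 → ∀ M : ℕ, 3 ≤ M → ∀ ε v : (F[X] → ℂ) → ℂ, (∀ χ, ‖ε χ‖ = 1) →
  (∀ χ, ε (fun f => conj (χ f)) = conj (ε χ)) → (∀ χ, v (fun f => conj (χ f)) = conj (v χ)) →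
  (∀ χ, v χ = ε χ * conj (v χ)) →
  (∀ (Q : F[X]) (l : ℕ) (χ : F[X] → ℂ), Prim Q l χ →
    ‖v χ‖ ≤ (2 * 10 ^ 8 * (n : ℝ) ^ 3)⁻¹ *
      (Fintype.card F : ℝ) ^ ((1 / 4 - 5 / (2 * (n : ℝ))) * twistDegree n M Q l)) →
  ∃ α : F[X] → Fin n → ℂ, Tempered α ∧ SelfDual α ∧
    ∀ (Q : F[X]) (l : ℕ) (χ : F[X] → ℂ), Prim Q l χ →
      ∃ L : ℂ → ℂ, IsLFun α χ L ∧ Nice (Fintype.card F) (twistDegree n M Q l) (ε χ) L ∧ L (1 / 2) = v χ

theorem t_Central (hB : Base) (hCVB : S_CVB) (hCVV : S_CVV) : CentralStm := by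
  classical
  obtain ⟨d₁, hB⟩ := hB
  obtain ⟨d₂, hCVB⟩ := hCVB
  refine ⟨1000 + d₁ + d₂, ?_⟩
  intro d hd hev F _ _ hF M hM3 ε v hε hεc hvc hvε hvb
  have hq3 : 3 ≤ qq F := three_le_qq hF
  have hq0 : 0 < qq F := by linarith
  have hqq : qq F = (Fintype.card F : ℝ) := rfl
  obtain ⟨j, hj⟩ := hev
  have hev' : Even d := ⟨j, hj⟩
  set c : F[X] → ℕ → (F[X] → ℂ) → ℕ → (ℕ → ℂ) → ℂ := fun Q l χ n e =>
    if twistDegree d M Q l = 2 * n then cmid (qq F) n (ε χ) (v χ) e else 0 with hc
  have hε2 : ∀ χ : F[X] → ℂ, ε χ * conj (ε χ) = 1 := by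
    intro χ
    rw [Complex.mul_conj, Complex.normSq_eq_norm_sq, hε]
    norm_num
  have hD : Data F d (fun Q l _ => twistDegree d M Q l) ε c := by
    refine ⟨?_, fun _ _ _ _ => rfl, hε, hεc, ?_, ?_, ?_, ?_⟩
    · intro Q l χ _
      unfold twistDegree
      apply Nat.mul_le_mul_left
      have : max 3 (l + 1) ≤ max M (l + 1) := max_le_max hM3 le_rfl
      have h1 : max 3 (l + 1) = max 2 l + 1 := by omega
      omega
    · intro Q l χ n e e' _ hee
      rw [hc]
      simp only []
      split_ifs with h1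
      · unfold cmid
        congr 2
        apply sum_congr rfl
        intro k hk
        rw [mem_filter, mem_range] at hk
        rw [hee k hk.1]
      · rfl
    · intro Q l χ n e _
      rw [hc]
      simp only []
      split_ifs with h1
      · unfold cmid
        rw [hεc, hvc]
        simp only [map_mul, map_sub, map_sum, map_pow, map_add, map_inv₀, Complex.conj_ofReal]
      · rw [map_zero]
    · intro Q l χ n e _ h1
      rw [hc]
      simp only []
      have h1' : twistDegree d M Q l = 2 * n := h1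
      rw [if_pos h1']
      unfold cmid
      simp only [map_mul, map_sub, map_sum, map_pow, map_add, map_inv₀, Complex.conj_ofReal,
        Complex.conj_conj]
      have h2 : ε χ * ((Real.sqrt (qq F) : ℂ) ^ n * (conj (v χ) - ∑ x ∈ (range n).filter (fun k => 10 * k < 9 * n),
          (conj (e x) + conj (ε χ) * e x) * ((Real.sqrt (qq F) : ℂ) ^ x)⁻¹)) =
          (Real.sqrt (qq F) : ℂ) ^ n * (ε χ * conj (v χ) -
            ∑ x ∈ (range n).filter (fun k => 10 * k < 9 * n),
              ε χ * ((conj (e x) + conj (ε χ) * e x) * ((Real.sqrt (qq F) : ℂ) ^ x)⁻¹)) := by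
        rw [← mul_sum]
        ring
      rw [h2, ← hvε χ]
      congr 2
      apply sum_congr rfl
      intro k _
      have h3 := hε2 χ
      linear_combination (-(e k * ((Real.sqrt (qq F) : ℂ) ^ k)⁻¹)) * h3
    · intro Q l χ n e hχ h1 h2 h3 h4
      rw [hc]
      simp only []
      split_ifs with h5
      · apply hCVB d (by omega) (qq F) n (ε χ) (v χ) e hq3 _ (hε χ) _ h3 h4
        · rw [← h5]
          unfold twistDegree
          apply Nat.le_mul_of_pos_right
          have := le_max_left M (l + 1)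
          omega
        · have h6 := hvb Q l χ hχ
          rw [h5, ← hqq] at h6
          refine h6.trans (le_of_eq ?_)
          unfold kap
          congr 1
          rw [one_div, div_eq_mul_inv, ← mul_inv]
          congr 1
          ring
      · rw [norm_zero]
        have : 0 ≤ kap d := by
          unfold kap
          positivity
        positivity
  obtain ⟨α, ha1, ha2, hα⟩ := hB d (by omega) hev' F hF M hM3 ε c hD
  refine ⟨α, ha1, ha2, ?_⟩
  intro Q l χ hχ
  obtain ⟨hdD, e, he0, heb, hfe, hmid, hL, _⟩ := hα Q l χ hχ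
  obtain ⟨M', hM'⟩ : ∃ M', twistDegree d M Q l = 2 * M' := by
    refine ⟨j * (Q.natDegree + max M (l + 1) - 2), ?_⟩
    unfold twistDegree
    rw [hj]
    ring
  refine ⟨_, hL, gen_nice (Fintype.card_pos) (hε χ) he0 hfe, ?_⟩
  unfold Ls
  rw [hM']
  apply hCVV (Fintype.card F : ℝ) M' (ε χ) (v χ) e hq3
  · intro k hk1 hk2
    rw [hmid k (by omega) (by omega), hc]
    simp only []
    rw [if_neg (by omega)]
  · rw [hmid M' (by omega) (by omega), hc]
    simp only []
    rw [if_pos hM']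
    rfl
  · intro n m hnm hmn
    exact hfe n m (by omega) hmn

end Pool.Agent.Q284.PX
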