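import Pool.Agent.Q284.PX.AssA
import Pool.Agent.Q284.PX.AssB
import Pool.Agent.Q284.PX.AssC
import Pool.Agent.Q284.PS.Small
import Pool.Agent.Q285.PS.BHA
import Pool.Agent.Q177.PS.BHB
import Pool.Agent.Q177.PS.LOC2
import Pool.Agent.Q68.PS.MER
import Pool.Agent.Q68.PS.CRT
import Pool.Agent.Q68.PS.ETA
import Pool.Agent.Q68.PS.LGA
import Pool.Agent.Q68.PS.Leg
import Pool.Agent.Q53.PS.POL
import Pool.Agent.Q53.PS.HC
import Pool.Agent.Q53.PS.Gen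
import Pool.Agent.Q53.PS.IDN
import Pool.Agent.Q53.PS.CNT
import Pool.Agent.Q166.PS.Van
import Pool.Agent.Q166.PS.Lin
import Pool.Agent.Q58.PS.BH
import Pool.Agent.Q58.PS.WEIL
import Pool.Agent.Q184.PS.UP
import Pool.Agent.Q184.PS.AB
import Pool.Agent.Q95.PS.RB
import Pool.Agent.Q95.PS.NO
import Pool.Agent.Q222.PSC.PWA
import Pool.Agent.Q222.PSC.LOW
import Pool.Agent.Q222.PSC.OPM
import Pool.Agent.Q222.PSC.T2
import Pool.Agent.Q16.PS.PW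
import Pool.Agent.Q277.PS.UNI
import Pool.Agent.Q277.PS.LOC1
import Pool.Agent.Q277.PS.Fac
import Pool.Agent.Q92.PS.EUL
import Pool.Agent.Q92.PS.DSUM
import Pool.Agent.Q261.PS.LSER
import Pool.Agent.Q225.PX.WC2
import Pool.Agent.Q237.PX.AFM
import Pool.Agent.Q277.PX.DEC2
import Pool.Agent.Q237.PX.P0R
import Pool.Agent.Q162.PX.ZB2
import Pool.Agent.Q251.PX.GBa
import Pool.Agent.Q277.PX.GBb
import Pool.Agent.Q225.PX.EBa
import Pool.Agent.Q277.PX.EBb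
import Pool.Agent.Q249.PX.TB2
import Pool.Agent.Q162.PX.LINR
import Pool.Agent.Q162.PX.FPS
import Pool.Agent.Q95.PX.LR1
import Pool.Agent.Q237.PX.LR2
import Pool.Agent.Q237.PX.ZL
import Pool.Agent.Q237.PX.CVB
import Pool.Agent.Q237.PX.CVV

/-!
# Project PX: all statements together

Plan, statements with paper proofs and assembly by helper284; lemmas proved by helpers 16, 24, 53, 58, 68, 92,
95, 149, 162, 166, 177, 184, 222, 225, 237, 249, 251, 261, 277, 285.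
-/

set_option autoImplicit false

open Finset Polynomial ComplexConjugate

namespace Pool.Agent.Q284.PX

open Pool.Agent.Q284.PS

/-- the engine -/
theorem pxm : PXM := by
  have hHC := Pool.Agent.Q53.PS.t_HC
  have hCMON := Pool.Agent.Q53.PS.t_CMON
  have hCPR := Pool.Agent.Q53.PS.t_CPR
  have hVAN := Pool.Agent.Q166.PS.Van.t_VAN
  have hMER := Pool.Agent.Q68.PS.t_MER hCPR
  have hBH := Pool.Agent.Q58.PS.t_BH Pool.Agent.Q285.PS.t_BHA Pool.Agent.Q177.PS.BHB.t_BHB hMER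
  have hUP := Pool.Agent.Q184.PS.t_UP hHC hVAN hCMON hBH
  have hRB := Pool.Agent.Q95.PS.t_RB hHC hVAN hCMON hBH hUP
  have hAB := Pool.Agent.Q184.PS.t_AB hHC hVAN hCMON hCPR hUP
  have hIDN := Pool.Agent.Q53.PS.t_IDN
  have hI3 := Pool.Agent.Q53.PS.t_I3
  have hWEIL := Pool.Agent.Q58.PS.t_WEIL Pool.Agent.Q68.PS.t_LGA Pool.Agent.Q68.PS.t_LGB
  have hPW := Pool.Agent.Q16.PS.t_PW hRB hIDN Pool.Agent.Q222.PSC.t_PWA Pool.Agent.Q222.PSC.t_LOW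
    hWEIL hHC hCPR
  have hNO := Pool.Agent.Q95.PS.t_NO hRB hAB hIDN hI3 hPW Pool.Agent.Q222.PSC.t_OPM
    Pool.Agent.Q53.PS.t_POL hCPR
  have hUNI := Pool.Agent.Q277.PS.t_UNI Pool.Agent.Q68.PS.t_CRT Pool.Agent.Q68.PS.t_ETA
  have hCNT := Pool.Agent.Q53.PS.t_CNT hHC hVAN hCMON
  have hAFM := Pool.Agent.Q237.PX.t_AFM
  have hWC2 := Pool.Agent.Q225.PX.t_WC2
  have hP0R := Pool.Agent.Q237.PX.t_P0R hAFM
  have hZB2 := Pool.Agent.Q162.PX.t_ZB2 hCPR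
  have hGBa := Pool.Agent.Q251.PX.t_GBa Pool.Agent.Q277.PS.t_REC t_GI Pool.Agent.Q222.PSC.t_T2 hWC2 hZB2 hAFM
  have hGBb := Pool.Agent.Q277.PX.t_GBb hGBa hP0R
  have hEBa := Pool.Agent.Q225.PX.t_EBa hNO hUP Pool.Agent.Q166.PS.Lin.t_DUAL Pool.Agent.Q277.PX.t_DEC2 hGBa hWC2
  have hEBb := Pool.Agent.Q277.PX.t_EBb hEBa hGBa hP0R
  have hTB2 := Pool.Agent.Q249.PX.t_TB2 hCNT
  have hLINR := Pool.Agent.Q162.PX.t_LINR Pool.Agent.Q166.PS.Lin.t_LIN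
  exact t_PXM (t_step hAFM (t_PRC hHC) hNO hCNT hUNI hLINR hGBb hEBb hTB2) hGBb

theorem base : Base :=
  t_Base pxm (Pool.Agent.Q162.PX.t_FPS Pool.Agent.Q277.PS.t_LOC1 Pool.Agent.Q177.PS.LOC2.t_LOC2)
    (Pool.Agent.Q261.PS.t_LSER Pool.Agent.Q277.PS.t_LOC1) Pool.Agent.Q92.PS.t_EUL Pool.Agent.Q92.PS.t_DSUM
    Pool.Agent.Q237.PX.t_AFM

theorem centralStm : CentralStm := t_Central base Pool.Agent.Q237.PX.t_CVB Pool.Agent.Q237.PX.t_CVV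

theorem zerosStm : ZerosStm := t_Zeros base Pool.Agent.Q237.PX.t_ZL

theorem lrsStm : LRSStm :=
  t_LRS pxm (Pool.Agent.Q95.PX.t_LR1 Pool.Agent.Q177.PS.LOC2.t_LOC2) Pool.Agent.Q237.PX.t_LR2
    Pool.Agent.Q92.PS.t_EUL Pool.Agent.Q92.PS.t_DSUM Pool.Agent.Q53.PS.t_CMON Pool.Agent.Q237.PX.t_AFM

end Pool.Agent.Q284.PX
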