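import Pool.Agent.Q284.PX.All
import Pool.Agent.Q284.PX.Ass3
import Pool.Agent.Q284.PX.EBg
import Pool.Agent.Q137.PX.NG
import Pool.Agent.Q137.PX.QUO
import Pool.Agent.Q137.PX.CONV
import Pool.Agent.Q137.PX.MW
import Pool.Agent.Q239.PX.GBl
import Pool.Agent.Q239.PX.EBl
import Pool.Agent.Q239.PX.H1F
import Pool.Agent.Q223.PX.H2F

/-!
# Project PX3: all statements together

Plan, statements with paper proofs and assembly by helper284; lemmas proved by helpers 137, 223, 239 (and, projects PS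
and PX, helpers 16, 24, 53, 58, 68, 92, 95, 149, 162, 166, 177, 184, 222, 225, 237, 249, 251, 261, 277, 285).
-/

set_option autoImplicit false

open Finset Polynomial ComplexConjugate

namespace Pool.Agent.Q284.PX

open Pool.Agent.Q284.PS

/-- the engine for local families depending on the place -/
theorem pxv : PXV ∧ AdmStm := by
  have hHC := Pool.Agent.Q53.PS.t_HC
  have hCMON := Pool.Agent.Q53.PS.t_CMON
  have hCPR := Pool.Agent.Q53.PS.t_CPR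
  have hVAN := Pool.Agent.Q166.PS.Van.t_VAN
  have hMER := Pool.Agent.Q68.PS.t_MER hCPR
  have hBH := Pool.Agent.Q58.PS.t_BH Pool.Agent.Q285.PS.t_BHA Pool.Agent.Q177.PS.BHB.t_BHB hMER
  have hUP := Pool.Agent.Q184.PS.t_UP hHC hVAN hCMON hBH
  have hRB := Pool.Agent.Q95.PS.t_RB hHC hVAN hCMON hBH hUP
  have hAB := Pool.Agent.Q184.PS.t_AB hHC hVAN hCMON hCPR hUP
  have hIDN := Pool.Agent.Q53.PS.t_IDN
  have hI3 := Pool.Agent.Q53.PS.t_I3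
  have hWEIL := Pool.Agent.Q58.PS.t_WEIL Pool.Agent.Q68.PS.t_LGA Pool.Agent.Q68.PS.t_LGB
  have hPW := Pool.Agent.Q16.PS.t_PW hRB hIDN Pool.Agent.Q222.PSC.t_PWA Pool.Agent.Q222.PSC.t_LOW
    hWEIL hHC hCPR
  have hNO := Pool.Agent.Q95.PS.t_NO hRB hAB hIDN hI3 hPW Pool.Agent.Q222.PSC.t_OPM
    Pool.Agent.Q53.PS.t_POL hCPR
  have hUNI := Pool.Agent.Q277.PS.t_UNI Pool.Agent.Q68.PS.t_CRT Pool.Agent.Q68.PS.t_ETA
  have hCNT := Pool.Agent.Q53.PS.t_CNT hHC hVAN hCMON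
  have hAFM := Pool.Agent.Q237.PX.t_AFM
  have hWC2 := Pool.Agent.Q225.PX.t_WC2
  have hZB2 := Pool.Agent.Q162.PX.t_ZB2 hCPR
  have hTB2 := Pool.Agent.Q249.PX.t_TB2 hCNT
  have hLINR := Pool.Agent.Q162.PX.t_LINR Pool.Agent.Q166.PS.Lin.t_LIN
  have hGBl := Pool.Agent.Q239.PX.t_GBl Pool.Agent.Q277.PS.t_REC t_GI Pool.Agent.Q222.PSC.t_T2 hWC2 hAFM
  have hEBl := Pool.Agent.Q239.PX.t_EBl hNO hUP Pool.Agent.Q166.PS.Lin.t_DUAL Pool.Agent.Q277.PX.t_DEC2 hWC2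
  have hMW := Pool.Agent.Q137.PX.t_MW
  exact ⟨t_PXV (t_stepV hAFM (t_PRC hHC) hNO hCNT hUNI hLINR hTB2),
    t_Adm Pool.Agent.Q137.PX.t_QUO Pool.Agent.Q137.PX.t_CONV hMW hZB2 hGBl
      (t_EBg hEBl Pool.Agent.Q137.PX.t_NE) Pool.Agent.Q137.PX.t_NG⟩

theorem h1Stm : H1Stm :=
  t_H1 pxv.1 pxv.2 (Pool.Agent.Q239.PX.t_H1F Pool.Agent.Q277.PS.t_LOC1 Pool.Agent.Q177.PS.LOC2.t_LOC2)
    Pool.Agent.Q92.PS.t_EUL Pool.Agent.Q92.PS.t_DSUM Pool.Agent.Q237.PX.t_AFM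

theorem h2Stm : H2Stm :=
  t_H2 pxv.1 pxv.2 (Pool.Agent.Q223.PX.t_H2F Pool.Agent.Q177.PS.LOC2.t_LOC2)
    Pool.Agent.Q92.PS.t_EUL Pool.Agent.Q92.PS.t_DSUM Pool.Agent.Q53.PS.t_CMON Pool.Agent.Q237.PX.t_AFM

end Pool.Agent.Q284.PX
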