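import Pool.Agent.Q284.PX.AssAB

/-!
# Project PX: no zeros in the middle of the critical strip
-/

set_option autoImplicit false

open Finset Polynomial ComplexConjugate
open Pool.Agent.H341R2.Sharp (Mon mem_Mon)

namespace Pool.Agent.Q284.PX

open Pool.Agent.Q284.PS

section Rho

variable {F : Type} [Field F]

open Classical in
/-- a choice from a set of polynomials -/
noncomputable def pick (S : F[X] → Prop) : F[X] := if h : ∃ f, S f then Classical.choose h else 0

/-- the sign of a nonreal character -/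
noncomputable def sgn (χ : F[X] → ℂ) : ℝ := if 0 < (χ (pick fun f => (χ f).im ≠ 0)).im then 1 else -1

theorem sgn_conj {χ : F[X] → ℂ} (h : ∃ f, conj (χ f) ≠ χ f) : sgn (fun f => conj (χ f)) = - sgn χ := by
  classical
  have h1 : (fun f : F[X] => (conj (χ f)).im ≠ 0) = fun f => (χ f).im ≠ 0 := by
    funext f
    rw [Complex.conj_im, neg_ne_zero]
  have h2 : ∃ f : F[X], (χ f).im ≠ 0 := by
    obtain ⟨f, hf⟩ := h
    exact ⟨f, fun h3 => hf (Complex.conj_eq_iff_im.2 h3)⟩
  have h3 : (χ (pick fun f => (χ f).im ≠ 0)).im ≠ 0 := by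
    unfold pick
    rw [dif_pos h2]
    exact Classical.choose_spec h2
  unfold sgn
  rw [h1, Complex.conj_im]
  rcases lt_or_gt_of_ne h3 with h4 | h4
  · rw [if_pos (by linarith), if_neg (by linarith)]
    norm_num
  · rw [if_neg (by linarith), if_pos h4]

theorem sgn_sq (χ : F[X] → ℂ) : sgn χ ^ 2 = 1 := by
  unfold sgn
  split_ifs <;> norm_num

/-- square roots of the root numbers -/
theorem exists_rho {ε : (F[X] → ℂ) → ℂ} (h1 : ∀ χ, ‖ε χ‖ = 1)
    (h2 : ∀ χ, ε (fun f => conj (χ f)) = conj (ε χ)) (h3 : ∀ χ, (∀ f, conj (χ f) = χ f) → ε χ = 1) :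
    ∃ ρ : (F[X] → ℂ) → ℂ, (∀ χ, ‖ρ χ‖ = 1) ∧ (∀ χ, ρ (fun f => conj (χ f)) = conj (ρ χ)) ∧
      ∀ χ, ε χ = ρ χ ^ 2 := by
  classical
  refine ⟨fun χ => if ε χ = -1 then (sgn χ : ℂ) * Complex.I else (ε χ) ^ ((1 / 2 : ℝ) : ℂ), ?_, ?_, ?_⟩
  · intro χ
    simp only []
    split_ifs with h
    · rw [norm_mul, Complex.norm_I, mul_one, Complex.norm_real, Real.norm_eq_abs]
      have := sgn_sq χ
      rcases sq_eq_one_iff.1 this with h4 | h4 <;> rw [h4] <;> norm_num
    · have h4 : ε χ ≠ 0 := by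
        intro h5
        have := h1 χ
        rw [h5, norm_zero] at this
        norm_num at this
      rw [Complex.norm_cpow_real, h1 χ, Real.one_rpow]
  · intro χ
    simp only []
    rw [h2 χ]
    by_cases h : ε χ = -1
    · rw [if_pos h, if_pos (by rw [h, map_neg, map_one])]
      have h4 : ∃ f, conj (χ f) ≠ χ f := by
        by_contra h5
        push Not at h5
        have h6 := h3 χ h5
        rw [h] at h6
        norm_num at h6
      rw [sgn_conj h4, map_mul, Complex.conj_ofReal, Complex.conj_I]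
      push_cast
      ring
    · rw [if_neg h, if_neg]
      · have h5 := Complex.conj_cpow (ε χ) (((1 / 2 : ℝ)) : ℂ) (by
          intro h6
          rw [Complex.arg_eq_pi_iff] at h6
          apply h
          have h7 := h1 χ
          have h8 : ε χ = ((ε χ).re : ℂ) := by
            apply Complex.ext
            · simp
            · simpa using h6.2
          rw [h8, Complex.norm_real, Real.norm_eq_abs, abs_of_neg h6.1] at h7
          rw [h8]
          have h9 : (ε χ).re = -1 := by linarith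
          rw [h9]
          norm_num)
        rw [Complex.conj_ofReal] at h5
        rw [h5]
      · intro h5
        apply h
        have h6 := congrArg conj h5
        rw [Complex.conj_conj, map_neg, map_one] at h6
        exact h6
  · intro χ
    simp only []
    split_ifs with h
    · rw [h, mul_pow, Complex.I_sq]
      have : ((sgn χ : ℝ) : ℂ) ^ 2 = 1 := by exact_mod_cast sgn_sq χ
      rw [this]
      ring
    · rw [← Complex.cpow_nat_mul]
      norm_num

end Rho

/-- the final statement: the zeros -/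
def ZerosStm : Prop := ∃ n₀ : ℕ, ∀ n : ℕ, n₀ ≤ n → Even n → ∀ (F : Type) [Field F] [Fintype F],
  ringChar F ≠ 2 → ∀ M : ℕ, 3 ≤ M → ∀ ε : (F[X] → ℂ) → ℂ, (∀ χ, ‖ε χ‖ = 1) →
  (∀ χ, ε (fun f => conj (χ f)) = conj (ε χ)) → (∀ χ, (∀ f, conj (χ f) = χ f) → ε χ = 1) →
  ∃ α : F[X] → Fin n → ℂ, Tempered α ∧ SelfDual α ∧
    ∀ (Q : F[X]) (l : ℕ) (χ : F[X] → ℂ), Prim Q l χ →
      ∃ L : ℂ → ℂ, IsLFun α χ L ∧ Nice (Fintype.card F) (twistDegree n M Q l) (ε χ) L ∧
        ∀ s : ℂ, L s = 0 → (5 / (2 * (n : ℝ)) < s.re ∧ s.re ≤ 100 * Real.log n / n) ∨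
          (1 - 100 * Real.log n / n ≤ s.re ∧ s.re < 1 - 5 / (2 * (n : ℝ)))

theorem t_Zeros (hB : Base) (hZL : S_ZL) : ZerosStm := by
  classical
  obtain ⟨d₁, hB⟩ := hB
  obtain ⟨d₂, hZL⟩ := hZL
  refine ⟨1000 + d₁ + d₂, ?_⟩
  intro d hd hev F _ _ hF M hM3 ε hε hεc hεr
  have hq3 : 3 ≤ qq F := three_le_qq hF
  have hq0 : 0 < qq F := by linarith
  have hqq : qq F = (Fintype.card F : ℝ) := rfl
  obtain ⟨ρ, hρ, hρc, hρ2⟩ := exists_rho hε hεc hεr
  obtain ⟨j, hj⟩ := hev
  have hev' : Even d := ⟨j, hj⟩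
  have hkap : 0 < kap d := by
    unfold kap
    have : (0 : ℝ) < d := by
      have : 0 < d := by omega
      exact_mod_cast this
    positivity
  set c : F[X] → ℕ → (F[X] → ℂ) → ℕ → (ℕ → ℂ) → ℂ := fun Q l χ n _ =>
    if twistDegree d M Q l = 2 * n then ρ χ * ((kap d * qq F ^ ((1 - 5 / (d : ℝ)) * n) : ℝ) : ℂ) else 0 with hc
  have hρ3 : ∀ χ : F[X] → ℂ, ρ χ * conj (ρ χ) = 1 := by
    intro χ
    rw [Complex.mul_conj, Complex.normSq_eq_norm_sq, hρ]
    norm_num
  have hnorm : ∀ (χ : F[X] → ℂ) (n : ℕ), ‖ρ χ * ((kap d * qq F ^ ((1 - 5 / (d : ℝ)) * n) : ℝ) : ℂ)‖ =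
      kap d * qq F ^ ((1 - 5 / (d : ℝ)) * n) := by
    intro χ n
    rw [norm_mul, hρ, one_mul, Complex.norm_real, Real.norm_eq_abs, abs_of_pos (by positivity)]
  have hD : Data F d (fun Q l _ => twistDegree d M Q l) ε c := by
    refine ⟨?_, fun _ _ _ _ => rfl, hε, hεc, ?_, ?_, ?_, ?_⟩
    · intro Q l χ _
      unfold twistDegree
      apply Nat.mul_le_mul_left
      have : max 3 (l + 1) ≤ max M (l + 1) := max_le_max hM3 le_rfl
      have h1 : max 3 (l + 1) = max 2 l + 1 := by omega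
      omega
    · intro Q l χ n e e' _ hee
      rfl
    · intro Q l χ n e _
      rw [hc]
      simp only []
      split_ifs with h1
      · rw [hρc, map_mul, Complex.conj_ofReal]
      · rw [map_zero]
    · intro Q l χ n e _ h1
      rw [hc]
      simp only []
      have h1' : twistDegree d M Q l = 2 * n := h1
      rw [if_pos h1', map_mul, Complex.conj_ofReal, hρ2]
      have h3 := hρ3 χ
      linear_combination (-(ρ χ * ((kap d * qq F ^ ((1 - 5 / (d : ℝ)) * n) : ℝ) : ℂ))) * h3
    · intro Q l χ n e hχ h1 h2 h3 h4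
      rw [hc]
      simp only []
      split_ifs with h5
      · rw [hnorm]
      · rw [norm_zero]
        positivity
  obtain ⟨α, ha1, ha2, hα⟩ := hB d (by omega) hev' F hF M hM3 ε c hD
  refine ⟨α, ha1, ha2, ?_⟩
  intro Q l χ hχ
  obtain ⟨hdD, e, he0, heb, hfe, hmid, hL, hnz⟩ := hα Q l χ hχ
  obtain ⟨M', hM'⟩ : ∃ M', twistDegree d M Q l = 2 * M' := by
    refine ⟨j * (Q.natDegree + max M (l + 1) - 2), ?_⟩
    unfold twistDegree
    rw [hj]
    ring
  have hnice := gen_nice (Fintype.card_pos) (hε χ) he0 hfe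
  refine ⟨_, hL, hnice, ?_⟩
  have hmain : ∀ s : ℂ, 100 * Real.log d / d < s.re → s.re < 1 - 100 * Real.log d / d →
      Ls (Fintype.card F) (twistDegree d M Q l) e s ≠ 0 := by
    refine hZL d (by omega) (Fintype.card F : ℝ) (twistDegree d M Q l) M' (ε χ) e hq3 hdD hM' (hε χ) he0
      (fun k hk _ => heb k hk) ?_ ?_ hfe
    · intro k hk1 hk2
      rw [hmid k hk1 (by omega), hc]
      simp only []
      rw [if_neg (by omega)]
    · rw [hmid M' (by omega) (by omega), hc]
      simp only []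
      rw [if_pos hM', hnorm]
      rfl
  intro s hs
  by_contra hcon
  push Not at hcon
  obtain ⟨hcon1, hcon2⟩ := hcon
  -- not to the right of the strip
  have h1 : s.re < 1 - 5 / (2 * (d : ℝ)) := by
    by_contra h2
    push Not at h2
    exact hnz s h2 hs
  -- not to the left
  have h2 : 5 / (2 * (d : ℝ)) < s.re := by
    by_contra h3
    push Not at h3
    have h4 := hnice.2.2 s
    rw [hs] at h4
    have h5 : Ls (Fintype.card F) (twistDegree d M Q l) e (1 - conj s) ≠ 0 := by
      apply hnz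
      rw [Complex.sub_re, Complex.one_re, Complex.conj_re]
      linarith
    have h6 : (Fintype.card F : ℂ) ^ ((twistDegree d M Q l : ℂ) * (1 / 2 - s)) ≠ 0 := by
      have h7 : ((Fintype.card F : ℕ) : ℂ) ≠ 0 := by
        exact_mod_cast Fintype.card_ne_zero
      exact Complex.cpow_ne_zero_iff.2 (Or.inl h7)
    have h7 : ε χ ≠ 0 := by
      intro h8
      have := hε χ
      rw [h8, norm_zero] at this
      norm_num at this
    have h8 : conj (Ls (Fintype.card F) (twistDegree d M Q l) e (1 - conj s)) ≠ 0 := by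
      rw [Ne, map_eq_zero]
      exact h5
    exact (mul_ne_zero (mul_ne_zero h7 h6) h8) h4.symm
  have h3 := hcon1 h2
  rcases lt_or_ge s.re (1 - 100 * Real.log d / d) with h4 | h4
  · exact hmain s h3 h4 hs
  · exact absurd h1 (not_lt.2 (hcon2 h4))

end Pool.Agent.Q284.PX
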