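import Pool.Agent.Q284.PX.Nz

/-!
# Project PX: assembly of the theorems on zeros and on central values
-/

set_option autoImplicit false

open Finset Polynomial ComplexConjugate
open Pool.Agent.H341R2.Sharp (Mon mem_Mon)

namespace Pool.Agent.Q284.PX

open Pool.Agent.Q284.PS

section Final

variable {F : Type} [Field F] {n : ℕ}

/-- the Satake parameters are closed under complex conjugation (the unramified representations `Π_P` are
self-dual) -/
def SelfDual (α : F[X] → Fin n → ℂ) : Prop :=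
  ∀ P : F[X], P.Monic → Irreducible P → ∀ w : ℂ, ∏ j, (1 - conj (α P j) * w) = ∏ j, (1 - α P j * w)

/-- `L` is the `L`-function (without the place at infinity) of the Satake parameters `α` twisted by `χ`; the
Euler product converges for `Re s ≥ 1 - 5/(2n)` -/
def IsLFun [Fintype F] (α : F[X] → Fin n → ℂ) (χ : F[X] → ℂ) (L : ℂ → ℂ) : Prop :=
  ∀ s : ℂ, 1 - 5 / (2 * (n : ℝ)) ≤ s.re →
    HasProd (fun P : Place F => ∏ j, (1 - α P.1 j * χ P.1 * absPow P.1 s)⁻¹) (L s)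

end Final

/-- there are primes of large degree -/
theorem exists_prime (F : Type) [Field F] [Fintype F] (m₀ : ℕ) :
    ∃ P₀ : F[X], P₀.Monic ∧ Irreducible P₀ ∧ m₀ ≤ P₀.natDegree := by
  classical
  let N : F[X] := X * ∏ f ∈ UB F m₀, f + 1
  have hmon : ∀ f ∈ UB F m₀, f.Monic := by
    intro f hf
    unfold UB at hf
    rw [mem_biUnion] at hf
    obtain ⟨k, _, hk⟩ := hf
    rw [mem_Mon] at hk
    exact hk.1
  have hpm : (∏ f ∈ UB F m₀, f).Monic := monic_prod_of_monic _ _ hmon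
  have h1 : (X * ∏ f ∈ UB F m₀, f).Monic := monic_X.mul hpm
  have h2 : 0 < (X * ∏ f ∈ UB F m₀, f).natDegree := by
    rw [monic_X.natDegree_mul hpm, natDegree_X]
    omega
  have h3 : N.natDegree = (X * ∏ f ∈ UB F m₀, f).natDegree := by
    show (X * ∏ f ∈ UB F m₀, f + 1).natDegree = _
    rw [natDegree_add_eq_left_of_natDegree_lt]
    rw [natDegree_one]
    exact h2
  have h4 : ¬ IsUnit N := by
    intro h
    have := natDegree_eq_zero_of_isUnit h
    omega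
  obtain ⟨P, hP1, hP2, hP3⟩ := exists_monic_irreducible_factor N h4
  refine ⟨P, hP1, hP2, ?_⟩
  by_contra h
  push Not at h
  have h5 : P ∈ UB F m₀ := by
    unfold UB
    rw [mem_biUnion]
    refine ⟨P.natDegree, ?_, ?_⟩
    · rw [mem_range]
      omega
    · rw [mem_Mon]
      exact ⟨hP1, rfl⟩
  have h6 : P ∣ X * ∏ f ∈ UB F m₀, f := (dvd_prod_of_mem _ h5).mul_left X
  have h7 : P ∣ 1 := (dvd_add_right h6).1 hP3
  exact hP2.not_isUnit (isUnit_of_dvd_one h7)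

/-- the local factor at `P₀` with parameter `0` -/
theorem spec0 {F : Type} [Field F] [Fintype F] (hq : 3 ≤ qq F) {K : ℕ} {h : ℝ → ℕ → ℝ} (hh : LFam K h)
    {d m₀ : ℕ} (hd : 11 ≤ d) {P₀ : F[X]} (h1 : P₀.Monic) (h2 : Irreducible P₀) (h3 : m₀ ≤ P₀.natDegree)
    (h4 : 4 ≤ P₀.natDegree) : Spec F d m₀ P₀ (h 0) := by
  have hq0 : 0 < qq F := by linarith
  have hd' : (11 : ℝ) ≤ d := by exact_mod_cast hd
  refine ⟨h1, h2, h3, hh.zero 0, ?_⟩
  intro k
  have h5 : (1 : ℝ) / 2 ≤ 1 - 11 / (2 * (d : ℝ)) := by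
    have : 11 / (2 * (d : ℝ)) ≤ 1 / 2 := by
      rw [div_le_div_iff₀ (by linarith) (by norm_num)]
      linarith
    linarith
  rcases Nat.eq_zero_or_pos k with hk | hk
  · subst hk
    rw [hh.zero 0, abs_one]
    simp
  · have hk' : (1 : ℝ) ≤ k := by exact_mod_cast hk
    have h6 : (4 : ℝ) ≤ P₀.natDegree := by exact_mod_cast h4
    have h7 : (2 : ℝ) * k ≤ (1 - 11 / (2 * (d : ℝ))) * ((k : ℝ) * P₀.natDegree) := by
      have h8 : (4 : ℝ) * k ≤ (k : ℝ) * P₀.natDegree := by nlinarith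
      nlinarith
    calc |h 0 k| ≤ 2 * (3 : ℝ) ^ ((k : ℝ) / 64) := hh.all 0 k (by norm_num)
      _ ≤ 3 ^ (k : ℝ) * (3 : ℝ) ^ (k : ℝ) := by
          apply mul_le_mul
          · calc (2 : ℝ) ≤ 3 ^ (1 : ℝ) := by norm_num
              _ ≤ 3 ^ (k : ℝ) := Real.rpow_le_rpow_of_exponent_le (by norm_num) hk'
          · apply Real.rpow_le_rpow_of_exponent_le (by norm_num)
            linarith
          · positivity
          · positivity
      _ = 3 ^ ((2 : ℝ) * k) := by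
          rw [← Real.rpow_add (by norm_num)]
          congr 1
          ring
      _ ≤ qq F ^ ((2 : ℝ) * k) := Real.rpow_le_rpow (by norm_num) hq (by positivity)
      _ ≤ qq F ^ ((1 - 11 / (2 * (d : ℝ))) * ((k : ℝ) * P₀.natDegree)) :=
          Real.rpow_le_rpow_of_exponent_le (by linarith) h7

theorem Lo_h0 {F : Type} [Field F] {h : ℝ → ℕ → ℝ} {P₀ : F[X]} {a : F[X] → ℝ} (h0 : a P₀ = 0) (P : F[X])
    (k : ℕ) : Lo h P₀ (h 0) a P k = h (a P) k := by
  unfold Lo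
  split_ifs with h1
  · rw [h1, h0]
  · rfl

/-- the constructions for even `d` -/
def Base : Prop := ∃ d₀ : ℕ, ∀ d : ℕ, d₀ ≤ d → Even d → ∀ (F : Type) [Field F] [Fintype F],
  ringChar F ≠ 2 → ∀ M : ℕ, 3 ≤ M → ∀ (ε : (F[X] → ℂ) → ℂ)
    (c : F[X] → ℕ → (F[X] → ℂ) → ℕ → (ℕ → ℂ) → ℂ),
    Data F d (fun Q l _ => twistDegree d M Q l) ε c → ∃ α : F[X] → Fin d → ℂ,
    Tempered α ∧ SelfDual α ∧ ∀ (Q : F[X]) (l : ℕ) (χ : F[X] → ℂ), Prim Q l χ →
      d ≤ twistDegree d M Q l ∧ ∃ e : ℕ → ℂ, e 0 = 1 ∧ (∀ k : ℕ, 1 ≤ k → ‖e k‖ ≤ 3 * BB * w2 (qq F) d k) ∧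
      (∀ n m : ℕ, n + m = twistDegree d M Q l → m ≤ n →
        e n = ε χ * (Real.sqrt (qq F) : ℂ) ^ (n - m) * conj (e m)) ∧
      (∀ n : ℕ, 9 * twistDegree d M Q l ≤ 20 * n → 2 * n ≤ twistDegree d M Q l → e n = c Q l χ n e) ∧
      IsLFun α χ (Ls (Fintype.card F) (twistDegree d M Q l) e) ∧
      ∀ s : ℂ, 1 - 5 / (2 * (d : ℝ)) ≤ s.re → Ls (Fintype.card F) (twistDegree d M Q l) e s ≠ 0

theorem t_Base (hP : PXM) (hFPS : S_FPS) (hLSER : PS.S_LSER) (hEUL : PS.S_EUL) (hDSUM : PS.S_DSUM)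
    (hM : S_AFM) : Base := by
  classical
  obtain ⟨d₀, hP⟩ := hP
  refine ⟨1000 + d₀, ?_⟩
  intro d hd hev F _ _ hF M hM3 ε c hD
  obtain ⟨m₀, hP⟩ := hP d (by omega)
  obtain ⟨h, hL, hre, hα⟩ := hFPS d (by omega) hev
  obtain ⟨P₀, hP1, hP2, hP3⟩ := exists_prime F (m₀ + 4)
  have hq3 : 3 ≤ qq F := three_le_qq hF
  have hq0 : 0 < qq F := by linarith
  have hsp : Spec F d m₀ P₀ (h 0) := spec0 hq3 hL (by omega) hP1 hP2 (by omega) (by omega)
  obtain ⟨a, hgood, hmass, hmain⟩ := hP F hF (d - 1) h (by omega) hL P₀ (h 0) hsp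
    (fun Q l _ => twistDegree d M Q l) ε c hD
  have hsmall : ∀ P : F[X], P.Monic → Irreducible P → |a P| ≤ 1 / 100 := by
    intro P h1 h2
    exact (hgood P.natDegree).small P.natDegree le_rfl P (mem_PI.2 ⟨h1, rfl, h2⟩)
  have hv : ∀ P : F[X], Lo h P₀ (h 0) a P 0 = 1 := by
    intro P
    rw [Lo_h0 (hgood 0).spec]
    exact hL.zero _
  have hα' : ∀ P : F[X], ∃ α : Fin d → ℂ, P.Monic → Irreducible P → (∀ j, ‖α j‖ = 1) ∧ ∏ j, α j = 1 ∧
    (∀ w : ℂ, ∏ j, (1 - α j * w) = 1 - a P * w - a P * w ^ (d - 1) + w ^ d) ∧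
    ∀ w : ℂ, ∏ j, (1 - conj (α j) * w) = ∏ j, (1 - α j * w) := by
    intro P
    by_cases h1 : P.Monic ∧ Irreducible P
    · obtain ⟨α, h2⟩ := hα (a P) (hsmall P h1.1 h1.2)
      exact ⟨α, fun _ _ => h2⟩
    · exact ⟨fun _ => 1, fun h2 h3 => absurd ⟨h2, h3⟩ h1⟩
  choose α hα' using hα'
  refine ⟨α, fun P h1 h2 => ⟨(hα' P h1 h2).1, (hα' P h1 h2).2.1⟩, fun P h1 h2 => (hα' P h1 h2).2.2.2, ?_⟩
  intro Q l χ hχ
  have hcm := hay_cm hχ.1
  obtain ⟨hz, hfe, hmid⟩ := hmain Q l χ hχ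
  have hdD : d ≤ twistDegree d M Q l := by
    unfold twistDegree
    have h1 : 1 ≤ Q.natDegree + max M (l + 1) - 2 := by
      have := le_max_left M (l + 1)
      omega
    exact Nat.le_mul_of_pos_right d h1
  have hchi : ∀ f : F[X], ‖χ f‖ ≤ 1 := fun f => norm_le_one hχ.1 f
  have hloc : ∀ s : ℂ, 1 - 5 / (2 * (d : ℝ)) ≤ s.re → ∀ P : Place F, ‖χ P.1 * absPow P.1 s‖ ≤ 1 / 2 ∧
      HasSum (fun k : ℕ => (Lo h P₀ (h 0) a P.1 k : ℂ) * (χ P.1 * absPow P.1 s) ^ k)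
        (∏ j, (1 - α P.1 j * χ P.1 * absPow P.1 s)⁻¹) := by
    intro s hs
    rintro ⟨P, h1, h2⟩
    have hzn : ‖(Fintype.card F : ℂ) ^ (-s)‖ ≤ 1 / 2 := by
      rw [norm_z hq0]
      have h3 : (3 / 4 : ℝ) ≤ s.re := by
        refine le_trans ?_ hs
        have h4 : (1000 : ℝ) ≤ d := by
          have : 1000 ≤ d := by omega
          exact_mod_cast this
        have : 5 / (2 * (d : ℝ)) ≤ 1 / 4 := by
          rw [div_le_div_iff₀ (by linarith) (by norm_num)]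
          linarith
        linarith
      calc qq F ^ (-s.re) ≤ qq F ^ (-(3 / 4 : ℝ)) := by
            apply Real.rpow_le_rpow_of_exponent_le (by linarith)
            linarith
        _ ≤ (3 : ℝ) ^ (-(3 / 4 : ℝ)) := by
            rw [Real.rpow_neg hq0.le, Real.rpow_neg (by norm_num)]
            apply inv_anti₀ (by positivity)
            exact Real.rpow_le_rpow (by norm_num) hq3 (by norm_num)
        _ ≤ 1 / 2 := by
            rw [Real.rpow_neg (by norm_num)]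
            have h1 : (2 : ℝ) ≤ 3 ^ (3 / 4 : ℝ) := by
              have h2 : ((2 : ℝ)) = ((2 : ℝ) ^ (4 : ℕ)) ^ ((1 : ℝ) / 4) := by
                rw [← Real.rpow_natCast, ← Real.rpow_mul (by norm_num)]
                norm_num
              have h3 : (3 : ℝ) ^ (3 / 4 : ℝ) = ((3 : ℝ) ^ (3 : ℕ)) ^ ((1 : ℝ) / 4) := by
                rw [← Real.rpow_natCast, ← Real.rpow_mul (by norm_num)]
                norm_num
              rw [h2, h3]
              apply Real.rpow_le_rpow (by norm_num) (by norm_num) (by norm_num)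
            calc ((3 : ℝ) ^ (3 / 4 : ℝ))⁻¹ ≤ (2 : ℝ)⁻¹ := inv_anti₀ (by norm_num) h1
              _ = 1 / 2 := by norm_num
    have hx : ‖χ P * absPow P s‖ ≤ 1 / 2 := by
      rw [norm_mul, absPow_eq, norm_pow]
      have h5 : 1 ≤ P.natDegree := h2.natDegree_pos
      have h6 : ‖(Fintype.card F : ℂ) ^ (-s)‖ ^ P.natDegree ≤ ‖(Fintype.card F : ℂ) ^ (-s)‖ ^ 1 :=
        pow_le_pow_of_le_one (norm_nonneg _) (hzn.trans (by norm_num)) h5
      rw [pow_one] at h6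
      have h7 := hchi P
      have h8 : 0 ≤ ‖(Fintype.card F : ℂ) ^ (-s)‖ ^ P.natDegree := by positivity
      nlinarith [norm_nonneg (χ P)]
    refine ⟨hx, ?_⟩
    have h5 := hLSER d (a P : ℂ) (χ P * absPow P s) (by omega) (by
      rw [Complex.norm_real, Real.norm_eq_abs]
      exact (hsmall P h1 h2).trans (by norm_num)) hx
    have h6 : (fun k : ℕ => (Lo h P₀ (h 0) a P k : ℂ) * (χ P * absPow P s) ^ k) =
        fun k : ℕ => hh d (a P : ℂ) k * (χ P * absPow P s) ^ k := by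
      funext k
      rw [Lo_h0 (hgood 0).spec, hre (a P) k (hsmall P h1 h2)]
    show HasSum (fun k : ℕ => (Lo h P₀ (h 0) a P k : ℂ) * (χ P * absPow P s) ^ k) _
    rw [h6]
    convert h5 using 1
    show ∏ j, (1 - α P j * χ P * absPow P s)⁻¹ = _
    rw [prod_inv_distrib]
    congr 1
    have h8 := (hα' P h1 h2).2.2.1 (χ P * absPow P s)
    rw [Complex.conj_ofReal, hev.neg_one_pow, one_mul, one_mul, ← h8]
    apply prod_congr rfl
    intro j _
    ring
  refine ⟨hdD, fun k => ef (Lo h P₀ (h 0) a) χ k, ef_zero hM hv hcm.1, ?_, hfe, hmid, ?_, ?_⟩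
  · intro k hk
    refine le_trans ?_ (hmass k hk)
    unfold ef
    refine (norm_sum_le _ _).trans (sum_le_sum ?_)
    intro f _
    rw [norm_mul, Complex.norm_real, Real.norm_eq_abs]
    have h1 := hchi f
    have h2 := abs_nonneg (AF (Lo h P₀ (h 0) a) f)
    nlinarith
  · intro s hs
    exact gen_euler hEUL hDSUM hM hq3 (by omega : 1 ≤ d) hv hcm hchi hmass hz hs (fun P => (hloc s hs P).2)
  · intro s hs
    refine gen_ne_zero hDSUM hM hq3 (by omega : 1 ≤ d) hv hcm hchi hmass hs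
      (gen_euler hEUL hDSUM hM hq3 (by omega : 1 ≤ d) hv hcm hchi hmass hz hs (fun P => (hloc s hs P).2))
      ?_ (fun P => (hloc s hs P).2)
    rintro ⟨P, h1, h2⟩
    rw [prod_ne_zero_iff]
    intro j _
    apply inv_ne_zero
    intro h3
    have h4 := (hloc s hs ⟨P, h1, h2⟩).1
    have h5 : ‖α P j * χ P * absPow P s‖ = ‖χ P * absPow P s‖ := by
      rw [mul_assoc, norm_mul, (hα' P h1 h2).1 j, one_mul]
    have h6 : α P j * χ P * absPow P s = 1 := (sub_eq_zero.1 h3).symm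
    have h7 : ‖χ P * absPow P s‖ = 1 := by
      rw [← h5, h6, norm_one]
    have h8 : ‖χ P * absPow P s‖ ≤ 1 / 2 := h4
    linarith

end Pool.Agent.Q284.PX
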