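import Pool.Agent.Q284.PX.Stm
import Pool.Agent.Q284.PS.Basic

/-!
# Project PX: basic facts used in the assembly
-/

set_option autoImplicit false

open Finset Polynomial ComplexConjugate
open Pool.Agent.H341R2.Sharp (Mon mem_Mon)

namespace Pool.Agent.Q284.PX

open Pool.Agent.Q284.PS

theorem t_PRC (hHC : PS.S_HC) : S_PRC := by
  intro F _ Q l χ h
  refine ⟨(hHC F Q Q l l χ χ h.1 h.1).2.1, ?_⟩
  intro Q' l' χ' h1 h2 h3 h4
  refine h.2 Q' l' (fun f => conj (χ' f)) (hHC F Q' Q' l' l' χ' χ' h1 h1).2.1 h2 h3 ?_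
  intro f hf hc
  show χ f = conj (χ' f)
  rw [← h4 f hf hc, Complex.conj_conj]

section

variable {F : Type} [Field F]

theorem AF_congr {v w : F[X] → ℕ → ℝ} {f : F[X]} (hf : f.Monic)
    (h : ∀ P : F[X], P.Monic → Irreducible P → P ∣ f → v P = w P) : AF v f = AF w f := by
  classical
  unfold AF
  apply prod_congr rfl
  intro P hP
  rw [Multiset.mem_toFinset] at hP
  have h1 := (Polynomial.mem_normalizedFactors_iff hf.ne_zero).1 hP
  rw [h P h1.2.1 h1.1 h1.2.2]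

theorem Lo_congr {h : ℝ → ℕ → ℝ} {P₀ : F[X]} {g : ℕ → ℝ} {a b : F[X] → ℝ} {P : F[X]} (h1 : a P = b P) :
    Lo h P₀ g a P = Lo h P₀ g b P := by
  funext k
  unfold Lo
  rw [h1]

theorem ef_congr [Fintype F] {n : ℕ} {v w : F[X] → ℕ → ℝ} (χ : F[X] → ℂ)
    (h : ∀ P : F[X], P.Monic → Irreducible P → P.natDegree ≤ n → v P = w P) :
    ef v χ n = ef w χ n := by
  unfold ef
  apply sum_congr rfl
  intro f hf
  rw [mem_Mon] at hf
  rw [AF_congr hf.1]
  intro P h1 h2 h3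
  apply h P h1 h2
  rw [← hf.2]
  exact natDegree_le_of_dvd h3 hf.1.ne_zero

theorem ef_conj [Fintype F] (v : F[X] → ℕ → ℝ) (χ : F[X] → ℂ) (n : ℕ) :
    ef v (fun f => conj (χ f)) n = conj (ef v χ n) := by
  unfold ef
  rw [map_sum]
  apply sum_congr rfl
  intro f _
  rw [map_mul, Complex.conj_ofReal]

/-- change of the parameters in degree `n` only -/
theorem ef_change [Fintype F] {n : ℕ} (hM : S_AFM) {h : ℝ → ℕ → ℝ} {K : ℕ} (hh : LFam K h) {P₀ : F[X]}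
    {g : ℕ → ℝ} (hg : g 0 = 1) {a b : F[X] → ℝ} (χ : F[X] → ℂ) (ha0 : a P₀ = 0) (hb0 : b P₀ = 0)
    (h0 : ∀ P ∈ PI F n, a P = 0) (hb : ∀ P ∈ PI F n, |b P| ≤ 1 / 100)
    (hlt : ∀ P : F[X], P.Monic → Irreducible P → P.natDegree < n → b P = a P) :
    ef (Lo h P₀ g b) χ n = ef (Lo h P₀ g a) χ n + ∑ P ∈ PI F n, (b P : ℂ) * χ P := by
  classical
  have hv : ∀ (c : F[X] → ℝ) (P : F[X]), Lo h P₀ g c P 0 = 1 := by
    intro c P
    unfold Lo
    split_ifs
    · exact hg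
    · exact hh.zero _
  have hsub : PI F n ⊆ Mon F n := by
    intro P hP
    rw [mem_PI] at hP
    rw [mem_Mon]
    exact ⟨hP.1, hP.2.1⟩
  unfold ef
  rw [← sum_sdiff hsub, ← sum_sdiff hsub]
  have hirr : ∀ (c : F[X] → ℝ) (P : F[X]), P ∈ PI F n → AF (Lo h P₀ g c) P = Lo h P₀ g c P 1 := by
    intro c P hP
    rw [mem_PI] at hP
    have := (hM F (Lo h P₀ g c) (hv c)).2.2.1 P 1 hP.1 hP.2.2
    rw [pow_one] at this
    exact this
  have e1 : ∑ f ∈ Mon F n \ PI F n, (AF (Lo h P₀ g b) f : ℂ) * χ f =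
      ∑ f ∈ Mon F n \ PI F n, (AF (Lo h P₀ g a) f : ℂ) * χ f := by
    apply sum_congr rfl
    intro f hf
    rw [mem_sdiff, mem_Mon, mem_PI] at hf
    rw [AF_congr hf.1.1]
    intro P h1 h2 h3
    apply Lo_congr
    apply hlt P h1 h2
    have hle : P.natDegree ≤ f.natDegree := natDegree_le_of_dvd h3 hf.1.1.ne_zero
    rcases lt_or_eq_of_le hle with h4 | h4
    · rw [← hf.1.2]
      exact h4
    · exfalso
      obtain ⟨g', hg'⟩ := h3
      have hgm : g'.Monic := by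
        have h5 := hf.1.1
        rw [hg'] at h5
        exact h1.of_mul_monic_left h5
      have h6 : f.natDegree = P.natDegree + g'.natDegree := by
        rw [hg', h1.natDegree_mul hgm]
      have h7 : g'.natDegree = 0 := by omega
      have h8 : g' = 1 := hgm.natDegree_eq_zero.1 h7
      rw [h8, mul_one] at hg'
      apply hf.2
      rw [hg']
      exact ⟨h1, by rw [← hg']; exact hf.1.2, h2⟩
  have e2 : ∑ P ∈ PI F n, (AF (Lo h P₀ g b) P : ℂ) * χ P = ∑ P ∈ PI F n, (AF (Lo h P₀ g a) P : ℂ) * χ P +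
      ∑ P ∈ PI F n, (b P : ℂ) * χ P := by
    rw [← sum_add_distrib]
    apply sum_congr rfl
    intro P hP
    rw [hirr b P hP, hirr a P hP]
    unfold Lo
    by_cases h1 : P = P₀
    · rw [if_pos h1, if_pos h1, h1, hb0]
      simp
    · rw [if_neg h1, if_neg h1, h0 P hP, hh.one _ (hb P hP), hh.one 0 (by norm_num)]
      push_cast
      ring
  rw [e1, e2]
  ring

end

theorem om2_nonneg {q : ℝ} (hq : 0 ≤ q) (d n : ℕ) : 0 ≤ om2 q d n := by
  unfold om2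
  positivity

theorem w2_nonneg {q : ℝ} (hq : 0 ≤ q) (d n : ℕ) : 0 ≤ w2 q d n := by
  unfold w2
  positivity

/-- `w2² = (q^n / n) om2` -/
theorem w2_sq {q : ℝ} (hq : 0 < q) (d n : ℕ) (hn : 1 ≤ n) :
    w2 q d n ^ 2 = q ^ n / n * om2 q d n := by
  have hn' : (0 : ℝ) < n := by exact_mod_cast hn
  unfold w2 om2
  rw [div_pow, ← Real.rpow_natCast (q ^ ((1 - 5 / (2 * (d : ℝ))) * n)) 2,
    ← Real.rpow_mul hq.le, ← Real.rpow_natCast ((n : ℝ) ^ ((5 : ℝ) / 2)) 2, ← Real.rpow_mul hn'.le]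
  have e1 : q ^ ((1 - 5 / (2 * (d : ℝ))) * n * ((2 : ℕ) : ℝ)) = q ^ n * q ^ ((1 - 5 / (d : ℝ)) * n) := by
    rw [← Real.rpow_natCast q n, ← Real.rpow_add hq]
    congr 1
    rcases eq_or_ne (d : ℝ) 0 with h | h
    · rw [h]
      push_cast
      ring
    · push_cast
      field_simp
      ring
  have e2 : (n : ℝ) ^ ((5 : ℝ) / 2 * ((2 : ℕ) : ℝ)) = (n : ℝ) ^ 5 := by
    rw [← Real.rpow_natCast (n : ℝ) 5]
    congr 1
    norm_num
  rw [e1, e2]
  field_simp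

end Pool.Agent.Q284.PX
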