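import Pool.Agent.Q284.PX.Main

/-!
# Project PX: the main theorem from the recursion step
-/

set_option autoImplicit false

open Finset Polynomial ComplexConjugate
open Pool.Agent.H341R2.Sharp (Mon mem_Mon)

namespace Pool.Agent.Q284.PX

open Pool.Agent.Q284.PS

/-- the main theorem of the engine -/
def PXM : Prop := ∃ d₀ : ℕ, ∀ d : ℕ, d₀ ≤ d → ∃ m₀ : ℕ, ∀ (F : Type) [Field F] [Fintype F],
  ringChar F ≠ 2 → ∀ (K : ℕ) (h : ℝ → ℕ → ℝ), 100 ≤ K → LFam K h →
  ∀ (P₀ : F[X]) (g : ℕ → ℝ), Spec F d m₀ P₀ g →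
  ∀ (D : F[X] → ℕ → (F[X] → ℂ) → ℕ) (ε : (F[X] → ℂ) → ℂ)
    (c : F[X] → ℕ → (F[X] → ℂ) → ℕ → (ℕ → ℂ) → ℂ), Data F d D ε c → ∃ a : F[X] → ℝ,
    (∀ N : ℕ, Good F d N P₀ a) ∧
    (∀ n : ℕ, 1 ≤ n → ∑ f ∈ Mon F n, |AF (Lo h P₀ g a) f| ≤ 3 * BB * w2 (qq F) d n) ∧
    ∀ (Q : F[X]) (l : ℕ) (χ : F[X] → ℂ), Prim Q l χ →
      (∀ n : ℕ, D Q l χ < n → ef (Lo h P₀ g a) χ n = 0) ∧
      (∀ n m : ℕ, n + m = D Q l χ → m ≤ n →
        ef (Lo h P₀ g a) χ n = ε χ * (Real.sqrt (qq F) : ℂ) ^ (n - m) * conj (ef (Lo h P₀ g a) χ m)) ∧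
      ∀ n : ℕ, 9 * D Q l χ ≤ 20 * n → 2 * n ≤ D Q l χ →
        ef (Lo h P₀ g a) χ n = c Q l χ n (ef (Lo h P₀ g a) χ)

theorem Spec.mono {F : Type} [Field F] [Fintype F] {d m₀ m₁ : ℕ} {P₀ : F[X]} {g : ℕ → ℝ} (h : Spec F d m₁ P₀ g)
    (hm : m₀ ≤ m₁) : Spec F d m₀ P₀ g :=
  ⟨h.monic, h.irr, hm.trans h.deg, h.zero, h.bound⟩

theorem t_PXM (hS : StepStm) (hG : S_GBb) : PXM := by
  classical
  obtain ⟨d₀, hS⟩ := hS
  obtain ⟨d₁, hG⟩ := hG
  refine ⟨16 + d₀ + d₁, ?_⟩
  intro d hd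
  obtain ⟨m₀, hS⟩ := hS d (by omega)
  obtain ⟨m₁, hG⟩ := hG d (by omega)
  refine ⟨m₀ + m₁, ?_⟩
  intro F _ _ hF K h hK hh P₀ g hsp D ε c hD
  have hq3 : 3 ≤ qq F := three_le_qq hF
  have hq3' : 3 ≤ Fintype.card F := by
    have : (3 : ℝ) ≤ (Fintype.card F : ℝ) := hq3
    exact_mod_cast this
  have hq0 : 0 < qq F := by linarith
  have step := hS F hF K h hK hh P₀ g (hsp.mono (by omega)) D ε c hD
  choose! nx h1 h2 h3 using step
  let s : ℕ → F[X] → ℝ := fun n => Nat.rec (fun _ => 0) (fun n a => nx (n + 1) a) n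
  have s0 : s 0 = fun _ => 0 := rfl
  have ss : ∀ n, s (n + 1) = nx (n + 1) (s n) := fun n => rfl
  have hboth : ∀ n, Good F d n P₀ (s n) ∧ Eqs F h P₀ g D ε c n (s n) := by
    intro n
    induction n with
    | zero =>
      rw [s0]
      refine ⟨⟨fun _ _ => rfl, rfl, ?_, ?_⟩, ?_⟩
      · intro m _ P _
        rw [abs_zero]
        norm_num
      · intro m h4 h5
        omega
      · intro Q l χ _ m h4 h5
        omega
    | succ n ih =>
      rw [ss]
      exact ⟨h1 (n + 1) (by omega) (s n) ih.1 ih.2, h3 (n + 1) (by omega) (s n) ih.1 ih.2⟩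
  have hgood : ∀ n, Good F d n P₀ (s n) := fun n => (hboth n).1
  have hlt : ∀ n (P : F[X]), P.natDegree ≤ n → s (n + 1) P = s n P := by
    intro n P hP
    rw [ss]
    exact h2 (n + 1) (by omega) (s n) (hgood n) (hboth n).2 P (by omega)
  have hstab : ∀ n (P : F[X]), P.natDegree ≤ n → s n P = s P.natDegree P := by
    intro n P hP
    induction n with
    | zero =>
      have : P.natDegree = 0 := by omega
      rw [this]
    | succ n ih =>
      rcases Nat.lt_or_ge n P.natDegree with h4 | h4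
      · have : P.natDegree = n + 1 := by omega
        rw [this]
      · rw [hlt n P h4, ih h4]
  let a : F[X] → ℝ := fun P => s P.natDegree P
  have hee : ∀ (χ : F[X] → ℂ) (n N : ℕ), n ≤ N → ef (Lo h P₀ g a) χ n = ef (Lo h P₀ g (s N)) χ n := by
    intro χ n N hnN
    apply ef_congr
    intro P _ _ hP
    apply Lo_congr
    exact (hstab N P (by omega)).symm
  have haG : ∀ N : ℕ, Good F d N P₀ a := by
    intro N
    refine ⟨fun P hP => (hgood P.natDegree).zero P hP, (hgood P₀.natDegree).spec, fun n hn P hP => ?_,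
      fun n h4 hn => ?_⟩
    · have h5 := hP
      rw [mem_PI] at h5
      have h6 : a P = s n P := (hstab n P (by omega)).symm
      rw [h6]
      exact (hgood n).small n le_rfl P hP
    · have h6 : ∀ P ∈ PI F n, a P ^ 2 = s n P ^ 2 := by
        intro P hP
        rw [mem_PI] at hP
        have h7 : a P = s n P := (hstab n P (by omega)).symm
        rw [h7]
      rw [sum_congr rfl h6]
      exact (hgood n).l2 n h4 le_rfl
  have hmain : ∀ (Q : F[X]) (l : ℕ) (χ : F[X] → ℂ), Prim Q l χ → ∀ n : ℕ, 9 * D Q l χ ≤ 20 * n → 1 ≤ n →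
      ef (Lo h P₀ g a) χ n =
        tauX (qq F) (D Q l χ) n (ε χ) (c Q l χ n (ef (Lo h P₀ g a) χ)) (ef (Lo h P₀ g a) χ) := by
    intro Q l χ hχ n hn hn1
    rw [hee χ n n le_rfl, (hboth n).2 Q l χ hχ n hn1 le_rfl hn]
    have e1 : ∀ k : ℕ, k < n → ef (Lo h P₀ g (s n)) χ k = ef (Lo h P₀ g a) χ k := by
      intro k hk
      exact (hee χ k n hk.le).symm
    rw [tauX_congr e1, hD.cloc Q l χ n _ _ hχ e1]
  refine ⟨a, haG, ?_, ?_⟩
  · intro n hn
    exact hG F hq3' K h hK hh n P₀ g a (hsp.mono (by omega)) (haG n) n hn le_rfl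
  · intro Q l χ hχ
    have hDpos : 1 ≤ D Q l χ := by
      refine le_trans ?_ (hD.deg Q l χ hχ)
      have : 1 ≤ Q.natDegree + max 2 l - 1 := by
        have := le_max_left 2 l
        omega
      have h7 : 1 ≤ d := by omega
      exact Nat.mul_pos h7 this
    refine ⟨?_, ?_, ?_⟩
    · intro n hn
      rw [hmain Q l χ hχ n (by omega) (by omega)]
      unfold tauX
      rw [if_pos hn]
    · intro n m hnm hmn
      rcases lt_or_eq_of_le hmn with h4 | h4
      · rw [hmain Q l χ hχ n (by omega) (by omega)]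
        unfold tauX
        rw [if_neg (by omega), if_neg (by omega)]
        have e1 : 2 * n - D Q l χ = n - m := by omega
        have e2 : D Q l χ - n = m := by omega
        rw [e1, e2]
      · subst h4
        rw [hmain Q l χ hχ m (by omega) (by omega)]
        unfold tauX
        rw [if_neg (by omega), if_pos (by omega), Nat.sub_self, pow_zero, mul_one]
        exact hD.cself Q l χ m _ hχ (by omega)
    · intro n h4 h5
      rw [hmain Q l χ hχ n h4 (by omega)]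
      unfold tauX
      rw [if_neg (by omega), if_pos h5]
      

end Pool.Agent.Q284.PX
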