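import Pool.Agent.Q284.PX.Eng3
import Pool.Agent.Q284.PX.Stm4

/-!
# Project PX4: the recursion with local factors depending on the place, a special place and a pointwise bound
-/

set_option autoImplicit false

open Finset Polynomial ComplexConjugate
open Pool.Agent.H341R2.Sharp (Mon mem_Mon)

namespace Pool.Agent.Q284.PX

open Pool.Agent.Q284.PS

open Classical in
/-- the local coefficients: `g` at `P₀`, the family `V P` with the parameter `a P` at the other places -/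
noncomputable def VoP {F : Type} [Field F] (V : F[X] → ℝ → ℕ → ℝ) (P₀ : F[X]) (g : ℕ → ℝ) (a : F[X] → ℝ)
    (P : F[X]) (k : ℕ) : ℝ :=
  if P = P₀ then g k else V P (a P) k

/-- the pointwise bound for the parameters -/
noncomputable def eta (d : ℕ) : ℝ := 1 / (1000 * (d : ℝ) ^ ((3 : ℝ) / 2))

/-- what the recursion needs to know about the local families -/
structure AdmP (F : Type) [Field F] [Fintype F] (d D₃ : ℕ) (V : F[X] → ℝ → ℕ → ℝ) (P₀ : F[X])
    (g : ℕ → ℝ) : Prop where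
  gz : g 0 = 1
  zero : ∀ (P : F[X]) (z : ℝ), V P z 0 = 1
  one : ∀ (P : F[X]) (z : ℝ), |z| ≤ 1 / 100 → V P z 1 = z
  mass : ∀ (N : ℕ) (a : F[X] → ℝ), Good F d N P₀ a → ∀ n : ℕ, 1 ≤ n → n ≤ N →
    ∑ f ∈ Mon F n, |AF (VoP V P₀ g a) f| ≤ 3 * BB * w2 (qq F) d n
  mean : ∀ (N : ℕ) (a : F[X] → ℝ), Good F d N P₀ a → ∀ n : ℕ, 1 ≤ n → n ≤ N →
    ∀ (R : ℕ) (ι : Type) [Fintype ι] (χ : ι → F[X] → ℂ), Fam R χ → D₃ * (R + 1) ≤ n →
    (Fintype.card ι : ℝ) ≤ 4 * qq F ^ ((40 : ℝ) * n / (9 * d)) →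
    Real.sqrt (∑ i, ‖ef (VoP V P₀ g a) (χ i) n - sf a (χ i) n‖ ^ 2) ≤ 1 / 20 * BB * w2 (qq F) d n

/-- the equations in the degrees at most `N` -/
def EqP (F : Type) [Field F] [Fintype F] (V : F[X] → ℝ → ℕ → ℝ) (P₀ : F[X]) (g : ℕ → ℝ)
    (D : F[X] → ℕ → (F[X] → ℂ) → ℕ) (ε : (F[X] → ℂ) → ℂ)
    (c : F[X] → ℕ → (F[X] → ℂ) → ℕ → (ℕ → ℂ) → ℂ) (N : ℕ) (a : F[X] → ℝ) : Prop :=
  ∀ (Q : F[X]) (l : ℕ) (χ : F[X] → ℂ), Prim Q l χ → ∀ n : ℕ, 1 ≤ n → n ≤ N → 9 * D Q l χ ≤ 20 * n →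
    ef (VoP V P₀ g a) χ n =
      tauX (qq F) (D Q l χ) n (ε χ) (c Q l χ n (ef (VoP V P₀ g a) χ)) (ef (VoP V P₀ g a) χ)

/-- the recursion step -/
def StepP : Prop := ∃ d₀ : ℕ, ∀ D₃ d : ℕ, d₀ + 7 * D₃ ≤ d → ∀ (F : Type) [Field F] [Fintype F],
  ringChar F ≠ 2 → ∀ (V : F[X] → ℝ → ℕ → ℝ) (P₀ : F[X]) (g : ℕ → ℝ), AdmP F d D₃ V P₀ g →
  ∀ (D : F[X] → ℕ → (F[X] → ℂ) → ℕ) (ε : (F[X] → ℂ) → ℂ)
    (c : F[X] → ℕ → (F[X] → ℂ) → ℕ → (ℕ → ℂ) → ℂ), Data F d D ε c → ∀ n : ℕ, 1 ≤ n →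
  ∀ a : F[X] → ℝ, Good F d (n - 1) P₀ a ∧ (∀ P, |a P| ≤ eta d) → EqP F V P₀ g D ε c (n - 1) a →
  ∃ a' : F[X] → ℝ, (Good F d n P₀ a' ∧ ∀ P, |a' P| ≤ eta d) ∧
    (∀ P : F[X], P.natDegree < n → a' P = a P) ∧ EqP F V P₀ g D ε c n a'

theorem VoP_congr {F : Type} [Field F] {V : F[X] → ℝ → ℕ → ℝ} {P₀ : F[X]} {g : ℕ → ℝ} {a b : F[X] → ℝ}
    {P : F[X]} (h1 : a P = b P) : VoP V P₀ g a P = VoP V P₀ g b P := by
  funext k
  unfold VoP
  rw [h1]

/-- numerical lemma: the pointwise bound -/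
theorem num2P {q : ℝ} {d n : ℕ} (hq : 3 ≤ q) (hd : 1000 ≤ d) (hn : 9 * d ≤ 20 * n) :
    2 * q ^ ((20 : ℝ) * n / (9 * d)) * (1 / 4 * BB * w2 q d n) / (1 / 4 * (q ^ n / n)) ≤ eta d := by
  have hq0 : 0 < q := by linarith
  have hd' : (1000 : ℝ) ≤ d := by exact_mod_cast hd
  have hd0 : (0 : ℝ) < d := by linarith
  have hnd : (9 : ℝ) * d ≤ 20 * n := by exact_mod_cast hn
  have hn0 : (0 : ℝ) < n := by linarith
  have hqn : 0 < q ^ n := by positivity
  rw [div_le_iff₀ (by positivity)]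
  unfold w2 BB eta
  have h1 : q ^ ((20 : ℝ) * n / (9 * d)) * q ^ ((1 - 5 / (2 * (d : ℝ))) * n) ≤ q ^ n := by
    rw [← Real.rpow_add hq0, ← Real.rpow_natCast]
    apply Real.rpow_le_rpow_of_exponent_le (by linarith)
    have h2 : (20 : ℝ) * n / (9 * d) + (1 - 5 / (2 * (d : ℝ))) * n = n - (5 / 18) * (n / d) := by
      field_simp
      ring
    rw [h2]
    have : (0 : ℝ) ≤ n / d := by positivity
    linarith
  have h2 : (n : ℝ) ^ ((5 : ℝ) / 2) = n * (n : ℝ) ^ ((3 : ℝ) / 2) := by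
    have : ((5 : ℝ) / 2) = 1 + 3 / 2 := by norm_num
    rw [this, Real.rpow_add hn0, Real.rpow_one]
  have h3 : 3 / 10 * (d : ℝ) ^ ((3 : ℝ) / 2) ≤ (n : ℝ) ^ ((3 : ℝ) / 2) := by
    have h4 : 9 / 20 * (d : ℝ) ≤ n := by linarith
    have h5 : (3 : ℝ) / 10 ≤ (9 / 20 : ℝ) ^ ((3 : ℝ) / 2) := by
      have h6 : ((9 : ℝ) / 20) ^ ((3 : ℝ) / 2) = Real.sqrt (((9 : ℝ) / 20) ^ 3) := by
        rw [Real.sqrt_eq_rpow, ← Real.rpow_natCast, ← Real.rpow_mul (by norm_num)]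
        norm_num
      rw [h6]
      apply Real.le_sqrt_of_sq_le
      norm_num
    calc 3 / 10 * (d : ℝ) ^ ((3 : ℝ) / 2) ≤ (9 / 20 : ℝ) ^ ((3 : ℝ) / 2) * (d : ℝ) ^ ((3 : ℝ) / 2) :=
          mul_le_mul_of_nonneg_right h5 (by positivity)
      _ = (9 / 20 * (d : ℝ)) ^ ((3 : ℝ) / 2) := (Real.mul_rpow (by norm_num) hd0.le).symm
      _ ≤ _ := Real.rpow_le_rpow (by positivity) h4 (by norm_num)
  have hD : 0 < (d : ℝ) ^ ((3 : ℝ) / 2) := by positivity
  have hN : 0 < (n : ℝ) ^ ((3 : ℝ) / 2) := by positivity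
  rw [h2]
  set Q := q ^ ((20 : ℝ) * n / (9 * d)) with hQ
  set E := q ^ ((1 - 5 / (2 * (d : ℝ))) * n) with hE
  set D := (d : ℝ) ^ ((3 : ℝ) / 2) with hDD
  set T := (n : ℝ) ^ ((3 : ℝ) / 2) with hT
  have e1 : 2 * Q * (1 / 4 * (1 / 25600) * (E / (n * T))) = (Q * E) / n * (1 / 51200 / T) := by
    field_simp
    ring
  have e2 : 1 / (1000 * D) * (1 / 4 * (q ^ n / n)) = q ^ n / n * (1 / 4000 / D) := by
    field_simp
    try ring
  rw [e1, e2]
  have h7 : 1 / 51200 / T ≤ 1 / 4000 / D := by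
    rw [div_div, div_div, div_le_div_iff₀ (by positivity) (by positivity)]
    linarith
  have h8 : Q * E / n ≤ q ^ n / n := div_le_div_of_nonneg_right h1 hn0.le
  exact mul_le_mul h8 h7 (by positivity) (by positivity)

theorem ef_changeP {F : Type} [Field F] [Fintype F] {n : ℕ} (hM : S_AFM) {V : F[X] → ℝ → ℕ → ℝ}
    (hz : ∀ (P : F[X]) (z : ℝ), V P z 0 = 1) (ho : ∀ (P : F[X]) (z : ℝ), |z| ≤ 1 / 100 → V P z 1 = z)
    {P₀ : F[X]} {g : ℕ → ℝ} (hg : g 0 = 1) {a b : F[X] → ℝ} (χ : F[X] → ℂ) (hb0 : b P₀ = 0)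
    (h0 : ∀ P ∈ PI F n, a P = 0) (hb : ∀ P ∈ PI F n, |b P| ≤ 1 / 100)
    (hlt : ∀ P : F[X], P.Monic → Irreducible P → P.natDegree < n → b P = a P) :
    ef (VoP V P₀ g b) χ n = ef (VoP V P₀ g a) χ n + ∑ P ∈ PI F n, (b P : ℂ) * χ P := by
  classical
  have hv : ∀ (c : F[X] → ℝ) (P : F[X]), VoP V P₀ g c P 0 = 1 := by
    intro c P
    unfold VoP
    split_ifs
    · exact hg
    · exact hz P _
  have hsub : PI F n ⊆ Mon F n := by
    intro P hP
    rw [mem_PI] at hP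
    rw [mem_Mon]
    exact ⟨hP.1, hP.2.1⟩
  unfold ef
  rw [← sum_sdiff hsub, ← sum_sdiff hsub]
  have hirr : ∀ (c : F[X] → ℝ) (P : F[X]), P ∈ PI F n → AF (VoP V P₀ g c) P = VoP V P₀ g c P 1 := by
    intro c P hP
    rw [mem_PI] at hP
    have := (hM F (VoP V P₀ g c) (hv c)).2.2.1 P 1 hP.1 hP.2.2
    rw [pow_one] at this
    exact this
  have e1 : ∑ f ∈ Mon F n \ PI F n, (AF (VoP V P₀ g b) f : ℂ) * χ f =
      ∑ f ∈ Mon F n \ PI F n, (AF (VoP V P₀ g a) f : ℂ) * χ f := by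
    apply sum_congr rfl
    intro f hf
    rw [mem_sdiff, mem_Mon, mem_PI] at hf
    rw [AF_congr hf.1.1]
    intro P h1 h2 h3
    apply VoP_congr
    apply hlt P h1 h2
    have hle : P.natDegree ≤ f.natDegree := natDegree_le_of_dvd h3 hf.1.1.ne_zero
    rcases lt_or_eq_of_le hle with h4 | h4
    · rw [← hf.1.2]
      exact h4
    · exfalso
      obtain ⟨g', hg'⟩ := h3
      have hgm : g'.Monic := by
        have h5 := hf.1.1
        rw [hg'] at h5
        exact h1.of_mul_monic_left h5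
      have h6 : f.natDegree = P.natDegree + g'.natDegree := by
        rw [hg', h1.natDegree_mul hgm]
      have h7 : g'.natDegree = 0 := by omega
      have h8 : g' = 1 := hgm.natDegree_eq_zero.1 h7
      rw [h8, mul_one] at hg'
      apply hf.2
      rw [hg']
      exact ⟨h1, by rw [← hg']; exact hf.1.2, h2⟩
  have e2 : ∑ P ∈ PI F n, (AF (VoP V P₀ g b) P : ℂ) * χ P = ∑ P ∈ PI F n, (AF (VoP V P₀ g a) P : ℂ) * χ P +
      ∑ P ∈ PI F n, (b P : ℂ) * χ P := by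
    rw [← sum_add_distrib]
    apply sum_congr rfl
    intro P hP
    rw [hirr b P hP, hirr a P hP]
    unfold VoP
    by_cases h1 : P = P₀
    · rw [if_pos h1, if_pos h1, h1, hb0]
      simp
    · rw [if_neg h1, if_neg h1, h0 P hP, ho P _ (hb P hP), ho P 0 (by norm_num)]
      push_cast
      ring
  rw [e1, e2]
  ring

/-- the equations in the lower degrees do not change -/
theorem eqp_lower {F : Type} [Field F] [Fintype F] {V : F[X] → ℝ → ℕ → ℝ} {P₀ : F[X]} {g : ℕ → ℝ} {d : ℕ}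
    {D : F[X] → ℕ → (F[X] → ℂ) → ℕ} {ε : (F[X] → ℂ) → ℂ}
    {c : F[X] → ℕ → (F[X] → ℂ) → ℕ → (ℕ → ℂ) → ℂ} (hD : Data F d D ε c) {n : ℕ} {a a' : F[X] → ℝ}
    (hE : EqP F V P₀ g D ε c (n - 1) a) (hlt : ∀ P : F[X], P.natDegree < n → a' P = a P)
    (hn : ∀ (Q : F[X]) (l : ℕ) (χ : F[X] → ℂ), Prim Q l χ → 9 * D Q l χ ≤ 20 * n →
      ef (VoP V P₀ g a') χ n = tauX (qq F) (D Q l χ) n (ε χ) (c Q l χ n (ef (VoP V P₀ g a) χ))
        (ef (VoP V P₀ g a) χ)) : EqP F V P₀ g D ε c n a' := by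
  have hee : ∀ (χ : F[X] → ℂ) (k : ℕ), k < n → ef (VoP V P₀ g a') χ k = ef (VoP V P₀ g a) χ k := by
    intro χ k hk
    apply ef_congr
    intro P _ _ hP
    exact VoP_congr (hlt P (by omega))
  intro Q l χ hχ k hk1 hkn h9
  have hee2 : ∀ m : ℕ, m < k → ef (VoP V P₀ g a') χ m = ef (VoP V P₀ g a) χ m := by
    intro m hm
    exact hee χ m (by omega)
  rw [hD.cloc Q l χ k _ _ hχ hee2, tauX_congr hee2]
  rcases Nat.lt_or_ge k n with h1 | h1
  · rw [hee χ k h1]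
    exact hE Q l χ hχ k hk1 (by omega) h9
  · have h2 : k = n := by omega
    subst h2
    exact hn Q l χ hχ h9

theorem t_stepP (hAFM : S_AFM) (hPRC : S_PRC) (hNO : PS.S_NO) (hCNT : PS.S_CNT) (hUNI : PS.S_UNI)
    (hLINR : S_LINR) (hTB2 : S_TB2) : StepP := by
  classical
  obtain ⟨d₁, hd₁, hNO⟩ := hNO
  obtain ⟨d₄, hTB2⟩ := hTB2
  refine ⟨1000 + 7 * d₁ + d₄, ?_⟩
  intro D₃ d hd F _ _ hF V P₀ g hV D ε c hData n hn a haa hEq
  obtain ⟨ha, hpt⟩ := haa
  have heta : 0 ≤ eta d := by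
    unfold eta
    positivity
  have hq3 : 3 ≤ qq F := three_le_qq hF
  have hq0 : 0 < qq F := by linarith
  have hc := cutR_good ha hq0
  have hpc : ∀ P, |cutR n a P| ≤ eta d := by
    intro P
    unfold cutR
    split_ifs
    · rw [abs_zero]
      exact heta
    · exact hpt P
  have hDD : ∀ (Q : F[X]) (l : ℕ) (χ : F[X] → ℂ), Prim Q l χ → d ≤ D Q l χ := by
    intro Q l χ hχ
    refine le_trans ?_ (hData.deg Q l χ hχ)
    have : 1 ≤ Q.natDegree + max 2 l - 1 := by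
      have := le_max_left 2 l
      omega
    calc d = d * 1 := (mul_one d).symm
      _ ≤ _ := Nat.mul_le_mul_left d this
  by_cases hdn : 20 * n < 9 * d
  · refine ⟨cutR n a, ⟨hc, hpc⟩, fun P hP => cutR_lt hP, ?_⟩
    refine eqp_lower hData hEq (fun P hP => cutR_lt hP) ?_
    intro Q l χ hχ h9
    have := hDD Q l χ hχ
    omega
  push Not at hdn
  -- the finite set of the characters
  have hd0 : 0 < d := by omega
  set N := 20 * n / (9 * d) + 1 with hN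
  obtain ⟨hfin, hcard⟩ := hCNT F 2 N
  set XS2 : Set (F[X] × ℕ × (F[X] → ℂ)) :=
    {p | Prim p.1 p.2.1 p.2.2 ∧ 9 * D p.1 p.2.1 p.2.2 ≤ 20 * n} with hXS2
  have hsub : XS2 ⊆ {p : F[X] × ℕ × (F[X] → ℂ) | Prim p.1 p.2.1 p.2.2 ∧
      p.1.natDegree + max 2 p.2.1 ≤ N} := by
    rintro p ⟨hp1, hp2⟩
    refine ⟨hp1, ?_⟩
    have h0 := hData.deg p.1 p.2.1 p.2.2 hp1
    have h1 : p.1.natDegree + max 2 p.2.1 - 1 ≤ 20 * n / (9 * d) := by
      rw [Nat.le_div_iff_mul_le (by omega)]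
      calc (p.1.natDegree + max 2 p.2.1 - 1) * (9 * d) = 9 * (d * (p.1.natDegree + max 2 p.2.1 - 1)) := by ring
        _ ≤ 9 * D p.1 p.2.1 p.2.2 := Nat.mul_le_mul_left 9 h0
        _ ≤ 20 * n := hp2
    omega
  have hXfin : XS2.Finite := hfin.subset hsub
  set X0 : Finset (F[X] × ℕ × (F[X] → ℂ)) := hXfin.toFinset with hX0
  have hmX : ∀ p, p ∈ X0 ↔ p ∈ XS2 := fun p => hXfin.mem_toFinset
  let ι : Type := {p // p ∈ X0}
  let chi : ι → F[X] → ℂ := fun i => i.1.2.2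
  have hmem : ∀ i : ι, Prim i.1.1 i.1.2.1 i.1.2.2 ∧ 9 * D i.1.1 i.1.2.1 i.1.2.2 ≤ 20 * n := by
    intro i
    exact (hmX i.1).1 i.2
  have hFam : Fam N chi := by
    refine ⟨?_, ?_⟩
    · intro i
      refine ⟨i.1.1, i.1.2.1, (hmem i).1.1, ?_⟩
      have h1 := (hsub ((hmX i.1).1 i.2)).2
      have h2 := le_max_right 2 i.1.2.1
      omega
    · intro i j hij
      by_contra hcon
      push Not at hcon
      obtain ⟨h1, h2, h3⟩ := hUNI F i.1.1 j.1.1 i.1.2.1 j.1.2.1 i.1.2.2 j.1.2.2 (hmem i).1 (hmem j).1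
        hcon
      apply hij
      apply Subtype.ext
      exact Prod.ext h1 (Prod.ext h2 h3)
  -- conjugation of the index set
  have hconjmem : ∀ i : ι, ((i.1.1, i.1.2.1, fun f => conj (i.1.2.2 f)) : F[X] × ℕ × (F[X] → ℂ)) ∈ X0 := by
    intro i
    rw [hmX]
    refine ⟨hPRC F _ _ _ (hmem i).1, ?_⟩
    show 9 * D i.1.1 i.1.2.1 (fun f => conj (i.1.2.2 f)) ≤ 20 * n
    rw [hData.degc _ _ _ (hmem i).1]
    exact (hmem i).2
  let σ : ι → ι := fun i => ⟨_, hconjmem i⟩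
  -- sizes
  have hdiv : 9 * d * (20 * n / (9 * d)) ≤ 20 * n := Nat.mul_div_le (20 * n) (9 * d)
  have hsize : ∀ k : ℕ, 7 * k ≤ d → k * (N + 1) ≤ n := by
    intro k hk
    have h1 : 9 * (d * (N + 1)) ≤ 60 * n := by
      have : 9 * (d * (N + 1)) = 9 * d * (20 * n / (9 * d)) + 18 * d := by rw [hN]; ring
      omega
    have h2 : 7 * (k * (N + 1)) ≤ d * (N + 1) := by
      calc 7 * (k * (N + 1)) = 7 * k * (N + 1) := by ring
        _ ≤ _ := Nat.mul_le_mul_right _ hk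
    omega
  have hcardι : (Fintype.card ι : ℝ) ≤ 4 * qq F ^ ((40 : ℝ) * n / (9 * d)) := by
    have e1 : Fintype.card ι = XS2.ncard := by
      rw [Set.ncard_eq_toFinset_card _ hXfin]
      exact Fintype.card_coe _
    have e2 : XS2.ncard ≤ _ := Set.ncard_le_ncard hsub hfin
    rw [e1]
    have e3 : (XS2.ncard : ℝ) ≤ ({p : F[X] × ℕ × (F[X] → ℂ) | Prim p.1 p.2.1 p.2.2 ∧
      p.1.natDegree + max 2 p.2.1 ≤ N}.ncard : ℝ) := by exact_mod_cast e2
    refine e3.trans ?_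
    set M : ℝ := ({p : F[X] × ℕ × (F[X] → ℂ) | Prim p.1 p.2.1 p.2.2 ∧
      p.1.natDegree + max 2 p.2.1 ≤ N}.ncard : ℝ) with hM
    have e5 : qq F ^ (2 * N) = qq F ^ (2 * (20 * n / (9 * d))) * qq F ^ 2 := by
      rw [hN]
      ring
    have e6 : M ≤ 4 * qq F ^ (2 * (20 * n / (9 * d))) := by
      rw [e5] at hcard
      have : 0 < qq F ^ 2 := by positivity
      nlinarith
    have e7 : qq F ^ (2 * (20 * n / (9 * d))) ≤ qq F ^ ((40 : ℝ) * n / (9 * d)) := by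
      rw [← Real.rpow_natCast (qq F) (2 * (20 * n / (9 * d)))]
      apply Real.rpow_le_rpow_of_exponent_le (by linarith)
      have h1 : ((20 * n / (9 * d) : ℕ) : ℝ) ≤ ((20 * n : ℕ) : ℝ) / ((9 * d : ℕ) : ℝ) := Nat.cast_div_le
      push_cast at h1 ⊢
      calc 2 * ((20 * n / (9 * d) : ℕ) : ℝ) ≤ 2 * (20 * n / (9 * d)) := by linarith
        _ = 40 * n / (9 * d) := by ring
    linarith
  have hn' : (0 : ℝ) < n := by exact_mod_cast hn
  -- lower bound for the quadratic form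
  have hlo : ∀ b : ι → ℂ, 1 / 4 * (qq F ^ n / n) * nsq b ≤
      ∑ P ∈ (PI F n).erase P₀, ‖∑ i, b i * chi i P‖ ^ 2 := by
    intro b
    have h1 := (hNO F hF N n ι chi hFam (hsize d₁ (by omega)) b).1
    have hnb : 0 ≤ nsq b := nsq_nonneg b
    have h2 : ∑ P ∈ PI F n, ‖phi chi b P‖ ^ 2 ≤
        ∑ P ∈ (PI F n).erase P₀, ‖∑ i, b i * chi i P‖ ^ 2 + Fintype.card ι * nsq b := by
      have h3 : ‖phi chi b P₀‖ ^ 2 ≤ Fintype.card ι * nsq b := by
        have h4 : ‖phi chi b P₀‖ ≤ ∑ i : ι, ‖b i‖ := by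
          unfold phi
          refine (norm_sum_le _ _).trans ?_
          apply sum_le_sum
          intro i _
          rw [norm_mul]
          have := norm_le_one (hmem i).1.1 P₀
          have h5 := norm_nonneg (b i)
          exact mul_le_of_le_one_right h5 this
        have h6 : (∑ i : ι, ‖b i‖) ^ 2 ≤ (Finset.univ : Finset ι).card * ∑ i : ι, ‖b i‖ ^ 2 :=
          sq_sum_le_card_mul_sum_sq
        calc ‖phi chi b P₀‖ ^ 2 ≤ (∑ i : ι, ‖b i‖) ^ 2 := by gcongr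
          _ ≤ _ := h6
          _ = _ := by rw [Finset.card_univ]; rfl
      by_cases h7 : P₀ ∈ PI F n
      · rw [← Finset.sum_erase_add _ _ h7]
        have h8 : ∑ P ∈ (PI F n).erase P₀, ‖phi chi b P‖ ^ 2 =
            ∑ P ∈ (PI F n).erase P₀, ‖∑ i, b i * chi i P‖ ^ 2 := rfl
        rw [h8]
        linarith
      · rw [Finset.erase_eq_of_notMem h7]
        have h8 : ∑ P ∈ PI F n, ‖phi chi b P‖ ^ 2 =
            ∑ P ∈ PI F n, ‖∑ i, b i * chi i P‖ ^ 2 := rfl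
        rw [h8]
        have : (0 : ℝ) ≤ Fintype.card ι * nsq b := by positivity
        linarith
    have h9 : (Fintype.card ι : ℝ) ≤ 1 / 4 * (qq F ^ n / n) := by
      refine hcardι.trans ?_
      have h10 := num1 hq3 (by omega : 1000 ≤ d) hdn
      rw [mul_div_assoc', le_div_iff₀ hn']
      nlinarith
    have h11 : (Fintype.card ι : ℝ) * nsq b ≤ 1 / 4 * (qq F ^ n / n) * nsq b :=
      mul_le_mul_of_nonneg_right h9 hnb
    nlinarith
  have hlo0 : 0 < 1 / 4 * (qq F ^ n / n) := by positivity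
  -- the right-hand sides
  let v : F[X] → ℕ → ℝ := VoP V P₀ g a
  let tt : F[X] × ℕ × (F[X] → ℂ) → ℂ := fun p =>
    tauX (qq F) (D p.1 p.2.1 p.2.2) n (ε p.2.2) (c p.1 p.2.1 p.2.2 n (ef v p.2.2)) (ef v p.2.2)
  let t : ι → ℂ := fun i => tt i.1 - ef (VoP V P₀ g (cutR n a)) (chi i) n
  have hsf : ∀ i : ι, sf (cutR n a) (chi i) n = 0 := by
    intro i
    unfold sf
    apply sum_eq_zero
    intro P hP
    rw [mem_PI] at hP
    unfold cutR
    rw [if_pos hP.2.1]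
    simp
  have hww : 0 ≤ w2 (qq F) d n := w2_nonneg hq0.le d n
  have hBB : 0 ≤ BB := by unfold BB; norm_num
  have hw : 0 ≤ BB * w2 (qq F) d n := mul_nonneg hBB hww
  have hee : ∑ i : ι, ‖ef (VoP V P₀ g (cutR n a)) (chi i) n‖ ^ 2 ≤ (1 / 20 * BB * w2 (qq F) d n) ^ 2 := by
    have h1 := hV.mean n (cutR n a) hc n hn le_rfl N ι chi hFam
      (hsize D₃ (by omega)) hcardι
    simp only [hsf, sub_zero] at h1
    have h2 : 0 ≤ ∑ i : ι, ‖ef (VoP V P₀ g (cutR n a)) (chi i) n‖ ^ 2 :=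
      sum_nonneg (fun _ _ => by positivity)
    calc ∑ i : ι, ‖ef (VoP V P₀ g (cutR n a)) (chi i) n‖ ^ 2
        = Real.sqrt (∑ i : ι, ‖ef (VoP V P₀ g (cutR n a)) (chi i) n‖ ^ 2) ^ 2 := (Real.sq_sqrt h2).symm
      _ ≤ _ := by gcongr
  have hcm : ∀ i : ι, CM (chi i) := fun i => ⟨(hmem i).1.1.one, (hmem i).1.1.mul⟩
  have hv1 : ∀ (b : F[X] → ℝ) (P : F[X]), VoP V P₀ g b P 0 = 1 := by
    intro b P
    unfold VoP
    split_ifs
    · exact hV.gz
    · exact hV.zero P _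
  have hef0 : ∀ p ∈ X0, ef v p.2.2 0 = 1 := by
    intro p hp
    have hp' := (hmX p).1 hp
    unfold ef
    rw [Pool.Agent.H341R2.Sharp.Mon_zero, sum_singleton, (hAFM F v (hv1 a)).1, hp'.1.1.one]
    simp
  have hefb : ∀ p ∈ X0, ∀ k : ℕ, 1 ≤ k → k < n → ‖ef v p.2.2 k‖ ≤ 3 * BB * w2 (qq F) d k := by
    intro p hp k hk1 hkn
    have hp' := (hmX p).1 hp
    have h1 := hV.mass (n - 1) a ha k hk1 (by omega)
    refine le_trans ?_ h1
    unfold ef
    refine (norm_sum_le _ _).trans ?_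
    apply sum_le_sum
    intro f _
    rw [norm_mul, Complex.norm_real, Real.norm_eq_abs]
    exact mul_le_of_le_one_right (abs_nonneg _) (norm_le_one hp'.1.1 f)
  have htau : ∑ i : ι, ‖tt i.1‖ ^ 2 ≤ (1 / 5 * BB * w2 (qq F) d n) ^ 2 := by
    have h1 := hTB2 d (by omega) F (three_le_card hF) n hn X0 (fun p => D p.1 p.2.1 p.2.2)
      (fun p => ε p.2.2) (fun p => c p.1 p.2.1 p.2.2 n (ef v p.2.2)) (fun p => ef v p.2.2) (by
        intro p hp
        have hp' := (hmX p).1 hp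
        refine ⟨hp'.1, hData.deg _ _ _ hp'.1, hp'.2, hData.eps _, ?_, ?_, hefb p hp, ?_⟩
        · intro h2
          exact hData.cbound _ _ _ _ _ hp'.1 hp'.2 h2 (by rw [hef0 p hp]; simp) (hefb p hp)
        · rw [hef0 p hp]
          simp
        · intro k hk1 hkn h9 h2k
          have h2 := hEq p.1 p.2.1 p.2.2 hp'.1 k hk1 (by omega) h9
          show ‖ef v p.2.2 k‖ ≤ _
          have h3 : ef v p.2.2 k = c p.1 p.2.1 p.2.2 k (ef v p.2.2) := by
            rw [show ef v p.2.2 k = _ from h2]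
            unfold tauX
            rw [if_neg (by have : 2 * k < D p.1 p.2.1 p.2.2 := h2k; omega),
              if_pos (by have : 2 * k < D p.1 p.2.1 p.2.2 := h2k; omega)]
          rw [h3]
          exact hData.cbound _ _ _ _ _ hp'.1 h9 (by have : 2 * k < D p.1 p.2.1 p.2.2 := h2k; omega)
            (by rw [hef0 p hp]; simp) (fun m hm1 hmk => hefb p hp m hm1 (by omega)))
    rw [← Finset.sum_coe_sort] at h1
    exact h1
  have hnt : nsq t ≤ 1 / 16 * (BB * w2 (qq F) d n) ^ 2 := by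
    have h1 : nsq t ≤ (1 + 1 / 4) * ∑ i : ι, ‖tt i.1‖ ^ 2 +
        (1 + 4) * ∑ i : ι, ‖ef (VoP V P₀ g (cutR n a)) (chi i) n‖ ^ 2 := by
      unfold nsq
      rw [mul_sum, mul_sum, ← sum_add_distrib]
      apply sum_le_sum
      intro i _
      have h2 : ‖t i‖ ≤ ‖tt i.1‖ + ‖ef (VoP V P₀ g (cutR n a)) (chi i) n‖ := norm_sub_le _ _
      have h3 := norm_nonneg (t i)
      nlinarith [sq_nonneg (‖tt i.1‖ / 2 - 2 * ‖ef (VoP V P₀ g (cutR n a)) (chi i) n‖)]
    nlinarith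
  have hchi1 : ∀ i : ι, ∀ x ∈ (PI F n).erase P₀, ‖chi i x‖ ≤ 1 := by
    intro i x _
    exact norm_le_one (hmem i).1.1 x
  have hσ1 : ∀ i : ι, ∀ x ∈ (PI F n).erase P₀, chi (σ i) x = conj (chi i x) := fun i x _ => rfl
  have hσ2 : ∀ i : ι, t (σ i) = conj (t i) := by
    intro i
    have hpi := (hmem i).1
    show tt (σ i).1 - ef (VoP V P₀ g (cutR n a)) (fun f => conj (chi i f)) n =
      conj (tt i.1 - ef (VoP V P₀ g (cutR n a)) (chi i) n)
    rw [map_sub, ef_conj]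
    congr 1
    show tauX (qq F) (D i.1.1 i.1.2.1 (fun f => conj (i.1.2.2 f))) n (ε (fun f => conj (i.1.2.2 f)))
      (c i.1.1 i.1.2.1 (fun f => conj (i.1.2.2 f)) n (ef v (fun f => conj (i.1.2.2 f))))
      (ef v (fun f => conj (i.1.2.2 f))) = conj (tauX (qq F) (D i.1.1 i.1.2.1 i.1.2.2) n (ε i.1.2.2)
        (c i.1.1 i.1.2.1 i.1.2.2 n (ef v i.1.2.2)) (ef v i.1.2.2))
    have h5 : ef v (fun f => conj (i.1.2.2 f)) = fun k => conj (ef v i.1.2.2 k) := by
      funext k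
      exact ef_conj v _ k
    rw [h5, hData.degc _ _ _ hpi, hData.epsc, hData.cconj _ _ _ _ _ hpi, tauX_conj]
  obtain ⟨b, hb1, hb2, hb3⟩ := hLINR F[X] ((PI F n).erase P₀) ι chi (1 / 4 * (qq F ^ n / n)) t σ hlo0 hchi1
    hlo hσ1 hσ2
  -- pointwise bound
  have heta2 : eta d ≤ 1 / 100 := by
    unfold eta
    have h1 : (1 : ℝ) ≤ d := by exact_mod_cast hd0
    have h2 : (1 : ℝ) ≤ (d : ℝ) ^ ((3 : ℝ) / 2) := Real.one_le_rpow h1 (by norm_num)
    rw [div_le_div_iff₀ (by positivity) (by norm_num)]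
    linarith
  have hsmall' : ∀ P ∈ (PI F n).erase P₀, |b P| ≤ eta d := by
    intro P hP
    refine (hb3 P hP).trans ?_
    refine le_trans ?_ (num2P (n := n) hq3 (by omega : 1000 ≤ d) hdn)
    have h2 : Real.sqrt (Fintype.card ι) ≤ 2 * qq F ^ ((20 : ℝ) * n / (9 * d)) := by
      rw [Real.sqrt_le_left (by positivity)]
      refine hcardι.trans ?_
      rw [mul_pow, ← Real.rpow_natCast (qq F ^ _) 2, ← Real.rpow_mul hq0.le]
      have : (20 : ℝ) * n / (9 * d) * ((2 : ℕ) : ℝ) = 40 * n / (9 * d) := by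
        push_cast
        ring
      rw [this]
      norm_num
    have h3 : Real.sqrt (nsq t) ≤ 1 / 4 * BB * w2 (qq F) d n := by
      rw [Real.sqrt_le_left (by positivity)]
      refine hnt.trans (le_of_eq ?_)
      ring
    gcongr
  have hsmall : ∀ P ∈ (PI F n).erase P₀, |b P| ≤ 1 / 100 := fun P hP => (hsmall' P hP).trans heta2
  -- the new parameters
  let a' : F[X] → ℝ := fun P => if P ∈ (PI F n).erase P₀ then b P else cutR n a P
  have ha'lt : ∀ P : F[X], P.natDegree < n → a' P = a P := by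
    intro P hP
    have h1 : P ∉ (PI F n).erase P₀ := by
      rw [mem_erase, mem_PI]
      intro h
      omega
    simp only [a', if_neg h1]
    exact cutR_lt hP
  have ha'n : ∀ P ∈ (PI F n).erase P₀, a' P = b P := by
    intro P hP
    simp only [a', if_pos hP]
  have ha'P : a' P₀ = 0 := by
    have h1 : P₀ ∉ (PI F n).erase P₀ := by
      rw [mem_erase]
      tauto
    simp only [a', if_neg h1]
    exact hc.spec
  have ha'sum : ∀ f : F[X] → ℝ → ℂ, (f P₀ 0 = 0) →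
      ∑ P ∈ PI F n, f P (a' P) = ∑ P ∈ (PI F n).erase P₀, f P (b P) := by
    intro f hf0
    by_cases h7 : P₀ ∈ PI F n
    · rw [← Finset.sum_erase_add _ _ h7, ha'P, hf0, add_zero]
      exact sum_congr rfl (fun P hP => by rw [ha'n P hP])
    · rw [Finset.erase_eq_of_notMem h7]
      refine sum_congr rfl (fun P hP => ?_)
      rw [ha'n P (by rw [Finset.erase_eq_of_notMem h7]; exact hP)]
  have ha'small : ∀ P ∈ PI F n, |a' P| ≤ 1 / 100 := by
    intro P hP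
    by_cases h1 : P = P₀
    · rw [h1, ha'P, abs_zero]
      norm_num
    · have h2 : P ∈ (PI F n).erase P₀ := mem_erase.2 ⟨h1, hP⟩
      rw [ha'n P h2]
      exact hsmall P h2
  have hgood : Good F d n P₀ a' := by
    refine ⟨?_, ha'P, ?_, ?_⟩
    · intro P hP
      have h1 : P ∉ (PI F n).erase P₀ := by
        rw [mem_erase, mem_PI]
        intro h
        omega
      simp only [a', if_neg h1]
      exact hc.zero P hP
    · intro m hm P hP
      by_cases h1 : m = n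
      · subst h1
        exact ha'small P hP
      · rw [ha'lt P (by rw [mem_PI] at hP; omega)]
        exact ha.small m (by omega) P hP
    · intro m hm hmn
      by_cases h1 : m = n
      · subst h1
        have h2 : ∑ P ∈ PI F m, a' P ^ 2 = ∑ P ∈ (PI F m).erase P₀, b P ^ 2 := by
          have h3 := ha'sum (fun _ x => ((x ^ 2 : ℝ) : ℂ)) (by simp)
          exact_mod_cast h3
        rw [h2]
        refine hb2.trans ?_
        rw [div_le_iff₀ hlo0]
        have h4 := w2_sq hq0 d m hn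
        have h3 : (BB * w2 (qq F) d m) ^ 2 = BB ^ 2 * om2 (qq F) d m * (qq F ^ m / m) := by
          rw [mul_pow, h4]
          ring
        rw [h3] at hnt
        have h5 : 0 ≤ BB ^ 2 * om2 (qq F) d m * (qq F ^ m / m) := by
          have := om2_nonneg hq0.le d m
          positivity
        nlinarith
      · rw [sum_congr rfl (fun P hP => by rw [ha'lt P (by rw [mem_PI] at hP; omega)])]
        exact ha.l2 m hm (by omega)
  have hpt' : ∀ P, |a' P| ≤ eta d := by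
    intro P
    by_cases h1 : P ∈ (PI F n).erase P₀
    · rw [ha'n P h1]
      exact hsmall' P h1
    · simp only [a', if_neg h1]
      exact hpc P
  refine ⟨a', ⟨hgood, hpt'⟩, ha'lt, ?_⟩
  refine eqp_lower hData hEq ha'lt ?_
  intro Q l χ hχ h9
  have hin : (Q, l, χ) ∈ X0 := (hmX _).2 ⟨hχ, h9⟩
  have h1 := hb1 ⟨(Q, l, χ), hin⟩
  have h2 : ef (VoP V P₀ g a') χ n = ef (VoP V P₀ g (cutR n a)) χ n + ∑ P ∈ PI F n, (a' P : ℂ) * χ P := by
    apply ef_changeP hAFM hV.zero hV.one hV.gz χ ha'P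
    · intro P hP
      rw [mem_PI] at hP
      unfold cutR
      rw [if_pos hP.2.1]
    · exact ha'small
    · intro P _ _ hP
      rw [ha'lt P hP, cutR_lt hP]
  rw [h2, ha'sum (fun P x => (x : ℂ) * χ P) (by simp)]
  have h3 : ∑ P ∈ (PI F n).erase P₀, (b P : ℂ) * χ P = tt (Q, l, χ) - ef (VoP V P₀ g (cutR n a)) χ n := h1
  rw [h3]
  show ef (VoP V P₀ g (cutR n a)) χ n + (tt (Q, l, χ) - ef (VoP V P₀ g (cutR n a)) χ n) = tt (Q, l, χ)
  ring

/-- the main theorem of the engine -/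
def PXP : Prop := ∃ d₀ : ℕ, ∀ D₃ d : ℕ, d₀ + 7 * D₃ ≤ d → ∀ (F : Type) [Field F] [Fintype F],
  ringChar F ≠ 2 → ∀ (V : F[X] → ℝ → ℕ → ℝ) (P₀ : F[X]) (g : ℕ → ℝ), AdmP F d D₃ V P₀ g →
  ∀ (D : F[X] → ℕ → (F[X] → ℂ) → ℕ) (ε : (F[X] → ℂ) → ℂ)
    (c : F[X] → ℕ → (F[X] → ℂ) → ℕ → (ℕ → ℂ) → ℂ), Data F d D ε c → ∃ a : F[X] → ℝ,
    (∀ N : ℕ, Good F d N P₀ a) ∧ (∀ P, |a P| ≤ eta d) ∧
    (∀ n : ℕ, 1 ≤ n → ∑ f ∈ Mon F n, |AF (VoP V P₀ g a) f| ≤ 3 * BB * w2 (qq F) d n) ∧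
    ∀ (Q : F[X]) (l : ℕ) (χ : F[X] → ℂ), Prim Q l χ →
      (∀ n : ℕ, D Q l χ < n → ef (VoP V P₀ g a) χ n = 0) ∧
      (∀ n m : ℕ, n + m = D Q l χ → m ≤ n →
        ef (VoP V P₀ g a) χ n = ε χ * (Real.sqrt (qq F) : ℂ) ^ (n - m) * conj (ef (VoP V P₀ g a) χ m)) ∧
      ∀ n : ℕ, 9 * D Q l χ ≤ 20 * n → 2 * n ≤ D Q l χ →
        ef (VoP V P₀ g a) χ n = c Q l χ n (ef (VoP V P₀ g a) χ)

theorem t_PXP (hS : StepP) : PXP := by
  classical
  obtain ⟨d₀, hS⟩ := hS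
  refine ⟨16 + d₀, ?_⟩
  intro D₃ d hd F _ _ hF V P₀ g hV D ε c hD
  have hq3 : 3 ≤ qq F := three_le_qq hF
  have hq3' : 3 ≤ Fintype.card F := by
    have : (3 : ℝ) ≤ (Fintype.card F : ℝ) := hq3
    exact_mod_cast this
  have hq0 : 0 < qq F := by linarith
  have heta : 0 ≤ eta d := by
    unfold eta
    positivity
  have step := hS D₃ d (by omega) F hF V P₀ g hV D ε c hD
  choose! nx h1 h2 h3 using step
  let s : ℕ → F[X] → ℝ := fun n => Nat.rec (fun _ => 0) (fun n a => nx (n + 1) a) n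
  have s0 : s 0 = fun _ => 0 := rfl
  have ss : ∀ n, s (n + 1) = nx (n + 1) (s n) := fun n => rfl
  have hboth : ∀ n, (Good F d n P₀ (s n) ∧ ∀ P, |s n P| ≤ eta d) ∧ EqP F V P₀ g D ε c n (s n) := by
    intro n
    induction n with
    | zero =>
      rw [s0]
      refine ⟨⟨⟨fun _ _ => rfl, rfl, ?_, ?_⟩, ?_⟩, ?_⟩
      · intro m _ P _
        rw [abs_zero]
        norm_num
      · intro m h4 h5
        omega
      · intro P
        rw [abs_zero]
        exact heta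
      · intro Q l χ _ m h4 h5
        omega
    | succ n ih =>
      rw [ss]
      exact ⟨h1 (n + 1) (by omega) (s n) ih.1 ih.2, h3 (n + 1) (by omega) (s n) ih.1 ih.2⟩
  have hgood : ∀ n, Good F d n P₀ (s n) := fun n => (hboth n).1.1
  have hlt : ∀ n (P : F[X]), P.natDegree ≤ n → s (n + 1) P = s n P := by
    intro n P hP
    rw [ss]
    exact h2 (n + 1) (by omega) (s n) (hboth n).1 (hboth n).2 P (by omega)
  have hstab : ∀ n (P : F[X]), P.natDegree ≤ n → s n P = s P.natDegree P := by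
    intro n P hP
    induction n with
    | zero =>
      have : P.natDegree = 0 := by omega
      rw [this]
    | succ n ih =>
      rcases Nat.lt_or_ge n P.natDegree with h4 | h4
      · have : P.natDegree = n + 1 := by omega
        rw [this]
      · rw [hlt n P h4, ih h4]
  let a : F[X] → ℝ := fun P => s P.natDegree P
  have hee : ∀ (χ : F[X] → ℂ) (n N : ℕ), n ≤ N → ef (VoP V P₀ g a) χ n = ef (VoP V P₀ g (s N)) χ n := by
    intro χ n N hnN
    apply ef_congr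
    intro P _ _ hP
    apply VoP_congr
    exact (hstab N P (by omega)).symm
  have haG : ∀ N : ℕ, Good F d N P₀ a := by
    intro N
    refine ⟨fun P hP => (hgood P.natDegree).zero P hP, (hgood P₀.natDegree).spec, fun n hn P hP => ?_,
      fun n h4 hn => ?_⟩
    · have h5 := hP
      rw [mem_PI] at h5
      have h6 : a P = s n P := (hstab n P (by omega)).symm
      rw [h6]
      exact (hgood n).small n le_rfl P hP
    · have h6 : ∀ P ∈ PI F n, a P ^ 2 = s n P ^ 2 := by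
        intro P hP
        rw [mem_PI] at hP
        have h7 : a P = s n P := (hstab n P (by omega)).symm
        rw [h7]
      rw [sum_congr rfl h6]
      exact (hgood n).l2 n h4 le_rfl
  have hmain : ∀ (Q : F[X]) (l : ℕ) (χ : F[X] → ℂ), Prim Q l χ → ∀ n : ℕ, 9 * D Q l χ ≤ 20 * n → 1 ≤ n →
      ef (VoP V P₀ g a) χ n =
        tauX (qq F) (D Q l χ) n (ε χ) (c Q l χ n (ef (VoP V P₀ g a) χ)) (ef (VoP V P₀ g a) χ) := by
    intro Q l χ hχ n hn hn1
    rw [hee χ n n le_rfl, (hboth n).2 Q l χ hχ n hn1 le_rfl hn]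
    have e1 : ∀ k : ℕ, k < n → ef (VoP V P₀ g (s n)) χ k = ef (VoP V P₀ g a) χ k := by
      intro k hk
      exact (hee χ k n hk.le).symm
    rw [tauX_congr e1, hD.cloc Q l χ n _ _ hχ e1]
  refine ⟨a, haG, fun P => (hboth P.natDegree).1.2 P, ?_, ?_⟩
  · intro n hn
    exact hV.mass n a (haG n) n hn le_rfl
  · intro Q l χ hχ
    have hDpos : 1 ≤ D Q l χ := by
      refine le_trans ?_ (hD.deg Q l χ hχ)
      have : 1 ≤ Q.natDegree + max 2 l - 1 := by
        have := le_max_left 2 l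
        omega
      have h7 : 1 ≤ d := by omega
      exact Nat.mul_pos h7 this
    refine ⟨?_, ?_, ?_⟩
    · intro n hn
      rw [hmain Q l χ hχ n (by omega) (by omega)]
      unfold tauX
      rw [if_pos hn]
    · intro n m hnm hmn
      rcases lt_or_eq_of_le hmn with h4 | h4
      · rw [hmain Q l χ hχ n (by omega) (by omega)]
        unfold tauX
        rw [if_neg (by omega), if_neg (by omega)]
        have e1 : 2 * n - D Q l χ = n - m := by omega
        have e2 : D Q l χ - n = m := by omega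
        rw [e1, e2]
      · subst h4
        rw [hmain Q l χ hχ m (by omega) (by omega)]
        unfold tauX
        rw [if_neg (by omega), if_pos (by omega), Nat.sub_self, pow_zero, mul_one]
        exact hD.cself Q l χ m _ hχ (by omega)
    · intro n h4 h5
      rw [hmain Q l χ hχ n h4 (by omega)]
      unfold tauX
      rw [if_neg (by omega), if_pos h5]
      


end Pool.Agent.Q284.PX
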