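import Pool.Agent.Q284.PX.Basic
import Pool.Agent.Q284.PS.Main

/-!
# Project PX: the recursion on the degree
-/

set_option autoImplicit false

open Finset Polynomial ComplexConjugate
open Pool.Agent.H341R2.Sharp (Mon mem_Mon)

namespace Pool.Agent.Q284.PX

open Pool.Agent.Q284.PS

/-- the equations in the degrees at most `N` -/
def Eqs (F : Type) [Field F] [Fintype F] (h : ℝ → ℕ → ℝ) (P₀ : F[X]) (g : ℕ → ℝ)
    (D : F[X] → ℕ → (F[X] → ℂ) → ℕ) (ε : (F[X] → ℂ) → ℂ)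
    (c : F[X] → ℕ → (F[X] → ℂ) → ℕ → (ℕ → ℂ) → ℂ) (N : ℕ) (a : F[X] → ℝ) : Prop :=
  ∀ (Q : F[X]) (l : ℕ) (χ : F[X] → ℂ), Prim Q l χ → ∀ n : ℕ, 1 ≤ n → n ≤ N → 9 * D Q l χ ≤ 20 * n →
    ef (Lo h P₀ g a) χ n =
      tauX (qq F) (D Q l χ) n (ε χ) (c Q l χ n (ef (Lo h P₀ g a) χ)) (ef (Lo h P₀ g a) χ)

/-- the recursion step -/
def StepStm : Prop := ∃ d₀ : ℕ, ∀ d : ℕ, d₀ ≤ d → ∃ m₀ : ℕ, ∀ (F : Type) [Field F] [Fintype F],
  ringChar F ≠ 2 → ∀ (K : ℕ) (h : ℝ → ℕ → ℝ), 100 ≤ K → LFam K h →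
  ∀ (P₀ : F[X]) (g : ℕ → ℝ), Spec F d m₀ P₀ g →
  ∀ (D : F[X] → ℕ → (F[X] → ℂ) → ℕ) (ε : (F[X] → ℂ) → ℂ)
    (c : F[X] → ℕ → (F[X] → ℂ) → ℕ → (ℕ → ℂ) → ℂ), Data F d D ε c → ∀ n : ℕ, 1 ≤ n →
  ∀ a : F[X] → ℝ, Good F d (n - 1) P₀ a → Eqs F h P₀ g D ε c (n - 1) a → ∃ a' : F[X] → ℝ,
    Good F d n P₀ a' ∧ (∀ P : F[X], P.natDegree < n → a' P = a P) ∧ Eqs F h P₀ g D ε c n a'

theorem tauX_congr {q : ℝ} {D n : ℕ} {ε c : ℂ} {e e' : ℕ → ℂ} (h : ∀ k : ℕ, k < n → e k = e' k) :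
    tauX q D n ε c e = tauX q D n ε c e' := by
  unfold tauX
  split_ifs with h1 h2
  · rfl
  · rfl
  · rw [h (D - n) (by omega)]

theorem tauX_conj {q : ℝ} {D n : ℕ} {ε c : ℂ} {e : ℕ → ℂ} :
    tauX q D n (conj ε) (conj c) (fun k => conj (e k)) = conj (tauX q D n ε c e) := by
  unfold tauX
  split_ifs with h1 h2
  · rw [map_zero]
  · rfl
  · rw [map_mul, map_mul, map_pow, Complex.conj_ofReal]

section

variable {F : Type} [Field F] [Fintype F]

/-- zero in degree `n` -/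
noncomputable def cutR (n : ℕ) (a : F[X] → ℝ) (P : F[X]) : ℝ := if P.natDegree = n then 0 else a P

omit [Fintype F] in
theorem cutR_lt {n : ℕ} {a : F[X] → ℝ} {P : F[X]} (h : P.natDegree < n) : cutR n a P = a P := by
  unfold cutR
  rw [if_neg h.ne]

theorem cutR_good {d n : ℕ} {P₀ : F[X]} {a : F[X] → ℝ} (h : Good F d (n - 1) P₀ a)
    (hq : 0 < qq F) : Good F d n P₀ (cutR n a) := by
  refine ⟨?_, ?_, ?_, ?_⟩
  · intro P hP
    unfold cutR
    split_ifs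
    · rfl
    · exact h.zero P hP
  · unfold cutR
    split_ifs
    · rfl
    · exact h.spec
  · intro m hm P hP
    unfold cutR
    split_ifs with h1
    · rw [abs_zero]
      norm_num
    · refine h.small m ?_ P hP
      rw [mem_PI] at hP
      omega
  · intro m hm hmn
    by_cases h1 : m = n
    · have : ∑ P ∈ PI F m, cutR n a P ^ 2 = 0 := by
        apply sum_eq_zero
        intro P hP
        rw [mem_PI] at hP
        unfold cutR
        rw [if_pos (by omega)]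
        simp
      rw [this]
      have := om2_nonneg hq.le d m
      positivity
    · have : ∑ P ∈ PI F m, cutR n a P ^ 2 = ∑ P ∈ PI F m, a P ^ 2 := by
        apply sum_congr rfl
        intro P hP
        rw [mem_PI] at hP
        unfold cutR
        rw [if_neg (by omega)]
      rw [this]
      exact h.l2 m hm (by omega)

/-- the equations in the lower degrees do not change -/
theorem eqs_lower {h : ℝ → ℕ → ℝ} {P₀ : F[X]} {g : ℕ → ℝ} {d : ℕ}
    {D : F[X] → ℕ → (F[X] → ℂ) → ℕ} {ε : (F[X] → ℂ) → ℂ}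
    {c : F[X] → ℕ → (F[X] → ℂ) → ℕ → (ℕ → ℂ) → ℂ} (hD : Data F d D ε c) {n : ℕ} {a a' : F[X] → ℝ}
    (hE : Eqs F h P₀ g D ε c (n - 1) a) (hlt : ∀ P : F[X], P.natDegree < n → a' P = a P)
    (hn : ∀ (Q : F[X]) (l : ℕ) (χ : F[X] → ℂ), Prim Q l χ → 9 * D Q l χ ≤ 20 * n →
      ef (Lo h P₀ g a') χ n = tauX (qq F) (D Q l χ) n (ε χ) (c Q l χ n (ef (Lo h P₀ g a) χ))
        (ef (Lo h P₀ g a) χ)) : Eqs F h P₀ g D ε c n a' := by
  have hee : ∀ (χ : F[X] → ℂ) (k : ℕ), k < n → ef (Lo h P₀ g a') χ k = ef (Lo h P₀ g a) χ k := by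
    intro χ k hk
    apply ef_congr
    intro P _ _ hP
    exact Lo_congr (hlt P (by omega))
  intro Q l χ hχ k hk1 hkn h9
  have hee2 : ∀ m : ℕ, m < k → ef (Lo h P₀ g a') χ m = ef (Lo h P₀ g a) χ m := by
    intro m hm
    exact hee χ m (by omega)
  rw [hD.cloc Q l χ k _ _ hχ hee2, tauX_congr hee2]
  rcases Nat.lt_or_ge k n with h1 | h1
  · rw [hee χ k h1]
    exact hE Q l χ hχ k hk1 (by omega) h9
  · have h2 : k = n := by omega
    subst h2
    exact hn Q l χ hχ h9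

end

/-- numerical lemma -/
theorem num1 {q : ℝ} {d n : ℕ} (hq : 3 ≤ q) (hd : 1000 ≤ d) (hn : 9 * d ≤ 20 * n) :
    16 * (n : ℝ) * q ^ ((40 : ℝ) * n / (9 * d)) ≤ q ^ n := by
  have hq0 : 0 < q := by linarith
  have hn2 : 450 ≤ n := by omega
  have hd' : (1000 : ℝ) ≤ d := by exact_mod_cast hd
  have hn' : (450 : ℝ) ≤ n := by exact_mod_cast hn2
  have h1 : q ^ ((40 : ℝ) * n / (9 * d)) ≤ q ^ ((n : ℝ) / 4) := by
    apply Real.rpow_le_rpow_of_exponent_le (by linarith)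
    rw [div_le_div_iff₀ (by positivity) (by norm_num)]
    nlinarith
  have h2 : 16 * (n : ℝ) ≤ q ^ ((3 : ℝ) * n / 4) := by
    have h3 : (3 : ℝ) ^ ((3 : ℝ) * n / 4) ≤ q ^ ((3 : ℝ) * n / 4) :=
      Real.rpow_le_rpow (by norm_num) hq (by positivity)
    refine le_trans ?_ h3
    have h4 : (2 : ℝ) ^ (n : ℝ) ≤ (3 : ℝ) ^ ((3 : ℝ) * n / 4) := by
      have h5 : (3 : ℝ) ^ ((3 : ℝ) * n / 4) = ((27 : ℝ) ^ ((1 : ℝ) / 4)) ^ (n : ℝ) := by
        rw [← Real.rpow_mul (by norm_num)]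
        have : (27 : ℝ) = (3 : ℝ) ^ (3 : ℝ) := by norm_num
        rw [this, ← Real.rpow_mul (by norm_num)]
        congr 1
        ring
      rw [h5]
      apply Real.rpow_le_rpow (by norm_num) _ (by positivity)
      have h6 : (2 : ℝ) = ((16 : ℝ)) ^ ((1 : ℝ) / 4) := by
        have : (16 : ℝ) = (2 : ℝ) ^ (4 : ℝ) := by norm_num
        rw [this, ← Real.rpow_mul (by norm_num)]
        norm_num
      calc (2 : ℝ) = ((16 : ℝ)) ^ ((1 : ℝ) / 4) := h6
        _ ≤ (27 : ℝ) ^ ((1 : ℝ) / 4) := Real.rpow_le_rpow (by norm_num) (by norm_num) (by norm_num)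
    refine le_trans ?_ h4
    rw [Real.rpow_natCast]
    have h7 : ∀ m : ℕ, 7 ≤ m → 16 * m ≤ 2 ^ m := by
      intro m hm
      induction m, hm using Nat.le_induction with
      | base => norm_num
      | succ m hm ih =>
        rw [pow_succ]
        omega
    exact_mod_cast h7 n (by omega)
  have h8 : q ^ n = q ^ ((3 : ℝ) * n / 4) * q ^ ((n : ℝ) / 4) := by
    rw [← Real.rpow_add hq0, ← Real.rpow_natCast]
    congr 1
    ring
  rw [h8]
  apply mul_le_mul h2 h1 (by positivity) (by positivity)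

/-- numerical lemma -/
theorem num2 {q : ℝ} {d n : ℕ} (hq : 3 ≤ q) (hd : 1000 ≤ d) (hn : 1 ≤ n) :
    2 * q ^ ((20 : ℝ) * n / (9 * d)) * (1 / 4 * BB * w2 q d n) / (1 / 4 * (q ^ n / n)) ≤ 1 / 100 := by
  have hq0 : 0 < q := by linarith
  have hd' : (1000 : ℝ) ≤ d := by exact_mod_cast hd
  have hn' : (1 : ℝ) ≤ n := by exact_mod_cast hn
  have hn0 : (0 : ℝ) < n := by linarith
  have hqn : 0 < q ^ n := by positivity
  rw [div_le_iff₀ (by positivity)]
  unfold w2 BB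
  have h1 : q ^ ((20 : ℝ) * n / (9 * d)) * q ^ ((1 - 5 / (2 * (d : ℝ))) * n) ≤ q ^ n := by
    rw [← Real.rpow_add hq0, ← Real.rpow_natCast]
    apply Real.rpow_le_rpow_of_exponent_le (by linarith)
    have h2 : (20 : ℝ) * n / (9 * d) + (1 - 5 / (2 * (d : ℝ))) * n = n - (5 / 18) * (n / d) := by
      field_simp
      ring
    rw [h2]
    have : (0 : ℝ) ≤ n / d := by positivity
    linarith
  have h3 : (n : ℝ) ≤ (n : ℝ) ^ ((5 : ℝ) / 2) := by
    calc (n : ℝ) = (n : ℝ) ^ (1 : ℝ) := (Real.rpow_one _).symm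
      _ ≤ _ := Real.rpow_le_rpow_of_exponent_le hn' (by norm_num)
  have h4 : 0 < (n : ℝ) ^ ((5 : ℝ) / 2) := by positivity
  have h5 : 2 * q ^ ((20 : ℝ) * n / (9 * d)) *
      (1 / 4 * (1 / 25600) * (q ^ ((1 - 5 / (2 * (d : ℝ))) * n) / (n : ℝ) ^ ((5 : ℝ) / 2))) =
      (1 / 51200) * ((q ^ ((20 : ℝ) * n / (9 * d)) * q ^ ((1 - 5 / (2 * (d : ℝ))) * n)) /
        (n : ℝ) ^ ((5 : ℝ) / 2)) := by
    ring
  rw [h5]
  have h6 : (q ^ ((20 : ℝ) * n / (9 * d)) * q ^ ((1 - 5 / (2 * (d : ℝ))) * n)) /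
        (n : ℝ) ^ ((5 : ℝ) / 2) ≤ q ^ n / n := by
    apply div_le_div₀ hqn.le h1 hn0 h3
  have h7 : 0 ≤ q ^ n / n := by positivity
  nlinarith

theorem t_step (hAFM : S_AFM) (hPRC : S_PRC) (hNO : PS.S_NO) (hCNT : PS.S_CNT) (hUNI : PS.S_UNI)
    (hLINR : S_LINR) (hGBb : S_GBb) (hEBb : S_EBb) (hTB2 : S_TB2) : StepStm := by
  classical
  obtain ⟨d₁, hd₁, hNO⟩ := hNO
  obtain ⟨d₂, hGBb⟩ := hGBb
  obtain ⟨d₃, D₃, hEBb⟩ := hEBb
  obtain ⟨d₄, hTB2⟩ := hTB2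
  refine ⟨1000 + 7 * d₁ + 7 * D₃ + d₂ + d₃ + d₄, ?_⟩
  intro d hd
  obtain ⟨m₁, hGBb⟩ := hGBb d (by omega)
  obtain ⟨m₂, hEBb⟩ := hEBb d (by omega)
  refine ⟨m₁ + m₂, ?_⟩
  intro F _ _ hF K h hK hh P₀ g hP₀ D ε c hData n hn a ha hEq
  have hsp1 : Spec F d m₁ P₀ g := ⟨hP₀.monic, hP₀.irr, by have := hP₀.deg; omega, hP₀.zero, hP₀.bound⟩
  have hsp2 : Spec F d m₂ P₀ g := ⟨hP₀.monic, hP₀.irr, by have := hP₀.deg; omega, hP₀.zero, hP₀.bound⟩
  have hq3 : 3 ≤ qq F := three_le_qq hF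
  have hq0 : 0 < qq F := by linarith
  have hc := cutR_good (P₀ := P₀) ha hq0
  have hDD : ∀ (Q : F[X]) (l : ℕ) (χ : F[X] → ℂ), Prim Q l χ → d ≤ D Q l χ := by
    intro Q l χ hχ
    refine le_trans ?_ (hData.deg Q l χ hχ)
    have : 1 ≤ Q.natDegree + max 2 l - 1 := by
      have := le_max_left 2 l
      omega
    calc d = d * 1 := (mul_one d).symm
      _ ≤ _ := Nat.mul_le_mul_left d this
  by_cases hdn : 20 * n < 9 * d
  · refine ⟨cutR n a, hc, fun P hP => cutR_lt hP, ?_⟩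
    refine eqs_lower hData hEq (fun P hP => cutR_lt hP) ?_
    intro Q l χ hχ h9
    have := hDD Q l χ hχ
    omega
  push Not at hdn
  -- the finite set of the characters
  have hd0 : 0 < d := by omega
  set N := 20 * n / (9 * d) + 1 with hN
  obtain ⟨hfin, hcard⟩ := hCNT F 2 N
  set XS2 : Set (F[X] × ℕ × (F[X] → ℂ)) :=
    {p | Prim p.1 p.2.1 p.2.2 ∧ 9 * D p.1 p.2.1 p.2.2 ≤ 20 * n} with hXS2
  have hsub : XS2 ⊆ {p : F[X] × ℕ × (F[X] → ℂ) | Prim p.1 p.2.1 p.2.2 ∧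
      p.1.natDegree + max 2 p.2.1 ≤ N} := by
    rintro p ⟨hp1, hp2⟩
    refine ⟨hp1, ?_⟩
    have h0 := hData.deg p.1 p.2.1 p.2.2 hp1
    have h1 : p.1.natDegree + max 2 p.2.1 - 1 ≤ 20 * n / (9 * d) := by
      rw [Nat.le_div_iff_mul_le (by omega)]
      calc (p.1.natDegree + max 2 p.2.1 - 1) * (9 * d) = 9 * (d * (p.1.natDegree + max 2 p.2.1 - 1)) := by ring
        _ ≤ 9 * D p.1 p.2.1 p.2.2 := Nat.mul_le_mul_left 9 h0
        _ ≤ 20 * n := hp2
    omega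
  have hXfin : XS2.Finite := hfin.subset hsub
  set X0 : Finset (F[X] × ℕ × (F[X] → ℂ)) := hXfin.toFinset with hX0
  have hmX : ∀ p, p ∈ X0 ↔ p ∈ XS2 := fun p => hXfin.mem_toFinset
  let ι : Type := {p // p ∈ X0}
  let chi : ι → F[X] → ℂ := fun i => i.1.2.2
  have hmem : ∀ i : ι, Prim i.1.1 i.1.2.1 i.1.2.2 ∧ 9 * D i.1.1 i.1.2.1 i.1.2.2 ≤ 20 * n := by
    intro i
    exact (hmX i.1).1 i.2
  have hFam : Fam N chi := by
    refine ⟨?_, ?_⟩
    · intro i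
      refine ⟨i.1.1, i.1.2.1, (hmem i).1.1, ?_⟩
      have h1 := (hsub ((hmX i.1).1 i.2)).2
      have h2 := le_max_right 2 i.1.2.1
      omega
    · intro i j hij
      by_contra hcon
      push Not at hcon
      obtain ⟨h1, h2, h3⟩ := hUNI F i.1.1 j.1.1 i.1.2.1 j.1.2.1 i.1.2.2 j.1.2.2 (hmem i).1 (hmem j).1
        hcon
      apply hij
      apply Subtype.ext
      exact Prod.ext h1 (Prod.ext h2 h3)
  -- conjugation of the index set
  have hconjmem : ∀ i : ι, ((i.1.1, i.1.2.1, fun f => conj (i.1.2.2 f)) : F[X] × ℕ × (F[X] → ℂ)) ∈ X0 := by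
    intro i
    rw [hmX]
    refine ⟨hPRC F _ _ _ (hmem i).1, ?_⟩
    show 9 * D i.1.1 i.1.2.1 (fun f => conj (i.1.2.2 f)) ≤ 20 * n
    rw [hData.degc _ _ _ (hmem i).1]
    exact (hmem i).2
  let σ : ι → ι := fun i => ⟨_, hconjmem i⟩
  -- sizes
  have hdiv : 9 * d * (20 * n / (9 * d)) ≤ 20 * n := Nat.mul_div_le (20 * n) (9 * d)
  have hsize : ∀ k : ℕ, 7 * k ≤ d → k * (N + 1) ≤ n := by
    intro k hk
    have h1 : 9 * (d * (N + 1)) ≤ 60 * n := by
      have : 9 * (d * (N + 1)) = 9 * d * (20 * n / (9 * d)) + 18 * d := by rw [hN]; ring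
      omega
    have h2 : 7 * (k * (N + 1)) ≤ d * (N + 1) := by
      calc 7 * (k * (N + 1)) = 7 * k * (N + 1) := by ring
        _ ≤ _ := Nat.mul_le_mul_right _ hk
    omega
  have hcardι : (Fintype.card ι : ℝ) ≤ 4 * qq F ^ ((40 : ℝ) * n / (9 * d)) := by
    have e1 : Fintype.card ι = XS2.ncard := by
      rw [Set.ncard_eq_toFinset_card _ hXfin]
      exact Fintype.card_coe _
    have e2 : XS2.ncard ≤ _ := Set.ncard_le_ncard hsub hfin
    rw [e1]
    have e3 : (XS2.ncard : ℝ) ≤ ({p : F[X] × ℕ × (F[X] → ℂ) | Prim p.1 p.2.1 p.2.2 ∧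
      p.1.natDegree + max 2 p.2.1 ≤ N}.ncard : ℝ) := by exact_mod_cast e2
    refine e3.trans ?_
    set M : ℝ := ({p : F[X] × ℕ × (F[X] → ℂ) | Prim p.1 p.2.1 p.2.2 ∧
      p.1.natDegree + max 2 p.2.1 ≤ N}.ncard : ℝ) with hM
    have e5 : qq F ^ (2 * N) = qq F ^ (2 * (20 * n / (9 * d))) * qq F ^ 2 := by
      rw [hN]
      ring
    have e6 : M ≤ 4 * qq F ^ (2 * (20 * n / (9 * d))) := by
      rw [e5] at hcard
      have : 0 < qq F ^ 2 := by positivity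
      nlinarith
    have e7 : qq F ^ (2 * (20 * n / (9 * d))) ≤ qq F ^ ((40 : ℝ) * n / (9 * d)) := by
      rw [← Real.rpow_natCast (qq F) (2 * (20 * n / (9 * d)))]
      apply Real.rpow_le_rpow_of_exponent_le (by linarith)
      have h1 : ((20 * n / (9 * d) : ℕ) : ℝ) ≤ ((20 * n : ℕ) : ℝ) / ((9 * d : ℕ) : ℝ) := Nat.cast_div_le
      push_cast at h1 ⊢
      calc 2 * ((20 * n / (9 * d) : ℕ) : ℝ) ≤ 2 * (20 * n / (9 * d)) := by linarith
        _ = 40 * n / (9 * d) := by ring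
    linarith
  have hn' : (0 : ℝ) < n := by exact_mod_cast hn
  -- lower bound for the quadratic form
  have hlo : ∀ b : ι → ℂ, 1 / 4 * (qq F ^ n / n) * nsq b ≤
      ∑ P ∈ (PI F n).erase P₀, ‖∑ i, b i * chi i P‖ ^ 2 := by
    intro b
    have h1 := (hNO F hF N n ι chi hFam (hsize d₁ (by omega)) b).1
    have hnb : 0 ≤ nsq b := nsq_nonneg b
    have h2 : ∑ P ∈ PI F n, ‖phi chi b P‖ ^ 2 ≤
        ∑ P ∈ (PI F n).erase P₀, ‖∑ i, b i * chi i P‖ ^ 2 + Fintype.card ι * nsq b := by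
      have h3 : ‖phi chi b P₀‖ ^ 2 ≤ Fintype.card ι * nsq b := by
        have h4 : ‖phi chi b P₀‖ ≤ ∑ i : ι, ‖b i‖ := by
          unfold phi
          refine (norm_sum_le _ _).trans ?_
          apply sum_le_sum
          intro i _
          rw [norm_mul]
          have := norm_le_one (hmem i).1.1 P₀
          have h5 := norm_nonneg (b i)
          exact mul_le_of_le_one_right h5 this
        have h6 : (∑ i : ι, ‖b i‖) ^ 2 ≤ (Finset.univ : Finset ι).card * ∑ i : ι, ‖b i‖ ^ 2 :=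
          sq_sum_le_card_mul_sum_sq
        calc ‖phi chi b P₀‖ ^ 2 ≤ (∑ i : ι, ‖b i‖) ^ 2 := by gcongr
          _ ≤ _ := h6
          _ = _ := by rw [Finset.card_univ]; rfl
      by_cases h7 : P₀ ∈ PI F n
      · rw [← Finset.sum_erase_add _ _ h7]
        have h8 : ∑ P ∈ (PI F n).erase P₀, ‖phi chi b P‖ ^ 2 =
            ∑ P ∈ (PI F n).erase P₀, ‖∑ i, b i * chi i P‖ ^ 2 := rfl
        rw [h8]
        linarith
      · rw [Finset.erase_eq_of_notMem h7]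
        have h8 : ∑ P ∈ PI F n, ‖phi chi b P‖ ^ 2 =
            ∑ P ∈ PI F n, ‖∑ i, b i * chi i P‖ ^ 2 := rfl
        rw [h8]
        have : (0 : ℝ) ≤ Fintype.card ι * nsq b := by positivity
        linarith
    have h9 : (Fintype.card ι : ℝ) ≤ 1 / 4 * (qq F ^ n / n) := by
      refine hcardι.trans ?_
      have h10 := num1 hq3 (by omega : 1000 ≤ d) hdn
      rw [mul_div_assoc', le_div_iff₀ hn']
      nlinarith
    have h11 : (Fintype.card ι : ℝ) * nsq b ≤ 1 / 4 * (qq F ^ n / n) * nsq b :=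
      mul_le_mul_of_nonneg_right h9 hnb
    nlinarith
  have hlo0 : 0 < 1 / 4 * (qq F ^ n / n) := by positivity
  -- the right-hand sides
  let v : F[X] → ℕ → ℝ := Lo h P₀ g a
  let tt : F[X] × ℕ × (F[X] → ℂ) → ℂ := fun p =>
    tauX (qq F) (D p.1 p.2.1 p.2.2) n (ε p.2.2) (c p.1 p.2.1 p.2.2 n (ef v p.2.2)) (ef v p.2.2)
  let t : ι → ℂ := fun i => tt i.1 - ef (Lo h P₀ g (cutR n a)) (chi i) n
  have hsf : ∀ i : ι, sf (cutR n a) (chi i) n = 0 := by
    intro i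
    unfold sf
    apply sum_eq_zero
    intro P hP
    rw [mem_PI] at hP
    unfold cutR
    rw [if_pos hP.2.1]
    simp
  have hww : 0 ≤ w2 (qq F) d n := w2_nonneg hq0.le d n
  have hBB : 0 ≤ BB := by unfold BB; norm_num
  have hw : 0 ≤ BB * w2 (qq F) d n := mul_nonneg hBB hww
  have hee : ∑ i : ι, ‖ef (Lo h P₀ g (cutR n a)) (chi i) n‖ ^ 2 ≤ (1 / 20 * BB * w2 (qq F) d n) ^ 2 := by
    have h1 := hEBb F hF K h hK hh n P₀ g (cutR n a) hsp2 hc n hn le_rfl N ι chi hFam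
      (hsize D₃ (by omega)) hcardι
    simp only [hsf, sub_zero] at h1
    have h2 : 0 ≤ ∑ i : ι, ‖ef (Lo h P₀ g (cutR n a)) (chi i) n‖ ^ 2 :=
      sum_nonneg (fun _ _ => by positivity)
    calc ∑ i : ι, ‖ef (Lo h P₀ g (cutR n a)) (chi i) n‖ ^ 2
        = Real.sqrt (∑ i : ι, ‖ef (Lo h P₀ g (cutR n a)) (chi i) n‖ ^ 2) ^ 2 := (Real.sq_sqrt h2).symm
      _ ≤ _ := by gcongr
  have hcm : ∀ i : ι, CM (chi i) := fun i => ⟨(hmem i).1.1.one, (hmem i).1.1.mul⟩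
  have hv1 : ∀ (b : F[X] → ℝ) (P : F[X]), Lo h P₀ g b P 0 = 1 := by
    intro b P
    unfold Lo
    split_ifs
    · exact hP₀.zero
    · exact hh.zero _
  have hef0 : ∀ p ∈ X0, ef v p.2.2 0 = 1 := by
    intro p hp
    have hp' := (hmX p).1 hp
    unfold ef
    rw [Pool.Agent.H341R2.Sharp.Mon_zero, sum_singleton, (hAFM F v (hv1 a)).1, hp'.1.1.one]
    simp
  have hefb : ∀ p ∈ X0, ∀ k : ℕ, 1 ≤ k → k < n → ‖ef v p.2.2 k‖ ≤ 3 * BB * w2 (qq F) d k := by
    intro p hp k hk1 hkn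
    have hp' := (hmX p).1 hp
    have h1 := hGBb F (three_le_card hF) K h hK hh (n - 1) P₀ g a hsp1 ha k hk1 (by omega)
    refine le_trans ?_ h1
    unfold ef
    refine (norm_sum_le _ _).trans ?_
    apply sum_le_sum
    intro f _
    rw [norm_mul, Complex.norm_real, Real.norm_eq_abs]
    exact mul_le_of_le_one_right (abs_nonneg _) (norm_le_one hp'.1.1 f)
  have htau : ∑ i : ι, ‖tt i.1‖ ^ 2 ≤ (1 / 5 * BB * w2 (qq F) d n) ^ 2 := by
    have h1 := hTB2 d (by omega) F (three_le_card hF) n hn X0 (fun p => D p.1 p.2.1 p.2.2)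
      (fun p => ε p.2.2) (fun p => c p.1 p.2.1 p.2.2 n (ef v p.2.2)) (fun p => ef v p.2.2) (by
        intro p hp
        have hp' := (hmX p).1 hp
        refine ⟨hp'.1, hData.deg _ _ _ hp'.1, hp'.2, hData.eps _, ?_, ?_, hefb p hp, ?_⟩
        · intro h2
          exact hData.cbound _ _ _ _ _ hp'.1 hp'.2 h2 (by rw [hef0 p hp]; simp) (hefb p hp)
        · rw [hef0 p hp]
          simp
        · intro k hk1 hkn h9 h2k
          have h2 := hEq p.1 p.2.1 p.2.2 hp'.1 k hk1 (by omega) h9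
          show ‖ef v p.2.2 k‖ ≤ _
          have h3 : ef v p.2.2 k = c p.1 p.2.1 p.2.2 k (ef v p.2.2) := by
            rw [show ef v p.2.2 k = _ from h2]
            unfold tauX
            rw [if_neg (by have : 2 * k < D p.1 p.2.1 p.2.2 := h2k; omega),
              if_pos (by have : 2 * k < D p.1 p.2.1 p.2.2 := h2k; omega)]
          rw [h3]
          exact hData.cbound _ _ _ _ _ hp'.1 h9 (by have : 2 * k < D p.1 p.2.1 p.2.2 := h2k; omega)
            (by rw [hef0 p hp]; simp) (fun m hm1 hmk => hefb p hp m hm1 (by omega)))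
    rw [← Finset.sum_coe_sort] at h1
    exact h1
  have hnt : nsq t ≤ 1 / 16 * (BB * w2 (qq F) d n) ^ 2 := by
    have h1 : nsq t ≤ (1 + 1 / 4) * ∑ i : ι, ‖tt i.1‖ ^ 2 +
        (1 + 4) * ∑ i : ι, ‖ef (Lo h P₀ g (cutR n a)) (chi i) n‖ ^ 2 := by
      unfold nsq
      rw [mul_sum, mul_sum, ← sum_add_distrib]
      apply sum_le_sum
      intro i _
      have h2 : ‖t i‖ ≤ ‖tt i.1‖ + ‖ef (Lo h P₀ g (cutR n a)) (chi i) n‖ := norm_sub_le _ _
      have h3 := norm_nonneg (t i)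
      nlinarith [sq_nonneg (‖tt i.1‖ / 2 - 2 * ‖ef (Lo h P₀ g (cutR n a)) (chi i) n‖)]
    nlinarith
  have hchi1 : ∀ i : ι, ∀ x ∈ (PI F n).erase P₀, ‖chi i x‖ ≤ 1 := by
    intro i x _
    exact norm_le_one (hmem i).1.1 x
  have hσ1 : ∀ i : ι, ∀ x ∈ (PI F n).erase P₀, chi (σ i) x = conj (chi i x) := fun i x _ => rfl
  have hσ2 : ∀ i : ι, t (σ i) = conj (t i) := by
    intro i
    have hpi := (hmem i).1
    show tt (σ i).1 - ef (Lo h P₀ g (cutR n a)) (fun f => conj (chi i f)) n =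
      conj (tt i.1 - ef (Lo h P₀ g (cutR n a)) (chi i) n)
    rw [map_sub, ef_conj]
    congr 1
    show tauX (qq F) (D i.1.1 i.1.2.1 (fun f => conj (i.1.2.2 f))) n (ε (fun f => conj (i.1.2.2 f)))
      (c i.1.1 i.1.2.1 (fun f => conj (i.1.2.2 f)) n (ef v (fun f => conj (i.1.2.2 f))))
      (ef v (fun f => conj (i.1.2.2 f))) = conj (tauX (qq F) (D i.1.1 i.1.2.1 i.1.2.2) n (ε i.1.2.2)
        (c i.1.1 i.1.2.1 i.1.2.2 n (ef v i.1.2.2)) (ef v i.1.2.2))
    have h5 : ef v (fun f => conj (i.1.2.2 f)) = fun k => conj (ef v i.1.2.2 k) := by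
      funext k
      exact ef_conj v _ k
    rw [h5, hData.degc _ _ _ hpi, hData.epsc, hData.cconj _ _ _ _ _ hpi, tauX_conj]
  obtain ⟨b, hb1, hb2, hb3⟩ := hLINR F[X] ((PI F n).erase P₀) ι chi (1 / 4 * (qq F ^ n / n)) t σ hlo0 hchi1
    hlo hσ1 hσ2
  -- pointwise bound
  have hsmall : ∀ P ∈ (PI F n).erase P₀, |b P| ≤ 1 / 100 := by
    intro P hP
    refine (hb3 P hP).trans ?_
    refine le_trans ?_ (num2 (n := n) hq3 (by omega : 1000 ≤ d) hn)
    have h2 : Real.sqrt (Fintype.card ι) ≤ 2 * qq F ^ ((20 : ℝ) * n / (9 * d)) := by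
      rw [Real.sqrt_le_left (by positivity)]
      refine hcardι.trans ?_
      rw [mul_pow, ← Real.rpow_natCast (qq F ^ _) 2, ← Real.rpow_mul hq0.le]
      have : (20 : ℝ) * n / (9 * d) * ((2 : ℕ) : ℝ) = 40 * n / (9 * d) := by
        push_cast
        ring
      rw [this]
      norm_num
    have h3 : Real.sqrt (nsq t) ≤ 1 / 4 * BB * w2 (qq F) d n := by
      rw [Real.sqrt_le_left (by positivity)]
      refine hnt.trans (le_of_eq ?_)
      ring
    gcongr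
  -- the new parameters
  let a' : F[X] → ℝ := fun P => if P ∈ (PI F n).erase P₀ then b P else cutR n a P
  have ha'lt : ∀ P : F[X], P.natDegree < n → a' P = a P := by
    intro P hP
    have h1 : P ∉ (PI F n).erase P₀ := by
      rw [mem_erase, mem_PI]
      intro h
      omega
    simp only [a', if_neg h1]
    exact cutR_lt hP
  have ha'n : ∀ P ∈ (PI F n).erase P₀, a' P = b P := by
    intro P hP
    simp only [a', if_pos hP]
  have ha'P : a' P₀ = 0 := by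
    have h1 : P₀ ∉ (PI F n).erase P₀ := by
      rw [mem_erase]
      tauto
    simp only [a', if_neg h1]
    exact hc.spec
  have ha'sum : ∀ f : F[X] → ℝ → ℂ, (f P₀ 0 = 0) →
      ∑ P ∈ PI F n, f P (a' P) = ∑ P ∈ (PI F n).erase P₀, f P (b P) := by
    intro f hf0
    by_cases h7 : P₀ ∈ PI F n
    · rw [← Finset.sum_erase_add _ _ h7, ha'P, hf0, add_zero]
      exact sum_congr rfl (fun P hP => by rw [ha'n P hP])
    · rw [Finset.erase_eq_of_notMem h7]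
      refine sum_congr rfl (fun P hP => ?_)
      rw [ha'n P (by rw [Finset.erase_eq_of_notMem h7]; exact hP)]
  have ha'small : ∀ P ∈ PI F n, |a' P| ≤ 1 / 100 := by
    intro P hP
    by_cases h1 : P = P₀
    · rw [h1, ha'P, abs_zero]
      norm_num
    · have h2 : P ∈ (PI F n).erase P₀ := mem_erase.2 ⟨h1, hP⟩
      rw [ha'n P h2]
      exact hsmall P h2
  have hgood : Good F d n P₀ a' := by
    refine ⟨?_, ha'P, ?_, ?_⟩
    · intro P hP
      have h1 : P ∉ (PI F n).erase P₀ := by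
        rw [mem_erase, mem_PI]
        intro h
        omega
      simp only [a', if_neg h1]
      exact hc.zero P hP
    · intro m hm P hP
      by_cases h1 : m = n
      · subst h1
        exact ha'small P hP
      · rw [ha'lt P (by rw [mem_PI] at hP; omega)]
        exact ha.small m (by omega) P hP
    · intro m hm hmn
      by_cases h1 : m = n
      · subst h1
        have h2 : ∑ P ∈ PI F m, a' P ^ 2 = ∑ P ∈ (PI F m).erase P₀, b P ^ 2 := by
          have h3 := ha'sum (fun _ x => ((x ^ 2 : ℝ) : ℂ)) (by simp)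
          exact_mod_cast h3
        rw [h2]
        refine hb2.trans ?_
        rw [div_le_iff₀ hlo0]
        have h4 := w2_sq hq0 d m hn
        have h3 : (BB * w2 (qq F) d m) ^ 2 = BB ^ 2 * om2 (qq F) d m * (qq F ^ m / m) := by
          rw [mul_pow, h4]
          ring
        rw [h3] at hnt
        have h5 : 0 ≤ BB ^ 2 * om2 (qq F) d m * (qq F ^ m / m) := by
          have := om2_nonneg hq0.le d m
          positivity
        nlinarith
      · rw [sum_congr rfl (fun P hP => by rw [ha'lt P (by rw [mem_PI] at hP; omega)])]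
        exact ha.l2 m hm (by omega)
  refine ⟨a', hgood, ha'lt, ?_⟩
  refine eqs_lower hData hEq ha'lt ?_
  intro Q l χ hχ h9
  have hin : (Q, l, χ) ∈ X0 := (hmX _).2 ⟨hχ, h9⟩
  have h1 := hb1 ⟨(Q, l, χ), hin⟩
  have h2 : ef (Lo h P₀ g a') χ n = ef (Lo h P₀ g (cutR n a)) χ n + ∑ P ∈ PI F n, (a' P : ℂ) * χ P := by
    apply ef_change hAFM hh hP₀.zero χ hc.spec ha'P
    · intro P hP
      rw [mem_PI] at hP
      unfold cutR
      rw [if_pos hP.2.1]
    · exact ha'small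
    · intro P _ _ hP
      rw [ha'lt P hP, cutR_lt hP]
  rw [h2, ha'sum (fun P x => (x : ℂ) * χ P) (by simp)]
  have h3 : ∑ P ∈ (PI F n).erase P₀, (b P : ℂ) * χ P = tt (Q, l, χ) - ef (Lo h P₀ g (cutR n a)) χ n := h1
  rw [h3]
  show ef (Lo h P₀ g (cutR n a)) χ n + (tt (Q, l, χ) - ef (Lo h P₀ g (cutR n a)) χ n) = tt (Q, l, χ)
  ring

end Pool.Agent.Q284.PX
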