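import Pool.Agent.Q284.PX.Gen

/-!
# Project PX: the Euler product is not zero where it converges
-/

set_option autoImplicit false

open Finset Polynomial ComplexConjugate
open Pool.Agent.H341R2.Sharp (Mon mem_Mon)

namespace Pool.Agent.Q284.PX

open Pool.Agent.Q284.PS

/-- absolute convergence of the Dirichlet series -/
theorem gen_dir (hDSUM : PS.S_DSUM) {F : Type} [Field F] [Fintype F]
    (hq : 3 ≤ qq F) {d : ℕ} (hd : 1 ≤ d) {v : F[X] → ℕ → ℝ}
    {χ : F[X] → ℂ} (hchi : ∀ f : F[X], ‖χ f‖ ≤ 1) {c : ℝ}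
    (hmass : ∀ n : ℕ, 1 ≤ n → ∑ f ∈ Mon F n, |AF v f| ≤ c * w2 (qq F) d n) {s : ℂ}
    (hs : 1 - 5 / (2 * (d : ℝ)) ≤ s.re) :
    Summable (fun f : {f : F[X] // f.Monic} =>
      ‖(AF v f.1 : ℂ) * χ f.1 * ((Fintype.card F : ℂ) ^ (-s)) ^ f.1.natDegree‖) := by
  classical
  have hq0 : 0 < qq F := by linarith
  have hd0 : (0 : ℝ) < d := by exact_mod_cast hd
  set z : ℂ := (Fintype.card F : ℂ) ^ (-s) with hzd
  have hznorm : ‖z‖ = qq F ^ (-s.re) := norm_z hq0 s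
  have hsum : Summable (fun k : ℕ => (∑ f ∈ Mon F k, ‖(AF v f : ℂ) * χ f‖) * ‖z‖ ^ k) := by
    rw [← summable_nat_add_iff 1]
    have h1 : Summable (fun k : ℕ => 1 / ((k + 1 : ℕ) : ℝ) ^ ((5 : ℝ) / 2)) := by
      have := (Real.summable_one_div_nat_rpow (p := (5 : ℝ) / 2)).2 (by norm_num)
      exact (summable_nat_add_iff 1).2 this
    refine Summable.of_nonneg_of_le (fun k => by positivity) (fun k => ?_) (h1.mul_left |c|)
    have h2 := hmass (k + 1) (by omega)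
    have h3 : ∑ f ∈ Mon F (k + 1), ‖(AF v f : ℂ) * χ f‖ ≤ ∑ f ∈ Mon F (k + 1), |AF v f| := by
      apply sum_le_sum
      intro f _
      rw [norm_mul, Complex.norm_real, Real.norm_eq_abs]
      have := hchi f
      have h4 := abs_nonneg (AF v f)
      nlinarith
    have h5 : w2 (qq F) d (k + 1) * ‖z‖ ^ (k + 1) ≤ 1 / ((k + 1 : ℕ) : ℝ) ^ ((5 : ℝ) / 2) := by
      unfold w2
      rw [hznorm, ← Real.rpow_natCast (qq F ^ (-s.re)) (k + 1), ← Real.rpow_mul hq0.le, div_mul_eq_mul_div,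
        ← Real.rpow_add hq0]
      apply div_le_div_of_nonneg_right _ (by positivity)
      apply Real.rpow_le_one_of_one_le_of_nonpos (by linarith)
      have h6 : (0 : ℝ) ≤ ((k + 1 : ℕ) : ℝ) := by positivity
      nlinarith
    calc (∑ f ∈ Mon F (k + 1), ‖(AF v f : ℂ) * χ f‖) * ‖z‖ ^ (k + 1)
        ≤ (c * w2 (qq F) d (k + 1)) * ‖z‖ ^ (k + 1) :=
          mul_le_mul_of_nonneg_right (h3.trans h2) (by positivity)
      _ ≤ (|c| * w2 (qq F) d (k + 1)) * ‖z‖ ^ (k + 1) := by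
          apply mul_le_mul_of_nonneg_right _ (by positivity)
          exact mul_le_mul_of_nonneg_right (le_abs_self c) (w2_nonneg hq0.le d (k + 1))
      _ = |c| * (w2 (qq F) d (k + 1) * ‖z‖ ^ (k + 1)) := by ring
      _ ≤ |c| * (1 / ((k + 1 : ℕ) : ℝ) ^ ((5 : ℝ) / 2)) := mul_le_mul_of_nonneg_left h5 (abs_nonneg c)
  exact (hDSUM F (fun f => (AF v f : ℂ) * χ f) z hsum).1

/-- the value of a convergent Euler product is not zero -/
theorem gen_ne_zero (hDSUM : PS.S_DSUM) (hM : S_AFM) {F : Type} [Field F] [Fintype F]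
    (hq : 3 ≤ qq F) {d : ℕ} (hd : 1 ≤ d) {v : F[X] → ℕ → ℝ} (hv : ∀ P : F[X], v P 0 = 1)
    {χ : F[X] → ℂ} (hcm : CM χ) (hchi : ∀ f : F[X], ‖χ f‖ ≤ 1) {c : ℝ}
    (hmass : ∀ n : ℕ, 1 ≤ n → ∑ f ∈ Mon F n, |AF v f| ≤ c * w2 (qq F) d n) {s : ℂ}
    (hs : 1 - 5 / (2 * (d : ℝ)) ≤ s.re) {G : Place F → ℂ} {L : ℂ} (hL : HasProd G L)
    (hG0 : ∀ P : Place F, G P ≠ 0)
    (hG : ∀ P : Place F, HasSum (fun k : ℕ => (v P.1 k : ℂ) * (χ P.1 * absPow P.1 s) ^ k) (G P)) : L ≠ 0 := by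
  classical
  have h1 := gen_dir hDSUM hq hd hchi hmass hs
  obtain ⟨m1, m2, m3, _, _⟩ := hM F v hv
  set z : ℂ := (Fintype.card F : ℂ) ^ (-s) with hzd
  let i : Place F × ℕ → {f : F[X] // f.Monic} := fun p => ⟨p.1.1 ^ (p.2 + 1), p.1.2.1.pow _⟩
  have hi : Function.Injective i := by
    rintro ⟨⟨P, hP1, hP2⟩, k⟩ ⟨⟨R, hR1, hR2⟩, l⟩ h
    have h2 : P ^ (k + 1) = R ^ (l + 1) := congrArg Subtype.val h
    have h3 : P ∣ R ^ (l + 1) := by
      rw [← h2]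
      exact dvd_pow_self P (by omega)
    have h4 : P ∣ R := hP2.prime.dvd_of_dvd_pow h3
    have h5 : P = R := by
      have h6 : Associated P R := hP2.associated_of_dvd hR2 h4
      exact eq_of_monic_of_associated hP1 hR1 h6
    subst h5
    have h7 : (k + 1) * P.natDegree = (l + 1) * P.natDegree := by
      rw [← hP1.natDegree_pow, ← hP1.natDegree_pow, h2]
    have h8 : k + 1 = l + 1 := Nat.eq_of_mul_eq_mul_right hP2.natDegree_pos h7
    have h9 : k = l := by omega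
    subst h9
    rfl
  have h2 := h1.comp_injective hi
  have h3 : ∀ (P : Place F) (k : ℕ), ‖(AF v (i (P, k)).1 : ℂ) * χ (i (P, k)).1 * z ^ (i (P, k)).1.natDegree‖ =
      ‖(v P.1 (k + 1) : ℂ) * (χ P.1 * absPow P.1 s) ^ (k + 1)‖ := by
    rintro ⟨P, hP1, hP2⟩ k
    show ‖(AF v (P ^ (k + 1)) : ℂ) * χ (P ^ (k + 1)) * z ^ (P ^ (k + 1)).natDegree‖ = _
    rw [m3 P (k + 1) hP1 hP2, cm_pow hcm hP1, hP1.natDegree_pow, mul_pow, absPow_eq,
      mul_comm (k + 1) P.natDegree, pow_mul, mul_assoc]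
  have h4 := (summable_prod_of_nonneg (f := fun p : Place F × ℕ =>
    ‖(v p.1.1 (p.2 + 1) : ℂ) * (χ p.1.1 * absPow p.1.1 s) ^ (p.2 + 1)‖) (fun _ => norm_nonneg _)).1 (by
      refine h2.congr ?_
      rintro ⟨P, k⟩
      exact (h3 P k))
  have h5 : ∀ P : Place F, ‖G P - 1‖ ≤
      ∑' k : ℕ, ‖(v P.1 (k + 1) : ℂ) * (χ P.1 * absPow P.1 s) ^ (k + 1)‖ := by
    intro P
    have h6 := (hasSum_nat_add_iff' 1).2 (hG P)
    rw [sum_range_one, pow_zero, mul_one, hv, Complex.ofReal_one] at h6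
    rw [← h6.tsum_eq]
    exact norm_tsum_le_tsum_norm (h4.1 P)
  have h6 : Summable (fun P : Place F => ‖G P - 1‖) :=
    Summable.of_nonneg_of_le (fun _ => norm_nonneg _) h5 h4.2
  have h7 := tprod_one_add_ne_zero_of_summable (f := fun P : Place F => G P - 1) (by
    intro P
    rw [add_sub_cancel]
    exact hG0 P) h6
  have h8 : (∏' P : Place F, (1 + (G P - 1))) = L := by
    rw [← hL.tprod_eq]
    apply tprod_congr
    intro P
    ring
  rw [h8] at h7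
  exact h7

end Pool.Agent.Q284.PX
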